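import Pool.Agent.Lib_helper15.REll_BADD
import Pool.Agent.Lib_helper55.REll_HOPF
import Pool.Agent.Lib_helper89.REll_ADJ

/-! Block PRIM: `R = B * 1⁻¹` and `oneT` are primitive. -/

open scoped BigOperators ComplexConjugate
open Polynomial

namespace Pool.Agent.REll
variable {F : Type} [Field F]

namespace PRIM

open CF

section

variable {A B : Type} [AddCommGroup A] [Module F A] [Finite A]
  [AddCommGroup B] [Module F B] [Finite B]

theorem card_hom_ne : (Nat.card (B →ₗ[F] A) : ℂ) ≠ 0 := by
  exact_mod_cast Nat.card_pos.ne'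

/-- if all summands are equal -/
theorem coprod_const (k : CF F) (α : A ≃ₗ[F] A) (β : B ≃ₗ[F] B) (c : ℂ)
    (h : ∀ u : B →ₗ[F] A, k (B × A) (tri α β u) = c) : coprod k α β = c := by
  have := Fintype.ofFinite (B →ₗ[F] A)
  unfold coprod
  rw [finsum_congr h, finsum_eq_sum_of_fintype, Finset.sum_const, Finset.card_univ,
    ← Nat.card_eq_fintype_card, nsmul_eq_mul, mul_comm, mul_div_assoc, div_self card_hom_ne, mul_one]

theorem coprod_allOne (α : A ≃ₗ[F] A) (β : B ≃ₗ[F] B) : coprod (allOne : CF F) α β = 1 :=
  coprod_const _ α β 1 (fun _ => rfl)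

theorem cp_ne_zero {V : Type} [AddCommGroup V] [Module F V] [Finite V] (g : V ≃ₗ[F] V) :
    cp g ≠ 0 := (cp_monic g).1.ne_zero

theorem coprod_Bf {K : Type} [Field K] [Algebra F K] (θ : MulChar K ℂ)
    (α : A ≃ₗ[F] A) (β : B ≃ₗ[F] B) :
    coprod (Bf K θ : CF F) α β = Bf K θ A α + Bf K θ B β := by
  apply coprod_const
  intro u
  show (((cp (tri α β u)).map (algebraMap F K)).roots.map (fun x => θ x)).sum = _
  rw [cp_tri, Polynomial.map_mul, roots_mul, Multiset.map_add, Multiset.sum_add]
  · rfl
  · apply mul_ne_zero
    · exact Polynomial.map_ne_zero (cp_ne_zero α)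
    · exact Polynomial.map_ne_zero (cp_ne_zero β)

/-- `A = 0` -/
theorem coprod_left_zero (k : CF F) (α : A ≃ₗ[F] A) (β : B ≃ₗ[F] B)
    (h : Module.finrank F A = 0) : coprod k α β = k B β := by
  have hs : Subsingleton A := by
    rwa [Module.finrank_eq_zero_iff_of_free] at h
  apply coprod_const
  intro u
  apply k.inv' _ _ (LinearEquiv.ofBijective (LinearMap.fst F B A)
    ⟨fun x y hxy => Prod.ext hxy (Subsingleton.elim _ _), fun b => ⟨(b, 0), rfl⟩⟩)
  intro v
  rfl

/-- `B = 0` -/
theorem coprod_right_zero (k : CF F) (α : A ≃ₗ[F] A) (β : B ≃ₗ[F] B)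
    (h : Module.finrank F B = 0) : coprod k α β = k A α := by
  have hs : Subsingleton B := by
    rwa [Module.finrank_eq_zero_iff_of_free] at h
  apply coprod_const
  intro u
  apply k.inv' _ _ (LinearEquiv.ofBijective (LinearMap.snd F B A)
    ⟨fun x y hxy => Prod.ext (Subsingleton.elim _ _) hxy, fun a => ⟨(0, a), rfl⟩⟩)
  intro v
  show α v.2 + u v.1 = α v.2
  rw [Subsingleton.elim v.1 0, map_zero, add_zero]

theorem coprod_congr {A' B' : Type} [AddCommGroup A'] [Module F A'] [Finite A']
    [AddCommGroup B'] [Module F B'] [Finite B'] (k : CF F)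
    (α : A ≃ₗ[F] A) (β : B ≃ₗ[F] B) (α' : A' ≃ₗ[F] A') (β' : B' ≃ₗ[F] B')
    (e : A ≃ₗ[F] A') (e' : B ≃ₗ[F] B') (he : ∀ v, e (α v) = α' (e v))
    (he' : ∀ v, e' (β v) = β' (e' v)) : coprod k α β = coprod k α' β' := by
  unfold coprod
  congr 1
  · refine finsum_eq_of_bijective (LinearEquiv.arrowCongr e' e)
      (LinearEquiv.arrowCongr e' e).bijective ?_
    intro u
    apply k.inv' _ _ (e'.prodCongr e)
    rintro ⟨b, a⟩
    show (e' (β b), e (α a + u b)) = (β' (e' b), α' (e a) + (LinearEquiv.arrowCongr e' e u) (e' b))
    rw [he', map_add, he, LinearEquiv.arrowCongr_apply, LinearEquiv.symm_apply_apply]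
  · rw [Nat.card_congr (LinearEquiv.arrowCongr e' e).toEquiv]

end

/-- `R` vanishes in degree `0` -/
theorem R_zero {K : Type} [Field K] [Algebra F K] (θ : MulChar K ℂ)
    (R : CF F) (hR : R * allOne = Bf K θ) (V : Type) [AddCommGroup V] [Module F V] [Finite V]
    (g : V ≃ₗ[F] V) (h : Module.finrank F V = 0) : R V g = 0 := by
  have hs : Subsingleton V := by
    have : Module.Finite F V := Module.Finite.of_finite
    rwa [Module.finrank_eq_zero_iff_of_free] at h
  have h1 : (Bf K θ : CF F) V g = 0 := by
    show (((cp g).map (algebraMap F K)).roots.map (fun x => θ x)).sum = _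
    have h2 := (cp_monic g).1.natDegree_eq_zero.1 (by rw [(cp_monic g).2.1]; exact h)
    rw [h2]
    simp
  rw [← h1, ← hR, mul_apply, finsum_eq_single _ (Stab.top g)]
  · have h2 : R (Stab.top g).1 (sub g (Stab.top g)) = R V g := by
      apply R.inv' _ _ (Submodule.topEquiv)
      intro v; rfl
    rw [h2]
    show _ = R V g * 1
    rw [mul_one]
  · intro W hW
    exfalso
    apply hW
    apply Subtype.ext
    exact Subsingleton.elim _ _

theorem R_sum {K : Type} [Field K] [Algebra F K] (θ : MulChar K ℂ)
    (R : CF F) (hR : R * allOne = Bf K θ) (V : Type) [AddCommGroup V] [Module F V] [Finite V]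
    (g : V ≃ₗ[F] V) : ∑ᶠ W : Stab g, R W.1 (sub g W) = Bf K θ V g := by
  rw [← hR, mul_apply]
  apply finsum_congr
  intro W
  show _ = _ * (1 : ℂ)
  rw [mul_one]

end PRIM

open CF PRIM in
theorem isPrim_R [Finite F] {K : Type} [Field K] [Finite K] [Algebra F K] (θ : MulChar K ℂ)
    (R : CF F) (hR : R * allOne = Bf K θ) : IsPrim R := by
  have key : ∀ n : ℕ, ∀ (A B : Type) [AddCommGroup A] [Module F A] [Finite A]
      [AddCommGroup B] [Module F B] [Finite B] (α : A ≃ₗ[F] A) (β : B ≃ₗ[F] B),
      Module.finrank F A + Module.finrank F B ≤ n →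
      0 < Module.finrank F A → 0 < Module.finrank F B → coprod R α β = 0 := by
    intro n
    induction n with
    | zero => intro A B _ _ _ _ _ _ α β h1 h2 h3; omega
    | succ n ih =>
      intro A B _ _ _ _ _ _ α β h1 h2 h3
      classical
      have : Module.Finite F A := Module.Finite.of_finite
      have : Module.Finite F B := Module.Finite.of_finite
      have := Fintype.ofFinite (Stab α)
      have := Fintype.ofFinite (Stab β)
      set c : Stab α → Stab β → ℂ := fun W' W'' => coprod R (sub α W') (sub β W'') with hc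
      have hsum : ∑ W' : Stab α, ∑ W'' : Stab β, c W' W'' = Bf K θ A α + Bf K θ B β := by
        rw [← coprod_Bf θ α β, ← hR, coprod_mul, finsum_eq_sum_of_fintype]
        apply Finset.sum_congr rfl
        intro W' _
        rw [finsum_eq_sum_of_fintype]
        apply Finset.sum_congr rfl
        intro W'' _
        rw [coprod_allOne, mul_one]
      have hbA : Module.finrank F (Stab.bot α).1 = 0 := finrank_bot F A
      have hbB : Module.finrank F (Stab.bot β).1 = 0 := finrank_bot F B
      have e1 : ∑ W'' : Stab β, c (Stab.bot α) W'' = Bf K θ B β := by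
        rw [← R_sum θ R hR B β, finsum_eq_sum_of_fintype]
        apply Finset.sum_congr rfl
        intro W'' _
        exact coprod_left_zero R _ _ hbA
      have e2 : ∑ W' : Stab α, c W' (Stab.bot β) = Bf K θ A α := by
        rw [← R_sum θ R hR A α, finsum_eq_sum_of_fintype]
        apply Finset.sum_congr rfl
        intro W' _
        exact coprod_right_zero R _ _ hbB
      have e3 : c (Stab.bot α) (Stab.bot β) = 0 := by
        show coprod R _ _ = 0
        rw [coprod_left_zero R _ _ hbA]
        exact R_zero θ R hR _ _ hbB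
      have hne1 : Stab.top α ≠ Stab.bot α := by
        intro h
        have : Module.finrank F (Stab.top α).1 = 0 := by rw [h]; exact hbA
        have h4 : Module.finrank F (Stab.top α).1 = Module.finrank F A := finrank_top F A
        omega
      have hne2 : Stab.top β ≠ Stab.bot β := by
        intro h
        have : Module.finrank F (Stab.top β).1 = 0 := by rw [h]; exact hbB
        have h4 : Module.finrank F (Stab.top β).1 = Module.finrank F B := finrank_top F B
        omega
      have hz : ∀ (W' : Stab α) (W'' : Stab β), W' ≠ Stab.bot α → W'' ≠ Stab.bot β →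
          ¬ (W' = Stab.top α ∧ W'' = Stab.top β) → c W' W'' = 0 := by
        intro W' W'' g1 g2 g3
        have f1 : 0 < Module.finrank F W'.1 := by
          rw [pos_iff_ne_zero]
          intro h; apply g1; apply Subtype.ext
          exact Submodule.finrank_eq_zero.1 h
        have f2 : 0 < Module.finrank F W''.1 := by
          rw [pos_iff_ne_zero]
          intro h; apply g2; apply Subtype.ext
          exact Submodule.finrank_eq_zero.1 h
        apply ih W'.1 W''.1 (sub α W') (sub β W'') _ f1 f2
        have l1 := Submodule.finrank_le W'.1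
        have l2 := Submodule.finrank_le W''.1
        have l3 : ¬ (Module.finrank F W'.1 = Module.finrank F A ∧
            Module.finrank F W''.1 = Module.finrank F B) := by
          rintro ⟨m1, m2⟩
          apply g3
          exact ⟨Subtype.ext (Submodule.eq_top_of_finrank_eq m1),
            Subtype.ext (Submodule.eq_top_of_finrank_eq m2)⟩
        omega
      -- split the sum
      have hrow : ∀ W' : Stab α, W' ≠ Stab.bot α → ∑ W'' : Stab β, c W' W'' =
          c W' (Stab.bot β) + (if W' = Stab.top α then c (Stab.top α) (Stab.top β) else 0) := by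
        intro W' hW'
        rw [← Finset.add_sum_erase _ _ (Finset.mem_univ (Stab.bot β))]
        congr 1
        split_ifs with h
        · subst h
          rw [Finset.sum_eq_single (Stab.top β)]
          · intro W'' hW'' hne
            exact hz _ _ hne1 (Finset.ne_of_mem_erase hW'') (fun h => hne h.2)
          · intro h
            exact absurd (Finset.mem_erase.2 ⟨hne2, Finset.mem_univ _⟩) h
        · apply Finset.sum_eq_zero
          intro W'' hW''
          exact hz _ _ hW' (Finset.ne_of_mem_erase hW'') (fun h' => h h'.1)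
      have hall : ∑ W' : Stab α, ∑ W'' : Stab β, c W' W'' = Bf K θ B β +
          (Bf K θ A α + c (Stab.top α) (Stab.top β)) := by
        rw [← Finset.add_sum_erase _ _ (Finset.mem_univ (Stab.bot α)), e1]
        congr 1
        rw [Finset.sum_congr rfl (fun W' hW' => hrow W' (Finset.ne_of_mem_erase hW')),
          Finset.sum_add_distrib]
        congr 1
        · rw [← e2, ← Finset.add_sum_erase _ _ (Finset.mem_univ (Stab.bot α)), e3, zero_add]
        · rw [Finset.sum_ite_eq' , if_pos (Finset.mem_erase.2 ⟨hne1, Finset.mem_univ _⟩)]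
      rw [hsum] at hall
      have h0 : c (Stab.top α) (Stab.top β) = 0 := by
        have : Bf K θ A α + Bf K θ B β = Bf K θ B β + Bf K θ A α + c (Stab.top α) (Stab.top β) := by
          rw [hall]; ring
        rw [add_comm (Bf K θ A α)] at this
        exact (left_eq_add.1 this)
      rw [← h0]
      exact (coprod_congr R _ _ _ _ Submodule.topEquiv Submodule.topEquiv (fun _ => rfl)
        (fun _ => rfl)).symm
  intro A B _ _ _ _ _ _ α β h1 h2
  exact key _ A B α β le_rfl h1 h2

open CF PRIM in
theorem isPrim_oneT [Finite F] : IsPrim (oneT : CF F) := by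
  intro A B _ _ _ _ _ _ α β h1 h2
  apply coprod_const
  intro u
  show (open Classical in if Irreducible (cp (tri α β u)) then (1 : ℂ) else 0) = 0
  rw [if_neg]
  rw [cp_tri]
  intro hirr
  have := hirr.isUnit_or_isUnit rfl
  rcases this with h | h
  · have := Polynomial.natDegree_eq_zero_of_isUnit h
    rw [(cp_monic α).2.1] at this
    omega
  · have := Polynomial.natDegree_eq_zero_of_isUnit h
    rw [(cp_monic β).2.1] at this
    omega

/-- primitive functions are orthogonal to products (uses ADJ) -/
theorem ip_mul_prim [Finite F] (n : ℕ) (f h k : CF F) (hk : CF.IsPrim k)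
    (hf : ∀ g, f (Fin 0 → F) g = 0) (hh : ∀ g, h (Fin 0 → F) g = 0) :
    CF.ip n (f * h) k = 0 := by
  rw [ip_mul]
  apply Finset.sum_eq_zero
  intro a ha
  rw [Finset.mem_range] at ha
  have key : ∀ (α : G F a) (β : G F (n - a)), f (Fin a → F) α * h (Fin (n - a) → F) β *
      conj (CF.coprod k α β) = 0 := by
    intro α β
    rcases Nat.eq_zero_or_pos a with h0 | h0
    · subst h0
      rw [hf, zero_mul, zero_mul]
    · rcases Nat.eq_zero_or_pos (n - a) with h1 | h1
      · obtain ⟨b, hb⟩ : ∃ b, b = n - a := ⟨_, rfl⟩
        rw [← hb] at h1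
        revert β
        rw [← hb, h1]
        intro β
        rw [hh, mul_zero, zero_mul]
      · rw [hk _ _ α β (by simpa using h0) (by simpa using h1), map_zero, mul_zero]
  simp [key]

end Pool.Agent.REll
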