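import Pool.Agent.Lib_helper45.REll.Api

/-! Block RB: on primitive functions `B` and `R` agree. -/

open scoped BigOperators ComplexConjugate
open Polynomial

namespace Pool.Agent.REll
variable {F : Type} [Field F] [Finite F] {K : Type} [Field K] [Finite K] [Algebra F K]

open CF

namespace RB

/-- `R` vanishes in degree `0` -/
theorem R_zero {F : Type} [Field F] {K : Type} [Field K] [Algebra F K] (θ : MulChar K ℂ)
    (R : CF F) (hR : R * allOne = Bf K θ) (V : Type) [AddCommGroup V] [Module F V] [Finite V]
    (g : V ≃ₗ[F] V) (h : Module.finrank F V = 0) : R V g = 0 := by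
  have hs : Subsingleton V := by
    have : Module.Finite F V := Module.Finite.of_finite
    rwa [Module.finrank_eq_zero_iff_of_free] at h
  have h1 : (Bf K θ : CF F) V g = 0 := by
    show (((cp g).map (algebraMap F K)).roots.map (fun x => θ x)).sum = _
    have h2 := (cp_monic g).1.natDegree_eq_zero.1 (by rw [(cp_monic g).2.1]; exact h)
    rw [h2]
    simp
  rw [← h1, ← hR, mul_apply, finsum_eq_single _ (Stab.top g)]
  · have h2 : R (Stab.top g).1 (sub g (Stab.top g)) = R V g := by
      apply R.inv' _ _ (Submodule.topEquiv)
      intro v; rfl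
    rw [h2]
    show _ = R V g * 1
    rw [mul_one]
  · intro W hW
    exfalso
    apply hW
    apply Subtype.ext
    exact Subsingleton.elim _ _

end RB

theorem ip_R_of_prim (θ : MulChar K ℂ) (R : CF F) (hR : R * allOne = Bf K θ) (m : ℕ) (hm : 1 ≤ m)
    (k : CF F) (hk : IsPrim k) : ip m R k = ip m (Bf K θ) k := by
  have e : (Bf K θ : CF F) = R + R * (allOne - 1) := by
    rw [← hR]; ring
  rw [e, ip_add_left, ip_mul_prim m R (allOne - 1) k hk, add_zero]
  · intro g
    exact RB.R_zero θ R hR _ g (by simp)
  · intro g
    rw [CF.sub_apply, one_apply, if_pos (by simp)]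
    show (1 : ℂ) - 1 = 0
    ring

theorem isPrim_part (m : ℕ) (k : CF F) (hk : IsPrim k) : IsPrim (part m k) := by
  intro A B _ _ _ _ _ _ α β h1 h2
  by_cases h : Module.finrank F (B × A) = m
  · have e : coprod (part m k) α β = coprod k α β := by
      unfold coprod
      congr 1
      apply finsum_congr
      intro u
      rw [part_apply, if_pos h]
    rw [e]
    exact hk A B α β h1 h2
  · unfold coprod
    have e : ∀ u : B →ₗ[F] A, part m k (B × A) (tri α β u) = 0 := by
      intro u
      rw [part_apply, if_neg h]
    simp [e]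

end Pool.Agent.REll
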