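import Pool.Agent.Lib_helper45.REll.Defs2

/-! Block INV: the constant function is invertible for the Hall product. -/

open scoped BigOperators ComplexConjugate
open Polynomial

namespace Pool.Agent.REll
variable {F : Type} [Field F]

namespace INV

open CF

/-- partial sums of the geometric series -/
noncomputable def invSeq (F : Type) [Field F] : ℕ → CF F
  | 0 => 0
  | k + 1 => 1 - (allOne - 1) * invSeq F k

theorem invSeq_succ (k : ℕ) : invSeq F (k + 1) = 1 - (allOne - 1) * invSeq F k := rfl

theorem finrank_quot_lt {V : Type} [AddCommGroup V] [Module F V] [Finite V] (W : Submodule F V)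
    (h : Module.finrank F W ≠ 0) : Module.finrank F (V ⧸ W) < Module.finrank F V := by
  have : Module.Finite F V := Module.Finite.of_finite
  rw [← Submodule.finrank_quotient_add_finrank W]
  omega

theorem stab (k : ℕ) : ∀ (V : Type) [AddCommGroup V] [Module F V] [Finite V] (g : V ≃ₗ[F] V),
    Module.finrank F V < k → invSeq F (k + 1) V g = invSeq F k V g := by
  induction k with
  | zero => intro V _ _ _ g h; omega
  | succ k ih =>
    intro V _ _ _ g h
    rw [invSeq_succ (k + 1)]
    conv_rhs => rw [invSeq_succ k]
    rw [CF.sub_apply, CF.sub_apply, mul_apply, mul_apply]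
    congr 1
    apply finsum_congr
    intro W
    by_cases h0 : Module.finrank F W.1 = 0
    · have : (allOne - 1 : CF F) W.1 (sub g W) = 0 := by
        rw [CF.sub_apply, one_apply, if_pos h0]
        show (1 : ℂ) - 1 = 0
        ring
      rw [this, zero_mul, zero_mul]
    · rw [ih (V ⧸ W.1) (quo g W) (by have := finrank_quot_lt W.1 h0; omega)]

theorem stab' {k N : ℕ} (hN : k ≤ N) (V : Type) [AddCommGroup V] [Module F V] [Finite V]
    (g : V ≃ₗ[F] V) (h : Module.finrank F V < k) : invSeq F N V g = invSeq F k V g := by
  induction hN with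
  | refl => rfl
  | step hle ih => rw [stab _ V g (lt_of_lt_of_le h hle), ih]

/-- the inverse of the constant function -/
noncomputable def mu (F : Type) [Field F] : CF F where
  toFun V _ _ _ g := invSeq F (Module.finrank F V + 1) V g
  inv' V V' _ _ _ _ _ _ e g g' he := by
    rw [e.finrank_eq]
    exact (invSeq F _).inv' V V' e g g' he

end INV

open CF INV in
theorem exists_inv_allOne [Finite F] : ∃ μ : CF F, CF.allOne * μ = 1 := by
  refine ⟨mu F, ?_⟩
  ext V _ _ _ g
  have h1 : (allOne * mu F : CF F) V g
      = (allOne * invSeq F (Module.finrank F V + 1) : CF F) V g := by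
    rw [mul_apply, mul_apply]
    apply finsum_congr
    intro W
    congr 1
    show invSeq F (Module.finrank F (V ⧸ W.1) + 1) (V ⧸ W.1) (quo g W) = _
    symm
    apply stab'
    · have : Module.Finite F V := Module.Finite.of_finite
      have := Submodule.finrank_quotient_le W.1
      omega
    · omega
  rw [h1]
  have h2 := stab (Module.finrank F V + 1) V g (by omega)
  rw [invSeq_succ, CF.sub_apply] at h2
  have h3 := add_hall (allOne - 1) 1 (invSeq F (Module.finrank F V + 1))
  rw [sub_add_cancel, one_hall] at h3
  rw [h3, CF.add_apply, sub_eq_iff_eq_add.1 h2]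
  ring

end Pool.Agent.REll
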