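import Pool.Agent.Lib_helper53.REll_PRIM
import Pool.Agent.Lib_helper15.REll_GAM
import Pool.Agent.Lib_helper15.REll_VALR
import Pool.Agent.Lib_helper97.REll_KF

/-! Block ORTH: inner products of the functions `R`. -/

open scoped BigOperators ComplexConjugate
open Polynomial

namespace Pool.Agent.REll
variable {F : Type} [Field F]

namespace ORTH

theorem sum_periodic {g : ℕ → ℂ} {d : ℕ} (hg : ∀ i, g (i + d) = g i) (m : ℕ) :
    ∑ i ∈ Finset.range (d * m), g i = m * ∑ i ∈ Finset.range d, g i := by
  have h1 : ∀ m i, g (d * m + i) = g i := by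
    intro m
    induction m with
    | zero => intro i; simp
    | succ m ih =>
      intro i
      rw [show d * (m + 1) + i = (d * m + i) + d by ring, hg, ih]
  induction m with
  | zero => simp
  | succ m ih =>
    rw [Nat.mul_succ, Finset.sum_range_add, ih]
    simp only [h1]
    push_cast
    ring

variable {K : Type} [Field K] [Finite K] [Algebra F K]

theorem frob_period [Finite F] {x : K} {d : ℕ} (hd : x ^ (Nat.card F ^ d - 1) = 1) (i : ℕ) :
    x ^ (Nat.card F ^ (i + d)) = x ^ (Nat.card F ^ i) := by
  have hq : 1 ≤ Nat.card F ^ d := Nat.one_le_pow _ _ Nat.card_pos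
  have h1 : x ^ (Nat.card F ^ d) = x := by
    rw [← Nat.sub_add_cancel hq, pow_succ, hd, one_mul]
  rw [pow_add, mul_comm, pow_mul, h1]

/-- `lam` at a power of a minimal polynomial -/
theorem lam_minpoly [Finite F] (θ : MulChar K ℂ) (n : ℕ) (hK : Big F n K) (x : K)
    {m : ℕ} (hm : 1 ≤ m) (hd : (minpoly F x).natDegree ≤ n) :
    lam K θ (minpoly F x ^ m) =
      ∑ i ∈ Finset.range (minpoly F x).natDegree, θ (x ^ (Nat.card F ^ i)) := by
  classical
  have hint : IsIntegral F x := IsIntegral.of_finite F x
  have hirr : Irreducible (minpoly F x) := minpoly.irreducible hint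
  have hpp : IsPrimePow (minpoly F x ^ m) := ⟨minpoly F x, m, hirr.prime, hm, rfl⟩
  have hroot : ((minpoly F x).map (algebraMap F K)).IsRoot x := by
    rw [IsRoot.def, eval_map_algebraMap, minpoly.aeval]
  have hroots := roots_irreducible n hK (minpoly F x) hirr hd x hroot
  have hsep : (minpoly F x).Separable := PerfectField.separable_of_irreducible hirr
  have hnd : ((minpoly F x).map (algebraMap F K)).roots.Nodup :=
    nodup_roots (hsep.map)
  unfold lam
  rw [if_pos hpp, Polynomial.map_pow, roots_pow, Multiset.toFinset_nsmul _ _ (by omega)]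
  have h1 : ∑ y ∈ ((minpoly F x).map (algebraMap F K)).roots.toFinset, θ y
      = (((minpoly F x).map (algebraMap F K)).roots.map (fun y => θ y)).sum := by
    show ((((minpoly F x).map (algebraMap F K)).roots.toFinset.val).map (fun y => θ y)).sum = _
    rw [Multiset.toFinset_val, hnd.dedup]
  convert h1 using 1
  rw [hroots, Multiset.map_map]
  rfl

end ORTH

open CF ORTH PRIM in
theorem ip_R_R [Finite F] {K : Type} [Field K] [Finite K] [Algebra F K] (θ θ' : MulChar K ℂ)
    (n : ℕ) (hn : 1 ≤ n) (hK : Big F n K) (R R' : CF F)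
    (hR : R * allOne = Bf K θ) (hR' : R' * allOne = Bf K θ') :
    ((Nat.card F : ℂ) ^ n - 1) * ip n R R' =
      ∑ᶠ x : {x : K // x ^ (Nat.card F ^ n - 1) = 1},
        ∑ i ∈ Finset.range n, θ x.1 * conj (θ' (x.1 ^ (Nat.card F ^ i))) := by
  have hk : IsPrim R' := isPrim_R θ' R' hR'
  have h1 : ip n (Bf K θ) R' = ip n R R' := by
    have e : (Bf K θ : CF F) = R + R * (allOne - 1) := by
      rw [← hR]
      have := hall_add R 1 (allOne - 1)
      rw [hall_one, add_sub_cancel] at this
      exact this
    rw [e, Cyc.ip_add_left, ip_mul_prim n R (allOne - 1) R' hk, add_zero]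
    · intro g
      exact R_zero θ R hR _ g (by simp)
    · intro g
      rw [CF.sub_apply, one_apply, if_pos (by simp)]
      show (1 : ℂ) - 1 = 0
      ring
  rw [← h1, ip_Bf_prim θ n hn hK R' hk]
  apply finsum_congr
  rintro ⟨x, hx⟩
  have hq1 : 1 < Nat.card F := Finite.one_lt_card
  have hqn : 1 ≤ Nat.card F ^ n - 1 := by
    have : Nat.card F ^ 1 ≤ Nat.card F ^ n := Nat.pow_le_pow_right (by omega) hn
    rw [pow_one] at this
    omega
  have hx0 : x ≠ 0 := by
    rintro rfl
    rw [zero_pow (by omega)] at hx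
    exact zero_ne_one hx
  have hint : IsIntegral F x := IsIntegral.of_finite F x
  have hirr : Irreducible (minpoly F x) := minpoly.irreducible hint
  have hmon : (minpoly F x).Monic := minpoly.monic hint
  have hdpos : 0 < (minpoly F x).natDegree := minpoly.natDegree_pos hint
  have hdvd : (minpoly F x).natDegree ∣ n := (natDegree_minpoly_dvd n hn x hx0).2 hx
  obtain ⟨m, hm⟩ := hdvd
  have hm1 : 1 ≤ m := by
    rcases Nat.eq_zero_or_pos m with h | h
    · rw [h, mul_zero] at hm; omega
    · exact h
  have hnd : n / (minpoly F x).natDegree = m := by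
    conv_lhs => rw [hm]
    exact Nat.mul_div_cancel_left m hdpos
  have hdn : (minpoly F x).natDegree ≤ n := by
    conv_rhs => rw [hm]
    exact Nat.le_mul_of_pos_right _ hm1
  simp only
  rw [hnd]
  have hval : val R' (minpoly F x ^ m) = lam K θ' (minpoly F x ^ m) := by
    apply val_R θ' R' hR' n hK _ (hmon.pow m)
    · rw [coeff_zero_eq_eval_zero, eval_pow]
      apply pow_ne_zero
      rw [← coeff_zero_eq_eval_zero]
      exact minpoly.coeff_zero_ne_zero hint hx0
    · rw [natDegree_pow, mul_comm, ← hm]
  rw [hval, lam_minpoly θ' n hK x hm1 hdn, map_sum]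
  have hper : ∀ i, conj (θ' (x ^ (Nat.card F ^ (i + (minpoly F x).natDegree))))
      = conj (θ' (x ^ (Nat.card F ^ i))) := by
    intro i
    rw [frob_period]
    exact (natDegree_minpoly_dvd _ hdpos x hx0).1 dvd_rfl
  have h2 := sum_periodic (g := fun i => conj (θ' (x ^ (Nat.card F ^ i)))) hper m
  rw [← hm] at h2
  rw [← Finset.mul_sum, h2]
  ring

end Pool.Agent.REll
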