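import Mathlib

open Set Cardinal

namespace Pool.Agent.Lib_helper53

/-- a union of fewer than `κ` countable sets has cardinality less than `κ` -/
lemma mk_biUnion_lt {O S : Type} {κ : Cardinal} (hκ : ℵ₀ < κ) (s : Set O) (hs : #s < κ)
    (A : O → Set S) (hA : ∀ o ∈ s, (A o).Countable) : #(⋃ o ∈ s, A o) < κ := by
  refine (mk_biUnion_le A s).trans_lt ?_
  refine mul_lt_of_lt hκ.le hs ?_
  refine lt_of_le_of_lt ?_ hκ
  refine ciSup_le' fun x => ?_
  exact (hA x.1 x.2).le_aleph0

/-- points chosen so far -/
def prevA {T : Type} (prev : Set (Option T × Set T)) : Set T := {a | ∃ p ∈ prev, p.1 = some a}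

/-- points forbidden so far -/
def prevR {T : Type} (prev : Set (Option T × Set T)) : Set T := ⋃ p ∈ prev, p.2

open Classical in
/-- the point chosen at a stage -/
noncomputable def bsel {T : Type} (P : Set T) (prev : Set (Option T × Set T)) : Option T :=
  if h : (P \ prevR prev).Nonempty then some h.some else none

open Classical in
/-- the set forbidden at a stage -/
noncomputable def bforb {T Θ : Type} (R : Θ → Set T) (cur : Set T) : Set T :=
  if h : ∃ τ, (R τ).Countable ∧ Disjoint (R τ) cur then R h.choose else ∅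

lemma bsel_spec {T : Type} {P : Set T} {prev : Set (Option T × Set T)} {a : T}
    (h : bsel P prev = some a) : a ∈ P \ prevR prev := by
  unfold bsel at h
  split_ifs at h with h1
  rw [← Option.some.inj h]
  exact h1.some_mem

lemma bsel_exists {T : Type} {P : Set T} {prev : Set (Option T × Set T)}
    (h : (P \ prevR prev).Nonempty) : ∃ a, bsel P prev = some a := by
  unfold bsel
  rw [dif_pos h]
  exact ⟨_, rfl⟩

lemma bforb_countable {T Θ : Type} (R : Θ → Set T) (cur : Set T) : (bforb R cur).Countable := by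
  unfold bforb
  split_ifs with h
  · exact h.choose_spec.1
  · exact countable_empty

lemma bforb_disjoint {T Θ : Type} (R : Θ → Set T) (cur : Set T) : Disjoint (bforb R cur) cur := by
  unfold bforb
  split_ifs with h
  · exact h.choose_spec.2
  · exact empty_disjoint _

lemma bforb_exists {T Θ : Type} {R : Θ → Set T} {cur : Set T}
    (h : ∃ τ, (R τ).Countable ∧ Disjoint (R τ) cur) : ∃ τ, bforb R cur = R τ := by
  unfold bforb
  rw [dif_pos h]
  exact ⟨_, rfl⟩

/-- A Bernstein-type construction: a set `A` meeting all large sets `P i`, and avoiding, for each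
`i`, one of the countable sets `R i τ`, unless some point of `A` belongs to uncountably many of
them. -/
theorem exists_bernstein {O T Θ : Type} [LinearOrder O] [WellFoundedLT O] {κ : Cardinal}
    (hκ : ℵ₀ < κ) (hO : ∀ o : O, #(Iio o) < κ) (hΘ : κ ≤ #Θ)
    (P : O → Set T) (R : O → Θ → Set T) :
    ∃ A : Set T, (∀ o, κ ≤ #(P o) → (A ∩ P o).Nonempty) ∧
      ∀ o, (∀ τ, (R o τ).Countable) → (∀ a ∈ A, {τ | a ∈ R o τ}.Countable) →
        ∃ τ, Disjoint (R o τ) A := by
  classical
  -- the recursion
  obtain ⟨F, hF⟩ : ∃ F : O → Option T × Set T, ∀ o, F o = (bsel (P o) (F '' Iio o),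
      bforb (R o) (prevA (F '' Iio o) ∪ {x | bsel (P o) (F '' Iio o) = some x})) := by
    let step : ∀ (o : O) (_ : Set (Option T × Set T)), Option T × Set T := fun o prev =>
      (bsel (P o) prev, bforb (R o) (prevA prev ∪ {x | bsel (P o) prev = some x}))
    let G : ∀ o : O, (∀ p : O, p < o → Option T × Set T) → Option T × Set T := fun o ih =>
      step o {x | ∃ (p : O) (hp : p < o), ih p hp = x}
    refine ⟨(wellFounded_lt (α := O)).fix G, fun o => ?_⟩
    have h1 : (wellFounded_lt (α := O)).fix G o
        = step o ((wellFounded_lt (α := O)).fix G '' Iio o) := by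
      rw [WellFounded.fix_eq]
      simp only [G]
      congr 1
      ext x
      simp
    exact h1
  have hF1 : ∀ o, (F o).1 = bsel (P o) (F '' Iio o) := fun o => by
    conv_lhs => rw [hF o]
  have hF2 : ∀ o, (F o).2 = bforb (R o) (prevA (F '' Iio o) ∪ {x | (F o).1 = some x}) := fun o => by
    rw [hF1 o]
    conv_lhs => rw [hF o]
  set A : Set T := {a | ∃ o, (F o).1 = some a} with hAdef
  have hFc : ∀ o, (F o).2.Countable := fun o => by
    rw [hF2 o]; exact bforb_countable _ _
  -- elements never lie in a forbidden set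
  have hdisj : ∀ o, Disjoint (F o).2 A := by
    intro o
    rw [Set.disjoint_left]
    rintro a haR ⟨p, hp⟩
    rcases lt_or_ge o p with hlt | hge
    · -- `a` was chosen after `o`
      rw [hF1 p] at hp
      apply (bsel_spec hp).2
      simp only [prevR, mem_iUnion, exists_prop]
      exact ⟨F o, ⟨o, hlt, rfl⟩, haR⟩
    · -- `a` was chosen at or before stage `o`
      rw [hF2 o] at haR
      refine Set.disjoint_left.mp (bforb_disjoint _ _) haR ?_
      rcases hge.lt_or_eq with hlt | heq
      · exact Or.inl ⟨F p, ⟨p, hlt, rfl⟩, hp⟩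
      · right; rw [heq] at hp; exact hp
  refine ⟨A, fun o hPo => ?_, fun o hc hca => ?_⟩
  · -- hitting large sets
    have hlt : #(prevR (F '' Iio o) : Set T) < κ := by
      unfold prevR
      rw [biUnion_image]
      exact mk_biUnion_lt hκ _ (hO o) _ fun p _ => hFc p
    have hne : (P o \ prevR (F '' Iio o)).Nonempty := by
      by_contra hcon
      rw [not_nonempty_iff_eq_empty, sdiff_eq_empty] at hcon
      exact absurd (mk_le_mk_of_subset hcon) (not_le.mpr (hlt.trans_le hPo))
    obtain ⟨a, ha⟩ := bsel_exists hne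
    exact ⟨a, ⟨o, (hF1 o).trans ha⟩, (bsel_spec ha).1⟩
  · -- avoiding
    set cur : Set T := prevA (F '' Iio o) ∪ {x | (F o).1 = some x} with hcurdef
    have hcurA : cur ⊆ A := by
      rintro a (⟨q, ⟨p, _, rfl⟩, hq⟩ | ha)
      · exact ⟨p, hq⟩
      · exact ⟨o, ha⟩
    have hcurcard : #(↥cur) < κ := by
      have h1 : cur ⊆ ⋃ p ∈ Iic o, {x | (F p).1 = some x} := by
        rintro a (⟨q, ⟨p, hp, rfl⟩, hq⟩ | ha)
        · simp only [mem_iUnion, exists_prop]
          exact ⟨p, le_of_lt hp, hq⟩
        · simp only [mem_iUnion, exists_prop]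
          exact ⟨o, mem_Iic.mpr le_rfl, ha⟩
      refine (mk_le_mk_of_subset h1).trans_lt (mk_biUnion_lt hκ _ ?_ _ fun p _ => ?_)
      · rw [← Iio_insert]
        refine (mk_insert_le).trans_lt ?_
        exact add_lt_of_lt hκ.le (hO o) (one_lt_aleph0.trans hκ)
      · refine Set.Subsingleton.countable ?_
        intro x hx y hy
        simp only [mem_ofPred_eq] at hx hy
        rw [hx] at hy
        exact Option.some.inj hy
    have hex : ∃ τ, (R o τ).Countable ∧ Disjoint (R o τ) cur := by
      by_contra hcon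
      push Not at hcon
      have hcover : (univ : Set Θ) ⊆ ⋃ a ∈ cur, {τ | a ∈ R o τ} := by
        intro τ _
        have := hcon τ (hc τ)
        rw [Set.not_disjoint_iff] at this
        obtain ⟨a, ha1, ha2⟩ := this
        simp only [mem_iUnion, exists_prop]
        exact ⟨a, ha2, ha1⟩
      have h2 := mk_le_mk_of_subset hcover
      rw [mk_univ] at h2
      have h3 : #(⋃ a ∈ cur, {τ | a ∈ R o τ} : Set Θ) < κ :=
        mk_biUnion_lt hκ _ hcurcard _ fun a ha => hca a (hcurA ha)
      exact absurd (hΘ.trans h2) (not_le.mpr h3)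
    obtain ⟨τ, hτ⟩ := bforb_exists hex
    refine ⟨τ, ?_⟩
    rw [← hτ, ← hF2 o]
    exact hdisj o

end Pool.Agent.Lib_helper53
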