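import Mathlib

open Filter Topology

namespace Pool.Agent.Lib_helper53

/-- `f` is Gateaux differentiable at `x₀`: there is a continuous linear functional `φ` with
`(f (x₀ + t x) - f x₀) / t → φ x` as `t → 0`, for every direction `x`. -/
def GateauxDiffAt {E : Type*} [AddCommGroup E] [Module ℝ E] [TopologicalSpace E]
    (f : E → ℝ) (x₀ : E) : Prop :=
  ∃ φ : E →L[ℝ] ℝ, ∀ x : E,
    Tendsto (fun t : ℝ => (f (x₀ + t • x) - f x₀) / t) (𝓝[≠] 0) (𝓝 (φ x))

/-- `E` is weak Asplund: for every nonempty open convex `D`, every continuous convex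
`f : D → ℝ` is Gateaux differentiable at each point of some dense `Gδ` subset of `D`.
(Convexity of `D` is part of `ConvexOn ℝ D f`.) -/
def IsWeakAsplund (E : Type*) [AddCommGroup E] [Module ℝ E] [TopologicalSpace E] : Prop :=
  ∀ (D : Set E) (f : E → ℝ), D.Nonempty → IsOpen D → ConvexOn ℝ D f → ContinuousOn f D →
    ∃ G : Set E, G ⊆ D ∧ IsGδ G ∧ D ⊆ closure G ∧ ∀ x ∈ G, GateauxDiffAt f x

end Pool.Agent.Lib_helper53
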