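import Mathlib

open Set Filter Topology Metric

namespace Pool.Agent.Lib_helper53

variable {Z : Type*} [NormedAddCommGroup Z] [NormedSpace ℝ Z]

/-- One-sided directional derivative of a convex function `f` at `z` in direction `h`,
as the infimum of the difference quotients. -/
noncomputable def dd (f : Z → ℝ) (z h : Z) : ℝ :=
  ⨅ t : {t : ℝ // 0 < t}, (f (z + t.1 • h) - f z) / t.1

variable {f : Z → ℝ} {K : NNReal}

lemma quot_bound (hL : LipschitzWith K f) (z h : Z) {t : ℝ} (ht : 0 < t) :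
    |(f (z + t • h) - f z) / t| ≤ K * ‖h‖ := by
  rw [abs_div, abs_of_pos ht, div_le_iff₀ ht]
  have := hL.dist_le_mul (z + t • h) z
  rw [Real.dist_eq] at this
  refine this.trans (le_of_eq ?_)
  rw [dist_eq_norm, add_sub_cancel_left, norm_smul, Real.norm_eq_abs, abs_of_pos ht]
  ring

lemma bddBelow_quot (hL : LipschitzWith K f) (z h : Z) :
    BddBelow (range fun t : {t : ℝ // 0 < t} => (f (z + t.1 • h) - f z) / t.1) := by
  refine ⟨-(K * ‖h‖), ?_⟩
  rintro _ ⟨t, rfl⟩
  exact (abs_le.mp (quot_bound hL z h t.2)).1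

lemma dd_le_quot (hL : LipschitzWith K f) (z h : Z) {t : ℝ} (ht : 0 < t) :
    dd f z h ≤ (f (z + t • h) - f z) / t :=
  ciInf_le (bddBelow_quot hL z h) ⟨t, ht⟩

instance : Nonempty {t : ℝ // 0 < t} := ⟨⟨1, one_pos⟩⟩

lemma le_dd {z h : Z} {c : ℝ} (H : ∀ t : ℝ, 0 < t → c ≤ (f (z + t • h) - f z) / t) :
    c ≤ dd f z h :=
  le_ciInf fun t => H t.1 t.2

lemma dd_lt_iff (hL : LipschitzWith K f) {z h : Z} {c : ℝ} :
    dd f z h < c ↔ ∃ t : ℝ, 0 < t ∧ (f (z + t • h) - f z) / t < c := by
  constructor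
  · intro H
    obtain ⟨t, ht⟩ := exists_lt_of_ciInf_lt H
    exact ⟨t.1, t.2, ht⟩
  · rintro ⟨t, ht, H⟩
    exact (dd_le_quot hL z h ht).trans_lt H

lemma abs_dd_le (hL : LipschitzWith K f) (z h : Z) : |dd f z h| ≤ K * ‖h‖ := by
  rw [abs_le]
  constructor
  · exact le_dd fun t ht => (abs_le.mp (quot_bound hL z h ht)).1
  · exact (dd_le_quot hL z h one_pos).trans (abs_le.mp (quot_bound hL z h one_pos)).2

lemma dd_le (hL : LipschitzWith K f) (z h : Z) : dd f z h ≤ K * ‖h‖ :=
  (abs_le.mp (abs_dd_le hL z h)).2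

lemma neg_le_dd (hL : LipschitzWith K f) (z h : Z) : -(K * ‖h‖) ≤ dd f z h :=
  (abs_le.mp (abs_dd_le hL z h)).1

lemma dd_zero (hL : LipschitzWith K f) (z : Z) : dd f z 0 = 0 := by
  have := abs_dd_le hL z 0
  rw [norm_zero, mul_zero] at this
  exact abs_nonpos_iff.mp this

/-- monotonicity of difference quotients -/
lemma quot_mono (hf : ConvexOn ℝ univ f) (z h : Z) {s t : ℝ} (hs : 0 < s) (hst : s ≤ t) :
    (f (z + s • h) - f z) / s ≤ (f (z + t • h) - f z) / t := by
  have ht : 0 < t := hs.trans_le hst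
  have key := hf.2 (mem_univ (z + t • h)) (mem_univ z) (show (0 : ℝ) ≤ s / t by positivity)
    (show (0 : ℝ) ≤ 1 - s / t by rw [sub_nonneg, div_le_one ht]; exact hst) (by ring)
  have e : (s / t) • (z + t • h) + (1 - s / t) • z = z + s • h := by
    rw [smul_add, smul_smul, div_mul_cancel₀ _ ht.ne', sub_smul, one_smul]
    abel
  rw [e] at key
  simp only [smul_eq_mul] at key
  rw [div_le_div_iff₀ hs ht]
  have h3 : f (z + s • h) - f z ≤ (s / t) * (f (z + t • h) - f z) := by linarith
  have h4 := mul_le_mul_of_nonneg_right h3 ht.le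
  have h5 : (s / t) * (f (z + t • h) - f z) * t = (f (z + t • h) - f z) * s := by
    field_simp
  linarith

lemma dd_add_le (hf : ConvexOn ℝ univ f) (hL : LipschitzWith K f) (z h k : Z) :
    dd f z (h + k) ≤ dd f z h + dd f z k := by
  refine le_of_forall_pos_lt_add fun ε hε => ?_
  obtain ⟨t₁, ht₁, H₁⟩ := (dd_lt_iff hL (z := z) (h := h)).mp
    (lt_add_of_pos_right _ (half_pos hε))
  obtain ⟨t₂, ht₂, H₂⟩ := (dd_lt_iff hL (z := z) (h := k)).mp
    (lt_add_of_pos_right _ (half_pos hε))
  set t := min t₁ t₂ with ht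
  have htp : 0 < t := lt_min ht₁ ht₂
  have q₁ := quot_mono hf z h htp (min_le_left t₁ t₂)
  have q₂ := quot_mono hf z k htp (min_le_right t₁ t₂)
  have hhalf : 0 < t / 2 := half_pos htp
  have q₃ := dd_le_quot hL z (h + k) hhalf
  have key := hf.2 (mem_univ (z + t • h)) (mem_univ (z + t • k)) (show (0 : ℝ) ≤ 1 / 2 by norm_num)
    (show (0 : ℝ) ≤ 1 / 2 by norm_num) (by norm_num)
  have e : (1 / 2 : ℝ) • (z + t • h) + (1 / 2 : ℝ) • (z + t • k) = z + (t / 2) • (h + k) := by
    simp only [smul_add, smul_smul]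
    rw [show (1 / 2 : ℝ) * t = t / 2 by ring]
    have : (1 / 2 : ℝ) • z + (1 / 2 : ℝ) • z = z := by
      rw [← add_smul]; norm_num
    calc _ = ((1 / 2 : ℝ) • z + (1 / 2 : ℝ) • z) + ((t / 2) • h + (t / 2) • k) := by abel
      _ = _ := by rw [this]
  rw [e] at key
  simp only [smul_eq_mul] at key
  have q₄ : (f (z + (t / 2) • (h + k)) - f z) / (t / 2)
      ≤ (f (z + t • h) - f z) / t + (f (z + t • k) - f z) / t := by
    rw [← add_div, div_le_div_iff₀ hhalf htp]
    nlinarith
  linarith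

lemma dd_smul_pos (hL : LipschitzWith K f) (z h : Z) {c : ℝ} (hc : 0 < c) :
    dd f z (c • h) = c * dd f z h := by
  apply le_antisymm
  · rw [← div_le_iff₀' hc]
    refine le_dd fun t ht => ?_
    rw [div_le_iff₀' hc]
    have := dd_le_quot hL z (c • h) (div_pos ht hc)
    rw [smul_smul, div_mul_cancel₀ _ hc.ne'] at this
    refine this.trans (le_of_eq ?_)
    field_simp
  · refine le_dd fun t ht => ?_
    have := dd_le_quot hL z h (mul_pos ht hc)
    rw [smul_smul]
    calc c * dd f z h ≤ c * ((f (z + (t * c) • h) - f z) / (t * c)) :=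
          mul_le_mul_of_nonneg_left this hc.le
      _ = _ := by field_simp

lemma dd_neg_le (hf : ConvexOn ℝ univ f) (hL : LipschitzWith K f) (z h : Z) :
    0 ≤ dd f z h + dd f z (-h) := by
  have := dd_add_le hf hL z h (-h)
  rwa [add_neg_cancel, dd_zero hL] at this

lemma dd_le_dd_add (hf : ConvexOn ℝ univ f) (hL : LipschitzWith K f) (z h k : Z) :
    dd f z h ≤ dd f z k + K * ‖h - k‖ := by
  have h1 := dd_add_le hf hL z k (h - k)
  rw [add_sub_cancel] at h1
  exact h1.trans (by gcongr; exact dd_le hL z _)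

/-- slopes increase along a line -/
lemma dd_le_neg_dd (hL : LipschitzWith K f) (z h : Z) {t : ℝ} (ht : 0 < t) :
    dd f z h ≤ -dd f (z + t • h) (-h) := by
  have h1 := dd_le_quot hL z h ht
  have h2 := dd_le_quot hL (z + t • h) (-h) ht
  have e : z + t • h + t • -h = z := by rw [smul_neg, add_neg_cancel_right]
  rw [e] at h2
  have h3 : (f z - f (z + t • h)) / t = -((f (z + t • h) - f z) / t) := by ring
  linarith

lemma isOpen_dd_lt (hL : LipschitzWith K f) (h : Z) (c : ℝ) : IsOpen {z | dd f z h < c} := by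
  have : {z | dd f z h < c}
      = ⋃ t : {t : ℝ // 0 < t}, {z | (f (z + t.1 • h) - f z) / t.1 < c} := by
    ext z
    simp only [mem_ofPred_eq, mem_iUnion, dd_lt_iff hL, Subtype.exists, exists_prop]
  rw [this]
  refine isOpen_iUnion fun t => ?_
  refine isOpen_lt ?_ continuous_const
  have := hL.continuous
  fun_prop

lemma upperSemi_dd (hL : LipschitzWith K f) (h : Z) : UpperSemicontinuous fun z => dd f z h := by
  intro z c hc
  exact (isOpen_dd_lt hL h c).mem_nhds hc

lemma isOpen_dd_add_lt (hL : LipschitzWith K f) (h k : Z) (c : ℝ) :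
    IsOpen {z | dd f z h + dd f z k < c} := by
  have := (upperSemi_dd hL h).add (upperSemi_dd hL k)
  exact upperSemicontinuous_iff_isOpen_preimage.mp this c

/-- Directional differentiability up to `δ` holds on a dense set. -/
lemma dense_dd_add_lt (hL : LipschitzWith K f) (h : Z) {δ : ℝ} (hδ : 0 < δ) :
    Dense {z | dd f z h + dd f z (-h) < δ} := by
  rw [Metric.dense_iff]
  intro z r hr
  -- the line `z + t • h`, `t ∈ Ico 0 a`
  obtain ⟨a, ha, haz⟩ : ∃ a : ℝ, 0 < a ∧ ∀ t : ℝ, 0 ≤ t → t < a → z + t • h ∈ ball z r := by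
    refine ⟨r / (‖h‖ + 1), by positivity, fun t ht hta => ?_⟩
    rw [mem_ball, dist_eq_norm, add_sub_cancel_left, norm_smul, Real.norm_eq_abs, abs_of_nonneg ht]
    rw [lt_div_iff₀ (by positivity)] at hta
    nlinarith [norm_nonneg h]
  set S : Set ℝ := (fun t => dd f (z + t • h) h) '' Ico 0 a with hS
  have hSne : S.Nonempty := ⟨_, 0, ⟨le_rfl, ha⟩, rfl⟩
  have hSb : BddAbove S := by
    refine ⟨K * ‖h‖, ?_⟩
    rintro _ ⟨t, _, rfl⟩
    exact dd_le hL _ _
  obtain ⟨_, ⟨t₀, ht₀, rfl⟩, H⟩ := exists_lt_of_lt_csSup hSne (sub_lt_self (sSup S) hδ)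
  obtain ⟨t, ht1, ht2⟩ := exists_between ht₀.2
  refine ⟨z + t • h, haz t (ht₀.1.trans ht1.le) ht2, ?_⟩
  have h1 : dd f (z + t • h) h ≤ sSup S := le_csSup hSb ⟨t, ⟨ht₀.1.trans ht1.le, ht2⟩, rfl⟩
  have h2 := dd_le_neg_dd hL (z + t₀ • h) h (sub_pos.mpr ht1)
  have e : z + t₀ • h + (t - t₀) • h = z + t • h := by
    rw [add_assoc, ← add_smul]; congr 2; ring
  rw [e] at h2
  simp only [mem_ofPred_eq]
  simp only at H
  linarith

/-- If both one-sided derivatives agree, then the two-sided difference quotient converges. -/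
lemma tendsto_quot (hf : ConvexOn ℝ univ f) (hL : LipschitzWith K f) {z h : Z}
    (H : dd f z h + dd f z (-h) ≤ 0) :
    Tendsto (fun t : ℝ => (f (z + t • h) - f z) / t) (𝓝[≠] 0) (𝓝 (dd f z h)) := by
  have right : ∀ k : Z, Tendsto (fun t : ℝ => (f (z + t • k) - f z) / t) (𝓝[>] 0)
      (𝓝 (dd f z k)) := by
    intro k
    rw [Metric.tendsto_nhds]
    intro ε hε
    obtain ⟨t, ht, hlt⟩ := (dd_lt_iff hL (z := z) (h := k)).mp (lt_add_of_pos_right _ hε)
    filter_upwards [Ioo_mem_nhdsGT ht] with s hs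
    rw [Real.dist_eq, abs_lt]
    have h1 := dd_le_quot hL z k hs.1
    have h2 := quot_mono hf z k hs.1 hs.2.le
    constructor <;> linarith
  rw [← Set.Iio_union_Ioi, nhdsWithin_union]
  refine Tendsto.sup ?_ (right h)
  have h1 : dd f z h = -dd f z (-h) := by
    have := dd_neg_le hf hL z h
    linarith
  rw [h1]
  have h2 : Tendsto (fun t : ℝ => -t) (𝓝[<] 0) (𝓝[>] 0) := by
    have := tendsto_neg_nhdsLT (a := (0 : ℝ))
    simpa using this
  have h3 := ((right (-h)).comp h2).neg
  refine h3.congr fun t => ?_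
  simp only [Function.comp_apply]
  rw [neg_smul, smul_neg, neg_neg, div_neg, neg_neg]

/-- the set of directions of differentiability is a closed subspace -/
lemma dd_symm_closed (hf : ConvexOn ℝ univ f) (hL : LipschitzWith K f) (z : Z) (S : Set Z)
    (hS : ∀ h ∈ S, dd f z h + dd f z (-h) ≤ 0) :
    ∀ h ∈ closure (Submodule.span ℝ S : Set Z), dd f z h + dd f z (-h) ≤ 0 := by
  have hspan : ∀ h ∈ Submodule.span ℝ S, dd f z h + dd f z (-h) ≤ 0 := by
    intro h hh
    induction hh using Submodule.span_induction with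
    | mem x hx => exact hS x hx
    | zero => simp [dd_zero hL]
    | add x y _ _ hx hy =>
      have h1 := dd_add_le hf hL z x y
      have h2 := dd_add_le hf hL z (-x) (-y)
      rw [neg_add]
      linarith
    | smul c x _ hx =>
      rcases lt_trichotomy c 0 with hc | hc | hc
      · have e1 : c • x = (-c) • (-x) := by simp
        have e2 : -(c • x) = (-c) • x := by simp
        rw [e2, e1, dd_smul_pos hL z _ (neg_pos.mpr hc), dd_smul_pos hL z _ (neg_pos.mpr hc)]
        nlinarith
      · subst hc; simp [dd_zero hL]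
      · rw [← smul_neg, dd_smul_pos hL z _ hc, dd_smul_pos hL z _ hc]
        nlinarith
  intro h hh
  refine le_of_forall_pos_lt_add fun ε hε => ?_
  rw [Metric.mem_closure_iff] at hh
  obtain ⟨k, hk, hd⟩ := hh (ε / (2 * K + 1)) (by positivity)
  have h1 := dd_le_dd_add hf hL z h k
  have h2 := dd_le_dd_add hf hL z (-h) (-k)
  have h3 := hspan k hk
  have e : -h - -k = -(h - k) := by abel
  rw [e, norm_neg] at h2
  rw [dist_eq_norm, lt_div_iff₀ (by positivity)] at hd
  have := norm_nonneg (h - k)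
  nlinarith

/-- At a point of symmetry of all directional derivatives the derivative is a continuous linear
functional. -/
lemma exists_clm (hf : ConvexOn ℝ univ f) (hL : LipschitzWith K f) (z : Z)
    (H : ∀ h, dd f z h + dd f z (-h) ≤ 0) :
    ∃ φ : Z →L[ℝ] ℝ, ∀ h, φ h = dd f z h := by
  have hneg : ∀ h, dd f z (-h) = -dd f z h := fun h => by
    have h1 := dd_neg_le hf hL z h
    have h2 := H h
    linarith
  have hadd : ∀ h k, dd f z (h + k) = dd f z h + dd f z k := fun h k => by
    apply le_antisymm (dd_add_le hf hL z h k)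
    have h1 := dd_add_le hf hL z (h + k) (-k)
    rw [add_neg_cancel_right, hneg] at h1
    linarith
  have hsmul : ∀ (c : ℝ) h, dd f z (c • h) = c * dd f z h := fun c h => by
    rcases lt_trichotomy c 0 with hc | hc | hc
    · have e1 : c • h = (-c) • (-h) := by simp
      rw [e1, dd_smul_pos hL z _ (neg_pos.mpr hc), hneg]
      ring
    · subst hc; simp [dd_zero hL]
    · exact dd_smul_pos hL z h hc
  refine ⟨LinearMap.mkContinuous
    { toFun := fun h => dd f z h
      map_add' := hadd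
      map_smul' := fun c h => by simpa using hsmul c h } K fun h => ?_, fun h => rfl⟩
  exact abs_dd_le hL z h

end Pool.Agent.Lib_helper53
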