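import Mathlib

open Set Filter Topology Metric

namespace Pool.Agent.Lib_helper53

variable {Z : Type*} [NormedAddCommGroup Z] [NormedSpace ℝ Z]

/-- A convex function that is Lipschitz on a convex set extends to a convex Lipschitz function. -/
theorem exists_convex_extension {g : Z → ℝ} {s : Set Z} {K : NNReal} (hg : ConvexOn ℝ s g)
    (hK : LipschitzOnWith K g s) (hne : s.Nonempty) :
    ∃ G : Z → ℝ, ConvexOn ℝ univ G ∧ LipschitzWith K G ∧ EqOn G g s := by
  have : Nonempty s := hne.to_subtype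
  set G : Z → ℝ := fun x => ⨅ y : s, g y + K * dist x (y : Z) with hG
  have hLip : ∀ x ∈ s, ∀ y ∈ s, g x ≤ g y + K * dist x y := by
    intro x hx y hy
    have := hK.dist_le_mul x hx y hy
    rw [Real.dist_eq] at this
    linarith [le_abs_self (g x - g y)]
  have hbdd : ∀ x : Z, BddBelow (range fun y : s => g y + K * dist x (y : Z)) := by
    intro x
    obtain ⟨y₀, hy₀⟩ := hne
    refine ⟨g y₀ - K * dist y₀ x, ?_⟩
    rintro _ ⟨y, rfl⟩
    have h1 := hLip y₀ hy₀ y y.2
    have h2 := dist_triangle y₀ x (y : Z)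
    have h3 : (K : ℝ) * dist y₀ (y : Z) ≤ K * (dist y₀ x + dist x (y : Z)) := by gcongr
    simp only
    linarith
  have hle : ∀ x : Z, ∀ y ∈ s, G x ≤ g y + K * dist x y := fun x y hy => ciInf_le (hbdd x) ⟨y, hy⟩
  have hex : ∀ x : Z, ∀ ε > 0, ∃ y ∈ s, g y + K * dist x y < G x + ε := by
    intro x ε hε
    obtain ⟨y, hy⟩ := exists_lt_of_ciInf_lt (lt_add_of_pos_right (G x) hε)
    exact ⟨y, y.2, hy⟩
  refine ⟨G, ⟨convex_univ, fun x _ x' _ a b ha hb hab => ?_⟩, ?_, ?_⟩
  · refine le_of_forall_pos_le_add fun ε hε => ?_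
    obtain ⟨y, hy, h1⟩ := hex x ε hε
    obtain ⟨y', hy', h2⟩ := hex x' ε hε
    have h3 := hle (a • x + b • x') (a • y + b • y') (hg.1 hy hy' ha hb hab)
    have h4 := hg.2 hy hy' ha hb hab
    have h5 : dist (a • x + b • x') (a • y + b • y') ≤ a * dist x y + b * dist x' y' := by
      rw [dist_eq_norm, dist_eq_norm, dist_eq_norm]
      have : a • x + b • x' - (a • y + b • y') = a • (x - y) + b • (x' - y') := by
        rw [smul_sub, smul_sub]; abel
      rw [this]
      refine (norm_add_le _ _).trans ?_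
      rw [norm_smul, norm_smul, Real.norm_eq_abs, Real.norm_eq_abs, abs_of_nonneg ha,
        abs_of_nonneg hb]
    have h6 : (K : ℝ) * dist (a • x + b • x') (a • y + b • y')
        ≤ K * (a * dist x y + b * dist x' y') := by gcongr
    simp only [smul_eq_mul] at h4 ⊢
    have h7 := mul_le_mul_of_nonneg_left h1.le ha
    have h8 := mul_le_mul_of_nonneg_left h2.le hb
    have h9 : a * (G x + ε) + b * (G x' + ε) = a * G x + b * G x' + ε := by
      have : a * (G x + ε) + b * (G x' + ε) = a * G x + b * G x' + (a + b) * ε := by ring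
      rw [this, hab, one_mul]
    nlinarith
  · refine LipschitzWith.of_le_add_mul K fun x x' => ?_
    refine le_of_forall_pos_le_add fun ε hε => ?_
    obtain ⟨y, hy, h1⟩ := hex x' ε hε
    have h2 := hle x y hy
    have h3 := dist_triangle x x' y
    have h4 : (K : ℝ) * dist x y ≤ K * (dist x x' + dist x' y) := by gcongr
    linarith
  · intro x hx
    apply le_antisymm
    · have := hle x x hx
      rwa [dist_self, mul_zero, add_zero] at this
    · exact le_ciInf fun y => hLip x hx y y.2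

/-- A convex function on the line bounded above is constant. -/
lemma const_of_bdd {φ : ℝ → ℝ} (hφ : ConvexOn ℝ univ φ) {M : ℝ} (hM : ∀ t, φ t ≤ M) :
    φ 1 ≤ φ 0 := by
  refine le_of_forall_pos_le_add fun ε hε => ?_
  obtain ⟨n, hn⟩ := exists_nat_gt (|M - φ 0| / ε)
  set s : ℝ := n + 1 with hs
  have hsp : 0 < s := by positivity
  have h1 := hφ.2 (mem_univ s) (mem_univ 0) (show (0 : ℝ) ≤ 1 / s by positivity)
    (show (0 : ℝ) ≤ 1 - 1 / s by
      rw [sub_nonneg, div_le_one hsp, hs]
      have : (0 : ℝ) ≤ n := by positivity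
      linarith) (by ring)
  simp only [smul_eq_mul, mul_zero, add_zero] at h1
  rw [one_div, inv_mul_cancel₀ hsp.ne'] at h1
  have h2 : s⁻¹ * φ s ≤ s⁻¹ * M := mul_le_mul_of_nonneg_left (hM s) (by positivity)
  have h3 : s⁻¹ * (M - φ 0) ≤ ε := by
    rw [inv_mul_le_iff₀ hsp]
    rw [div_lt_iff₀ hε] at hn
    have := le_abs_self (M - φ 0)
    nlinarith
  have h4 : s⁻¹ * (M - φ 0) = s⁻¹ * M - s⁻¹ * φ 0 := by ring
  nlinarith

end Pool.Agent.Lib_helper53
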