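import Mathlib

open Set Filter Topology

namespace Pool.Agent.Lib_helper53

/-- Cantor space -/
abbrev T : Type := ℕ → Bool

open PiNat (res)

/-- the cylinder of a node -/
def cyl (s : List Bool) : Set T := {t | res t s.length = s}

lemma mem_cyl {s : List Bool} {t : T} : t ∈ cyl s ↔ res t s.length = s := Iff.rfl

lemma mem_cyl_res {a t : T} {m : ℕ} : t ∈ cyl (res a m) ↔ res t m = res a m := by
  rw [mem_cyl, PiNat.res_length]

lemma self_mem_cyl (a : T) (m : ℕ) : a ∈ cyl (res a m) := mem_cyl_res.mpr rfl

lemma mem_cyl_nil (t : T) : t ∈ cyl [] := rfl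

lemma mem_cyl_cons {b : Bool} {s : List Bool} {t : T} :
    t ∈ cyl (b :: s) ↔ t s.length = b ∧ t ∈ cyl s := by
  simp [mem_cyl, PiNat.res_succ]

lemma cyl_nonempty (s : List Bool) : (cyl s).Nonempty := by
  induction s with
  | nil => exact ⟨fun _ => false, mem_cyl_nil _⟩
  | cons b s ih =>
    obtain ⟨t, ht⟩ := ih
    refine ⟨Function.update t s.length b, mem_cyl_cons.mpr ⟨by simp, ?_⟩⟩
    rw [mem_cyl] at ht ⊢
    refine Eq.trans ?_ ht
    rw [PiNat.res_eq_res]
    intro m hm
    simp [hm.ne]

lemma res_eq_mono {a t : T} {m n : ℕ} (h : res a n = res t n) (hmn : m ≤ n) :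
    res a m = res t m := by
  rw [PiNat.res_eq_res] at h ⊢
  exact fun k hk => h (hk.trans_le hmn)

lemma cyl_eq_of_mem {s : List Bool} {a : T} (h : a ∈ cyl s) : s = res a s.length := h.symm

lemma cyl_res_anti (a : T) {m n : ℕ} (hmn : m ≤ n) : cyl (res a n) ⊆ cyl (res a m) := by
  intro t ht
  rw [mem_cyl_res] at ht ⊢
  exact res_eq_mono ht hmn

lemma eq_of_mem_cyl {s s' : List Bool} (hl : s.length = s'.length) {t : T} (h : t ∈ cyl s)
    (h' : t ∈ cyl s') : s = s' := by
  rw [mem_cyl] at h h'
  rw [← h, ← h', hl]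

lemma firstDiff_unique {a t : T} {k : ℕ} (h1 : a k ≠ t k) (h2 : ∀ i < k, a i = t i) :
    PiNat.firstDiff a t = k := by
  have hne : a ≠ t := fun h => h1 (by rw [h])
  rcases lt_trichotomy (PiNat.firstDiff a t) k with h | h | h
  · exact absurd (h2 _ h) (PiNat.apply_firstDiff_ne hne)
  · exact h
  · exact absurd (PiNat.apply_eq_of_lt_firstDiff h) h1

/-- the two-sided function at `a` -/
noncomputable def rF (a : T) : T → ℝ := fun t =>
  open Classical in if t = a then 0 else if Even (PiNat.firstDiff a t) then 1 else -1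

lemma rF_self (a : T) : rF a a = 0 := by simp [rF]

lemma abs_rF_le (a t : T) : |rF a t| ≤ 1 := by
  unfold rF
  split_ifs <;> simp

/-- `rF a` depends only on the first `m` coordinates, off the cylinder of `a` -/
lemma rF_congr {a t t' : T} {m : ℕ} (h : res t m = res t' m) (hne : res t m ≠ res a m) :
    rF a t = rF a t' := by
  have hta : t ≠ a := fun e => hne (by rw [e])
  have hta' : t' ≠ a := fun e => hne (by rw [h, e])
  have hlt : PiNat.firstDiff a t < m := by
    by_contra hcon
    push Not at hcon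
    apply hne
    rw [PiNat.res_eq_res]
    intro k hk
    exact (PiNat.apply_eq_of_lt_firstDiff (hk.trans_le hcon)).symm
  have heq : PiNat.firstDiff a t' = PiNat.firstDiff a t := by
    rw [PiNat.res_eq_res] at h
    apply firstDiff_unique
    · rw [← h hlt]
      exact PiNat.apply_firstDiff_ne hta.symm
    · intro i hi
      rw [← h (hi.trans hlt)]
      exact PiNat.apply_eq_of_lt_firstDiff hi
  unfold rF
  rw [if_neg hta, if_neg hta', heq]

lemma exists_rF_eq (a : T) (m : ℕ) :
    (∃ t, res t m = res a m ∧ rF a t = 1) ∧ (∃ t, res t m = res a m ∧ rF a t = -1) := by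
  have key : ∀ k, m ≤ k → ∃ t, res t m = res a m ∧ t ≠ a ∧ PiNat.firstDiff a t = k := by
    intro k hk
    refine ⟨Function.update a k (!(a k)), ?_, ?_, ?_⟩
    · rw [PiNat.res_eq_res]
      intro i hi
      simp [(hi.trans_le hk).ne]
    · intro h
      have := congrFun h k
      simp at this
    · apply firstDiff_unique
      · simp
      · intro i hi
        simp [hi.ne]
  constructor
  · obtain ⟨t, h1, h2, h3⟩ := key (2 * m) (by omega)
    refine ⟨t, h1, ?_⟩
    unfold rF
    rw [if_neg h2, if_pos (by rw [h3]; exact even_two_mul m)]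
  · obtain ⟨t, h1, h2, h3⟩ := key (2 * m + 1) (by omega)
    refine ⟨t, h1, ?_⟩
    unfold rF
    rw [if_neg h2, if_neg (by rw [h3]; simp)]

/-- The ambient Banach space of bounded functions on the Cantor space. -/
abbrev B : Type := lp (fun _ : T => ℝ) ⊤

/-- bounded functions as elements of `B` -/
def mkB (f : T → ℝ) (h : ∃ C, ∀ t, |f t| ≤ C) : B :=
  ⟨f, memℓp_infty (by obtain ⟨C, hC⟩ := h; exact ⟨C, by rintro _ ⟨t, rfl⟩; exact hC t⟩)⟩

@[simp] lemma mkB_apply (f : T → ℝ) (h : ∃ C, ∀ t, |f t| ≤ C) (t : T) : mkB f h t = f t := rfl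

lemma abs_apply_le (x : B) (t : T) : |x t| ≤ ‖x‖ := lp.norm_apply_le_norm (by simp) x t

lemma norm_le_of {x : B} {C : ℝ} (hC : 0 ≤ C) (h : ∀ t, |x t| ≤ C) : ‖x‖ ≤ C :=
  lp.norm_le_of_forall_le hC h

lemma B_ext {x y : B} (h : ∀ t, x t = y t) : x = y := by
  ext t; exact h t

@[simp] lemma B_add (x y : B) (t : T) : (x + y) t = x t + y t := rfl
@[simp] lemma B_sub (x y : B) (t : T) : (x - y) t = x t - y t := rfl
@[simp] lemma B_neg (x : B) (t : T) : (-x) t = -x t := rfl
@[simp] lemma B_smul (c : ℝ) (x : B) (t : T) : (c • x) t = c * x t := rfl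
@[simp] lemma B_zero (t : T) : (0 : B) t = 0 := rfl
lemma B_sum {ι : Type*} (s : Finset ι) (x : ι → B) (t : T) :
    (∑ i ∈ s, x i) t = ∑ i ∈ s, x i t := by
  classical
  induction s using Finset.induction_on with
  | empty => simp
  | insert i s hi ih => rw [Finset.sum_insert hi, Finset.sum_insert hi, B_add, ih]

/-- indicator of a cylinder -/
noncomputable def chiB (s : List Bool) : B :=
  mkB ((cyl s).indicator 1) ⟨1, fun t => by
    classical
    by_cases h : t ∈ cyl s <;> simp [h]⟩

open Classical in
lemma chiB_apply (s : List Bool) (t : T) : chiB s t = if t ∈ cyl s then 1 else 0 := by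
  change (cyl s).indicator 1 t = _
  rw [indicator_apply]
  rfl

/-- the function `rF a` as an element of `B` -/
noncomputable def rB (a : T) : B := mkB (rF a) ⟨1, abs_rF_le a⟩

@[simp] lemma rB_apply (a t : T) : rB a t = rF a t := rfl

/-- restriction to a cylinder -/
noncomputable def restr (s : List Bool) : B →ₗ[ℝ] B where
  toFun x := mkB ((cyl s).indicator x) ⟨‖x‖, fun t => by
    classical
    by_cases h : t ∈ cyl s
    · rw [indicator_of_mem h]; exact abs_apply_le x t
    · rw [indicator_of_notMem h]; simp⟩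
  map_add' x y := by
    apply B_ext
    intro t
    classical
    by_cases h : t ∈ cyl s <;> simp [h]
  map_smul' c x := by
    apply B_ext
    intro t
    classical
    by_cases h : t ∈ cyl s <;> simp [h]

open Classical in
lemma restr_apply (s : List Bool) (x : B) (t : T) :
    restr s x t = if t ∈ cyl s then x t else 0 := by
  change (cyl s).indicator x t = _
  rw [indicator_apply]

lemma restr_of_mem {s : List Bool} {x : B} {t : T} (h : t ∈ cyl s) : restr s x t = x t := by
  rw [restr_apply, if_pos h]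

lemma restr_of_notMem {s : List Bool} {x : B} {t : T} (h : t ∉ cyl s) : restr s x t = 0 := by
  rw [restr_apply, if_neg h]

lemma norm_restr_le (s : List Bool) (x : B) : ‖restr s x‖ ≤ ‖x‖ := by
  refine norm_le_of (norm_nonneg _) fun t => ?_
  by_cases h : t ∈ cyl s
  · rw [restr_of_mem h]; exact abs_apply_le x t
  · rw [restr_of_notMem h]; simp

lemma continuous_restr (s : List Bool) : Continuous (restr s) :=
  AddMonoidHomClass.continuous_of_bound (restr s) 1 fun x => by
    rw [one_mul]; exact norm_restr_le s x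

/-- functions depending on finitely many coordinates are combinations of indicators -/
lemma mem_span_of_dep (m : ℕ) (x : B) (h : ∀ t t' : T, res t m = res t' m → x t = x t') :
    x ∈ Submodule.span ℝ (range chiB) := by
  classical
  have hfin : {l : List Bool | l.length = m}.Finite := List.finite_length_eq Bool m
  have key : x = ∑ s ∈ hfin.toFinset, x (cyl_nonempty s).some • chiB s := by
    apply B_ext
    intro t
    rw [B_sum, Finset.sum_eq_single (res t m)]
    · rw [B_smul, chiB_apply, if_pos (self_mem_cyl t m), mul_one]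
      apply h
      exact (mem_cyl_res.mp (cyl_nonempty (res t m)).some_mem).symm
    · intro s hs hst
      rw [Finite.mem_toFinset] at hs
      rw [B_smul, chiB_apply, if_neg, mul_zero]
      intro hmem
      apply hst
      exact eq_of_mem_cyl (by rw [PiNat.res_length]; exact hs) hmem (self_mem_cyl t m)
    · intro hnot
      exfalso
      apply hnot
      rw [Finite.mem_toFinset]
      exact PiNat.res_length t m
  rw [key]
  exact Submodule.sum_mem _ fun s _ => Submodule.smul_mem _ _ (Submodule.subset_span ⟨s, rfl⟩)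

/-- the dense subspace -/
noncomputable def E0 (A : Set T) : Submodule ℝ B := Submodule.span ℝ (range chiB ∪ rB '' A)

/-- the Banach space `E` attached to a subset `A` of the Cantor space -/
noncomputable def EE (A : Set T) : Submodule ℝ B := (E0 A).topologicalClosure

lemma chiB_mem_E0 (A : Set T) (s : List Bool) : chiB s ∈ E0 A :=
  Submodule.subset_span (Or.inl ⟨s, rfl⟩)

lemma rB_mem_E0 {A : Set T} {a : T} (ha : a ∈ A) : rB a ∈ E0 A :=
  Submodule.subset_span (Or.inr ⟨a, ha, rfl⟩)

lemma span_chi_le (A : Set T) : Submodule.span ℝ (range chiB) ≤ E0 A :=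
  Submodule.span_mono subset_union_left

/-- `mem_cyl` depends on finitely many coordinates -/
lemma mem_cyl_congr {s : List Bool} {t t' : T} {m : ℕ} (hm : s.length ≤ m)
    (h : res t m = res t' m) : t ∈ cyl s ↔ t' ∈ cyl s := by
  rw [mem_cyl, mem_cyl, res_eq_mono h hm]

/-- key decomposition: `r_a` minus its restriction to a cylinder around `a` is simple -/
lemma rB_sub_restr_mem (a : T) (m : ℕ) :
    rB a - restr (res a m) (rB a) ∈ Submodule.span ℝ (range chiB) := by
  refine mem_span_of_dep m _ fun t t' h => ?_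
  by_cases hc : t ∈ cyl (res a m)
  · have hc' : t' ∈ cyl (res a m) := (mem_cyl_congr (by rw [PiNat.res_length]) h).mp hc
    rw [B_sub, B_sub, restr_of_mem hc, restr_of_mem hc']
    simp
  · have hc' : t' ∉ cyl (res a m) := fun e =>
      hc ((mem_cyl_congr (by rw [PiNat.res_length]) h).mpr e)
    rw [B_sub, B_sub, restr_of_notMem hc, restr_of_notMem hc', rB_apply, rB_apply]
    rw [mem_cyl_res] at hc
    rw [rF_congr h hc]

lemma restr_mem_E0 {A : Set T} (s : List Bool) {x : B} (hx : x ∈ E0 A) : restr s x ∈ E0 A := by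
  induction hx using Submodule.span_induction with
  | zero => rw [map_zero]; exact Submodule.zero_mem _
  | add x y _ _ hx hy => rw [map_add]; exact Submodule.add_mem _ hx hy
  | smul c x _ hx => rw [map_smul]; exact Submodule.smul_mem _ _ hx
  | mem x hx =>
    rcases hx with ⟨s', rfl⟩ | ⟨a, ha, rfl⟩
    · apply span_chi_le
      refine mem_span_of_dep (max s.length s'.length) _ fun t t' h => ?_
      classical
      rw [restr_apply, restr_apply, chiB_apply, chiB_apply]
      simp only [mem_cyl_congr (le_max_left _ _) h, mem_cyl_congr (le_max_right _ _) h]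
    · by_cases hc : a ∈ cyl s
      · have h1 := rB_sub_restr_mem a s.length
        rw [← cyl_eq_of_mem hc] at h1
        have h2 : restr s (rB a) = rB a - (rB a - restr s (rB a)) := by abel
        rw [h2]
        exact Submodule.sub_mem _ (rB_mem_E0 ha) (span_chi_le A h1)
      · apply span_chi_le
        refine mem_span_of_dep s.length _ fun t t' h => ?_
        by_cases ht : t ∈ cyl s
        · have ht' : t' ∈ cyl s := (mem_cyl_congr le_rfl h).mp ht
          rw [restr_of_mem ht, restr_of_mem ht', rB_apply, rB_apply]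
          refine rF_congr h fun e => hc ?_
          rw [mem_cyl, ← e]
          exact ht
        · have ht' : t' ∉ cyl s := fun e => ht ((mem_cyl_congr le_rfl h).mpr e)
          rw [restr_of_notMem ht, restr_of_notMem ht']

lemma restr_mem_EE {A : Set T} (s : List Bool) {x : B} (hx : x ∈ EE A) : restr s x ∈ EE A :=
  map_mem_closure (continuous_restr s) hx fun _ hy => restr_mem_E0 s hy

/-- structure of the elements of `E0`: local form at each point, with finitely many jumps -/
lemma local_form {A : Set T} {x : B} (hx : x ∈ E0 A) :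
    ∃ J : Finset T, ∀ a : T, ∃ (m : ℕ) (c : ℝ), (a ∉ J → c = 0) ∧
      ∀ t, res t m = res a m → x t = x a + c * rF a t := by
  classical
  induction hx using Submodule.span_induction with
  | zero => exact ⟨∅, fun a => ⟨0, 0, fun _ => rfl, fun t _ => by simp⟩⟩
  | add x y _ _ hx hy =>
    obtain ⟨J, hJ⟩ := hx
    obtain ⟨J', hJ'⟩ := hy
    refine ⟨J ∪ J', fun a => ?_⟩
    obtain ⟨m, c, h1, h2⟩ := hJ a
    obtain ⟨m', c', h1', h2'⟩ := hJ' a
    refine ⟨max m m', c + c', fun h => ?_, fun t ht => ?_⟩
    · rw [Finset.mem_union, not_or] at h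
      rw [h1 h.1, h1' h.2, add_zero]
    · rw [B_add, B_add, h2 t (res_eq_mono ht (le_max_left _ _)),
        h2' t (res_eq_mono ht (le_max_right _ _))]
      ring
  | smul k x _ hx =>
    obtain ⟨J, hJ⟩ := hx
    refine ⟨J, fun a => ?_⟩
    obtain ⟨m, c, h1, h2⟩ := hJ a
    refine ⟨m, k * c, fun h => by rw [h1 h, mul_zero], fun t ht => ?_⟩
    rw [B_smul, B_smul, h2 t ht]
    ring
  | mem x hx =>
    rcases hx with ⟨s, rfl⟩ | ⟨b, hb, rfl⟩
    · refine ⟨∅, fun a => ⟨s.length, 0, fun _ => rfl, fun t ht => ?_⟩⟩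
      rw [chiB_apply, chiB_apply]
      simp only [mem_cyl_congr le_rfl ht]
      ring
    · refine ⟨{b}, fun a => ?_⟩
      by_cases hab : a = b
      · subst hab
        refine ⟨0, 1, fun h => absurd (Finset.mem_singleton_self _) h, fun t _ => ?_⟩
        rw [rB_apply, rB_apply, rF_self]
        ring
      · obtain ⟨m, hm⟩ : ∃ m, res a m ≠ res b m := by
          by_contra hcon
          push Not at hcon
          exact hab (PiNat.res_injective (funext hcon))
        refine ⟨m, 0, fun _ => rfl, fun t ht => ?_⟩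
        rw [rB_apply, rB_apply, zero_mul, add_zero]
        exact rF_congr ht (by rw [ht]; exact hm)

lemma finite_range {A : Set T} {x : B} (hx : x ∈ E0 A) : (range fun t => x t).Finite := by
  classical
  induction hx using Submodule.span_induction with
  | zero => exact (finite_singleton (0 : ℝ)).subset (by rintro _ ⟨t, rfl⟩; simp)
  | add x y _ _ hx hy =>
    refine (hx.add hy).subset ?_
    rintro _ ⟨t, rfl⟩
    exact Set.add_mem_add ⟨t, rfl⟩ ⟨t, rfl⟩
  | smul k x _ hx =>
    refine (hx.image fun y => k * y).subset ?_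
    rintro _ ⟨t, rfl⟩
    exact ⟨x t, ⟨t, rfl⟩, (B_smul k x t).symm⟩
  | mem x hx =>
    rcases hx with ⟨s, rfl⟩ | ⟨b, hb, rfl⟩
    · refine (Set.toFinite {(0 : ℝ), 1}).subset ?_
      rintro _ ⟨t, rfl⟩
      simp only [chiB_apply]
      split_ifs <;> simp
    · refine (Set.toFinite {(0 : ℝ), 1, -1}).subset ?_
      rintro _ ⟨t, rfl⟩
      simp only [rB_apply, rF]
      split_ifs <;> simp

/-- every element of `E0` attains its supremum on a cylinder -/
lemma exists_max {A : Set T} {x : B} (hx : x ∈ E0 A) :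
    ∃ (a : T) (m : ℕ), (∀ t, res t m = res a m → x t = x a) ∧ ∀ t, x t ≤ x a := by
  obtain ⟨_, ⟨a, rfl⟩, hmax⟩ := Set.exists_max_image _ id (finite_range hx) (range_nonempty _)
  have hle : ∀ t, x t ≤ x a := fun t => hmax _ ⟨t, rfl⟩
  obtain ⟨J, hJ⟩ := local_form hx
  obtain ⟨m, c, _, hc⟩ := hJ a
  obtain ⟨⟨t₁, ht₁, hr₁⟩, ⟨t₂, ht₂, hr₂⟩⟩ := exists_rF_eq a m
  have h1 := hc t₁ ht₁
  have h2 := hc t₂ ht₂
  rw [hr₁] at h1
  rw [hr₂] at h2
  have h3 := hle t₁
  have h4 := hle t₂
  have hc0 : c = 0 := by linarith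
  refine ⟨a, m, fun t ht => ?_, hle⟩
  rw [hc t ht, hc0]
  ring

end Pool.Agent.Lib_helper53
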