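import Mathlib
import Pool.Agent.Lib_helper53.Defs
import Pool.Agent.Lib_helper53.Space

open Set Filter Topology Metric Cardinal

namespace Pool.Agent.Lib_helper53

open PiNat (res)

/-- first property of the set `A`: it meets the branches of every large Cantor scheme -/
def Prop1 (A : Set T) : Prop :=
  ∀ c : List Bool → List Bool, 𝔠 ≤ #{a : T | ∃ τ : T, ∀ n, a ∈ cyl (c (res τ n))} →
    (A ∩ {a : T | ∃ τ : T, ∀ n, a ∈ cyl (c (res τ n))}).Nonempty

/-- the supremum function -/
noncomputable def supF (x : B) : ℝ := ⨆ t, x t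

lemma bddAbove_range (x : B) : BddAbove (range fun t => x t) :=
  ⟨‖x‖, by rintro _ ⟨t, rfl⟩; exact (abs_le.mp (abs_apply_le x t)).2⟩

lemma le_supF (x : B) (t : T) : x t ≤ supF x := le_ciSup (bddAbove_range x) t

lemma supF_le {x : B} {C : ℝ} (h : ∀ t, x t ≤ C) : supF x ≤ C := ciSup_le h

lemma isClosed_cyl (s : List Bool) : IsClosed (cyl s) := by
  obtain ⟨a, ha⟩ := cyl_nonempty s
  rw [cyl_eq_of_mem ha]
  have : cyl (res a s.length) = PiNat.cylinder a s.length := by
    rw [PiNat.cylinder_eq_res]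
    ext t
    exact mem_cyl_res
  rw [this, PiNat.cylinder_eq_pi]
  exact isClosed_set_pi fun i _ => isClosed_singleton

/-- the density of `E0` in `EE` -/
lemma dense_E0 (A : Set T) : Dense {x : EE A | (x : B) ∈ E0 A} := by
  intro x
  rw [Metric.mem_closure_iff]
  intro ε hε
  obtain ⟨y, hy, hd⟩ := Metric.mem_closure_iff.mp
    (show (x : B) ∈ closure (E0 A : Set B) from x.2) ε hε
  exact ⟨⟨y, (E0 A).le_topologicalClosure hy⟩, hy, hd⟩

instance (A : Set T) : CompleteSpace (EE A) :=
  inferInstanceAs (CompleteSpace (E0 A).topologicalClosure)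

variable {A : Set T}

/-- `E`-version of the indicator -/
noncomputable def chiE (A : Set T) (s : List Bool) : EE A :=
  ⟨chiB s, (E0 A).le_topologicalClosure (chiB_mem_E0 A s)⟩

/-- `E`-version of `rB` -/
noncomputable def rE {a : T} (ha : a ∈ A) : EE A :=
  ⟨rB a, (E0 A).le_topologicalClosure (rB_mem_E0 ha)⟩

lemma norm_chiB_le (s : List Bool) : ‖chiB s‖ ≤ 1 := by
  classical
  refine norm_le_of zero_le_one fun t => ?_
  rw [chiB_apply]
  split_ifs <;> simp

/-- the data at a node of the scheme -/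
structure Nd (A : Set T) where
  x : EE A
  r : ℝ
  s : List Bool
  hx : (x : B) ∈ E0 A
  hr : 0 < r
  hmax : ∀ t ∈ cyl s, ∀ t', (x : B) t' ≤ (x : B) t

lemma nd_step (U : Set (EE A)) (hU : IsOpen U) (hUd : Dense U) (N : Nd A) (n : ℕ) (b : Bool) :
    ∃ M : Nd A, closedBall M.x M.r ⊆ ball N.x N.r ∩ U ∧ M.r ≤ (1 / 2) ^ n ∧
      cyl M.s ⊆ cyl (b :: N.s) := by
  have hρ : 0 < N.r / 2 := half_pos N.hr
  set ρ := N.r / 2 with hρdef
  set x₁ : EE A := N.x + ρ • chiE A (b :: N.s) with hx₁
  -- choose `y`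
  have hopen : IsOpen (U ∩ ball x₁ (ρ / 4)) := hU.inter isOpen_ball
  have hne : (U ∩ ball x₁ (ρ / 4)).Nonempty := by
    obtain ⟨z, hz1, hz2⟩ := hUd.inter_open_nonempty _ isOpen_ball
      ⟨x₁, mem_ball_self (show (0 : ℝ) < ρ / 4 by positivity)⟩
    exact ⟨z, hz2, hz1⟩
  obtain ⟨y, ⟨hyU, hyb⟩, hy0⟩ := (dense_E0 A).inter_open_nonempty _ hopen hne
  have hy0' : (y : B) ∈ E0 A := hy0
  obtain ⟨a, m, hconst, hmax⟩ := exists_max hy0'
  have hdist : ∀ t, |(y : B) t - (x₁ : B) t| < ρ / 4 := by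
    intro t
    rw [mem_ball, dist_eq_norm] at hyb
    refine lt_of_le_of_lt ?_ hyb
    exact abs_apply_le ((y : B) - (x₁ : B)) t
  have hx₁val : ∀ t, (x₁ : B) t = (N.x : B) t + ρ * chiB (b :: N.s) t := fun t => rfl
  classical
  -- `a` belongs to the child cylinder
  have ha : a ∈ cyl (b :: N.s) := by
    by_contra hcon
    obtain ⟨t₁, ht₁⟩ := cyl_nonempty (b :: N.s)
    have e1 := hdist t₁
    have e2 := hdist a
    rw [hx₁val, chiB_apply] at e1 e2
    rw [if_pos ht₁] at e1
    rw [if_neg hcon] at e2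
    have e3 := N.hmax t₁ (mem_cyl_cons.mp ht₁).2 a
    have e4 := hmax t₁
    rw [abs_lt] at e1 e2
    linarith [e1.1, e2.2]
  have hyball : y ∈ ball N.x N.r := by
    rw [mem_ball] at hyb ⊢
    have h1 : dist x₁ N.x ≤ ρ := by
      rw [hx₁, dist_eq_norm, add_sub_cancel_left, norm_smul, Real.norm_eq_abs, abs_of_pos hρ]
      have : ‖chiE A (b :: N.s)‖ ≤ 1 := norm_chiB_le _
      nlinarith
    have h2 := dist_triangle y x₁ N.x
    linarith
  obtain ⟨r', hr', hsub⟩ := Metric.nhds_basis_closedBall.mem_iff.mp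
    ((isOpen_ball.inter hU).mem_nhds ⟨hyball, hyU⟩)
  have hlen : (res a (max m (N.s.length + 1))).length = max m (N.s.length + 1) :=
    PiNat.res_length _ _
  refine ⟨⟨y, min r' ((1 / 2) ^ n), res a (max m (N.s.length + 1)), hy0',
    lt_min hr' (by positivity), ?_⟩, ?_, ?_, ?_⟩
  · intro t ht t'
    rw [mem_cyl_res] at ht
    rw [hconst t (res_eq_mono ht (le_max_left _ _))]
    exact hmax t'
  · exact (closedBall_subset_closedBall (min_le_left _ _)).trans hsub
  · exact min_le_right _ _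
  · have h1 : cyl (b :: N.s) = cyl (res a (N.s.length + 1)) := by
      rw [cyl_eq_of_mem ha]
      simp
    rw [h1]
    exact cyl_res_anti a (le_max_right _ _)

/-- if `x` is a limit of the scheme and `a` is its maximum point, then `x` is a point of
non-differentiability of the supremum function -/
lemma supF_add_ge {x : B} {a : T} (h : ∀ ε > 0, ∃ m, ∀ t, res t m = res a m → supF x - ε ≤ x t)
    (τ : ℝ) : supF x + |τ| ≤ supF (x + τ • rB a) := by
  refine le_of_forall_pos_le_add fun ε hε => ?_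
  obtain ⟨m, hm⟩ := h ε hε
  obtain ⟨⟨t₁, ht₁, hr₁⟩, ⟨t₂, ht₂, hr₂⟩⟩ := exists_rF_eq a m
  rcases le_total 0 τ with hτ | hτ
  · have h1 := le_supF (x + τ • rB a) t₁
    rw [B_add, B_smul, rB_apply, hr₁] at h1
    have h2 := hm t₁ ht₁
    rw [abs_of_nonneg hτ]
    linarith
  · have h1 := le_supF (x + τ • rB a) t₂
    rw [B_add, B_smul, rB_apply, hr₂] at h1
    have h2 := hm t₂ ht₂
    rw [abs_of_nonpos hτ]
    linarith

lemma convexOn_supF (A : Set T) : ConvexOn ℝ univ fun x : EE A => supF (x : B) := by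
  refine ⟨convex_univ, fun x _ y _ α β hα hβ _ => ?_⟩
  refine supF_le fun t => ?_
  have h1 : ((α • x + β • y : EE A) : B) t = α * (x : B) t + β * (y : B) t := rfl
  rw [h1]
  simp only [smul_eq_mul]
  gcongr
  · exact le_supF _ t
  · exact le_supF _ t

lemma supF_le_add (x y : B) : supF x ≤ supF y + ‖x - y‖ := by
  refine supF_le fun t => ?_
  have h1 := (abs_le.mp (abs_apply_le (x - y) t)).2
  rw [B_sub] at h1
  linarith [le_supF y t]

lemma continuous_supF (A : Set T) : Continuous fun x : EE A => supF (x : B) := by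
  have : LipschitzWith 1 fun x : EE A => supF (x : B) := by
    refine LipschitzWith.of_dist_le_mul fun x y => ?_
    rw [Real.dist_eq, NNReal.coe_one, one_mul, abs_le]
    have e : dist x y = ‖(x : B) - (y : B)‖ := dist_eq_norm _ _
    have e' : ‖(y : B) - (x : B)‖ = ‖(x : B) - (y : B)‖ := norm_sub_rev _ _
    have h1 := supF_le_add (x : B) (y : B)
    have h2 := supF_le_add (y : B) (x : B)
    constructor <;> linarith
  exact this.continuous

theorem not_weakAsplund (hA : Prop1 A) : ¬ IsWeakAsplund (EE A) := by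
  intro hWA
  obtain ⟨G, -, hGδ, hGd, hGdiff⟩ := hWA univ (fun x => supF (x : B)) univ_nonempty isOpen_univ
    (convexOn_supF A) (continuous_supF A).continuousOn
  obtain ⟨U, hU, rfl⟩ := isGδ_iff_eq_iInter_nat.mp hGδ
  have hUd : ∀ n, Dense (U n) := by
    intro n
    have : Dense (⋂ n, U n) := fun x => hGd (mem_univ x)
    exact this.mono (iInter_subset _ n)
  choose child hc1 hc2 hc3 using fun (N : Nd A) (n : ℕ) (b : Bool) =>
    nd_step (U n) (hU n) (hUd n) N n b
  let N₀ : Nd A := ⟨0, 1, [], Submodule.zero_mem _, one_pos, fun t _ t' => le_rfl⟩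
  let nd : List Bool → Nd A := fun l => List.rec N₀ (fun b l ih => child ih l.length b) l
  have nd_cons : ∀ b l, nd (b :: l) = child (nd l) l.length b := fun b l => rfl
  let S : List Bool → Set (EE A) := fun l => closedBall (nd l).x (nd l).r
  have hanti : CantorScheme.ClosureAntitone S := by
    intro l b
    rw [isClosed_closedBall.closure_eq, nd_cons]
    exact ((hc1 (nd l) l.length b).trans inter_subset_left).trans ball_subset_closedBall
  have hrle : ∀ (τ : T) (n : ℕ), (nd (res τ (n + 1))).r ≤ (1 / 2) ^ n := by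
    intro τ n
    rw [PiNat.res_succ, nd_cons]
    have := hc2 (nd (res τ n)) (res τ n).length (τ n)
    rwa [PiNat.res_length] at this ⊢
  have hrtends : ∀ τ : T, Tendsto (fun n => (nd (res τ n)).r) atTop (𝓝 0) := by
    intro τ
    rw [← tendsto_add_atTop_iff_nat 1]
    refine squeeze_zero (fun n => (nd (res τ (n + 1))).hr.le) (hrle τ) ?_
    exact tendsto_pow_atTop_nhds_zero_of_lt_one (by norm_num) (by norm_num)
  have hdiam : CantorScheme.VanishingDiam S := by
    intro τ
    have h1 : Tendsto (fun n => 2 * ENNReal.ofReal (nd (res τ n)).r) atTop (𝓝 0) := by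
      have h2 : Tendsto (fun n => ENNReal.ofReal (nd (res τ n)).r) atTop (𝓝 0) := by
        have := ENNReal.tendsto_ofReal (hrtends τ)
        rwa [ENNReal.ofReal_zero] at this
      have h3 := ENNReal.Tendsto.const_mul h2 (Or.inr (by simp : (2 : ENNReal) ≠ ⊤))
      rwa [mul_zero] at h3
    refine tendsto_of_tendsto_of_tendsto_of_le_of_le tendsto_const_nhds h1
      (fun n => bot_le) (fun n => ?_)
    simp only [S]
    rw [← Metric.closedEBall_ofReal (nd (res τ n)).hr.le]
    exact Metric.ediam_closedEBall_le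
  have hdom := CantorScheme.ClosureAntitone.map_of_vanishingDiam hdiam hanti
    fun l => ⟨(nd l).x, mem_closedBall_self (nd l).hr.le⟩
  -- the limit points
  have hpt : ∀ τ : T, ∃ x : EE A, ∀ n, x ∈ S (res τ n) := by
    intro τ
    have hτ : τ ∈ (CantorScheme.inducedMap S).1 := by rw [hdom]; exact mem_univ _
    exact ⟨_, CantorScheme.map_mem ⟨τ, hτ⟩⟩
  choose X hX using hpt
  -- cylinders shrink
  have hcylanti : ∀ (τ : T) (n : ℕ), cyl (nd (res τ (n + 1))).s ⊆ cyl (τ n :: (nd (res τ n)).s) := by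
    intro τ n
    rw [PiNat.res_succ, nd_cons]
    exact hc3 _ _ _
  have hcylne : ∀ τ : T, (⋂ n, cyl (nd (res τ n)).s).Nonempty := by
    intro τ
    refine IsCompact.nonempty_iInter_of_sequence_nonempty_isCompact_isClosed _ (fun n => ?_)
      (fun n => cyl_nonempty _) ((isClosed_cyl _).isCompact) (fun n => isClosed_cyl _)
    exact (hcylanti τ n).trans fun t ht => (mem_cyl_cons.mp ht).2
  choose a ha using hcylne
  have ha' : ∀ τ n, a τ ∈ cyl (nd (res τ n)).s := fun τ n => mem_iInter.mp (ha τ) n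
  have hainj : Function.Injective a := by
    intro τ τ' h
    apply PiNat.res_injective
    ext n : 1
    induction n with
    | zero => rfl
    | succ n ih =>
      have h1 := (mem_cyl_cons.mp (hcylanti τ n (ha' τ (n + 1)))).1
      have h2 := (mem_cyl_cons.mp (hcylanti τ' n (ha' τ' (n + 1)))).1
      rw [PiNat.res_succ, PiNat.res_succ, ih, ← h1, ← h2, h, ih]
  have hcard : 𝔠 ≤ #{b : T | ∃ τ : T, ∀ n, b ∈ cyl ((fun l => (nd l).s) (res τ n))} := by
    have h1 : #T = 𝔠 := by simp
    rw [← h1]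
    exact mk_le_of_injective (f := fun τ => (⟨a τ, τ, ha' τ⟩ :
      {b : T | ∃ τ : T, ∀ n, b ∈ cyl ((fun l => (nd l).s) (res τ n))}))
      fun τ τ' h => hainj (congrArg Subtype.val h)
  obtain ⟨b, hbA, τ, hb⟩ := hA (fun l => (nd l).s) hcard
  -- the point `X τ`
  have hXU : X τ ∈ ⋂ n, U n := by
    rw [mem_iInter]
    intro n
    have h1 := hX τ (n + 1)
    simp only [S] at h1
    rw [PiNat.res_succ, nd_cons] at h1
    have h2 := hc1 _ _ _ h1
    have h3 := h2.2
    rwa [PiNat.res_length] at h3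
  obtain ⟨φ, hφ⟩ := hGdiff (X τ) hXU
  have hnear : ∀ ε > 0, ∃ m, ∀ t, res t m = res b m → supF (X τ : B) - ε ≤ (X τ : B) t := by
    intro ε hε
    obtain ⟨n, hn⟩ := ((hrtends τ).eventually (gt_mem_nhds (half_pos hε))).exists
    refine ⟨(nd (res τ n)).s.length, fun t ht => ?_⟩
    have hbn := hb n
    have htc : t ∈ cyl (nd (res τ n)).s := by
      rw [mem_cyl] at hbn ⊢
      rw [ht, hbn]
    have hd := hX τ n
    simp only [S] at hd
    rw [mem_closedBall, dist_eq_norm] at hd
    have hpt : ∀ t', |(X τ : B) t' - ((nd (res τ n)).x : B) t'| ≤ (nd (res τ n)).r := fun t' =>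
      (abs_apply_le ((X τ : B) - ((nd (res τ n)).x : B)) t').trans hd
    have h1 : supF (X τ : B) ≤ ((nd (res τ n)).x : B) t + (nd (res τ n)).r := by
      refine supF_le fun t' => ?_
      have h2 := (abs_le.mp (hpt t')).2
      have h3 := (nd (res τ n)).hmax t htc t'
      linarith
    have h4 := (abs_le.mp (hpt t)).1
    linarith
  have hlim := hφ (rE hbA)
  have hval : ∀ t : ℝ, supF (X τ : B) + |t| ≤ supF ((X τ + t • rE hbA : EE A) : B) := fun t =>
    supF_add_ge hnear t
  have hpos : (1 : ℝ) ≤ φ (rE hbA) := by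
    have h1 : Tendsto (fun t : ℝ => (supF ((X τ + t • rE hbA : EE A) : B) - supF (X τ : B)) / t)
        (𝓝[>] 0) (𝓝 (φ (rE hbA))) := hlim.mono_left (nhdsWithin_mono _ fun t ht => ne_of_gt ht)
    refine ge_of_tendsto h1 ?_
    filter_upwards [self_mem_nhdsWithin] with t ht
    rw [le_div_iff₀ ht]
    have := hval t
    rw [abs_of_pos ht] at this
    linarith
  have hneg : φ (rE hbA) ≤ -1 := by
    have h1 : Tendsto (fun t : ℝ => (supF ((X τ + t • rE hbA : EE A) : B) - supF (X τ : B)) / t)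
        (𝓝[<] 0) (𝓝 (φ (rE hbA))) := hlim.mono_left (nhdsWithin_mono _ fun t ht => ne_of_lt ht)
    refine le_of_tendsto h1 ?_
    filter_upwards [self_mem_nhdsWithin] with t ht
    have ht' : t < 0 := ht
    rw [div_le_iff_of_neg ht']
    have := hval t
    rw [abs_of_neg ht'] at this
    linarith
  linarith

end Pool.Agent.Lib_helper53
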