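import Mathlib
import Pool.Agent.Lib_helper53.DirDeriv
import Pool.Agent.Lib_helper53.NonWA

open Set Filter Topology Metric

namespace Pool.Agent.Lib_helper53

open PiNat (res)

variable {A : Set T}

/-- restriction to a cylinder, as an operator on `EE A` -/
noncomputable def PE (s : List Bool) : EE A →ₗ[ℝ] EE A :=
  (restr s).restrict fun _ hx => restr_mem_EE s hx

lemma PE_apply (s : List Bool) (x : EE A) (t : T) : (PE s x : B) t = restr s (x : B) t := rfl

lemma EE_ext {x y : EE A} (h : ∀ t, (x : B) t = (y : B) t) : x = y :=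
  Subtype.ext (B_ext h)

lemma EE_norm_le {x : EE A} {C : ℝ} (hC : 0 ≤ C) (h : ∀ t, |(x : B) t| ≤ C) : ‖x‖ ≤ C :=
  norm_le_of hC h

lemma EE_abs_le (x : EE A) (t : T) : |(x : B) t| ≤ ‖x‖ := abs_apply_le (x : B) t

lemma PE_nil (x : EE A) : PE [] x = x :=
  EE_ext fun t => by rw [PE_apply, restr_of_mem (mem_cyl_nil t)]

lemma PE_PE {s s' : List Bool} (h : cyl s' ⊆ cyl s) (x : EE A) : PE s (PE s' x) = PE s' x := by
  refine EE_ext fun t => ?_
  rw [PE_apply]
  by_cases ht : t ∈ cyl s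
  · rw [restr_of_mem ht]
  · rw [restr_of_notMem ht, PE_apply, restr_of_notMem fun e => ht (h e)]

lemma PE_mono {s s' : List Bool} (h : cyl s' ⊆ cyl s) {g : EE A} (hg : PE s' g = g) :
    PE s g = g := by
  rw [← hg, PE_PE h]

lemma PE_zero_off {s : List Bool} {g : EE A} (hg : PE s g = g) {t : T} (ht : t ∉ cyl s) :
    (g : B) t = 0 := by
  rw [← hg, PE_apply, restr_of_notMem ht]

lemma norm_swap {s : List Bool} {g h : EE A} (hh : ‖h‖ ≤ 1) (hg : ‖g‖ ≤ 1) (hsg : PE s g = g) :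
    ‖h - PE s h + g‖ ≤ 1 := by
  refine EE_norm_le zero_le_one fun t => ?_
  have e : ((h - PE s h + g : EE A) : B) t = (h : B) t - (PE s h : B) t + (g : B) t := rfl
  rw [e]
  by_cases ht : t ∈ cyl s
  · rw [PE_apply, restr_of_mem ht, sub_self, zero_add]
    exact (EE_abs_le g t).trans hg
  · rw [PE_apply, restr_of_notMem ht, sub_zero, PE_zero_off hsg ht, add_zero]
    exact (EE_abs_le h t).trans hh

lemma EE_sum_apply {ι : Type*} (S : Finset ι) (x : ι → EE A) (t : T) :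
    ((∑ i ∈ S, x i : EE A) : B) t = ∑ i ∈ S, (x i : B) t := by
  rw [Submodule.coe_sum, B_sum]

lemma norm_sum_PE_le {S : Finset (List Bool)} {m : ℕ} (hS : ∀ s ∈ S, s.length = m) {h : EE A}
    (hh : ‖h‖ ≤ 1) : ‖∑ s ∈ S, PE s h‖ ≤ 1 := by
  classical
  refine EE_norm_le zero_le_one fun t => ?_
  rw [EE_sum_apply]
  by_cases hmem : res t m ∈ S
  · rw [Finset.sum_eq_single_of_mem _ hmem, PE_apply, restr_of_mem (self_mem_cyl t m)]
    · exact (EE_abs_le h t).trans hh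
    · intro s hs hne
      rw [PE_apply, restr_of_notMem]
      intro ht
      exact hne (eq_of_mem_cyl (by rw [hS s hs, PiNat.res_length]) ht (self_mem_cyl t m))
  · rw [Finset.sum_eq_zero]
    · simp
    · intro s hs
      rw [PE_apply, restr_of_notMem]
      intro ht
      apply hmem
      have := eq_of_mem_cyl (by rw [hS s hs, PiNat.res_length]) ht (self_mem_cyl t m)
      rwa [← this]

lemma PE_sum {S : Finset (List Bool)} {s : List Bool} (hS : ∀ s' ∈ S, cyl s' ⊆ cyl s)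
    (h : EE A) : PE s (∑ s' ∈ S, PE s' h) = ∑ s' ∈ S, PE s' h := by
  rw [map_sum]
  exact Finset.sum_congr rfl fun s' hs' => PE_PE (hS s' hs') h

lemma PE_chiE (s : List Bool) : PE s (chiE A s) = chiE A s := by
  refine EE_ext fun t => ?_
  rw [PE_apply]
  classical
  by_cases ht : t ∈ cyl s
  · rw [restr_of_mem ht]
  · rw [restr_of_notMem ht]
    change (0 : ℝ) = chiB s t
    rw [chiB_apply, if_neg ht]

lemma norm_chiE_le (s : List Bool) : ‖chiE A s‖ ≤ 1 := norm_chiB_le s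

lemma norm_rE_le {a : T} (ha : a ∈ A) : ‖rE ha‖ ≤ 1 :=
  EE_norm_le zero_le_one fun t => abs_rF_le a t

/-- elements of the dense subspace are constant on small cylinders around all but finitely many
points -/
lemma exists_jumps {h : EE A} (hh : (h : B) ∈ E0 A) :
    ∃ J : Finset T, ∀ a ∉ J, ∃ m₀, ∀ m ≥ m₀, PE (res a m) h = ((h : B) a) • chiE A (res a m) := by
  obtain ⟨J, hJ⟩ := local_form hh
  refine ⟨J, fun a ha => ?_⟩
  obtain ⟨m₀, c, hc, hform⟩ := hJ a
  refine ⟨m₀, fun m hm => EE_ext fun t => ?_⟩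
  rw [PE_apply]
  change _ = (h : B) a * chiB (res a m) t
  classical
  rw [chiB_apply]
  by_cases ht : t ∈ cyl (res a m)
  · rw [restr_of_mem ht, if_pos ht, mul_one, hform t (res_eq_mono (mem_cyl_res.mp ht) hm), hc ha]
    ring
  · rw [restr_of_notMem ht, if_neg ht, mul_zero]

lemma mem_span_chiE {x : EE A} (hx : (x : B) ∈ Submodule.span ℝ (range chiB)) :
    x ∈ Submodule.span ℝ (range (chiE A)) := by
  have h1 : (range chiB : Set B) = (EE A).subtype '' range (chiE A) := by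
    ext y
    constructor
    · rintro ⟨s, rfl⟩
      exact ⟨chiE A s, ⟨s, rfl⟩, rfl⟩
    · rintro ⟨_, ⟨s, rfl⟩, rfl⟩
      exact ⟨s, rfl⟩
  rw [h1, Submodule.span_image] at hx
  obtain ⟨y, hy, hyx⟩ := hx
  have : y = x := Subtype.ext hyx
  rwa [← this]

lemma rE_sub_PE_mem {a : T} (ha : a ∈ A) (m : ℕ) :
    rE ha - PE (res a m) (rE ha) ∈ Submodule.span ℝ (range (chiE A)) :=
  mem_span_chiE (rB_sub_restr_mem a m)

/-- the generating set of `EE A` -/
def genE (A : Set T) : Set (EE A) := range (chiE A) ∪ {x | ∃ (a : T) (ha : a ∈ A), x = rE ha}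

lemma dense_span_genE (A : Set T) : Dense (Submodule.span ℝ (genE A) : Set (EE A)) := by
  refine (dense_E0 A).mono fun x hx => ?_
  have hx' : (x : B) ∈ Submodule.span ℝ (range chiB ∪ rB '' A) := hx
  have h1 : (range chiB ∪ rB '' A : Set B) = (EE A).subtype '' genE A := by
    ext y
    constructor
    · rintro (⟨s, rfl⟩ | ⟨a, ha, rfl⟩)
      · exact ⟨chiE A s, Or.inl ⟨s, rfl⟩, rfl⟩
      · exact ⟨rE ha, Or.inr ⟨a, ha, rfl⟩, rfl⟩
    · rintro ⟨_, (⟨s, rfl⟩ | ⟨a, ha, rfl⟩), rfl⟩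
      · exact Or.inl ⟨s, rfl⟩
      · exact Or.inr ⟨a, ha, rfl⟩
  rw [h1, Submodule.span_image] at hx'
  obtain ⟨y, hy, hyx⟩ := hx'
  have : y = x := Subtype.ext hyx
  rw [← this]
  exact hy

/-- approximation inside the unit ball -/
lemma approx_ball (g : EE A) (hg : ‖g‖ ≤ 1) {η : ℝ} (hη : 0 < η) :
    ∃ g' : EE A, (g' : B) ∈ E0 A ∧ ‖g'‖ ≤ 1 ∧ ‖g - g'‖ < η := by
  set δ := η / 3 with hδ
  have hδp : 0 < δ := by positivity
  obtain ⟨g₁, hg₁, hd⟩ := Metric.dense_iff.mp (dense_E0 A) g δ hδp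
  rw [mem_ball, dist_eq_norm] at hg₁
  have hn : ‖g₁‖ ≤ 1 + δ := by
    have : ‖g₁‖ ≤ ‖g₁ - g‖ + ‖g‖ := by
      calc ‖g₁‖ = ‖(g₁ - g) + g‖ := by rw [sub_add_cancel]
        _ ≤ _ := norm_add_le _ _
    linarith
  have hpos : 0 < 1 + δ := by positivity
  refine ⟨(1 + δ)⁻¹ • g₁, Submodule.smul_mem _ _ hd, ?_, ?_⟩
  · rw [norm_smul, Real.norm_eq_abs, abs_of_pos (inv_pos.mpr hpos), inv_mul_le_iff₀ hpos]
    linarith
  · have h1 : g - (1 + δ)⁻¹ • g₁ = (g - g₁) + (1 - (1 + δ)⁻¹) • g₁ := by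
      rw [sub_smul, one_smul]; abel
    rw [h1]
    refine (norm_add_le _ _).trans_lt ?_
    have h2 : 0 ≤ 1 - (1 + δ)⁻¹ := by
      rw [sub_nonneg]
      exact inv_le_one_of_one_le₀ (by linarith)
    rw [norm_smul, Real.norm_eq_abs, abs_of_nonneg h2, norm_sub_rev]
    have h3 : (1 - (1 + δ)⁻¹) * ‖g₁‖ ≤ δ := by
      calc (1 - (1 + δ)⁻¹) * ‖g₁‖ ≤ (1 - (1 + δ)⁻¹) * (1 + δ) := by gcongr
        _ = δ := by field_simp; ring
    have : η = 3 * δ := by rw [hδ]; ring
    linarith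

section Mass

variable {Z : Type*} [NormedAddCommGroup Z] [NormedSpace ℝ Z]

/-- upper bounds near `z` for the directional derivatives in directions supported in the
cylinder `s` -/
def NSet (f : Z → ℝ) (j : EE A →L[ℝ] Z) (z : Z) (s : List Bool) : Set ℝ :=
  {c | ∃ r > 0, ∀ w ∈ ball z r, ∀ g : EE A, ‖g‖ ≤ 1 → PE s g = g → dd f w (j g) ≤ c}

/-- local Lipschitz constant at `z` in the directions supported in the cylinder `s` -/
noncomputable def N (f : Z → ℝ) (j : EE A →L[ℝ] Z) (z : Z) (s : List Bool) : ℝ :=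
  sInf (NSet f j z s)

variable {f : Z → ℝ} {K : NNReal} {j : EE A →L[ℝ] Z}

lemma dd_j_le (hL : LipschitzWith K f) (w : Z) {g : EE A} (hg : ‖g‖ ≤ 1) :
    dd f w (j g) ≤ K * ‖j‖ := by
  refine (dd_le hL w _).trans ?_
  gcongr
  calc ‖j g‖ ≤ ‖j‖ * ‖g‖ := j.le_opNorm g
    _ ≤ ‖j‖ * 1 := by gcongr
    _ = ‖j‖ := mul_one _

lemma bound_mem_NSet (hL : LipschitzWith K f) (z : Z) (s : List Bool) :
    K * ‖j‖ ∈ NSet f j z s :=
  ⟨1, one_pos, fun w _ _ hg _ => dd_j_le hL w hg⟩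

lemma NSet_nonneg (hL : LipschitzWith K f) {z : Z} {s : List Bool} {c : ℝ}
    (hc : c ∈ NSet f j z s) : 0 ≤ c := by
  obtain ⟨r, hr, H⟩ := hc
  have := H z (mem_ball_self hr) 0 (by simp) (map_zero _)
  rwa [map_zero, dd_zero hL] at this

lemma NSet_bddBelow (hL : LipschitzWith K f) (z : Z) (s : List Bool) :
    BddBelow (NSet f j z s) := ⟨0, fun _ hc => NSet_nonneg hL hc⟩

lemma NSet_up {z : Z} {s : List Bool} {c c' : ℝ} (hc : c ∈ NSet f j z s) (h : c ≤ c') :
    c' ∈ NSet f j z s := by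
  obtain ⟨r, hr, H⟩ := hc
  exact ⟨r, hr, fun w hw g hg hs => (H w hw g hg hs).trans h⟩

lemma N_lt (hL : LipschitzWith K f) {z : Z} {s : List Bool} {c : ℝ} (h : N f j z s < c) :
    c ∈ NSet f j z s := by
  obtain ⟨c', hc', hlt⟩ := exists_lt_of_csInf_lt ⟨_, bound_mem_NSet hL z s⟩ h
  exact NSet_up hc' hlt.le

lemma N_le (hL : LipschitzWith K f) {z : Z} {s : List Bool} {c : ℝ} (h : c ∈ NSet f j z s) :
    N f j z s ≤ c := csInf_le (NSet_bddBelow hL z s) h

lemma N_nonneg (hL : LipschitzWith K f) (z : Z) (s : List Bool) : 0 ≤ N f j z s :=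
  le_csInf ⟨_, bound_mem_NSet hL z s⟩ fun _ hc => NSet_nonneg hL hc

lemma N_le_bound (hL : LipschitzWith K f) (z : Z) (s : List Bool) : N f j z s ≤ K * ‖j‖ :=
  N_le hL (bound_mem_NSet hL z s)

lemma le_N (hL : LipschitzWith K f) (z : Z) {s : List Bool} {g : EE A} (hg : ‖g‖ ≤ 1)
    (hs : PE s g = g) : dd f z (j g) ≤ N f j z s := by
  refine le_csInf ⟨_, bound_mem_NSet hL z s⟩ ?_
  rintro c ⟨r, hr, H⟩
  exact H z (mem_ball_self hr) g hg hs

lemma N_mono (hL : LipschitzWith K f) (z : Z) {s s' : List Bool} (h : cyl s' ⊆ cyl s) :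
    N f j z s' ≤ N f j z s := by
  refine le_csInf ⟨_, bound_mem_NSet hL z s⟩ ?_
  rintro c ⟨r, hr, H⟩
  exact N_le hL ⟨r, hr, fun w hw g hg hs => H w hw g hg (PE_mono h hs)⟩

lemma N_anti (hL : LipschitzWith K f) (z : Z) (a : T) {m n : ℕ} (h : m ≤ n) :
    N f j z (res a n) ≤ N f j z (res a m) := N_mono hL z (cyl_res_anti a h)

lemma isOpen_N_lt (hL : LipschitzWith K f) (s : List Bool) (c : ℝ) :
    IsOpen {z | N f j z s < c} := by
  rw [Metric.isOpen_iff]
  intro z hz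
  obtain ⟨c', h1, h2⟩ := exists_between (show N f j z s < c from hz)
  obtain ⟨r, hr, H⟩ := N_lt hL h1
  refine ⟨r, hr, fun z' hz' => ?_⟩
  refine lt_of_le_of_lt (N_le hL ⟨r - dist z' z, sub_pos.mpr hz', fun w hw g hg hs => ?_⟩) h2
  refine H w ?_ g hg hs
  rw [mem_ball] at hw ⊢
  have := dist_triangle w z' z
  linarith

lemma upperSemi_N (hL : LipschitzWith K f) (s : List Bool) :
    UpperSemicontinuous fun z => N f j z s := by
  intro z c hc
  exact (isOpen_N_lt hL s c).mem_nhds hc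

lemma isOpen_align (hL : LipschitzWith K f) (h : EE A) (c : ℝ) :
    IsOpen {z | dd f z (-(j h)) + N f j z [] < c} := by
  have := (upperSemi_dd hL (-(j h))).add (upperSemi_N (j := j) hL [])
  exact upperSemicontinuous_iff_isOpen_preimage.mp this c

/-- the basic inequality: masses are seen by an aligned direction -/
lemma N_le_aligned (hf : ConvexOn ℝ univ f) (hL : LipschitzWith K f) (z : Z) {h : EE A}
    (hh : ‖h‖ ≤ 1) (s : List Bool) :
    N f j z s ≤ N f j z [] + dd f z (-(j h)) + dd f z (j (PE s h)) := by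
  refine le_of_forall_pos_le_add fun ε hε => ?_
  have hε3 : 0 < ε / 3 := by positivity
  obtain ⟨r₁, hr₁, H₁⟩ := N_lt hL (lt_add_of_pos_right (N f j z []) hε3)
  obtain ⟨r₂, hr₂, H₂⟩ := Metric.isOpen_iff.mp (isOpen_dd_lt hL (-(j h)) (dd f z (-(j h)) + ε / 3))
    z (lt_add_of_pos_right _ hε3)
  obtain ⟨r₃, hr₃, H₃⟩ := Metric.isOpen_iff.mp
    (isOpen_dd_lt hL (j (PE s h)) (dd f z (j (PE s h)) + ε / 3)) z (lt_add_of_pos_right _ hε3)
  refine N_le hL ⟨min r₁ (min r₂ r₃), lt_min hr₁ (lt_min hr₂ hr₃), fun w hw g hg hs => ?_⟩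
  have hw1 : w ∈ ball z r₁ := ball_subset_ball (min_le_left _ _) hw
  have hw2 : w ∈ ball z r₂ :=
    ball_subset_ball ((min_le_right _ _).trans (min_le_left _ _)) hw
  have hw3 : w ∈ ball z r₃ :=
    ball_subset_ball ((min_le_right _ _).trans (min_le_right _ _)) hw
  have e : j g = j (h - PE s h + g) + (-(j h) + j (PE s h)) := by
    rw [map_add, map_sub]; abel
  have h1 := H₁ w hw1 (h - PE s h + g) (norm_swap hh hg hs) (PE_nil _)
  have h2 : dd f w (-(j h)) < dd f z (-(j h)) + ε / 3 := H₂ hw2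
  have h3 : dd f w (j (PE s h)) < dd f z (j (PE s h)) + ε / 3 := H₃ hw3
  have h4 := dd_add_le hf hL w (j (h - PE s h + g)) (-(j h) + j (PE s h))
  have h5 := dd_add_le hf hL w (-(j h)) (j (PE s h))
  rw [e]
  linarith

/-- the open dense sets of good points -/
def OO (f : Z → ℝ) (j : EE A →L[ℝ] Z) (δ : ℝ) (n : ℕ) : Set Z :=
  {z | ∃ h : EE A, (h : B) ∈ E0 A ∧ ‖h‖ ≤ 1 ∧ dd f z (-(j h)) + N f j z [] < δ ∧
    ∀ s : List Bool, s.length ≤ n → dd f z (j (PE s h)) + dd f z (-(j (PE s h))) < δ}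

lemma isOpen_OO (hL : LipschitzWith K f) (δ : ℝ) (n : ℕ) : IsOpen (OO f j δ n) := by
  have : OO f j δ n = ⋃ h ∈ {h : EE A | (h : B) ∈ E0 A ∧ ‖h‖ ≤ 1},
      ({z | dd f z (-(j h)) + N f j z [] < δ} ∩ ⋂ s ∈ {s : List Bool | s.length ≤ n},
        {z | dd f z (j (PE s h)) + dd f z (-(j (PE s h))) < δ}) := by
    ext z
    simp only [OO, mem_ofPred_eq, mem_iUnion, mem_inter_iff, mem_iInter, exists_prop, and_assoc]
  rw [this]
  refine isOpen_biUnion fun h _ => (isOpen_align hL h δ).inter ?_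
  exact (List.finite_length_le Bool n).isOpen_biInter fun s _ => isOpen_dd_add_lt hL _ _ δ

lemma dense_OO [CompleteSpace Z] (hf : ConvexOn ℝ univ f) (hL : LipschitzWith K f) {δ : ℝ}
    (hδ : 0 < δ) (n : ℕ) : Dense (OO f j δ n) := by
  rw [dense_iff_inter_open]
  intro U hU hne
  -- near-maximal slope
  set S : Set ℝ := {c | ∃ w ∈ U, ∃ g : EE A, ‖g‖ ≤ 1 ∧ c = dd f w (j g)} with hS
  have hSne : S.Nonempty := by
    obtain ⟨w, hw⟩ := hne
    exact ⟨_, w, hw, 0, by simp, rfl⟩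
  have hSb : BddAbove S := ⟨K * ‖j‖, by
    rintro _ ⟨w, _, g, hg, rfl⟩
    exact dd_j_le hL w hg⟩
  have hδ3 : 0 < δ / 3 := by positivity
  obtain ⟨_, ⟨w, hw, g, hg, rfl⟩, hlt⟩ := exists_lt_of_lt_csSup hSne (sub_lt_self (sSup S) hδ3)
  set C : ℝ := K * ‖j‖ with hC
  have hC0 : 0 ≤ C := by positivity
  obtain ⟨h, hh0, hh1, hgh⟩ := approx_ball g hg (η := δ / (3 * (C + 1))) (by positivity)
  have hslope : sSup S - 2 * δ / 3 < dd f w (j h) := by
    have h1 := dd_le_dd_add hf hL w (j g) (j h)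
    have h2 : ‖j g - j h‖ ≤ ‖j‖ * ‖g - h‖ := by
      rw [← map_sub]; exact j.le_opNorm _
    have h3 : K * ‖j g - j h‖ ≤ C * ‖g - h‖ := by
      calc (K : ℝ) * ‖j g - j h‖ ≤ K * (‖j‖ * ‖g - h‖) := by gcongr
        _ = _ := by rw [hC]; ring
    have h4 : C * ‖g - h‖ ≤ δ / 3 := by
      calc C * ‖g - h‖ ≤ C * (δ / (3 * (C + 1))) := by gcongr
        _ = (C / (C + 1)) * (δ / 3) := by field_simp
        _ ≤ 1 * (δ / 3) := by
            gcongr
            rw [div_le_one (by positivity)]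
            linarith
        _ = δ / 3 := one_mul _
    linarith
  -- move a little
  obtain ⟨t, ht, htU⟩ : ∃ t : ℝ, 0 < t ∧ w + t • j h ∈ U := by
    have hcont : Tendsto (fun t : ℝ => w + t • j h) (𝓝[>] 0) (𝓝 w) := by
      have h1 : Continuous fun t : ℝ => w + t • j h := by fun_prop
      have h2 := h1.tendsto 0
      rw [zero_smul, add_zero] at h2
      exact h2.mono_left nhdsWithin_le_nhds
    have := (hcont.eventually (hU.mem_nhds hw)).and self_mem_nhdsWithin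
    obtain ⟨t, ht1, ht2⟩ := this.exists
    exact ⟨t, ht2, ht1⟩
  set x := w + t • j h with hx
  have hNx : ∀ y ∈ U, N f j y [] ≤ sSup S := by
    intro y hy
    obtain ⟨r, hr, hball⟩ := Metric.isOpen_iff.mp hU y hy
    exact N_le hL ⟨r, hr, fun w' hw' g' hg' _ => le_csSup hSb ⟨w', hball hw', g', hg', rfl⟩⟩
  have halign : dd f x (-(j h)) + N f j x [] < δ := by
    have h1 := dd_le_neg_dd hL w (j h) ht
    have h2 := hNx x htU
    rw [← hx] at h1
    linarith
  -- refine to get symmetric derivatives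
  set V := U ∩ {z | dd f z (-(j h)) + N f j z [] < δ} with hV
  have hVo : IsOpen V := hU.inter (isOpen_align hL h δ)
  have hdense : Dense (⋂ s : List Bool,
      {z | dd f z (j (PE s h)) + dd f z (-(j (PE s h))) < δ}) :=
    dense_iInter_of_isOpen (fun s => isOpen_dd_add_lt hL _ _ δ)
      fun s => dense_dd_add_lt hL _ hδ
  obtain ⟨y, hyV, hy⟩ := hdense.inter_open_nonempty V hVo ⟨x, htU, halign⟩
  rw [mem_iInter] at hy
  exact ⟨y, hyV.1, h, hh0, hh1, hyV.2, fun s _ => hy s⟩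

/-- generic points -/
def Gen (f : Z → ℝ) (j : EE A →L[ℝ] Z) : Set Z := ⋂ n : ℕ, OO f j (1 / ((n : ℝ) + 1)) n

lemma dense_Gen [CompleteSpace Z] (hf : ConvexOn ℝ univ f) (hL : LipschitzWith K f) :
    Dense (Gen f j) :=
  dense_iInter_of_isOpen (fun n => isOpen_OO hL _ n) fun n => dense_OO hf hL (by positivity) n

lemma dd_sum_le (hf : ConvexOn ℝ univ f) (hL : LipschitzWith K f) (z : Z) {ι : Type*}
    (S : Finset ι) (k : ι → Z) : dd f z (∑ i ∈ S, k i) ≤ ∑ i ∈ S, dd f z (k i) := by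
  classical
  induction S using Finset.induction_on with
  | empty => simp [dd_zero hL]
  | insert i S hi ih =>
    rw [Finset.sum_insert hi, Finset.sum_insert hi]
    exact (dd_add_le hf hL z _ _).trans (by gcongr)

/-- additivity of masses at generic points -/
lemma sum_N_le (hf : ConvexOn ℝ univ f) (hL : LipschitzWith K f) {z : Z} (hz : z ∈ Gen f j)
    {S : Finset (List Bool)} {m : ℕ} {s : List Bool} (hS : ∀ s' ∈ S, s'.length = m)
    (hS' : ∀ s' ∈ S, cyl s' ⊆ cyl s) : ∑ s' ∈ S, N f j z s' ≤ N f j z s := by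
  refine le_of_forall_pos_le_add fun ε hε => ?_
  obtain ⟨n, hn⟩ := exists_nat_gt ((2 * (S.card : ℝ)) / ε)
  set k := max n m with hk
  obtain ⟨h, _, hh, halign, hsym⟩ := mem_iInter.mp hz k
  set δ : ℝ := 1 / ((k : ℝ) + 1) with hδ
  have hδε : 2 * (S.card : ℝ) * δ ≤ ε := by
    rw [hδ, mul_one_div, div_le_iff₀ (by positivity)]
    rw [div_lt_iff₀ hε] at hn
    have : (n : ℝ) ≤ k := by exact_mod_cast le_max_left n m
    nlinarith
  have h1 : ∀ s' ∈ S, N f j z s' ≤ -dd f z (-(j (PE s' h))) + 2 * δ := by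
    intro s' hs'
    have e1 := N_le_aligned (j := j) hf hL z hh s'
    have e2 := hsym s' (by rw [hS s' hs']; exact le_max_right _ _)
    linarith
  have h2 := Finset.sum_le_sum h1
  rw [Finset.sum_add_distrib, Finset.sum_const, nsmul_eq_mul, Finset.sum_neg_distrib] at h2
  have h3 := dd_sum_le hf hL z S fun s' => -(j (PE s' h))
  rw [Finset.sum_neg_distrib, ← map_sum] at h3
  have h4 := dd_neg_le hf hL z (j (∑ s' ∈ S, PE s' h))
  have h5 := le_N (j := j) hL z (norm_sum_PE_le hS hh) (PE_sum hS' h)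
  have h6 : (S.card : ℝ) * (2 * δ) = 2 * (S.card : ℝ) * δ := by ring
  linarith

end Mass

end Pool.Agent.Lib_helper53
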