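import Mathlib
import Pool.Agent.Lib_helper53.Mass

open Set Filter Topology Metric

namespace Pool.Agent.Lib_helper53

open PiNat (res)

variable {A : Set T}
variable {Z : Type*} [NormedAddCommGroup Z] [NormedSpace ℝ Z]
variable {f : Z → ℝ} {K : NNReal} {j : EE A →L[ℝ] Z}

lemma cyl_res_eq_cylinder (a : T) (m : ℕ) : cyl (res a m) = PiNat.cylinder a m := by
  rw [PiNat.cylinder_eq_res]
  ext t
  exact mem_cyl_res

lemma isOpen_cyl_res (a : T) (m : ℕ) : IsOpen (cyl (res a m)) := by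
  rw [cyl_res_eq_cylinder]
  exact PiNat.isOpen_cylinder _ a m

/-- finitely many points are separated at some level -/
lemma exists_sep (F : Finset T) (m₀ : ℕ) :
    ∃ m ≥ m₀, ∀ a ∈ F, ∀ b ∈ F, res a m = res b m → a = b := by
  classical
  have h1 : ∀ a b : T, ∃ m, res a m = res b m → a = b := by
    intro a b
    by_cases hab : a = b
    · exact ⟨0, fun _ => hab⟩
    · by_contra hcon
      push Not at hcon
      exact hab (PiNat.res_injective (funext fun m => (hcon m).1))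
  choose M hM using h1
  set m := max m₀ ((F ×ˢ F).sup fun p => M p.1 p.2) with hm
  refine ⟨m, le_max_left _ _, fun a ha b hb hab => ?_⟩
  apply hM a b
  refine res_eq_mono hab ?_
  refine le_trans ?_ (le_max_right _ _)
  exact Finset.le_sup (f := fun p : T × T => M p.1 p.2) (Finset.mk_mem_product ha hb)

/-- the points carrying mass at least `ε` -/
def At (f : Z → ℝ) (j : EE A →L[ℝ] Z) (z : Z) (ε : ℝ) : Set T :=
  {a | ∀ m, ε ≤ N f j z (res a m)}

/-- sum of masses over separated points -/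
lemma sum_N_points_le (hf : ConvexOn ℝ univ f) (hL : LipschitzWith K f) {z : Z}
    (hz : z ∈ Gen f j) {F : Finset T} {m : ℕ} {s : List Bool}
    (hsep : ∀ a ∈ F, ∀ b ∈ F, res a m = res b m → a = b)
    (hsub : ∀ a ∈ F, cyl (res a m) ⊆ cyl s) :
    ∑ a ∈ F, N f j z (res a m) ≤ N f j z s := by
  classical
  have h1 : ∑ s' ∈ F.image fun a => res a m, N f j z s' ≤ N f j z s := by
    refine sum_N_le hf hL hz (m := m) (fun s' hs' => ?_) (fun s' hs' => ?_)
    · obtain ⟨a, _, rfl⟩ := Finset.mem_image.mp hs'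
      exact PiNat.res_length a m
    · obtain ⟨a, ha, rfl⟩ := Finset.mem_image.mp hs'
      exact hsub a ha
  rwa [Finset.sum_image fun a ha b hb h => hsep a ha b hb h] at h1

lemma finite_At (hf : ConvexOn ℝ univ f) (hL : LipschitzWith K f) {z : Z}
    (hz : z ∈ Gen f j) {ε : ℝ} (hε : 0 < ε) : (At f j z ε).Finite := by
  by_contra hinf
  obtain ⟨n, hn⟩ := exists_nat_gt ((K * ‖j‖) / ε)
  obtain ⟨F, hF, hcard⟩ := Set.Infinite.exists_subset_card_eq hinf n
  obtain ⟨m, -, hm⟩ := exists_sep F 0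
  have h1 := sum_N_points_le hf hL hz hm (s := []) fun a _ t _ => mem_cyl_nil t
  have h2 : ∑ a ∈ F, ε ≤ ∑ a ∈ F, N f j z (res a m) :=
    Finset.sum_le_sum fun a ha => hF ha m
  rw [Finset.sum_const, hcard, nsmul_eq_mul] at h2
  have h3 := N_le_bound (j := j) hL z []
  rw [div_lt_iff₀ hε] at hn
  linarith

/-- certified lower bounds for the masses on an open set -/
def Cert (f : Z → ℝ) (j : EE A →L[ℝ] Z) (ε : ℝ) (V : Set Z) (c : T →₀ ℕ) : Prop :=
  ∀ z ∈ V, ∀ (a : T) (m : ℕ), (c a : ℝ) * ε ≤ N f j z (res a m)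

lemma cert_bound [CompleteSpace Z] (hf : ConvexOn ℝ univ f) (hL : LipschitzWith K f)
    {ε : ℝ} {V : Set Z} (hV : IsOpen V) (hne : V.Nonempty) {c : T →₀ ℕ}
    (hc : Cert f j ε V c) : (c.degree : ℝ) * ε ≤ K * ‖j‖ := by
  obtain ⟨z, hzV, hz⟩ := (dense_Gen (j := j) hf hL).inter_open_nonempty V hV hne
  obtain ⟨m, -, hm⟩ := exists_sep c.support 0
  have h1 := sum_N_points_le hf hL hz hm (s := []) fun a _ t _ => mem_cyl_nil t
  have h2 : ∑ a ∈ c.support, (c a : ℝ) * ε ≤ ∑ a ∈ c.support, N f j z (res a m) :=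
    Finset.sum_le_sum fun a _ => hc z hzV a m
  rw [← Finset.sum_mul] at h2
  have h3 := N_le_bound (j := j) hL z []
  rw [Finsupp.degree_apply]
  push_cast
  linarith

/-- a maximal certificate -/
lemma exists_max_cert [CompleteSpace Z] (hf : ConvexOn ℝ univ f) (hL : LipschitzWith K f)
    {ε : ℝ} (hε : 0 < ε) {V : Set Z} (hV : IsOpen V) (hne : V.Nonempty) :
    ∃ V' ⊆ V, IsOpen V' ∧ V'.Nonempty ∧ ∃ c : T →₀ ℕ, Cert f j ε V' c ∧
      ∀ V'' ⊆ V', IsOpen V'' → V''.Nonempty → ∀ c' : T →₀ ℕ, Cert f j ε V'' c' →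
        c'.degree ≤ c.degree := by
  set D : Set ℕ := {n | ∃ V' ⊆ V, IsOpen V' ∧ V'.Nonempty ∧
    ∃ c : T →₀ ℕ, Cert f j ε V' c ∧ c.degree = n} with hD
  have hDne : D.Nonempty := ⟨0, V, Subset.rfl, hV, hne, 0, fun z _ a m => by
    simpa using N_nonneg hL z _, by simp⟩
  have hDb : BddAbove D := by
    obtain ⟨n, hn⟩ := exists_nat_gt ((K * ‖j‖) / ε)
    refine ⟨n, ?_⟩
    rintro _ ⟨V', _, hV'o, hV'ne, c, hc, rfl⟩
    have h1 := cert_bound hf hL hV'o hV'ne hc
    rw [div_lt_iff₀ hε] at hn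
    have h2 : (c.degree : ℝ) * ε < n * ε := by linarith
    have h3 := lt_of_mul_lt_mul_right h2 hε.le
    exact_mod_cast h3.le
  obtain ⟨V', hV'V, hV'o, hV'ne, c, hc, hdeg⟩ := Nat.sSup_mem hDne hDb
  refine ⟨V', hV'V, hV'o, hV'ne, c, hc, fun V'' hV'' hV''o hV''ne c' hc' => ?_⟩
  rw [hdeg]
  exact le_csSup hDb ⟨V'', hV''.trans hV'V, hV''o, hV''ne, c', hc', rfl⟩

/-- masses in excess of the maximal certificate can be removed -/
lemma remove_finset (hL : LipschitzWith K f) {ε : ℝ} {V' : Set Z} {c : T →₀ ℕ}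
    (hc : Cert f j ε V' c)
    (hmax : ∀ V'' ⊆ V', IsOpen V'' → V''.Nonempty → ∀ c' : T →₀ ℕ, Cert f j ε V'' c' →
        c'.degree ≤ c.degree) (F : Finset T) :
    ∀ V'' ⊆ V', IsOpen V'' → V''.Nonempty →
      ∃ V₁ ⊆ V'', IsOpen V₁ ∧ V₁.Nonempty ∧ ∃ m : ℕ, ∀ b ∈ F, ∀ z ∈ V₁,
        N f j z (res b m) < ((c b : ℝ) + 1) * ε := by
  classical
  induction F using Finset.induction_on with
  | empty => exact fun V'' _ ho hne => ⟨V'', Subset.rfl, ho, hne, 0, by simp⟩
  | insert b F _ ih =>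
    intro V'' hV'' ho hne
    obtain ⟨V₁, hV₁, ho₁, hne₁, m₁, hm₁⟩ := ih V'' hV'' ho hne
    -- remove the excess at `b`
    obtain ⟨z, hz, m₂, hm₂⟩ : ∃ z ∈ V₁, ∃ m, N f j z (res b m) < ((c b : ℝ) + 1) * ε := by
      by_contra hcon
      push Not at hcon
      have hcert : Cert f j ε V₁ (c + Finsupp.single b 1) := by
        intro z hz a m
        by_cases hab : a = b
        · subst hab
          have := hcon z hz m
          simpa using this
        · have h1 := hc z (hV'' (hV₁ hz)) a m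
          simpa [Finsupp.single_apply, Ne.symm hab] using h1
      have := hmax V₁ (hV₁.trans hV'') ho₁ hne₁ _ hcert
      rw [map_add] at this
      simp at this
    refine ⟨V₁ ∩ {w | N f j w (res b m₂) < ((c b : ℝ) + 1) * ε}, inter_subset_left.trans hV₁,
      ho₁.inter (isOpen_N_lt hL _ _), ⟨z, hz, hm₂⟩, max m₁ m₂, fun a ha w hw => ?_⟩
    rcases Finset.mem_insert.mp ha with rfl | ha
    · exact (N_anti hL w a (le_max_right _ _)).trans_lt hw.2
    · exact (N_anti hL w a (le_max_left _ _)).trans_lt (hm₁ a ha w hw.1)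

/-- Splitting lemma: two sub-open sets whose generic points share heavy points only in a fixed
finite set. -/
lemma splitting [CompleteSpace Z] (hf : ConvexOn ℝ univ f) (hL : LipschitzWith K f)
    {ε : ℝ} (hε : 0 < ε) {V : Set Z} (hV : IsOpen V) (hne : V.Nonempty) :
    ∃ (F : Finset T) (V₀ V₁ : Set Z), V₀ ⊆ V ∧ V₁ ⊆ V ∧ IsOpen V₀ ∧ IsOpen V₁ ∧ V₀.Nonempty ∧
      V₁.Nonempty ∧ ∀ x ∈ V₀, ∀ y ∈ V₁ ∩ Gen f j, ∀ a, a ∈ At f j x ε → a ∈ At f j y ε →
        a ∈ F := by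
  classical
  obtain ⟨V', hV'V, hV'o, hV'ne, c, hc, hmax⟩ := exists_max_cert (j := j) hf hL hε hV hne
  obtain ⟨x, hxV', hx⟩ := (dense_Gen (j := j) hf hL).inter_open_nonempty V' hV'o hV'ne
  have hfin := finite_At hf hL hx hε
  obtain ⟨V₁, hV₁, ho₁, hne₁, m, hm⟩ := remove_finset hL hc hmax hfin.toFinset V' Subset.rfl
    hV'o hV'ne
  -- the compact set of the remaining points
  set Kc : Set T := (⋃ z ∈ hfin.toFinset, cyl (res z m))ᶜ with hKc
  have hKclosed : IsClosed Kc := by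
    rw [hKc, isClosed_compl_iff]
    exact isOpen_biUnion fun z _ => isOpen_cyl_res z m
  have hKcompact : IsCompact Kc := hKclosed.isCompact
  obtain ⟨V₀, ho₀, hx₀, hV₀⟩ : ∃ V₀ : Set Z, IsOpen V₀ ∧ x ∈ V₀ ∧
      ∀ y ∈ V₀, ∀ a ∈ Kc, a ∉ At f j y ε := by
    refine hKcompact.induction_on (p := fun s => ∃ V₀ : Set Z, IsOpen V₀ ∧ x ∈ V₀ ∧
      ∀ y ∈ V₀, ∀ a ∈ s, a ∉ At f j y ε) ⟨univ, isOpen_univ, mem_univ x, by simp⟩ ?_ ?_ ?_
    · rintro s t hst ⟨V₀, h1, h2, h3⟩
      exact ⟨V₀, h1, h2, fun y hy a ha => h3 y hy a (hst ha)⟩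
    · rintro s t ⟨V₀, h1, h2, h3⟩ ⟨V₀', h1', h2', h3'⟩
      refine ⟨V₀ ∩ V₀', h1.inter h1', ⟨h2, h2'⟩, fun y hy a ha => ?_⟩
      rcases ha with ha | ha
      · exact h3 y hy.1 a ha
      · exact h3' y hy.2 a ha
    · intro b hb
      have hbAt : b ∉ At f j x ε := by
        intro hbAt
        apply hb
        simp only [mem_iUnion, exists_prop]
        exact ⟨b, hfin.mem_toFinset.mpr hbAt, self_mem_cyl b m⟩
      simp only [At, mem_ofPred_eq, not_forall, not_le] at hbAt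
      obtain ⟨k, hk⟩ := hbAt
      refine ⟨cyl (res b k), mem_nhdsWithin_of_mem_nhds
        ((isOpen_cyl_res b k).mem_nhds (self_mem_cyl b k)),
        {w | N f j w (res b k) < ε}, isOpen_N_lt hL _ _, hk, fun y hy a ha hAt => ?_⟩
      have h1 := hAt k
      rw [mem_cyl_res.mp ha] at h1
      exact absurd h1 (not_le.mpr hy)
  refine ⟨c.support, V₀ ∩ V', V₁, inter_subset_right.trans hV'V, hV₁.trans hV'V,
    ho₀.inter hV'o, ho₁, ⟨x, hx₀, hxV'⟩, hne₁, fun x' hx' y hy a hax hay => ?_⟩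
  -- `a` lies in one of the cylinders
  have haK : a ∉ Kc := fun haK => hV₀ x' hx'.1 a haK hax
  rw [hKc, mem_compl_iff, not_not] at haK
  simp only [mem_iUnion, exists_prop] at haK
  obtain ⟨z, hz, haz⟩ := haK
  have hres : res a m = res z m := mem_cyl_res.mp haz
  have h1 := hm z hz y hy.1
  by_contra haF
  rw [Finsupp.notMem_support_iff] at haF
  by_cases haz' : a = z
  · subst haz'
    rw [haF] at h1
    have := hay m
    simp at h1
    linarith
  · obtain ⟨m', hm', hsep⟩ := exists_sep {a, z} m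
    have h2 := sum_N_points_le hf hL hy.2 hsep (s := res z m) (by
      intro b hb
      rcases Finset.mem_insert.mp hb with rfl | hb
      · rw [← hres]; exact cyl_res_anti b hm'
      · rw [Finset.mem_singleton.mp hb]; exact cyl_res_anti z hm')
    rw [Finset.sum_pair haz'] at h2
    have h3 := hay m'
    have h4 := hc y (hV₁ hy.1) z m'
    linarith

end Pool.Agent.Lib_helper53
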