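import Mathlib
import Pool.Agent.Lib_helper53.Split

open Set Filter Topology Metric

namespace Pool.Agent.Lib_helper53

open PiNat (res)

variable {A : Set T}
variable {Z : Type*} [NormedAddCommGroup Z] [NormedSpace ℝ Z]
variable {f : Z → ℝ} {K : NNReal} {j : EE A →L[ℝ] Z}

/-- the countable sets coded by a pair of functions on nodes -/
def Rc (c : (List Bool → List Bool → ℝ) × (List Bool → Finset T)) (τ : T) : Set T :=
  {a | ∃ k : ℕ, ∃ m₀, ∀ m ≥ m₀, ∃ n₀, ∀ n ≥ n₀,
    1 / ((k : ℝ) + 1) ≤ |c.1 (res τ n) (res a m)|} \ {a | ∃ n, a ∈ c.2 (res τ n)}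

/-- second property of the set `A` -/
def Prop2 (A : Set T) : Prop :=
  ∀ c : (List Bool → List Bool → ℝ) × (List Bool → Finset T), (∀ τ, (Rc c τ).Countable) →
    (∀ a ∈ A, {τ | a ∈ Rc c τ}.Countable) → ∃ τ, Disjoint (Rc c τ) A

open Classical in
/-- the direction attached to a point of `A` -/
noncomputable def dir (j : EE A →L[ℝ] Z) (a : T) : Z := if h : a ∈ A then j (rE h) else 0

lemma dir_of_mem (j : EE A →L[ℝ] Z) {a : T} (h : a ∈ A) : dir j a = j (rE h) := by
  unfold dir; rw [dif_pos h]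

/-- the state at a node of the scheme -/
structure St (Z : Type*) [NormedAddCommGroup Z] where
  V : Set Z
  F : Finset T
  o : IsOpen V
  ne : V.Nonempty

/-- admissible children -/
structure Child (f : Z → ℝ) (j : EE A →L[ℝ] Z) (W : ℕ → Set Z) (st : St Z) (n : ℕ)
    (c : Bool → St Z) : Prop where
  clos : ∀ b, closure (c b).V ⊆ st.V
  small : ∀ b, ∃ z₀, (c b).V ⊆ ball z₀ ((1 / 2) ^ n)
  inW : ∀ b, (c b).V ⊆ W n
  mono : ∀ b, st.F ⊆ (c b).F
  dirs : ∀ b, ∀ a ∈ st.F, ∀ z ∈ (c b).V,
    dd f z (dir j a) + dd f z (-(dir j a)) < 1 / ((n : ℝ) + 1)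
  align : ∀ b, ∃ h : EE A, ‖h‖ ≤ 1 ∧
    (∀ z ∈ (c b).V, dd f z (-(j h)) + N f j z [] < 1 / ((n : ℝ) + 1)) ∧
    ∀ a ∉ (c b).F, ∃ m₀, ∀ m ≥ m₀, PE (res a m) h = ((h : B) a) • chiE A (res a m)
  split : ∀ x ∈ (c false).V, ∀ y ∈ (c true).V ∩ Gen f j, ∀ a,
    a ∈ At f j x (1 / ((n : ℝ) + 1)) → a ∈ At f j y (1 / ((n : ℝ) + 1)) →
      a ∈ (c false).F ∧ a ∈ (c true).F

/-- one-sided refinement of an open set -/
lemma refine_one [CompleteSpace Z] (hf : ConvexOn ℝ univ f) (hL : LipschitzWith K f)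
    {W : Set Z} (hWo : IsOpen W) (hWd : Dense W) (F : Finset T) (n : ℕ) {V : Set Z}
    (hV : IsOpen V) (hne : V.Nonempty) :
    ∃ V' : Set Z, IsOpen V' ∧ V'.Nonempty ∧ closure V' ⊆ V ∧ (∃ z₀, V' ⊆ ball z₀ ((1 / 2) ^ n)) ∧
      V' ⊆ W ∧ (∀ a ∈ F, ∀ z ∈ V', dd f z (dir j a) + dd f z (-(dir j a)) < 1 / ((n : ℝ) + 1)) ∧
      ∃ (h : EE A) (J : Finset T), ‖h‖ ≤ 1 ∧
        (∀ z ∈ V', dd f z (-(j h)) + N f j z [] < 1 / ((n : ℝ) + 1)) ∧
        ∀ a ∉ J, ∃ m₀, ∀ m ≥ m₀, PE (res a m) h = ((h : B) a) • chiE A (res a m) := by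
  have hδ : (0 : ℝ) < 1 / ((n : ℝ) + 1) := by positivity
  -- intersect with `W`
  have h1o : IsOpen (V ∩ W) := hV.inter hWo
  have h1n : (V ∩ W).Nonempty := hWd.inter_open_nonempty V hV hne
  -- the directions
  have hdo : ∀ a : T, IsOpen {z | dd f z (dir j a) + dd f z (-(dir j a)) < 1 / ((n : ℝ) + 1)} :=
    fun a => isOpen_dd_add_lt hL _ _ _
  have hD2 : Dense (⋂ a : F, {z | dd f z (dir j a.1) + dd f z (-(dir j a.1)) < 1 / ((n : ℝ) + 1)}) :=
    dense_iInter_of_isOpen (fun a => hdo a.1) fun a => dense_dd_add_lt hL _ hδ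
  have hO2 : IsOpen (⋂ a : F, {z | dd f z (dir j a.1) + dd f z (-(dir j a.1)) < 1 / ((n : ℝ) + 1)}) :=
    isOpen_iInter_of_finite fun a => hdo a.1
  set V₂ := (V ∩ W) ∩ ⋂ a : F, {z | dd f z (dir j a.1) + dd f z (-(dir j a.1)) < 1 / ((n : ℝ) + 1)}
    with hV₂
  have h2o : IsOpen V₂ := h1o.inter hO2
  have h2n : V₂.Nonempty := hD2.inter_open_nonempty _ h1o h1n
  -- the alignment
  obtain ⟨z, hzV₂, h, hh0, hh1, hal, -⟩ :=
    (dense_OO (j := j) hf hL hδ n).inter_open_nonempty V₂ h2o h2n
  obtain ⟨J, hJ⟩ := exists_jumps hh0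
  set V₃ := V₂ ∩ {z | dd f z (-(j h)) + N f j z [] < 1 / ((n : ℝ) + 1)} with hV₃
  have h3o : IsOpen V₃ := h2o.inter (isOpen_align hL h _)
  obtain ⟨r, hr, hball⟩ := Metric.nhds_basis_closedBall.mem_iff.mp
    (h3o.mem_nhds (⟨hzV₂, hal⟩ : z ∈ V₃))
  set r' := min r ((1 / 2 : ℝ) ^ n) with hr'
  have hr'p : 0 < r' := lt_min hr (by positivity)
  have hsub : closedBall z r' ⊆ V₃ := (closedBall_subset_closedBall (min_le_left _ _)).trans hball
  have hsub' : ball z r' ⊆ V₃ := ball_subset_closedBall.trans hsub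
  refine ⟨ball z r', isOpen_ball, ⟨z, mem_ball_self hr'p⟩, ?_, ⟨z, ball_subset_ball (min_le_right _ _)⟩,
    fun w hw => (hsub' hw).1.1.2, fun a ha w hw => ?_, h, J, hh1, fun w hw => (hsub' hw).2, hJ⟩
  · exact (closure_ball_subset_closedBall.trans hsub).trans fun w hw => hw.1.1.1
  · exact mem_iInter.mp (hsub' hw).1.2 ⟨a, ha⟩

lemma exists_child [CompleteSpace Z] (hf : ConvexOn ℝ univ f) (hL : LipschitzWith K f)
    {W : ℕ → Set Z} (hWo : ∀ n, IsOpen (W n)) (hWd : ∀ n, Dense (W n)) (st : St Z) (n : ℕ) :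
    ∃ c : Bool → St Z, Child f j W st n c := by
  classical
  obtain ⟨Fs, V₀, V₁, hV₀, hV₁, ho₀, ho₁, hne₀, hne₁, hsplit⟩ :=
    splitting (j := j) hf hL (show (0 : ℝ) < 1 / ((n : ℝ) + 1) by positivity) st.o st.ne
  obtain ⟨V₀', o₀, n₀, c₀, s₀, w₀, d₀, h₀, J₀, hh₀, al₀, ju₀⟩ :=
    refine_one (j := j) hf hL (hWo n) (hWd n) st.F n ho₀ hne₀
  obtain ⟨V₁', o₁, n₁, c₁, s₁, w₁, d₁, h₁, J₁, hh₁, al₁, ju₁⟩ :=
    refine_one (j := j) hf hL (hWo n) (hWd n) st.F n ho₁ hne₁
  refine ⟨fun b => match b with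
    | false => ⟨V₀', st.F ∪ Fs ∪ J₀, o₀, n₀⟩
    | true => ⟨V₁', st.F ∪ Fs ∪ J₁, o₁, n₁⟩, ?_, ?_, ?_, ?_, ?_, ?_, ?_⟩
  · rintro (_ | _)
    · exact c₀.trans hV₀
    · exact c₁.trans hV₁
  · rintro (_ | _)
    · exact s₀
    · exact s₁
  · rintro (_ | _)
    · exact w₀
    · exact w₁
  · rintro (_ | _)
    · exact Finset.subset_union_left.trans Finset.subset_union_left
    · exact Finset.subset_union_left.trans Finset.subset_union_left
  · rintro (_ | _)
    · exact d₀
    · exact d₁
  · rintro (_ | _)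
    · exact ⟨h₀, hh₀, al₀, fun a ha => ju₀ a fun e => ha (Finset.mem_union_right _ e)⟩
    · exact ⟨h₁, hh₁, al₁, fun a ha => ju₁ a fun e => ha (Finset.mem_union_right _ e)⟩
  · intro x hx y hy a hax hay
    have ha : a ∈ Fs := hsplit x (subset_closure.trans c₀ hx) y
      ⟨subset_closure.trans c₁ hy.1, hy.2⟩ a hax hay
    exact ⟨Finset.mem_union_left _ (Finset.mem_union_right _ ha),
      Finset.mem_union_left _ (Finset.mem_union_right _ ha)⟩

lemma tendsto_dd (hf : ConvexOn ℝ univ f) (hL : LipschitzWith K f) {z : ℕ → Z} {x k : Z}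
    (hz : Tendsto z atTop (𝓝 x)) (hk : dd f x k + dd f x (-k) ≤ 0) :
    Tendsto (fun n => dd f (z n) k) atTop (𝓝 (dd f x k)) := by
  rw [Metric.tendsto_nhds]
  intro ε hε
  have h1 := hz.eventually ((isOpen_dd_lt hL k (dd f x k + ε)).mem_nhds
    (show dd f x k < dd f x k + ε by linarith))
  have h2 := hz.eventually ((isOpen_dd_lt hL (-k) (dd f x (-k) + ε)).mem_nhds
    (show dd f x (-k) < dd f x (-k) + ε by linarith))
  filter_upwards [h1, h2] with n hn1 hn2
  have hn1' : dd f (z n) k < dd f x k + ε := hn1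
  have hn2' : dd f (z n) (-k) < dd f x (-k) + ε := hn2
  have h3 := dd_neg_le hf hL (z n) k
  rw [Real.dist_eq, abs_lt]
  constructor <;> linarith

/-- Main theorem: dense Gateaux differentiability on spaces generated by `EE A` and countably
many directions. -/
theorem exists_point [CompleteSpace Z] (hA : Prop2 A) (hf : ConvexOn ℝ univ f)
    (hL : LipschitzWith K f) {Q : Set Z} (hQ : Q.Countable)
    (hspan : ∀ z : Z, z ∈ (Submodule.span ℝ (range j ∪ Q)).topologicalClosure)
    {U : Set Z} (hU : IsOpen U) (hne : U.Nonempty) :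
    ∃ z ∈ U, ∀ k, dd f z k + dd f z (-k) ≤ 0 := by
  classical
  -- countable family of directions
  obtain ⟨q, hq⟩ : ∃ q : ℕ → Z, range q = range (fun s : List Bool => j (chiE A s)) ∪ Q := by
    have h1 : (range (fun s : List Bool => j (chiE A s)) ∪ Q).Countable :=
      (countable_range _).union hQ
    obtain ⟨q, hq⟩ := h1.exists_eq_range ⟨_, Or.inl ⟨[], rfl⟩⟩
    exact ⟨q, hq.symm⟩
  set W : ℕ → Set Z := fun n => OO f j (1 / ((n : ℝ) + 1)) n ∩
    ⋂ i : Fin (n + 1), {z | dd f z (q i) + dd f z (-(q i)) < 1 / ((n : ℝ) + 1)} with hW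
  have hWo : ∀ n, IsOpen (W n) := fun n =>
    (isOpen_OO hL _ n).inter (isOpen_iInter_of_finite fun i => isOpen_dd_add_lt hL _ _ _)
  have hWd : ∀ n, Dense (W n) := fun n => by
    have hδ : (0 : ℝ) < 1 / ((n : ℝ) + 1) := by positivity
    refine (dense_OO hf hL hδ n).inter_of_isOpen_left ?_ (isOpen_OO hL _ n)
    exact dense_iInter_of_isOpen (fun i => isOpen_dd_add_lt hL _ _ _)
      fun i => dense_dd_add_lt hL _ hδ
  choose child hchild using exists_child (j := j) hf hL hWo hWd
  let N₀ : St Z := ⟨U, ∅, hU, hne⟩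
  let nd : List Bool → St Z := fun l => List.rec N₀ (fun b l ih => child ih l.length b) l
  have nd_cons : ∀ b l, nd (b :: l) = child (nd l) l.length b := fun b l => rfl
  have nd_succ : ∀ (τ : T) (n : ℕ), nd (res τ (n + 1)) = child (nd (res τ n)) n (τ n) := by
    intro τ n
    rw [PiNat.res_succ, nd_cons, PiNat.res_length]
  let S : List Bool → Set Z := fun l => (nd l).V
  have hanti : CantorScheme.ClosureAntitone S := by
    intro l b
    simp only [S]
    rw [nd_cons]
    exact (hchild (nd l) l.length).clos b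
  have hsmall : ∀ (τ : T) (n : ℕ), ∃ z₀, S (res τ (n + 1)) ⊆ ball z₀ ((1 / 2) ^ n) := by
    intro τ n
    simp only [S]
    rw [nd_succ]
    exact (hchild (nd (res τ n)) n).small (τ n)
  have hpow : Tendsto (fun n : ℕ => ((1 / 2 : ℝ)) ^ n) atTop (𝓝 0) :=
    tendsto_pow_atTop_nhds_zero_of_lt_one (by norm_num) (by norm_num)
  have hdiam : CantorScheme.VanishingDiam S := by
    intro τ
    rw [← tendsto_add_atTop_iff_nat 1]
    have h1 : Tendsto (fun n : ℕ => 2 * ENNReal.ofReal ((1 / 2) ^ n)) atTop (𝓝 0) := by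
      have h2 : Tendsto (fun n : ℕ => ENNReal.ofReal ((1 / 2) ^ n)) atTop (𝓝 0) := by
        have := ENNReal.tendsto_ofReal hpow
        rwa [ENNReal.ofReal_zero] at this
      have h3 := ENNReal.Tendsto.const_mul h2 (Or.inr (by simp : (2 : ENNReal) ≠ ⊤))
      rwa [mul_zero] at h3
    refine tendsto_of_tendsto_of_tendsto_of_le_of_le tendsto_const_nhds h1
      (fun n => bot_le) (fun n => ?_)
    obtain ⟨z₀, hz₀⟩ := hsmall τ n
    refine (Metric.ediam_mono hz₀).trans ?_
    rw [← Metric.eball_ofReal]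
    exact Metric.ediam_eball_le
  have hdom := CantorScheme.ClosureAntitone.map_of_vanishingDiam hdiam hanti
    fun l => (nd l).ne
  have hpt : ∀ τ : T, ∃ x : Z, ∀ n, x ∈ S (res τ n) := by
    intro τ
    have hτ : τ ∈ (CantorScheme.inducedMap S).1 := by rw [hdom]; exact mem_univ _
    exact ⟨_, CantorScheme.map_mem ⟨τ, hτ⟩⟩
  choose X hX using hpt
  -- basic facts on `X`
  have hXW : ∀ τ n, X τ ∈ W n := by
    intro τ n
    have h1 := hX τ (n + 1)
    simp only [S] at h1
    rw [nd_succ] at h1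
    exact (hchild (nd (res τ n)) n).inW (τ n) h1
  have hXGen : ∀ τ, X τ ∈ Gen f j := fun τ => mem_iInter.mpr fun n => (hXW τ n).1
  have hlim0 : ∀ {c : ℝ}, (∀ n₀ : ℕ, ∃ n ≥ n₀, c < 1 / ((n : ℝ) + 1)) → c ≤ 0 := by
    intro c hc
    by_contra hpos
    push Not at hpos
    obtain ⟨n₀, hn₀⟩ := exists_nat_one_div_lt hpos
    obtain ⟨n, hn, hlt⟩ := hc n₀
    have : 1 / ((n : ℝ) + 1) ≤ 1 / ((n₀ : ℝ) + 1) := by
      apply one_div_le_one_div_of_le (by positivity)
      have : (n₀ : ℝ) ≤ n := by exact_mod_cast hn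
      linarith
    linarith
  have hXq : ∀ τ i, dd f (X τ) (q i) + dd f (X τ) (-(q i)) ≤ 0 := by
    intro τ i
    refine hlim0 fun n₀ => ⟨max n₀ i, le_max_left _ _, ?_⟩
    have h1 := (hXW τ (max n₀ i)).2
    rw [mem_iInter] at h1
    exact h1 ⟨i, Nat.lt_succ_of_le (le_max_right _ _)⟩
  have hXchi : ∀ τ s, dd f (X τ) (j (chiE A s)) + dd f (X τ) (-(j (chiE A s))) ≤ 0 := by
    intro τ s
    have h1 : j (chiE A s) ∈ range q := by rw [hq]; exact Or.inl ⟨s, rfl⟩
    obtain ⟨i, hi⟩ := h1
    rw [← hi]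
    exact hXq τ i
  have hFmono : ∀ (τ : T) {n n' : ℕ}, n ≤ n' → (nd (res τ n)).F ⊆ (nd (res τ n')).F := by
    intro τ n n' hnn
    induction n', hnn using Nat.le_induction with
    | base => exact Finset.Subset.refl _
    | succ k _ ih =>
      refine ih.trans ?_
      rw [nd_succ]
      exact (hchild (nd (res τ k)) k).mono (τ k)
  have hXF : ∀ (τ : T) (n : ℕ) (a : T), a ∈ (nd (res τ n)).F →
      dd f (X τ) (dir j a) + dd f (X τ) (-(dir j a)) ≤ 0 := by
    intro τ n a ha
    refine hlim0 fun n₀ => ⟨max n₀ n, le_max_left _ _, ?_⟩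
    have h1 := hX τ (max n₀ n + 1)
    simp only [S] at h1
    rw [nd_succ] at h1
    exact (hchild (nd (res τ (max n₀ n))) (max n₀ n)).dirs _ a
      (hFmono τ (le_max_right _ _) ha) _ h1
  -- the centers
  choose zc hzc using fun l : List Bool => (nd l).ne
  have hzlim : ∀ τ : T, Tendsto (fun n => zc (res τ n)) atTop (𝓝 (X τ)) := by
    intro τ
    rw [← tendsto_add_atTop_iff_nat 1, tendsto_iff_dist_tendsto_zero]
    have h1 : Tendsto (fun n : ℕ => 2 * ((1 / 2 : ℝ)) ^ n) atTop (𝓝 0) := by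
      have := hpow.const_mul 2
      rwa [mul_zero] at this
    refine squeeze_zero (fun _ => dist_nonneg) (fun n => ?_) h1
    obtain ⟨z₀, hz₀⟩ := hsmall τ n
    have h2 := hz₀ (hzc (res τ (n + 1)))
    have h3 := hz₀ (hX τ (n + 1))
    rw [mem_ball] at h2 h3
    have h4 := dist_triangle_right (zc (res τ (n + 1))) (X τ) z₀
    linarith
  set code : (List Bool → List Bool → ℝ) × (List Bool → Finset T) :=
    (fun σ s => dd f (zc σ) (j (chiE A s)), fun σ => (nd σ).F) with hcode
  -- masses dominate the values on indicators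
  have habsN : ∀ (τ : T) (s : List Bool), |dd f (X τ) (j (chiE A s))| ≤ N f j (X τ) s := by
    intro τ s
    rw [abs_le]
    constructor
    · have h1 := le_N (j := j) (f := f) hL (X τ) (g := -(chiE A s)) (s := s)
        (by rw [norm_neg]; exact norm_chiE_le s) (by rw [map_neg, PE_chiE])
      rw [map_neg] at h1
      have h2 := dd_neg_le hf hL (X τ) (j (chiE A s))
      linarith
    · exact le_N hL (X τ) (norm_chiE_le s) (PE_chiE s)
  have hlimchi : ∀ (τ : T) (s : List Bool),
      Tendsto (fun n => |dd f (zc (res τ n)) (j (chiE A s))|) atTop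
        (𝓝 |dd f (X τ) (j (chiE A s))|) := fun τ s =>
    (tendsto_dd hf hL (hzlim τ) (hXchi τ s)).abs
  have hRAt : ∀ (τ : T) (a : T), a ∈ Rc code τ →
      ∃ k : ℕ, a ∈ At f j (X τ) (1 / ((k : ℝ) + 1)) := by
    rintro τ a ⟨⟨k, m₀, hk⟩, -⟩
    refine ⟨k, fun m => ?_⟩
    obtain ⟨n₀, hn₀⟩ := hk (max m m₀) (le_max_right _ _)
    have h1 : 1 / ((k : ℝ) + 1) ≤ |dd f (X τ) (j (chiE A (res a (max m m₀))))| := by
      refine ge_of_tendsto (hlimchi τ _) ?_
      filter_upwards [eventually_ge_atTop n₀] with n hn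
      exact hn₀ n hn
    exact h1.trans ((habsN τ _).trans (N_anti hL _ a (le_max_left _ _)))
  have hcount1 : ∀ τ, (Rc code τ).Countable := by
    intro τ
    refine Set.Countable.mono (s₂ := ⋃ k : ℕ, At f j (X τ) (1 / ((k : ℝ) + 1))) ?_ ?_
    · intro a ha
      exact mem_iUnion.mpr (hRAt τ a ha)
    · exact countable_iUnion fun k => (finite_At hf hL (hXGen τ) (by positivity)).countable
  have hcount2 : ∀ a ∈ A, {τ | a ∈ Rc code τ}.Countable := by
    intro a _
    refine Set.Countable.mono (s₂ := ⋃ k : ℕ, {τ | a ∈ At f j (X τ) (1 / ((k : ℝ) + 1)) ∧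
      ∀ n, a ∉ (nd (res τ n)).F}) ?_ ?_
    · intro τ hτ
      obtain ⟨k, hk⟩ := hRAt τ a hτ
      refine mem_iUnion.mpr ⟨k, hk, fun n hn => hτ.2 ⟨n, hn⟩⟩
    · refine countable_iUnion fun k => Set.Finite.countable ?_
      -- two elements of this set differ before `k`
      have hinj : InjOn (fun τ : T => res τ k) {τ | a ∈ At f j (X τ) (1 / ((k : ℝ) + 1)) ∧
          ∀ n, a ∉ (nd (res τ n)).F} := by
        intro τ hτ τ' hτ' hres
        by_contra hne'
        have key : ∀ τ₁ τ₂ : T, (a ∈ At f j (X τ₁) (1 / ((k : ℝ) + 1)) ∧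
            ∀ n, a ∉ (nd (res τ₁ n)).F) → (a ∈ At f j (X τ₂) (1 / ((k : ℝ) + 1))) →
            ∀ n ≥ k, res τ₁ n = res τ₂ n → τ₁ n = false → τ₂ n = true → False := by
          intro τ₁ τ₂ h1 h2 n hn hr hf1 ht2
          have hle : 1 / ((n : ℝ) + 1) ≤ 1 / ((k : ℝ) + 1) := by
            apply one_div_le_one_div_of_le (by positivity)
            have : (k : ℝ) ≤ n := by exact_mod_cast hn
            linarith
          have hX1 := hX τ₁ (n + 1)
          have hX2 := hX τ₂ (n + 1)
          simp only [S] at hX1 hX2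
          rw [nd_succ, hf1] at hX1
          rw [nd_succ, ← hr, ht2] at hX2
          have := ((hchild (nd (res τ₁ n)) n).split _ hX1 _ ⟨hX2, hXGen τ₂⟩ a
            (fun m => hle.trans (h1.1 m)) (fun m => hle.trans (h2 m))).1
          apply h1.2 (n + 1)
          rw [nd_succ, hf1]
          exact this
        set n := PiNat.firstDiff τ τ' with hn
        have hnk : k ≤ n := by
          rw [← PiNat.mem_cylinder_iff_le_firstDiff hne']
          rw [PiNat.cylinder_eq_res]
          exact hres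
        have hrn : res τ n = res τ' n := by
          rw [PiNat.res_eq_res]
          intro i hi
          exact PiNat.apply_eq_of_lt_firstDiff hi
        have hdn : τ n ≠ τ' n := PiNat.apply_firstDiff_ne hne'
        cases h1 : τ n with
        | false =>
          cases h2 : τ' n with
          | false => exact hdn (h1.trans h2.symm)
          | true => exact key τ τ' hτ hτ'.1 n hnk hrn h1 h2
        | true =>
          cases h2 : τ' n with
          | true => exact hdn (h1.trans h2.symm)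
          | false => exact key τ' τ hτ' hτ.1 n hnk hrn.symm h2 h1
      refine Set.Finite.of_finite_image ?_ hinj
      refine (List.finite_length_eq Bool k).subset ?_
      rintro _ ⟨τ, _, rfl⟩
      exact PiNat.res_length τ k
  obtain ⟨τ, hτ⟩ := hA code hcount1 hcount2
  have hXU : X τ ∈ U := hX τ 0
  refine ⟨X τ, hXU, ?_⟩
  -- symmetric derivatives in all generating directions
  have hgen : ∀ h ∈ genE A, dd f (X τ) (j h) + dd f (X τ) (-(j h)) ≤ 0 := by
    rintro h (⟨s, rfl⟩ | ⟨a, ha, rfl⟩)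
    · exact hXchi τ s
    · by_contra hcon
      push Not at hcon
      set c := dd f (X τ) (j (rE ha)) + dd f (X τ) (-(j (rE ha))) with hc
      have haF : ∀ n, a ∉ (nd (res τ n)).F := by
        intro n hn
        have := hXF τ n a hn
        rw [dir_of_mem j ha] at this
        linarith
      -- choose an aligned direction with small error
      obtain ⟨n, hn⟩ := exists_nat_one_div_lt (show (0 : ℝ) < c / 4 by positivity)
      obtain ⟨h, hh1, hal, hju⟩ := (hchild (nd (res τ n)) n).align (τ n)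
      have hXn := hX τ (n + 1)
      simp only [S] at hXn
      have haF' := haF (n + 1)
      rw [nd_succ] at hXn haF'
      obtain ⟨m₀, hm₀⟩ := hju a haF'
      have halX := hal (X τ) hXn
      -- lower bound on the indicator values
      have hlow : ∀ m ≥ m₀, c / 4 ≤ |dd f (X τ) (j (chiE A (res a m)))| := by
        intro m hm
        set g := PE (res a m) (rE ha) with hg
        have hg1 : ‖g‖ ≤ 1 := by
          refine EE_norm_le zero_le_one fun t => ?_
          rw [hg, PE_apply]
          by_cases ht : t ∈ cyl (res a m)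
          · rw [restr_of_mem ht]; exact abs_rF_le a t
          · rw [restr_of_notMem ht]; simp
        have hgg : PE (res a m) g = g := PE_PE Subset.rfl _
        -- the remainder has symmetric derivative
        have hrem : ∀ k ∈ Submodule.span ℝ (range (chiE A)),
            dd f (X τ) (j k) + dd f (X τ) (-(j k)) ≤ 0 := by
          intro k hk
          refine dd_symm_closed hf hL (X τ) (range fun s => j (chiE A s)) ?_ (j k)
            (subset_closure ?_)
          · rintro _ ⟨s, rfl⟩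
            exact hXchi τ s
          · have h1 : j k ∈ Submodule.map (j : EE A →ₗ[ℝ] Z) (Submodule.span ℝ (range (chiE A))) :=
              ⟨k, hk, rfl⟩
            rw [Submodule.map_span] at h1
            refine Submodule.span_mono ?_ h1
            rintro _ ⟨_, ⟨s, rfl⟩, rfl⟩
            exact ⟨s, rfl⟩
        have hr := hrem _ (rE_sub_PE_mem ha m)
        rw [← hg] at hr
        have e1 : j (rE ha) = j g + j (rE ha - g) := by rw [← map_add]; congr 1; abel
        have e2 : -(j (rE ha)) = -(j g) + -(j (rE ha - g)) := by rw [e1]; abel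
        have h1 := dd_add_le hf hL (X τ) (j g) (j (rE ha - g))
        have h2 := dd_add_le hf hL (X τ) (-(j g)) (-(j (rE ha - g)))
        rw [← e1] at h1
        rw [← e2] at h2
        have hsum : c ≤ dd f (X τ) (j g) + dd f (X τ) (-(j g)) := by linarith
        -- the aligned direction sees the mass
        have hPh := hm₀ m hm
        have hval : dd f (X τ) (j (PE (res a m) h)) ≤ |dd f (X τ) (j (chiE A (res a m)))| := by
          rw [hPh, map_smul]
          have hκ : |(h : B) a| ≤ 1 := (EE_abs_le h a).trans hh1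
          set κ := (h : B) a with hκdef
          set v := j (chiE A (res a m)) with hv
          rcases lt_trichotomy κ 0 with h0 | h0 | h0
          · have e3 : κ • v = (-κ) • (-v) := by simp
            rw [e3, dd_smul_pos hL _ _ (neg_pos.mpr h0)]
            have h4 : dd f (X τ) (-v) ≤ |dd f (X τ) v| := by
              have := hXchi τ (res a m)
              rw [← hv] at this
              have h5 := neg_le_abs (dd f (X τ) v)
              linarith
            have h6 : -κ ≤ 1 := by have := (abs_le.mp hκ).1; linarith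
            have h7 := abs_nonneg (dd f (X τ) v)
            calc -κ * dd f (X τ) (-v) ≤ -κ * |dd f (X τ) v| := by
                  apply mul_le_mul_of_nonneg_left h4 (by linarith)
              _ ≤ 1 * |dd f (X τ) v| := by gcongr
              _ = _ := one_mul _
          · rw [h0, zero_smul, dd_zero hL]
            exact abs_nonneg _
          · rw [dd_smul_pos hL _ _ h0]
            have h4 := le_abs_self (dd f (X τ) v)
            have h6 : κ ≤ 1 := (abs_le.mp hκ).2
            have h7 := abs_nonneg (dd f (X τ) v)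
            calc κ * dd f (X τ) v ≤ κ * |dd f (X τ) v| := by
                  apply mul_le_mul_of_nonneg_left h4 h0.le
              _ ≤ 1 * |dd f (X τ) v| := by gcongr
              _ = _ := one_mul _
        have hNa := N_le_aligned (j := j) hf hL (X τ) hh1 (res a m)
        have hg2 := le_N (j := j) (f := f) hL (X τ) hg1 hgg
        have hg3 := le_N (j := j) (f := f) hL (X τ) (g := -g) (s := res a m)
          (by rw [norm_neg]; exact hg1) (by rw [map_neg, hgg])
        rw [map_neg] at hg3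
        linarith
      -- hence `a` belongs to the coded set
      have haR : a ∈ Rc code τ := by
        refine ⟨?_, fun ⟨n, hn⟩ => haF n hn⟩
        obtain ⟨k, hk⟩ := exists_nat_one_div_lt (show (0 : ℝ) < c / 4 by positivity)
        refine ⟨k, m₀, fun m hm => ?_⟩
        have h1 : 1 / ((k : ℝ) + 1) < |dd f (X τ) (j (chiE A (res a m)))| :=
          hk.trans_le (hlow m hm)
        obtain ⟨n₀, hn₀⟩ := ((hlimchi τ (res a m)).eventually (lt_mem_nhds h1)).exists_forall_of_atTop
        exact ⟨n₀, fun n hn => (hn₀ n hn).le⟩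
      exact Set.disjoint_left.mp hτ haR ha
  have hall := dd_symm_closed hf hL (X τ) (j '' genE A ∪ Q) (by
    rintro k (⟨h, hh, rfl⟩ | hk)
    · exact hgen h hh
    · have h1 : k ∈ range q := by rw [hq]; exact Or.inr hk
      obtain ⟨i, rfl⟩ := h1
      exact hXq τ i)
  intro k
  apply hall
  -- density
  have hle : (Submodule.span ℝ (range j ∪ Q)).topologicalClosure
      ≤ (Submodule.span ℝ (j '' genE A ∪ Q)).topologicalClosure := by
    refine Submodule.topologicalClosure_minimal _ ?_ (Submodule.isClosed_topologicalClosure _)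
    rw [Submodule.span_le]
    rintro x (⟨y, rfl⟩ | hx)
    · have h1 : y ∈ closure (Submodule.span ℝ (genE A) : Set (EE A)) := dense_span_genE A y
      refine map_mem_closure j.continuous h1 fun w hw => ?_
      have h2 : j w ∈ Submodule.map (j : EE A →ₗ[ℝ] Z) (Submodule.span ℝ (genE A)) :=
        ⟨w, hw, rfl⟩
      rw [Submodule.map_span] at h2
      exact Submodule.span_mono subset_union_left h2
    · exact (Submodule.le_topologicalClosure _) (Submodule.subset_span (Or.inr hx))
  exact hle (hspan k)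

end Pool.Agent.Lib_helper53
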