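import Mathlib

open Set Filter Topology Metric

namespace Pool.Agent.Lib_helper53

/-- Maximal separated subsets. -/
lemma exists_net {X : Type*} [PseudoMetricSpace X] (B : Set X) {ε : ℝ} (hε : 0 < ε) :
    ∃ S ⊆ B, (S.Pairwise fun x y => ε ≤ dist x y) ∧ ∀ b ∈ B, ∃ s ∈ S, dist b s < ε := by
  obtain ⟨S, hS⟩ := zorn_subset {S : Set X | S ⊆ B ∧ S.Pairwise fun x y => ε ≤ dist x y} (by
    intro c hc hchain
    refine ⟨⋃₀ c, ⟨sUnion_subset fun s hs => (hc hs).1, ?_⟩, fun s hs => subset_sUnion_of_mem hs⟩
    exact (pairwise_sUnion hchain.directedOn).2 fun s hs => (hc hs).2)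
  refine ⟨S, hS.prop.1, hS.prop.2, fun b hb => ?_⟩
  by_contra hcon
  push Not at hcon
  have hbS : b ∈ S := by
    have h1 : insert b S ⊆ B ∧ (insert b S).Pairwise fun x y => ε ≤ dist x y := by
      refine ⟨insert_subset hb hS.prop.1, ?_⟩
      refine pairwise_insert.2 ⟨hS.prop.2, fun y hy _ => ⟨hcon y hy, ?_⟩⟩
      rw [dist_comm]
      exact hcon y hy
    exact hS.le_of_ge h1 (subset_insert b S) (mem_insert b S)
  have := hcon b hbS
  rw [dist_self] at this
  exact absurd this (not_le.mpr hε)

/-- In a metric space that is a countable increasing union of closed sets with empty interior,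
every set dense in an open set `D` contains a `Gδ` set dense in `D`. -/
theorem exists_dense_isGδ {X : Type*} [MetricSpace X] (F : ℕ → Set X) (hmono : Monotone F)
    (hclosed : ∀ n, IsClosed (F n)) (hint : ∀ n, interior (F n) = ∅) (hcov : ∀ x, ∃ n, x ∈ F n)
    (D A : Set X) (hD : IsOpen D) (hA : D ⊆ closure A) :
    ∃ G ⊆ A, IsGδ G ∧ D ⊆ closure G := by
  have hε : ∀ n : ℕ, (0 : ℝ) < 1 / ((n : ℝ) + 1) := fun n => by positivity
  choose S hSsub hSsep hSnet using fun n : ℕ => exists_net (A \ F n) (hε n)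
  refine ⟨⋃ n, S n, iUnion_subset fun n => (hSsub n).trans sdiff_subset, ?_, ?_⟩
  · have hSclosed : ∀ n, IsClosed (S n) := fun n =>
      Metric.isClosed_of_pairwise_le_dist (hε n) (hSsep n)
    have hEq : (⋃ n, S n) = ⋂ m, ((F m)ᶜ ∪ ⋃ n ∈ Finset.range m, S n) := by
      ext x
      simp only [mem_iUnion, mem_iInter, mem_union, mem_compl_iff, Finset.mem_range, exists_prop]
      constructor
      · rintro ⟨n, hn⟩ m
        by_cases hm : x ∈ F m
        · right
          refine ⟨n, ?_, hn⟩
          by_contra hnm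
          push Not at hnm
          exact (hSsub n hn).2 (hmono hnm hm)
        · exact Or.inl hm
      · intro H
        obtain ⟨m, hm⟩ := hcov x
        rcases H m with h | ⟨n, _, hn⟩
        · exact absurd hm h
        · exact ⟨n, hn⟩
    rw [hEq]
    refine IsGδ.iInter fun m => ?_
    refine IsGδ.union (hclosed m).isOpen_compl.isGδ ?_
    exact (isClosed_biUnion_finset fun n _ => hSclosed n).isGδ
  · intro z hz
    rw [Metric.mem_closure_iff]
    intro ε hεp
    obtain ⟨r, hr, hball⟩ := Metric.isOpen_iff.mp hD z hz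
    set δ := min ε r with hδ
    have hδp : 0 < δ := lt_min hεp hr
    obtain ⟨n, hn⟩ := exists_nat_one_div_lt (half_pos hδp)
    -- a point of the ball of radius δ/2 outside `F n`
    have hne : (ball z (δ / 2) \ F n).Nonempty := by
      by_contra hcon
      rw [not_nonempty_iff_eq_empty, sdiff_eq_empty] at hcon
      have : z ∈ interior (F n) := mem_interior.mpr ⟨_, hcon, isOpen_ball, mem_ball_self (half_pos hδp)⟩
      rw [hint n] at this
      exact this
    obtain ⟨w, hw⟩ := hne
    have hopen : IsOpen (ball z (δ / 2) \ F n) := isOpen_ball.sdiff (hclosed n)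
    have hwD : w ∈ D := hball (ball_subset_ball (by
      have := min_le_right ε r
      linarith) hw.1)
    obtain ⟨a, ha, haA⟩ := mem_closure_iff.mp (hA hwD) _ hopen hw
    obtain ⟨s, hs, hd⟩ := hSnet n a ⟨haA, ha.2⟩
    refine ⟨s, mem_iUnion.mpr ⟨n, hs⟩, ?_⟩
    calc dist z s ≤ dist z a + dist a s := dist_triangle _ _ _
      _ < δ / 2 + δ / 2 := by
          gcongr
          · rw [dist_comm]; exact ha.1
          · exact hd.trans hn
      _ = δ := by ring
      _ ≤ ε := min_le_left _ _

end Pool.Agent.Lib_helper53
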