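import Mathlib

set_option linter.unusedSectionVars false

open Set Filter Topology Metric
open scoped BoundedContinuousFunction

namespace Pool.Agent.Lib_helper53.PF

section defs

variable (V : Type) [NormedAddCommGroup V] [NormedSpace ℝ V]

/-- null sequences, as a submodule -/
def c0sub : Submodule ℝ (ℕ →ᵇ V) where
  carrier := {f | Tendsto f atTop (𝓝 0)}
  add_mem' := by
    intro f g hf hg
    have := Tendsto.add hf hg
    rwa [add_zero] at this
  zero_mem' := tendsto_const_nhds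
  smul_mem' := by
    intro r f hf
    have := Tendsto.const_smul hf r
    rwa [smul_zero] at this

/-- null sequences -/
def c0 : Type := ↥(c0sub V)

noncomputable instance : NormedAddCommGroup (c0 V) :=
  inferInstanceAs (NormedAddCommGroup ↥(c0sub V))
noncomputable instance : NormedSpace ℝ (c0 V) := inferInstanceAs (NormedSpace ℝ ↥(c0sub V))

end defs

variable {V : Type} [NormedAddCommGroup V] [NormedSpace ℝ V]

namespace c0

/-- coordinates -/
def coe (f : c0 V) (n : ℕ) : V := (f.1 : ℕ →ᵇ V) n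

instance : CoeFun (c0 V) (fun _ => ℕ → V) := ⟨coe⟩

lemma tendsto (f : c0 V) : Tendsto f atTop (𝓝 0) := f.2

lemma apply_le (f : c0 V) (n : ℕ) : ‖f n‖ ≤ ‖f‖ := (f.1 : ℕ →ᵇ V).norm_coe_le_norm n

lemma norm_le {f : c0 V} {C : ℝ} (hC : 0 ≤ C) (h : ∀ n, ‖f n‖ ≤ C) : ‖f‖ ≤ C :=
  (BoundedContinuousFunction.norm_le hC).mpr h

@[ext] lemma ext {f g : c0 V} (h : ∀ n, f n = g n) : f = g :=
  Subtype.ext (DFunLike.ext _ _ h)

@[simp] lemma add_apply (f g : c0 V) (n : ℕ) : (f + g) n = f n + g n := rfl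
@[simp] lemma sub_apply (f g : c0 V) (n : ℕ) : (f - g) n = f n - g n := rfl
@[simp] lemma smul_apply (r : ℝ) (f : c0 V) (n : ℕ) : (r • f) n = r • f n := rfl
@[simp] lemma zero_apply (n : ℕ) : (0 : c0 V) n = 0 := rfl

/-- constructing null sequences -/
noncomputable def mk (f : ℕ → V) (C : ℝ) (hC : ∀ n, ‖f n‖ ≤ C) (h : Tendsto f atTop (𝓝 0)) :
    c0 V := ⟨BoundedContinuousFunction.ofNormedAddCommGroupDiscrete f C hC, h⟩

@[simp] lemma mk_apply (f : ℕ → V) (C : ℝ) (hC : ∀ n, ‖f n‖ ≤ C) (h : Tendsto f atTop (𝓝 0))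
    (n : ℕ) : mk f C hC h n = f n := rfl

end c0

section ops

variable {Y : Type} [NormedAddCommGroup Y] [NormedSpace ℝ Y]

/-- an operator into `c0`, given by its coordinates -/
noncomputable def famOp (Q : ℕ → Y →L[ℝ] V) (C : ℝ) (hC : ∀ n y, ‖Q n y‖ ≤ C * ‖y‖)
    (hQ : ∀ y, Tendsto (fun n => Q n y) atTop (𝓝 0)) : Y →L[ℝ] c0 V :=
  LinearMap.mkContinuous
    { toFun := fun y => c0.mk (fun n => Q n y) (C * ‖y‖) (fun n => hC n y) (hQ y)
      map_add' := fun y y' => by ext n; simp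
      map_smul' := fun r y => by ext n; simp }
    C (fun y => by
      refine c0.norm_le ((norm_nonneg _).trans (hC 0 y)) fun n => ?_
      exact hC n y)

@[simp] lemma famOp_apply (Q : ℕ → Y →L[ℝ] V) (C : ℝ) (hC : ∀ n y, ‖Q n y‖ ≤ C * ‖y‖)
    (hQ : ∀ y, Tendsto (fun n => Q n y) atTop (𝓝 0)) (y : Y) (n : ℕ) :
    famOp Q C hC hQ y n = Q n y := rfl

lemma famOp_bound (Q : ℕ → Y →L[ℝ] V) (C : ℝ) (hC : ∀ n y, ‖Q n y‖ ≤ C * ‖y‖)
    (hQ : ∀ y, Tendsto (fun n => Q n y) atTop (𝓝 0)) (y : Y) :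
    ‖famOp Q C hC hQ y‖ ≤ C * ‖y‖ :=
  c0.norm_le ((norm_nonneg _).trans (hC 0 y)) fun n => hC n y

/-- evaluation of null sequences -/
noncomputable def c0ev (n : ℕ) : c0 V →L[ℝ] V :=
  LinearMap.mkContinuous
    { toFun := fun f => f n
      map_add' := fun f g => rfl
      map_smul' := fun r f => rfl }
    1 (fun f => by
      rw [one_mul]
      exact c0.apply_le f n)

@[simp] lemma c0ev_apply (n : ℕ) (f : c0 V) : c0ev n f = f n := rfl

/-- the pull-back along an injection -/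
noncomputable def pull (e : ℕ → ℕ) (he : Function.Injective e) : c0 V →L[ℝ] c0 V :=
  famOp (fun n => c0ev (e n)) 1 (fun n f => by
      rw [one_mul]
      exact c0.apply_le f _)
    (fun f => f.tendsto.comp he.nat_tendsto_atTop)

@[simp] lemma pull_apply (e : ℕ → ℕ) (he : Function.Injective e) (f : c0 V) (n : ℕ) :
    pull e he f n = f (e n) := rfl

open Classical in
/-- the push-forward along an injection -/
noncomputable def push (e : ℕ → ℕ) (_he : Function.Injective e) : c0 V →L[ℝ] c0 V :=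
  famOp (fun n => if h : ∃ i, e i = n then c0ev h.choose else 0) 1
    (fun n f => by
      rw [one_mul]
      split_ifs with h
      · exact c0.apply_le f _
      · simp)
    (fun f => by
      rw [Metric.tendsto_nhds]
      intro ε hε
      obtain ⟨N, hN⟩ := eventually_atTop.mp
        ((f.tendsto.norm.eventually (gt_mem_nhds (by rw [norm_zero]; exact hε)) :
          ∀ᶠ n in atTop, ‖f n‖ < ε))
      filter_upwards [eventually_gt_atTop ((Finset.range N).sup e)] with n hn
      rw [dist_zero_right]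
      split_ifs with h
      · refine hN _ ?_
        by_contra hcon
        have h1 : e h.choose ≤ (Finset.range N).sup e :=
          Finset.le_sup (f := e) (Finset.mem_range.mpr (not_le.mp hcon))
        rw [h.choose_spec] at h1
        omega
      · simpa using hε)

open Classical in
lemma push_apply_self (e : ℕ → ℕ) (he : Function.Injective e) (f : c0 V) (i : ℕ) :
    push e he f (e i) = f i := by
  have h : ∃ j, e j = e i := ⟨i, rfl⟩
  have h1 : push e he f (e i) = (if h : ∃ j, e j = e i then c0ev h.choose else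
      (0 : c0 V →L[ℝ] V)) f := rfl
  rw [h1, dif_pos h, c0ev_apply, he h.choose_spec]

open Classical in
lemma push_apply_of_ne (e : ℕ → ℕ) (he : Function.Injective e) (f : c0 V) {n : ℕ}
    (hn : ∀ i, e i ≠ n) : push e he f n = 0 := by
  have h : ¬ ∃ j, e j = n := fun ⟨j, hj⟩ => hn j hj
  have h1 : push e he f n = (if h : ∃ j, e j = n then c0ev h.choose else
      (0 : c0 V →L[ℝ] V)) f := rfl
  rw [h1, dif_neg h]
  rfl

open Classical in
lemma push_bound (e : ℕ → ℕ) (he : Function.Injective e) (f : c0 V) : ‖push e he f‖ ≤ ‖f‖ := by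
  have := famOp_bound (fun n => if h : ∃ i, e i = n then (c0ev h.choose : c0 V →L[ℝ] V) else 0) 1
    (fun n f => by
      rw [one_mul]
      split_ifs with h
      · exact c0.apply_le f _
      · simp) (fun f => (push e he f).tendsto) f
  rw [one_mul] at this
  exact this

lemma pull_bound (e : ℕ → ℕ) (he : Function.Injective e) (f : c0 V) : ‖pull e he f‖ ≤ ‖f‖ :=
  c0.norm_le (norm_nonneg _) fun _ => c0.apply_le f _

lemma pull_push (e : ℕ → ℕ) (he : Function.Injective e) (f : c0 V) :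
    pull e he (push e he f) = f := by
  ext n
  rw [pull_apply, push_apply_self]

lemma pull_push_ne (e e' : ℕ → ℕ) (he : Function.Injective e) (he' : Function.Injective e')
    (h : ∀ i j, e i ≠ e' j) (f : c0 V) : pull e he (push e' he' f) = 0 := by
  ext n
  rw [pull_apply, push_apply_of_ne _ _ _ (fun i hi => h _ _ hi.symm)]
  rfl

variable [CompleteSpace Y]

lemma summable_sumOp {T : ℕ → V →L[ℝ] Y} {C : ℝ}
    (hT : ∀ (s : Finset ℕ) (v : ℕ → V) (K : ℝ), 0 ≤ K → (∀ n ∈ s, ‖v n‖ ≤ K) →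
      ‖∑ n ∈ s, T n (v n)‖ ≤ C * K) (f : c0 V) : Summable fun n => T n (f n) := by
  rw [summable_iff_vanishing_norm]
  intro ε hε
  have hev : ∀ᶠ n in atTop, ‖f n‖ < ε / (|C| + 1) := by
    have := f.tendsto.norm
    rw [norm_zero] at this
    exact this.eventually (gt_mem_nhds (by positivity))
  obtain ⟨N, hN⟩ := eventually_atTop.mp hev
  refine ⟨Finset.range N, fun t ht => ?_⟩
  refine (hT t f (ε / (|C| + 1)) (by positivity) fun n hn => ?_).trans_lt ?_
  · refine (hN n ?_).le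
    by_contra hcon
    exact Finset.disjoint_left.mp ht hn (Finset.mem_range.mpr (by simpa using hcon))
  · rw [mul_div_assoc', div_lt_iff₀ (by positivity)]
    nlinarith [le_abs_self C]

/-- the operator out of `c0` given by a sequence of operators -/
noncomputable def sumOp (T : ℕ → V →L[ℝ] Y) (C : ℝ)
    (hT : ∀ (s : Finset ℕ) (v : ℕ → V) (K : ℝ), 0 ≤ K → (∀ n ∈ s, ‖v n‖ ≤ K) →
      ‖∑ n ∈ s, T n (v n)‖ ≤ C * K) : c0 V →L[ℝ] Y :=
  LinearMap.mkContinuous
    { toFun := fun f => ∑' n, T n (f n)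
      map_add' := fun f g => by
        rw [← (summable_sumOp hT f).tsum_add (summable_sumOp hT g)]
        simp
      map_smul' := fun r f => by
        simp only [c0.smul_apply, map_smul, RingHom.id_apply]
        exact tsum_const_smul'' r }
    C (fun f => by
      refine le_of_tendsto (summable_sumOp hT f).hasSum.norm (Eventually.of_forall fun s => ?_)
      exact hT s f ‖f‖ (norm_nonneg _) fun n _ => c0.apply_le f n)

lemma hasSum_sumOp {T : ℕ → V →L[ℝ] Y} {C : ℝ}
    (hT : ∀ (s : Finset ℕ) (v : ℕ → V) (K : ℝ), 0 ≤ K → (∀ n ∈ s, ‖v n‖ ≤ K) →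
      ‖∑ n ∈ s, T n (v n)‖ ≤ C * K) (f : c0 V) :
    HasSum (fun n => T n (f n)) (sumOp T C hT f) := (summable_sumOp hT f).hasSum

lemma sumOp_bound {T : ℕ → V →L[ℝ] Y} {C : ℝ}
    (hT : ∀ (s : Finset ℕ) (v : ℕ → V) (K : ℝ), 0 ≤ K → (∀ n ∈ s, ‖v n‖ ≤ K) →
      ‖∑ n ∈ s, T n (v n)‖ ≤ C * K) (f : c0 V) : ‖sumOp T C hT f‖ ≤ C * ‖f‖ := by
  refine le_of_tendsto (summable_sumOp hT f).hasSum.norm (Eventually.of_forall fun s => ?_)
  exact hT s f ‖f‖ (norm_nonneg _) fun n _ => c0.apply_le f n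

lemma comp_sumOp_bound {Y' : Type} [NormedAddCommGroup Y'] [NormedSpace ℝ Y']
    {T : ℕ → V →L[ℝ] Y} {C : ℝ}
    (hT : ∀ (s : Finset ℕ) (v : ℕ → V) (K : ℝ), 0 ≤ K → (∀ n ∈ s, ‖v n‖ ≤ K) →
      ‖∑ n ∈ s, T n (v n)‖ ≤ C * K) (R : Y →L[ℝ] Y') {δ : ℝ} (hδ : 0 ≤ δ)
    (hR : ∀ n v, ‖R (T n v)‖ ≤ δ / 2 / 2 ^ n * ‖v‖) (f : c0 V) :
    ‖R (sumOp T C hT f)‖ ≤ δ * ‖f‖ := by
  have h1 : HasSum (fun n => R (T n (f n))) (R (sumOp T C hT f)) :=
    (hasSum_sumOp hT f).mapL R
  have h2 : HasSum (fun n : ℕ => δ / 2 / 2 ^ n * ‖f‖) (δ * ‖f‖) :=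
    (hasSum_geometric_two' δ).mul_right ‖f‖
  refine le_of_tendsto_of_tendsto h1.norm h2 (Eventually.of_forall fun s => ?_)
  refine (norm_sum_le _ _).trans (Finset.sum_le_sum fun n _ => ?_)
  exact (hR n (f n)).trans (mul_le_mul_of_nonneg_left (c0.apply_le f n) (by positivity))

end ops

end Pool.Agent.Lib_helper53.PF
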