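import Mathlib
import Pool.Agent.Lib_helper53.PFc0

set_option linter.unusedSectionVars false

open Set Filter Topology Metric

namespace Pool.Agent.Lib_helper53.PF

variable {V : Type} [NormedAddCommGroup V] [NormedSpace ℝ V]
  {Y : Type} [NormedAddCommGroup Y] [NormedSpace ℝ Y] [CompleteSpace Y]

/-- The abstract absorption lemma: if `R` factors through null sequences, and there are
complemented copies of the null sequences on which `R` is arbitrarily small, then the identity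
factors through `1 + R`. -/
theorem absorb (R : Y →L[ℝ] Y) (ι : c0 V →L[ℝ] Y) (R₁ : Y →L[ℝ] c0 V) (hR : ∀ y, R y = ι (R₁ y))
    {C : ℝ} (hC : 0 ≤ C)
    (h : ∀ δ > 0, ∃ (J : c0 V →L[ℝ] Y) (Q : Y →L[ℝ] c0 V), (∀ w, Q (J w) = w) ∧
      (∀ w, ‖J w‖ ≤ C * ‖w‖) ∧ (∀ y, ‖Q y‖ ≤ C * ‖y‖) ∧ ∀ w, ‖R (J w)‖ ≤ δ * ‖w‖) :
    ∃ U T : Y →L[ℝ] Y, U * (1 + R) * T = 1 := by
  set KU : ℝ := (1 + C * C + C * C) * ((1 + C * C) * (1 + ‖ι‖ * C)) with hKU
  set K : ℝ := KU * ((1 + C * ‖ι‖) * (‖R₁‖ * (1 + C * C + C * C))) with hK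
  have hKU0 : 0 ≤ KU := by positivity
  have hK0 : 0 ≤ K := by positivity
  obtain ⟨J, Q, hQJ, hJ, hQ, hRJ⟩ := h (1 / (2 * (K + 1))) (by positivity)
  have hev : Function.Injective fun n : ℕ => 2 * n := fun a b h => by
    simp only at h; omega
  have hod : Function.Injective fun n : ℕ => 2 * n + 1 := fun a b h => by
    simp only at h; omega
  set a : c0 V →L[ℝ] c0 V := push _ hev with ha
  set b : c0 V →L[ℝ] c0 V := push _ hod with hb
  set a' : c0 V →L[ℝ] c0 V := pull _ hev with ha'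
  set b' : c0 V →L[ℝ] c0 V := pull _ hod with hb'
  have haa : ∀ w, a' (a w) = w := pull_push _ hev
  have hbb : ∀ w, b' (b w) = w := pull_push _ hod
  have hab : ∀ w, a' (b w) = 0 := pull_push_ne _ _ hev hod (fun i j => by omega)
  set θ : Y →L[ℝ] Y := 1 - J.comp Q + J.comp (b.comp Q) with hθ
  set κ : Y →L[ℝ] Y := 1 - J.comp Q + J.comp (b'.comp Q) with hκ
  set j₀ : c0 V →L[ℝ] Y := J.comp a with hj₀
  set q₀ : Y →L[ℝ] c0 V := a'.comp Q with hq₀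
  set U : Y →L[ℝ] Y := κ * ((1 - j₀.comp q₀) * (1 + ι.comp q₀)) with hU
  set L : Y →L[ℝ] c0 V := R₁.comp θ + q₀.comp (ι.comp (R₁.comp θ)) with hL
  set T : Y →L[ℝ] Y := θ - j₀.comp L with hT
  set Err : Y →L[ℝ] Y := U.comp (R.comp (j₀.comp L)) with hErr
  have hθy : ∀ y, θ y = y - J (Q y) + J (b (Q y)) := fun y => rfl
  have hκy : ∀ y, κ y = y - J (Q y) + J (b' (Q y)) := fun y => rfl
  have hq₀θ : ∀ y, q₀ (θ y) = 0 := by
    intro y
    have : q₀ (θ y) = a' (Q (θ y)) := rfl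
    rw [this, hθy, map_add, map_sub, hQJ, hQJ, sub_self, zero_add, hab]
  have hq₀j₀ : ∀ w, q₀ (j₀ w) = w := by
    intro w
    have : q₀ (j₀ w) = a' (Q (J (a w))) := rfl
    rw [this, hQJ, haa]
  have hκθ : ∀ y, κ (θ y) = y := by
    intro y
    have e1 : Q (θ y) = b (Q y) := by
      rw [hθy, map_add, map_sub, hQJ, hQJ, sub_self, zero_add]
    rw [hκy, e1, hbb, hθy]
    abel
  have key : ∀ y, U (T y + ι (R₁ (θ y))) = y := by
    intro y
    set r := R₁ (θ y) with hr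
    have hTy : T y = θ y - j₀ (r + q₀ (ι r)) := rfl
    have e1 : q₀ (T y + ι r) = - r := by
      rw [hTy, map_add, map_sub, hq₀θ, hq₀j₀]
      abel
    have e2 : U (T y + ι r) = κ ((T y + ι r + ι (q₀ (T y + ι r)))
        - j₀ (q₀ (T y + ι r + ι (q₀ (T y + ι r))))) := rfl
    rw [e2, e1]
    have e3 : T y + ι r + ι (-r) = T y := by
      rw [map_neg]; abel
    rw [e3]
    have e4 : q₀ (T y) = - (r + q₀ (ι r)) := by
      rw [hTy, map_sub, hq₀θ, hq₀j₀, zero_sub]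
    rw [e4, map_neg, hTy, sub_neg_eq_add, sub_add_cancel, hκθ]
  have hmain : U * (1 + R) * T = 1 - Err := by
    ext y
    have e1 : (U * (1 + R) * T) y = U (T y + R (T y)) := rfl
    have e2 : R (T y) = ι (R₁ (θ y)) - R (j₀ (L y)) := by
      have : T y = θ y - j₀ (L y) := rfl
      rw [this, map_sub, ← hR]
    rw [e1, e2, ← add_sub_assoc, map_sub, key]
    rfl
  -- the error is small
  have hbJQ : ∀ y, ‖J (Q y)‖ ≤ C * C * ‖y‖ := fun y => by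
    refine (hJ _).trans ?_
    rw [mul_assoc]
    exact mul_le_mul_of_nonneg_left (hQ y) hC
  have hbθ : ∀ y, ‖θ y‖ ≤ (1 + C * C + C * C) * ‖y‖ := by
    intro y
    rw [hθy]
    have e1 : ‖J (b (Q y))‖ ≤ C * C * ‖y‖ := by
      refine (hJ _).trans ?_
      rw [mul_assoc]
      exact mul_le_mul_of_nonneg_left ((push_bound _ hod _).trans (hQ y)) hC
    have e2 := norm_add_le (y - J (Q y)) (J (b (Q y)))
    have e3 := norm_sub_le y (J (Q y))
    have e4 := hbJQ y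
    nlinarith
  have hbκ : ∀ y, ‖κ y‖ ≤ (1 + C * C + C * C) * ‖y‖ := by
    intro y
    rw [hκy]
    have e1 : ‖J (b' (Q y))‖ ≤ C * C * ‖y‖ := by
      refine (hJ _).trans ?_
      rw [mul_assoc]
      exact mul_le_mul_of_nonneg_left ((pull_bound _ hod _).trans (hQ y)) hC
    have e2 := norm_add_le (y - J (Q y)) (J (b' (Q y)))
    have e3 := norm_sub_le y (J (Q y))
    have e4 := hbJQ y
    nlinarith
  have hbq₀ : ∀ y, ‖q₀ y‖ ≤ C * ‖y‖ := fun y => (pull_bound _ hev _).trans (hQ y)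
  have hbj₀ : ∀ w, ‖j₀ w‖ ≤ C * ‖w‖ := fun w =>
    (hJ _).trans (mul_le_mul_of_nonneg_left (push_bound _ hev _) hC)
  have hb1 : ∀ y, ‖y + ι (q₀ y)‖ ≤ (1 + ‖ι‖ * C) * ‖y‖ := by
    intro y
    have e1 := norm_add_le y (ι (q₀ y))
    have e2 : ‖ι (q₀ y)‖ ≤ ‖ι‖ * (C * ‖y‖) :=
      (ι.le_opNorm _).trans (mul_le_mul_of_nonneg_left (hbq₀ y) (norm_nonneg _))
    nlinarith
  have hb2 : ∀ y, ‖y - j₀ (q₀ y)‖ ≤ (1 + C * C) * ‖y‖ := by
    intro y
    have e1 := norm_sub_le y (j₀ (q₀ y))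
    have e2 : ‖j₀ (q₀ y)‖ ≤ C * (C * ‖y‖) :=
      (hbj₀ _).trans (mul_le_mul_of_nonneg_left (hbq₀ y) hC)
    nlinarith
  have hbU : ∀ y, ‖U y‖ ≤ KU * ‖y‖ := by
    intro y
    have e1 : U y = κ ((y + ι (q₀ y)) - j₀ (q₀ (y + ι (q₀ y)))) := rfl
    rw [e1, hKU, mul_assoc, mul_assoc]
    refine (hbκ _).trans (mul_le_mul_of_nonneg_left ?_ (by positivity))
    exact (hb2 _).trans (mul_le_mul_of_nonneg_left (hb1 y) (by positivity))
  have hbL : ∀ y, ‖L y‖ ≤ (1 + C * ‖ι‖) * (‖R₁‖ * (1 + C * C + C * C)) * ‖y‖ := by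
    intro y
    have e1 : L y = R₁ (θ y) + q₀ (ι (R₁ (θ y))) := rfl
    have e2 : ‖R₁ (θ y)‖ ≤ ‖R₁‖ * ((1 + C * C + C * C) * ‖y‖) :=
      (R₁.le_opNorm _).trans (mul_le_mul_of_nonneg_left (hbθ y) (norm_nonneg _))
    have e3 : ‖q₀ (ι (R₁ (θ y)))‖ ≤ C * (‖ι‖ * ‖R₁ (θ y)‖) :=
      (hbq₀ _).trans (mul_le_mul_of_nonneg_left (ι.le_opNorm _) hC)
    rw [e1]
    calc ‖R₁ (θ y) + q₀ (ι (R₁ (θ y)))‖ ≤ ‖R₁ (θ y)‖ + C * (‖ι‖ * ‖R₁ (θ y)‖) :=
          (norm_add_le _ _).trans (by linarith)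
      _ = (1 + C * ‖ι‖) * ‖R₁ (θ y)‖ := by ring
      _ ≤ (1 + C * ‖ι‖) * (‖R₁‖ * ((1 + C * C + C * C) * ‖y‖)) :=
          mul_le_mul_of_nonneg_left e2 (by positivity)
      _ = _ := by ring
  have hbErr : ‖Err‖ ≤ 1 / 2 := by
    refine Err.opNorm_le_bound (by norm_num) fun y => ?_
    have e1 : Err y = U (R (J (a (L y)))) := rfl
    rw [e1]
    have e2 : ‖a (L y)‖ ≤ ‖L y‖ := push_bound _ hev _
    calc ‖U (R (J (a (L y))))‖ ≤ KU * ‖R (J (a (L y)))‖ := hbU _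
      _ ≤ KU * (1 / (2 * (K + 1)) * ‖a (L y)‖) := mul_le_mul_of_nonneg_left (hRJ _) hKU0
      _ ≤ KU * (1 / (2 * (K + 1)) *
          ((1 + C * ‖ι‖) * (‖R₁‖ * (1 + C * C + C * C)) * ‖y‖)) :=
          mul_le_mul_of_nonneg_left (mul_le_mul_of_nonneg_left (e2.trans (hbL y))
            (by positivity)) hKU0
      _ = K / (K + 1) * (1 / 2) * ‖y‖ := by rw [hK]; field_simp
      _ ≤ 1 * (1 / 2) * ‖y‖ := by
          gcongr
          rw [div_le_one (by positivity)]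
          linarith
      _ = 1 / 2 * ‖y‖ := by ring
  have hErr1 : ‖Err‖ < 1 := by linarith
  refine ⟨(↑(Units.oneSub Err hErr1)⁻¹ : Y →L[ℝ] Y) * U, T, ?_⟩
  rw [mul_assoc, mul_assoc, ← mul_assoc U, hmain]
  exact (Units.oneSub Err hErr1).inv_mul

end Pool.Agent.Lib_helper53.PF
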