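import Mathlib

open Set Filter Topology Metric

namespace Pool.Agent.Lib_helper53.PF

/-- the compact space of directions -/
abbrev Z := ℕ → Bool

/-- a sequence of directions entering every nonempty open set infinitely often -/
noncomputable def pt (n : ℕ) : Z := TopologicalSpace.denseSeq Z (Nat.unpair n).1

lemma exists_pt_mem {U : Set Z} (hU : IsOpen U) (hne : U.Nonempty) (k : ℕ) :
    ∃ n ≥ k, pt n ∈ U := by
  obtain ⟨i, hi⟩ := (TopologicalSpace.denseRange_denseSeq Z).exists_mem_open hU hne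
  refine ⟨Nat.pair i k, Nat.right_le_pair _ _, ?_⟩
  simpa [pt] using hi

/-- the filter of a direction -/
noncomputable def nb (z : Z) : Filter ℕ := atTop ⊓ comap pt (𝓝 z)

lemma mem_nb {z : Z} {S : Set ℕ} :
    S ∈ nb z ↔ ∃ U : Set Z, IsOpen U ∧ z ∈ U ∧ ∃ k : ℕ, ∀ n ≥ k, pt n ∈ U → n ∈ S := by
  constructor
  · intro h
    obtain ⟨A, hA, B, hB, hAB⟩ := mem_inf_iff_superset.mp h
    obtain ⟨V, hV, hVB⟩ := mem_comap.mp hB
    obtain ⟨U, hUV, hU, hz⟩ := mem_nhds_iff.mp hV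
    obtain ⟨k, hk⟩ := mem_atTop_sets.mp hA
    exact ⟨U, hU, hz, k, fun n hn hnU => hAB ⟨hk n hn, hVB (hUV hnU)⟩⟩
  · rintro ⟨U, hU, hz, k, hk⟩
    refine mem_inf_iff_superset.mpr ⟨Ici k, Ici_mem_atTop k, pt ⁻¹' U,
      preimage_mem_comap (hU.mem_nhds hz), ?_⟩
    rintro n ⟨hn, hnU⟩
    exact hk n hn hnU

lemma eventually_nb {z : Z} {P : ℕ → Prop} :
    (∀ᶠ n in nb z, P n) ↔ ∃ U : Set Z, IsOpen U ∧ z ∈ U ∧ ∃ k : ℕ, ∀ n ≥ k, pt n ∈ U → P n :=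
  mem_nb

instance (z : Z) : (nb z).NeBot := by
  refine ⟨fun h => ?_⟩
  have : (∅ : Set ℕ) ∈ nb z := by rw [h]; exact mem_bot
  obtain ⟨U, hU, hz, k, hk⟩ := mem_nb.mp this
  obtain ⟨n, hn, hnU⟩ := exists_pt_mem hU ⟨z, hz⟩ k
  exact hk n hn hnU

lemma nb_le (z : Z) : nb z ≤ atTop := inf_le_left

lemma frequently_nb {z : Z} {P : ℕ → Prop} :
    (∃ᶠ n in nb z, P n) ↔ ∀ U : Set Z, IsOpen U → z ∈ U → ∀ k : ℕ, ∃ n ≥ k, pt n ∈ U ∧ P n := by
  rw [Filter.Frequently, eventually_nb]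
  push Not
  rfl

/-- compactness -/
lemma eventually_atTop_of_nb {P : ℕ → Prop} (h : ∀ z, ∀ᶠ n in nb z, P n) :
    ∀ᶠ n in atTop, P n := by
  have h1 : ∀ z : Z, ∃ U : Set Z, IsOpen U ∧ z ∈ U ∧ ∃ k : ℕ, ∀ n ≥ k, pt n ∈ U → P n :=
    fun z => eventually_nb.mp (h z)
  choose U hU hz k hk using h1
  obtain ⟨t, ht⟩ := isCompact_univ.elim_finite_subcover U hU
    (fun z _ => mem_iUnion.mpr ⟨z, hz z⟩)
  refine eventually_atTop.mpr ⟨t.sup k, fun n hn => ?_⟩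
  obtain ⟨z, hzt, hzU⟩ := mem_iUnion₂.mp (ht (mem_univ (pt n)))
  exact hk z n ((Finset.le_sup hzt).trans hn) hzU

/-- separated neighbourhoods -/
lemma eventually_nb_notMem {z : Z} {C : Set Z} (hC : IsClosed C) (hz : z ∉ C) :
    ∀ᶠ n in nb z, pt n ∉ C :=
  eventually_nb.mpr ⟨Cᶜ, hC.isOpen_compl, hz, 0, fun _ _ h => h⟩

/-- sequences running to infinity have a cluster direction -/
lemma exists_cluster {ι : Type*} (l : Filter ι) [l.NeBot] (v : ι → ℕ) (hv : Tendsto v l atTop) :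
    ∃ z : Z, ∀ S ∈ nb z, ∃ᶠ j in l, v j ∈ S := by
  obtain ⟨z, hz⟩ := exists_clusterPt_of_compactSpace (map (fun j => pt (v j)) l)
  refine ⟨z, fun S hS => ?_⟩
  obtain ⟨U, hU, hzU, k, hk⟩ := mem_nb.mp hS
  have h1 : ∃ᶠ j in l, pt (v j) ∈ U := by
    have := hz.frequently (hU.mem_nhds hzU)
    rw [Filter.frequently_map] at this
    exact this
  refine (h1.and_eventually (hv.eventually_ge_atTop k)).mono fun j hj => hk _ hj.2 hj.1

end Pool.Agent.Lib_helper53.PF
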