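import Mathlib

open Set Filter Topology Metric

namespace Pool.Agent.Lib_helper53.PF

variable {E : Type} [NormedAddCommGroup E] [InnerProductSpace ℝ E]

/-- the row `m` has norm at most `ε` on functions supported in `S` -/
def SmallOn (m : ℕ → (E →L[ℝ] E)) (S : Set ℕ) (ε : ℝ) : Prop :=
  ∀ (s : Finset ℕ), (s : Set ℕ) ⊆ S → ∀ f : ℕ → E, (∀ n, ‖f n‖ ≤ 1) → ‖∑ n ∈ s, m n (f n)‖ ≤ ε

/-- bounded rows -/
def RowBdd (m : ℕ → (E →L[ℝ] E)) (C : ℝ) : Prop := SmallOn m univ C

lemma SmallOn.mono {m : ℕ → (E →L[ℝ] E)} {S S' : Set ℕ} {ε ε' : ℝ} (h : SmallOn m S ε)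
    (hS : S' ⊆ S) (hε : ε ≤ ε') : SmallOn m S' ε' :=
  fun s hs f hf => (h s (hs.trans hS) f hf).trans hε

lemma SmallOn.nonneg {m : ℕ → (E →L[ℝ] E)} {S : Set ℕ} {ε : ℝ} (h : SmallOn m S ε) : 0 ≤ ε := by
  have := h ∅ (by simp) (fun _ => 0) (by simp)
  simpa using this

lemma SmallOn.scale {m : ℕ → (E →L[ℝ] E)} {S : Set ℕ} {ε K : ℝ} (h : SmallOn m S ε)
    {F : ℕ → E} (hF : ∀ n, ‖F n‖ ≤ K) {s : Finset ℕ} (hs : (s : Set ℕ) ⊆ S) :
    ‖∑ n ∈ s, m n (F n)‖ ≤ K * ε := by
  have hK : 0 ≤ K := (norm_nonneg _).trans (hF 0)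
  rcases hK.eq_or_lt with h0 | h0
  · have : ∀ n, F n = 0 := fun n => norm_le_zero_iff.mp (by rw [h0]; exact hF n)
    simp [this, ← h0]
  · have h1 := h s hs (fun n => K⁻¹ • F n) (fun n => by
      rw [norm_smul, norm_inv, Real.norm_of_nonneg hK, inv_mul_le_iff₀ h0, mul_one]
      exact hF n)
    have h2 : ∑ n ∈ s, m n (F n) = K • ∑ n ∈ s, m n (K⁻¹ • F n) := by
      rw [Finset.smul_sum]
      refine Finset.sum_congr rfl fun n _ => ?_
      rw [map_smul, smul_smul, mul_inv_cancel₀ h0.ne', one_smul]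
    rw [h2, norm_smul, Real.norm_of_nonneg hK]
    exact mul_le_mul_of_nonneg_left h1 hK

lemma exists_tail {m : ℕ → (E →L[ℝ] E)} {C : ℝ} (h : RowBdd m C) {ε : ℝ} (hε : 0 < ε) :
    ∃ k : ℕ, SmallOn m (Ici k) ε := by
  by_contra hcon
  push Not at hcon
  have h1 : ∀ k : ℕ, ∃ s : Finset ℕ, (s : Set ℕ) ⊆ Ici k ∧ ∃ f : ℕ → E, (∀ n, ‖f n‖ ≤ 1) ∧
      ε < ‖∑ n ∈ s, m n (f n)‖ := by
    intro k
    have := hcon k
    unfold SmallOn at this
    push Not at this
    exact this
  have h2 : ∀ k : ℕ, ∃ (s : Finset ℕ) (f : ℕ → E), (∀ n, ‖f n‖ ≤ 1) ∧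
      k * ε ^ 2 ≤ ‖∑ n ∈ s, m n (f n)‖ ^ 2 := by
    intro k
    induction k with
    | zero => exact ⟨∅, fun _ => 0, by simp, by simp⟩
    | succ k ih =>
      obtain ⟨s, f, hf, hk⟩ := ih
      obtain ⟨s', hs', f', hf', hlt⟩ := h1 (s.sup id + 1)
      have hdisj : Disjoint s s' := by
        rw [Finset.disjoint_left]
        intro n hn hn'
        have a1 : n ≤ s.sup id := Finset.le_sup (f := id) hn
        have a2 : s.sup id + 1 ≤ n := hs' hn'
        omega
      set y := ∑ n ∈ s, m n (f n) with hy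
      set y' := ∑ n ∈ s', m n (f' n) with hy'
      have hpar := parallelogram_law_with_norm ℝ y y'
      have hy2 : ε ^ 2 ≤ ‖y'‖ ^ 2 := by
        have := norm_nonneg y'
        gcongr
      have hcase : (k + 1) * ε ^ 2 ≤ ‖y + y'‖ ^ 2 ∨ (k + 1) * ε ^ 2 ≤ ‖y - y'‖ ^ 2 := by
        by_contra hcc
        push Not at hcc
        nlinarith [hcc.1, hcc.2]
      rcases hcase with hc | hc
      · refine ⟨s ∪ s', fun n => if n ∈ s then f n else f' n, fun n => ?_, ?_⟩
        · dsimp only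
          split_ifs
          · exact hf n
          · exact hf' n
        · rw [Finset.sum_union hdisj]
          have e1 : ∑ n ∈ s, m n (if n ∈ s then f n else f' n) = y :=
            Finset.sum_congr rfl fun n hn => by rw [if_pos hn]
          have e2 : ∑ n ∈ s', m n (if n ∈ s then f n else f' n) = y' :=
            Finset.sum_congr rfl fun n hn => by
              rw [if_neg (fun h => Finset.disjoint_left.mp hdisj h hn)]
          rw [e1, e2]
          push_cast
          exact hc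
      · refine ⟨s ∪ s', fun n => if n ∈ s then f n else - f' n, fun n => ?_, ?_⟩
        · dsimp only
          split_ifs
          · exact hf n
          · rw [norm_neg]; exact hf' n
        · rw [Finset.sum_union hdisj]
          have e1 : ∑ n ∈ s, m n (if n ∈ s then f n else - f' n) = y :=
            Finset.sum_congr rfl fun n hn => by rw [if_pos hn]
          have e2 : ∑ n ∈ s', m n (if n ∈ s then f n else - f' n) = - y' := by
            rw [hy', ← Finset.sum_neg_distrib]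
            exact Finset.sum_congr rfl fun n hn => by
              rw [if_neg (fun h => Finset.disjoint_left.mp hdisj h hn), map_neg]
          rw [e1, e2, ← sub_eq_add_neg]
          push_cast
          exact hc
  obtain ⟨k, hk⟩ := exists_nat_gt (C ^ 2 / ε ^ 2)
  obtain ⟨s, f, hf, hle⟩ := h2 k
  have h3 := h s (subset_univ _) f hf
  have h4 : ‖∑ n ∈ s, m n (f n)‖ ^ 2 ≤ C ^ 2 := by
    have := norm_nonneg (∑ n ∈ s, m n (f n))
    gcongr
  rw [div_lt_iff₀ (by positivity)] at hk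
  linarith

variable [CompleteSpace E]

/-- the value of the row on a bounded function -/
noncomputable def hat (m : ℕ → (E →L[ℝ] E)) (F : ℕ → E) : E := ∑' n, m n (F n)

lemma summable_row {m : ℕ → (E →L[ℝ] E)} {C : ℝ} (h : RowBdd m C) {F : ℕ → E} {K : ℝ}
    (hF : ∀ n, ‖F n‖ ≤ K) : Summable fun n => m n (F n) := by
  rw [summable_iff_vanishing_norm]
  intro ε hε
  have hK : 0 ≤ K := (norm_nonneg _).trans (hF 0)
  obtain ⟨k, hk⟩ := exists_tail h (div_pos hε (by positivity : (0:ℝ) < K + 1))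
  refine ⟨Finset.range k, fun t ht => ?_⟩
  have ht' : (t : Set ℕ) ⊆ Ici k := by
    intro n hn
    by_contra hcon
    exact Finset.disjoint_left.mp ht hn (Finset.mem_range.mpr (by simpa using hcon))
  refine (hk.scale hF ht').trans_lt ?_
  rw [mul_div_assoc', div_lt_iff₀ (by positivity)]
  nlinarith

lemma norm_hat_le {m : ℕ → (E →L[ℝ] E)} {S : Set ℕ} {ε K : ℝ} (h : SmallOn m S ε)
    {F : ℕ → E} (hF : ∀ n, ‖F n‖ ≤ K) (hFS : ∀ n ∉ S, F n = 0) : ‖hat m F‖ ≤ K * ε := by
  classical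
  have hK : 0 ≤ K := (norm_nonneg _).trans (hF 0)
  by_cases hs : Summable fun n => m n (F n)
  · refine le_of_tendsto hs.hasSum.norm (Eventually.of_forall fun s => ?_)
    have : ∑ n ∈ s, m n (F n) = ∑ n ∈ s.filter (· ∈ S), m n (F n) := by
      rw [Finset.sum_filter]
      refine Finset.sum_congr rfl fun n _ => ?_
      split_ifs with hn
      · rfl
      · rw [hFS n hn, map_zero]
    rw [this]
    exact h.scale hF (fun n hn => (Finset.mem_filter.mp hn).2)
  · unfold hat
    rw [tsum_eq_zero_of_not_summable hs, norm_zero]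
    exact mul_nonneg hK h.nonneg

lemma hat_add {m : ℕ → (E →L[ℝ] E)} {C : ℝ} (h : RowBdd m C) {F G : ℕ → E} {K K' : ℝ}
    (hF : ∀ n, ‖F n‖ ≤ K) (hG : ∀ n, ‖G n‖ ≤ K') :
    hat m (fun n => F n + G n) = hat m F + hat m G := by
  unfold hat
  rw [← (summable_row h hF).tsum_add (summable_row h hG)]
  simp

lemma hat_sub {m : ℕ → (E →L[ℝ] E)} {C : ℝ} (h : RowBdd m C) {F G : ℕ → E} {K K' : ℝ}
    (hF : ∀ n, ‖F n‖ ≤ K) (hG : ∀ n, ‖G n‖ ≤ K') :
    hat m (fun n => F n - G n) = hat m F - hat m G := by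
  unfold hat
  rw [← (summable_row h hF).tsum_sub (summable_row h hG)]
  simp

lemma hat_smul (m : ℕ → (E →L[ℝ] E)) (c : ℝ) (F : ℕ → E) :
    hat m (fun n => c • F n) = c • hat m F := by
  unfold hat
  simp only [map_smul]
  exact tsum_const_smul'' c

lemma hat_eq_sum (m : ℕ → (E →L[ℝ] E)) {F : ℕ → E} (s : Finset ℕ) (hF : ∀ n ∉ s, F n = 0) :
    hat m F = ∑ n ∈ s, m n (F n) :=
  tsum_eq_sum fun n hn => by rw [hF n hn, map_zero]

lemma continuous_hat {m : ℕ → (E →L[ℝ] E)} {C : ℝ} (h : RowBdd m C) {X : Type*}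
    [TopologicalSpace X] {F : X → ℕ → E} (hF : ∀ x n, ‖F x n‖ ≤ 1)
    (hc : ∀ n, Continuous fun x => F x n) : Continuous fun x => hat m (F x) := by
  refine continuous_of_uniform_approx_of_continuous fun u hu => ?_
  obtain ⟨ε, hε, hεu⟩ := Metric.mem_uniformity_dist.mp hu
  obtain ⟨k, hk⟩ := exists_tail h (half_pos hε)
  refine ⟨fun x => ∑ n ∈ Finset.range k, m n (F x n), ?_, fun x => hεu ?_⟩
  · exact continuous_finsetSum _ fun n _ => (m n).continuous.comp (hc n)
  · have h1 : hat m (F x) - ∑ n ∈ Finset.range k, m n (F x n)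
        = hat m (fun n => if n ∈ Ici k then F x n else 0) := by
      have e1 : hat m (fun n => if n < k then F x n else 0)
          = ∑ n ∈ Finset.range k, m n (F x n) := by
        rw [hat_eq_sum m (Finset.range k) (fun n hn => by
          rw [if_neg (by simpa using hn)])]
        refine Finset.sum_congr rfl fun n hn => ?_
        rw [if_pos (Finset.mem_range.mp hn)]
      rw [← e1, ← hat_sub h (hF x) (K' := 1) (fun n => by
        split_ifs
        · exact hF x n
        · simp)]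
      congr 1
      ext n
      by_cases hn : n < k
      · rw [if_pos hn, if_neg (by simpa using hn), sub_self]
      · rw [if_neg hn, if_pos (by simpa using hn), sub_zero]
    rw [dist_eq_norm, h1]
    have h2 := norm_hat_le hk (F := fun n => if n ∈ Ici k then F x n else 0) (K := 1) (fun n => by
      split_ifs
      · exact hF x n
      · simp) (fun n hn => if_neg hn)
    linarith

/-- subtracting an operator on the diagonal -/
noncomputable def dsub (m : ℕ → (E →L[ℝ] E)) (v : ℕ) (a : E →L[ℝ] E) : ℕ → (E →L[ℝ] E) :=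
  fun n => m n - if n = v then a else 0

omit [CompleteSpace E] in
lemma sum_dsub (m : ℕ → (E →L[ℝ] E)) (v : ℕ) (a : E →L[ℝ] E) (s : Finset ℕ) (f : ℕ → E) :
    ∑ n ∈ s, dsub m v a n (f n) = ∑ n ∈ s, m n (f n) - if v ∈ s then a (f v) else 0 := by
  unfold dsub
  simp only [sub_apply, Finset.sum_sub_distrib]
  congr 1
  rw [← Finset.sum_ite_eq' s v (fun n => a (f n))]
  refine Finset.sum_congr rfl fun n _ => ?_
  split_ifs with h
  · rfl
  · simp

omit [CompleteSpace E] in
lemma RowBdd.dsub {m : ℕ → (E →L[ℝ] E)} {C : ℝ} (h : RowBdd m C) (v : ℕ) (a : E →L[ℝ] E) :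
    RowBdd (dsub m v a) (C + ‖a‖) := by
  intro s _ f hf
  rw [sum_dsub]
  refine (norm_sub_le _ _).trans (add_le_add (h s (subset_univ _) f hf) ?_)
  split_ifs
  · exact (a.le_opNorm _).trans (mul_le_of_le_one_right (norm_nonneg _) (hf v))
  · simp

lemma hat_dsub {m : ℕ → (E →L[ℝ] E)} {C : ℝ} (h : RowBdd m C) (v : ℕ) (a : E →L[ℝ] E)
    {F : ℕ → E} {K : ℝ} (hF : ∀ n, ‖F n‖ ≤ K) : hat (dsub m v a) F = hat m F - a (F v) := by
  have h1 : HasSum (fun n => if n = v then a (F v) else 0) (a (F v)) := hasSum_ite_eq v _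
  have h2 := (summable_row h hF).hasSum.sub h1
  unfold hat
  rw [← h2.tsum_eq]
  congr 1
  ext n
  unfold PF.dsub
  by_cases hn : n = v
  · subst hn; simp
  · simp [hn]

end Pool.Agent.Lib_helper53.PF
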