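import Mathlib
import Pool.Agent.Lib_helper53.PFBase
import Pool.Agent.Lib_helper53.PFRow

open Set Filter Topology Metric
open scoped BoundedContinuousFunction

namespace Pool.Agent.Lib_helper53.PF

variable (E : Type) [NormedAddCommGroup E] [InnerProductSpace ℝ E]

/-- a system of generators -/
structure Gen where
  O : Type
  z0 : O → Z
  z1 : O → Z
  F : O → ℕ → E
  norm_le : ∀ α n, ‖F α n‖ ≤ 1
  supp : ∀ α z, z ≠ z0 α → z ≠ z1 α → ∀ᶠ n in nb z, F α n = 0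
  ne01 : ∀ α β, z0 α ≠ z1 β
  inj0 : Function.Injective z0
  inj1 : Function.Injective z1
  norming0 : ∀ α (b : E →L[ℝ] E) (c : ℝ), c < ‖b‖ → ∃ᶠ n in nb (z0 α), c < ‖b (F α n)‖
  norming1 : ∀ α (b : E →L[ℝ] E) (c : ℝ), c < ‖b‖ → ∃ᶠ n in nb (z1 α), c < ‖b (F α n)‖

variable {E}

namespace Gen

variable (G : Gen E)

/-- `b` is the class of `f` at `α` -/
def Cls (f : ℕ → E) (α : G.O) (b : E →L[ℝ] E) : Prop :=
  Tendsto (fun n => f n - b (G.F α n)) (nb (G.z0 α)) (𝓝 0) ∧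
    Tendsto (fun n => f n - b (G.F α n)) (nb (G.z1 α)) (𝓝 0)

variable {G}

lemma Cls.add {f g : ℕ → E} {α : G.O} {b c : E →L[ℝ] E} (hf : G.Cls f α b) (hg : G.Cls g α c) :
    G.Cls (fun n => f n + g n) α (b + c) := by
  constructor
  · have := hf.1.add hg.1
    rw [add_zero] at this
    refine this.congr fun n => ?_
    beta_reduce
    rw [add_apply]; abel
  · have := hf.2.add hg.2
    rw [add_zero] at this
    refine this.congr fun n => ?_
    beta_reduce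
    rw [add_apply]; abel

lemma Cls.smul {f : ℕ → E} {α : G.O} {b : E →L[ℝ] E} (r : ℝ) (hf : G.Cls f α b) :
    G.Cls (fun n => r • f n) α (r • b) := by
  constructor
  · have := hf.1.const_smul r
    rw [smul_zero] at this
    refine this.congr fun n => ?_
    rw [smul_apply, smul_sub]
  · have := hf.2.const_smul r
    rw [smul_zero] at this
    refine this.congr fun n => ?_
    rw [smul_apply, smul_sub]

lemma Cls.sub {f g : ℕ → E} {α : G.O} {b c : E →L[ℝ] E} (hf : G.Cls f α b) (hg : G.Cls g α c) :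
    G.Cls (fun n => f n - g n) α (b - c) := by
  have := hf.add (hg.smul (-1))
  simpa [sub_eq_add_neg] using this

lemma Cls.comp {f : ℕ → E} {α : G.O} {b : E →L[ℝ] E} (a : E →L[ℝ] E) (hf : G.Cls f α b) :
    G.Cls (fun n => a (f n)) α (a * b) := by
  constructor
  · have := (a.continuous.tendsto 0).comp hf.1
    rw [map_zero] at this
    refine this.congr fun n => ?_
    simp [map_sub]
  · have := (a.continuous.tendsto 0).comp hf.2
    rw [map_zero] at this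
    refine this.congr fun n => ?_
    simp [map_sub]

lemma Cls.of_eventuallyEq {f g : ℕ → E} {α : G.O} {b : E →L[ℝ] E} (hf : G.Cls f α b)
    (h : ∀ᶠ n in atTop, f n = g n) : G.Cls g α b := by
  constructor
  · refine hf.1.congr' ((h.filter_mono (nb_le _)).mono fun n hn => ?_)
    rw [hn]
  · refine hf.2.congr' ((h.filter_mono (nb_le _)).mono fun n hn => ?_)
    rw [hn]

lemma Cls.norm_le {f : ℕ → E} {α : G.O} {b : E →L[ℝ] E} (hf : G.Cls f α b) {C : ℝ}
    (hC : ∀ᶠ n in nb (G.z0 α), ‖f n‖ ≤ C) : ‖b‖ ≤ C := by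
  by_contra hcon
  push Not at hcon
  set c := (C + ‖b‖) / 2 with hc
  have h1 := G.norming0 α b c (by linarith)
  have h2 : ∀ᶠ n in nb (G.z0 α), ‖f n - b (G.F α n)‖ < c - C := by
    have := hf.1.norm
    rw [norm_zero] at this
    exact this.eventually (gt_mem_nhds (by linarith))
  obtain ⟨n, hn1, hn2, hn3⟩ := (h1.and_eventually (h2.and hC)).exists
  have h3 : ‖b (G.F α n)‖ ≤ ‖f n‖ + ‖f n - b (G.F α n)‖ := by
    calc ‖b (G.F α n)‖ = ‖f n - (f n - b (G.F α n))‖ := by rw [sub_sub_cancel]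
      _ ≤ _ := norm_sub_le _ _
  linarith

lemma Cls.unique {f : ℕ → E} {α : G.O} {b c : E →L[ℝ] E} (hf : G.Cls f α b) (hg : G.Cls f α c) :
    b = c := by
  have h := (hf.sub hg).norm_le (C := 0) (Eventually.of_forall fun n => by simp)
  rw [← sub_eq_zero]
  exact norm_le_zero_iff.mp h

variable (G)

lemma cls_F (α : G.O) (b : E →L[ℝ] E) : G.Cls (fun n => b (G.F α n)) α b := by
  constructor <;> simp

lemma F_eventually {α : G.O} {z : Z} (h0 : z ≠ G.z0 α) (h1 : z ≠ G.z1 α) :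
    ∀ᶠ n in nb z, G.F α n = 0 := G.supp α z h0 h1

lemma F_eventually0 {α β : G.O} (h : β ≠ α) : ∀ᶠ n in nb (G.z0 β), G.F α n = 0 :=
  G.supp α _ (fun e => h (G.inj0 e)) (G.ne01 _ _)

lemma F_eventually1 {α β : G.O} (h : β ≠ α) : ∀ᶠ n in nb (G.z1 β), G.F α n = 0 :=
  G.supp α _ (fun e => G.ne01 _ _ e.symm) (fun e => h (G.inj1 e))

lemma cls_F_ne {α β : G.O} (h : β ≠ α) (b : E →L[ℝ] E) :
    G.Cls (fun n => b (G.F α n)) β 0 := by
  constructor
  · refine tendsto_const_nhds.congr' ((G.F_eventually0 h).mono fun n hn => ?_)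
    simp [hn]
  · refine tendsto_const_nhds.congr' ((G.F_eventually1 h).mono fun n hn => ?_)
    simp [hn]

/-- supports of different generators are almost disjoint -/
lemma almost_disjoint {α β : G.O} (h : β ≠ α) :
    ∀ᶠ n in atTop, G.F α n = 0 ∨ G.F β n = 0 := by
  refine eventually_atTop_of_nb fun z => ?_
  by_cases h0 : z = G.z0 α
  · rw [h0]
    exact (G.F_eventually0 h.symm).mono fun n hn => Or.inr hn
  by_cases h1 : z = G.z1 α
  · rw [h1]
    exact (G.F_eventually1 h.symm).mono fun n hn => Or.inr hn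
  exact (G.supp α z h0 h1).mono fun n hn => Or.inl hn

variable (A : Subalgebra ℝ (E →L[ℝ] E))

/-- the Banach space attached to the generators and to the algebra `A` -/
def X : Submodule ℝ (ℕ →ᵇ E) where
  carrier := {f | (∀ α, ∃ b ∈ A, G.Cls f α b) ∧
    ∀ z, (∀ α, z ≠ G.z0 α ∧ z ≠ G.z1 α) → Tendsto f (nb z) (𝓝 0)}
  add_mem' := by
    rintro f g ⟨hf1, hf2⟩ ⟨hg1, hg2⟩
    refine ⟨fun α => ?_, fun z hz => ?_⟩
    · obtain ⟨b, hb, hb'⟩ := hf1 α
      obtain ⟨c, hc, hc'⟩ := hg1 α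
      exact ⟨b + c, A.add_mem hb hc, hb'.add hc'⟩
    · have := (hf2 z hz).add (hg2 z hz)
      rwa [add_zero] at this
  zero_mem' := by
    refine ⟨fun α => ⟨0, A.zero_mem, ?_⟩, fun z hz => ?_⟩
    · constructor <;> simp
    · exact tendsto_const_nhds
  smul_mem' := by
    rintro r f ⟨hf1, hf2⟩
    refine ⟨fun α => ?_, fun z hz => ?_⟩
    · obtain ⟨b, hb, hb'⟩ := hf1 α
      exact ⟨r • b, A.smul_mem hb r, hb'.smul r⟩
    · have := (hf2 z hz).const_smul r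
      rwa [smul_zero] at this

variable {G A}

lemma mem_X {f : ℕ →ᵇ E} : f ∈ G.X A ↔ (∀ α, ∃ b ∈ A, G.Cls f α b) ∧
    ∀ z, (∀ α, z ≠ G.z0 α ∧ z ≠ G.z1 α) → Tendsto f (nb z) (𝓝 0) := Iff.rfl

/-- the class of an element -/
noncomputable def cls (f : G.X A) (α : G.O) : E →L[ℝ] E := Classical.choose (f.2.1 α)

lemma cls_mem (f : G.X A) (α : G.O) : cls f α ∈ A := (Classical.choose_spec (f.2.1 α)).1

lemma cls_spec (f : G.X A) (α : G.O) : G.Cls (f : ℕ →ᵇ E) α (cls f α) :=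
  (Classical.choose_spec (f.2.1 α)).2

lemma cls_eq {f : G.X A} {α : G.O} {b : E →L[ℝ] E} (h : G.Cls (f : ℕ →ᵇ E) α b) :
    cls f α = b := (cls_spec f α).unique h

lemma cls_add (f g : G.X A) (α : G.O) : cls (f + g) α = cls f α + cls g α :=
  cls_eq ((cls_spec f α).add (cls_spec g α))

lemma cls_smul (r : ℝ) (f : G.X A) (α : G.O) : cls (r • f) α = r • cls f α :=
  cls_eq ((cls_spec f α).smul r)

lemma cls_sub (f g : G.X A) (α : G.O) : cls (f - g) α = cls f α - cls g α :=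
  cls_eq ((cls_spec f α).sub (cls_spec g α))

lemma norm_cls_le (f : G.X A) (α : G.O) : ‖cls f α‖ ≤ ‖f‖ :=
  (cls_spec f α).norm_le (Eventually.of_forall fun n => (f : ℕ →ᵇ E).norm_coe_le_norm n)

variable (A) in
/-- constructing elements of `X` -/
noncomputable def mkX (f : ℕ → E) (C : ℝ) (hC : ∀ n, ‖f n‖ ≤ C)
    (h1 : ∀ α, ∃ b ∈ A, G.Cls f α b)
    (h2 : ∀ z, (∀ α, z ≠ G.z0 α ∧ z ≠ G.z1 α) → Tendsto f (nb z) (𝓝 0)) : G.X A :=
  ⟨BoundedContinuousFunction.ofNormedAddCommGroupDiscrete f C hC, h1, h2⟩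

@[simp] lemma mkX_apply (f : ℕ → E) (C : ℝ) (hC : ∀ n, ‖f n‖ ≤ C)
    (h1 : ∀ α, ∃ b ∈ A, G.Cls f α b)
    (h2 : ∀ z, (∀ α, z ≠ G.z0 α ∧ z ≠ G.z1 α) → Tendsto f (nb z) (𝓝 0)) (n : ℕ) :
    (mkX A f C hC h1 h2 : ℕ →ᵇ E) n = f n := rfl

lemma ext_X {f g : G.X A} (h : ∀ n, (f : ℕ →ᵇ E) n = (g : ℕ →ᵇ E) n) : f = g :=
  Subtype.ext (DFunLike.ext _ _ h)

lemma norm_le_X {f : G.X A} {C : ℝ} (hC : 0 ≤ C) (h : ∀ n, ‖(f : ℕ →ᵇ E) n‖ ≤ C) : ‖f‖ ≤ C :=
  (BoundedContinuousFunction.norm_le hC).mpr h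

lemma apply_le_X (f : G.X A) (n : ℕ) : ‖(f : ℕ →ᵇ E) n‖ ≤ ‖f‖ :=
  (f : ℕ →ᵇ E).norm_coe_le_norm n

/-- the classes of an element form a `c₀`-family -/
lemma finite_cls (f : G.X A) {ε : ℝ} (hε : 0 < ε) : {α | ε ≤ ‖cls f α‖}.Finite := by
  by_contra hinf
  have hinf' : (G.z0 '' {α | ε ≤ ‖cls f α‖}).Infinite :=
    Set.Infinite.image G.inj0.injOn hinf
  obtain ⟨z, hz⟩ := hinf'.exists_accPt_principal
  have hfreq : ∃ᶠ y in 𝓝[≠] z, y ∈ G.z0 '' {α | ε ≤ ‖cls f α‖} := accPt_iff_frequently_nhdsNE.mp hz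
  have hne : ∀ w : Z, ∀ᶠ y in 𝓝[≠] z, y ≠ w := by
    intro w
    by_cases hw : z = w
    · rw [← hw]; exact self_mem_nhdsWithin
    · exact nhdsWithin_le_nhds (isOpen_ne.mem_nhds hw)
  -- near `z` the function is controlled
  have key : ∃ U : Set Z, IsOpen U ∧ z ∈ U ∧ ∀ α : G.O, G.z0 α ∈ U → ‖cls f α‖ < ε ∨
      (∃ β, (z = G.z0 β ∨ z = G.z1 β) ∧ α = β) := by
    by_cases hused : ∃ β, z = G.z0 β ∨ z = G.z1 β
    · obtain ⟨β, hβ⟩ := hused
      have h1 : ∀ᶠ n in nb z, ‖(f : ℕ →ᵇ E) n - cls f β (G.F β n)‖ ≤ ε / 2 := by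
        have h2 : Tendsto (fun n => ‖(f : ℕ →ᵇ E) n - cls f β (G.F β n)‖) (nb z) (𝓝 0) := by
          rcases hβ with h | h
          · rw [h]
            simpa using (cls_spec f β).1.norm
          · rw [h]
            simpa using (cls_spec f β).2.norm
        exact (h2.eventually (gt_mem_nhds (half_pos hε))).mono fun n hn => le_of_lt hn
      obtain ⟨U, hU, hzU, k, hk⟩ := eventually_nb.mp h1
      refine ⟨U, hU, hzU, fun α hα => ?_⟩
      by_cases hαβ : α = β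
      · exact Or.inr ⟨β, hβ, hαβ⟩
      left
      refine ((cls_spec f α).norm_le (C := ε / 2) ?_).trans_lt (half_lt_self hε)
      have h3 : ∀ᶠ n in nb (G.z0 α), k ≤ n ∧ pt n ∈ U :=
        eventually_nb.mpr ⟨U, hU, hα, k, fun n hn hnU => ⟨hn, hnU⟩⟩
      refine (h3.and (G.F_eventually0 hαβ)).mono fun n hn => ?_
      have := hk n hn.1.1 hn.1.2
      rwa [hn.2, map_zero, sub_zero] at this
    · push Not at hused
      have h1 : ∀ᶠ n in nb z, ‖(f : ℕ →ᵇ E) n‖ ≤ ε / 2 := by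
        have h2 : Tendsto (fun n => ‖(f : ℕ →ᵇ E) n‖) (nb z) (𝓝 0) := by
          simpa using (f.2.2 z hused).norm
        exact (h2.eventually (gt_mem_nhds (half_pos hε))).mono fun n hn => le_of_lt hn
      obtain ⟨U, hU, hzU, k, hk⟩ := eventually_nb.mp h1
      refine ⟨U, hU, hzU, fun α hα => Or.inl ?_⟩
      refine ((cls_spec f α).norm_le (C := ε / 2) ?_).trans_lt (half_lt_self hε)
      exact eventually_nb.mpr ⟨U, hU, hα, k, fun n hn hnU => hk n hn hnU⟩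
  obtain ⟨U, hU, hzU, hkey⟩ := key
  have hUev : ∀ᶠ y in 𝓝[≠] z, y ∈ U := nhdsWithin_le_nhds (hU.mem_nhds hzU)
  by_cases hused : ∃ β, z = G.z0 β ∨ z = G.z1 β
  · obtain ⟨β, hβ⟩ := hused
    obtain ⟨y, ⟨α, hα, rfl⟩, hyU, hy⟩ := (hfreq.and_eventually (hUev.and (hne (G.z0 β)))).exists
    rcases hkey α hyU with h | ⟨β', hβ', rfl⟩
    · exact absurd hα (not_le.mpr h)
    · apply hy
      rcases hβ with h | h <;> rcases hβ' with h' | h'
      · rw [← h, ← h']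
      · exact absurd (h.symm.trans h') (G.ne01 _ _)
      · exact absurd (h'.symm.trans h) (G.ne01 _ _)
      · rw [G.inj1 (h.symm.trans h')]
  · obtain ⟨y, ⟨α, hα, rfl⟩, hyU⟩ := (hfreq.and_eventually hUev).exists
    rcases hkey α hyU with h | ⟨β', hβ', rfl⟩
    · exact absurd hα (not_le.mpr h)
    · exact hused ⟨α, hβ'⟩

/-- bounds at infinity from bounds of the classes -/
lemma eventually_norm_le (f : G.X A) {ε δ : ℝ} (hδ : 0 < δ) (hε : 0 ≤ ε)
    (h : ∀ α, ‖cls f α‖ ≤ ε) :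
    ∀ᶠ n in atTop, ‖(f : ℕ →ᵇ E) n‖ ≤ ε + δ := by
  refine eventually_atTop_of_nb fun z => ?_
  by_cases hused : ∃ β, z = G.z0 β ∨ z = G.z1 β
  · obtain ⟨β, hβ⟩ := hused
    have h2 : Tendsto (fun n => ‖(f : ℕ →ᵇ E) n - cls f β (G.F β n)‖) (nb z) (𝓝 0) := by
      rcases hβ with h | h
      · rw [h]
        simpa using (cls_spec f β).1.norm
      · rw [h]
        simpa using (cls_spec f β).2.norm
    refine (h2.eventually (gt_mem_nhds hδ)).mono fun n hn => ?_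
    have h3 : ‖cls f β (G.F β n)‖ ≤ ε :=
      ((cls f β).le_opNorm _).trans ((mul_le_of_le_one_right (norm_nonneg _)
        (G.norm_le β n)).trans (h β))
    calc ‖(f : ℕ →ᵇ E) n‖ = ‖cls f β (G.F β n) + ((f : ℕ →ᵇ E) n - cls f β (G.F β n))‖ := by
          rw [add_sub_cancel]
      _ ≤ _ := (norm_add_le _ _).trans (add_le_add h3 hn.le)
  · push Not at hused
    have h2 : Tendsto (fun n => ‖(f : ℕ →ᵇ E) n‖) (nb z) (𝓝 0) := by
      simpa using (f.2.2 z hused).norm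
    exact (h2.eventually (gt_mem_nhds hδ)).mono fun n hn => by
      have : ‖(f : ℕ →ᵇ E) n‖ < δ := hn
      linarith

lemma tendsto_zero_of_cls (f : G.X A) (h : ∀ α, cls f α = 0) :
    Tendsto (f : ℕ →ᵇ E) atTop (𝓝 0) := by
  rw [Metric.tendsto_nhds]
  intro ε hε
  refine (eventually_norm_le f (half_pos hε) le_rfl fun α => by rw [h]; simp).mono fun n hn => ?_
  rw [dist_zero_right]
  linarith

end Gen

end Pool.Agent.Lib_helper53.PF
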