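import Mathlib
import Pool.Agent.Lib_helper53.PFSpace

open Set Filter Topology Metric
open scoped BoundedContinuousFunction

namespace Pool.Agent.Lib_helper53.PF

variable {E : Type} [NormedAddCommGroup E] [InnerProductSpace ℝ E]

namespace Gen

variable {G : Gen E} {A : Subalgebra ℝ (E →L[ℝ] E)}

/-- `X` is closed -/
lemma isClosed_X [CompleteSpace E] (hA : IsClosed (A : Set (E →L[ℝ] E))) :
    IsClosed (G.X A : Set (ℕ →ᵇ E)) := by
  refine IsSeqClosed.isClosed fun g f hg hf => ?_
  have hdist : ∀ δ > 0, ∀ᶠ k in atTop, ∀ n, ‖f n - g k n‖ ≤ δ := by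
    intro δ hδ
    have := (tendsto_iff_dist_tendsto_zero.mp hf).eventually (gt_mem_nhds hδ)
    refine this.mono fun k hk n => ?_
    rw [dist_comm] at hk
    have h1 := (f - g k).norm_coe_le_norm n
    rw [← dist_eq_norm] at h1
    exact h1.trans hk.le
  constructor
  · intro α
    set b : ℕ → (E →L[ℝ] E) := fun k => cls (⟨g k, hg k⟩ : G.X A) α with hb
    have hbA : ∀ k, b k ∈ A := fun k => cls_mem _ α
    have hbd : ∀ k j, dist (b k) (b j) ≤ dist (g k) (g j) := by
      intro k j
      rw [dist_eq_norm, dist_eq_norm, hb]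
      simp only
      rw [← cls_sub]
      exact norm_cls_le _ α
    have hc : CauchySeq b := by
      have hgc : CauchySeq g := hf.cauchySeq
      rw [Metric.cauchySeq_iff] at hgc ⊢
      intro ε hε
      obtain ⟨N, hN⟩ := hgc ε hε
      exact ⟨N, fun m hm n hn => (hbd m n).trans_lt (hN m hm n hn)⟩
    obtain ⟨c, hc⟩ := cauchySeq_tendsto_of_complete hc
    have hcA : c ∈ A := hA.mem_of_tendsto hc (Eventually.of_forall hbA)
    refine ⟨c, hcA, ?_⟩
    have key : ∀ l : Filter ℕ, (∀ k, Tendsto (fun n => g k n - b k (G.F α n)) l (𝓝 0)) →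
        Tendsto (fun n => f n - c (G.F α n)) l (𝓝 0) := by
      intro l hl
      rw [Metric.tendsto_nhds]
      intro ε hε
      have h1 := hdist (ε / 4) (by positivity)
      have h2 : ∀ᶠ k in atTop, ‖b k - c‖ < ε / 4 := by
        have := (tendsto_iff_norm_sub_tendsto_zero.mp hc)
        exact this.eventually (gt_mem_nhds (by positivity))
      obtain ⟨k, hk1, hk2⟩ := (h1.and h2).exists
      have h3 : ∀ᶠ n in l, ‖g k n - b k (G.F α n)‖ < ε / 4 := by
        have := (hl k).norm
        rw [norm_zero] at this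
        exact this.eventually (gt_mem_nhds (by positivity))
      refine h3.mono fun n hn => ?_
      rw [dist_zero_right]
      have e : f n - c (G.F α n) = (f n - g k n) + (g k n - b k (G.F α n))
          + (b k - c) (G.F α n) := by
        rw [sub_apply]; abel
      have h4 : ‖(b k - c) (G.F α n)‖ ≤ ε / 4 :=
        ((b k - c).le_opNorm _).trans ((mul_le_of_le_one_right (norm_nonneg _)
          (G.norm_le α n)).trans hk2.le)
      rw [e]
      have := hk1 n
      have h5 := norm_add₃_le (a := f n - g k n) (b := g k n - b k (G.F α n))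
        (c := (b k - c) (G.F α n))
      linarith
    exact ⟨key _ fun k => (cls_spec (⟨g k, hg k⟩ : G.X A) α).1,
      key _ fun k => (cls_spec (⟨g k, hg k⟩ : G.X A) α).2⟩
  · intro z hz
    rw [Metric.tendsto_nhds]
    intro ε hε
    obtain ⟨k, hk⟩ := (hdist (ε / 4) (by positivity)).exists
    have h3 : ∀ᶠ n in nb z, ‖g k n‖ < ε / 4 := by
      have := ((hg k).2 z hz).norm
      rw [norm_zero] at this
      exact this.eventually (gt_mem_nhds (by positivity))
    refine h3.mono fun n hn => ?_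
    rw [dist_zero_right]
    have := norm_add_le (f n - g k n) (g k n)
    rw [sub_add_cancel] at this
    have := hk n
    linarith

/-- evaluation at a point -/
noncomputable def ev (n : ℕ) : G.X A →L[ℝ] E :=
  (BoundedContinuousFunction.evalCLM ℝ n).comp (G.X A).subtypeL

@[simp] lemma ev_apply (n : ℕ) (f : G.X A) : ev n f = (f : ℕ →ᵇ E) n := rfl

/-- the action of `A` on `X` -/
noncomputable def act (a : A) : G.X A →L[ℝ] G.X A :=
  LinearMap.mkContinuous
    { toFun := fun f => mkX A (fun n => (a : E →L[ℝ] E) ((f : ℕ →ᵇ E) n)) (‖(a : E →L[ℝ] E)‖ * ‖f‖)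
        (fun n => ((a : E →L[ℝ] E).le_opNorm _).trans
          (mul_le_mul_of_nonneg_left (apply_le_X f n) (norm_nonneg _)))
        (fun α => ⟨(a : E →L[ℝ] E) * cls f α, A.mul_mem a.2 (cls_mem f α), (cls_spec f α).comp _⟩)
        (fun z hz => by
          have := ((a : E →L[ℝ] E).continuous.tendsto 0).comp (f.2.2 z hz)
          rwa [map_zero] at this)
      map_add' := fun f g => ext_X fun n => by simp
      map_smul' := fun r f => ext_X fun n => by simp }
    ‖(a : E →L[ℝ] E)‖ (fun f => norm_le_X (by positivity) fun n => by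
      exact ((a : E →L[ℝ] E).le_opNorm _).trans
          (mul_le_mul_of_nonneg_left (apply_le_X f n) (norm_nonneg _)))

@[simp] lemma act_apply (a : A) (f : G.X A) (n : ℕ) :
    (act a f : ℕ →ᵇ E) n = (a : E →L[ℝ] E) ((f : ℕ →ᵇ E) n) := rfl

lemma act_mul (a b : A) : act (G := G) (a * b) = act a * act b := by
  ext f n
  rfl

lemma act_one : act (G := G) (1 : A) = 1 := by
  ext f n
  rfl

lemma act_sub (a b : A) : act (G := G) (a - b) = act a - act b := by
  ext f n
  simp

/-- unit vectors -/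
lemma single_cls (n : ℕ) (e : E) (α : G.O) :
    G.Cls (fun k => if k = n then e else 0) α 0 := by
  have h : G.Cls (fun _ => (0 : E)) α 0 := by constructor <;> simp
  refine h.of_eventuallyEq ?_
  filter_upwards [eventually_gt_atTop n] with k hk
  rw [if_neg (by omega)]

variable (A) in
/-- unit vectors as elements of `X` -/
noncomputable def single (n : ℕ) (e : E) : G.X A :=
  mkX A (fun k => if k = n then e else 0) ‖e‖ (fun k => by split_ifs <;> simp)
    (fun α => ⟨0, A.zero_mem, single_cls n e α⟩)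
    (fun z _ => by
      refine tendsto_const_nhds.congr' (Eventually.filter_mono (nb_le z) ?_)
      filter_upwards [eventually_gt_atTop n] with k hk
      rw [if_neg (by omega)])

@[simp] lemma single_apply (n : ℕ) (e : E) (k : ℕ) :
    (single (G := G) A n e : ℕ →ᵇ E) k = if k = n then e else 0 := rfl

variable (A) in
/-- unit vectors, as a continuous linear map -/
noncomputable def singleL (n : ℕ) : E →L[ℝ] G.X A :=
  LinearMap.mkContinuous
    { toFun := fun e => single A n e
      map_add' := fun e e' => ext_X fun k => by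
        simp only [single_apply, Submodule.coe_add, BoundedContinuousFunction.coe_add,
          Pi.add_apply]
        split_ifs <;> simp
      map_smul' := fun r e => ext_X fun k => by
        simp only [single_apply, Submodule.coe_smul, BoundedContinuousFunction.coe_smul,
          RingHom.id_apply]
        split_ifs <;> simp }
    1 (fun e => by
      rw [one_mul]
      refine norm_le_X (norm_nonneg _) fun k => ?_
      change ‖(if k = n then e else 0 : E)‖ ≤ ‖e‖
      split_ifs <;> simp)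

@[simp] lemma singleL_apply (n : ℕ) (e : E) (k : ℕ) :
    (singleL (G := G) A n e : ℕ →ᵇ E) k = if k = n then e else 0 := rfl

/-- finitely supported elements are sums of unit vectors -/
lemma eq_sum_single (f : G.X A) (s : Finset ℕ) (h : ∀ n ∉ s, (f : ℕ →ᵇ E) n = 0) :
    f = ∑ n ∈ s, singleL A n ((f : ℕ →ᵇ E) n) := by
  refine ext_X fun k => ?_
  have h1 : ((∑ n ∈ s, singleL (G := G) A n ((f : ℕ →ᵇ E) n) : G.X A) : ℕ →ᵇ E) k
      = ∑ n ∈ s, (if k = n then (f : ℕ →ᵇ E) n else 0) := by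
    have : ((∑ n ∈ s, singleL (G := G) A n ((f : ℕ →ᵇ E) n) : G.X A) : ℕ →ᵇ E) k
      = ev k (∑ n ∈ s, singleL (G := G) A n ((f : ℕ →ᵇ E) n)) := rfl
    rw [this, map_sum]
    rfl
  rw [h1, Finset.sum_ite_eq]
  split_ifs with hk
  · rfl
  · exact h k hk

/-- the matrix of an operator -/
noncomputable def mat (T : G.X A →L[ℝ] G.X A) (v n : ℕ) : E →L[ℝ] E :=
  (ev v).comp (T.comp (singleL A n))

lemma mat_apply (T : G.X A →L[ℝ] G.X A) (v n : ℕ) (e : E) :
    mat T v n e = (T (singleL A n e) : ℕ →ᵇ E) v := rfl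

lemma apply_eq_sum (T : G.X A →L[ℝ] G.X A) (f : G.X A) (s : Finset ℕ)
    (h : ∀ n ∉ s, (f : ℕ →ᵇ E) n = 0) (v : ℕ) :
    (T f : ℕ →ᵇ E) v = ∑ n ∈ s, mat T v n ((f : ℕ →ᵇ E) n) := by
  have h1 : (T f : ℕ →ᵇ E) v = ev v (T f) := rfl
  rw [h1]
  conv_lhs => rw [eq_sum_single f s h]
  rw [map_sum, map_sum]
  rfl

/-- finitely supported elements -/
noncomputable def ofFin (A : Subalgebra ℝ (E →L[ℝ] E)) (s : Finset ℕ) (f : ℕ → E) : G.X A :=
  ∑ n ∈ s, singleL A n (f n)

lemma ofFin_apply (s : Finset ℕ) (f : ℕ → E) (k : ℕ) :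
    (ofFin (G := G) A s f : ℕ →ᵇ E) k = if k ∈ s then f k else 0 := by
  have : (ofFin (G := G) A s f : ℕ →ᵇ E) k = ev k (∑ n ∈ s, singleL (G := G) A n (f n)) := rfl
  rw [this, map_sum]
  simp only [ev_apply, singleL_apply]
  rw [Finset.sum_ite_eq]

lemma norm_ofFin_le (s : Finset ℕ) {f : ℕ → E} {K : ℝ} (hK : 0 ≤ K) (hf : ∀ n ∈ s, ‖f n‖ ≤ K) :
    ‖ofFin (G := G) A s f‖ ≤ K := by
  refine norm_le_X hK fun k => ?_
  rw [ofFin_apply]
  split_ifs with h
  · exact hf k h
  · simpa using hK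

lemma rowBdd_mat (T : G.X A →L[ℝ] G.X A) (v : ℕ) : RowBdd (mat T v) ‖T‖ := by
  intro s _ f hf
  have h1 : ∑ n ∈ s, mat T v n (f n) = (T (ofFin A s f) : ℕ →ᵇ E) v := by
    rw [apply_eq_sum T (ofFin A s f) s (fun n hn => by rw [ofFin_apply, if_neg hn]) v]
    refine Finset.sum_congr rfl fun n hn => ?_
    rw [ofFin_apply, if_pos hn]
  rw [h1]
  refine (apply_le_X _ v).trans ((T.le_opNorm _).trans ?_)
  exact mul_le_of_le_one_right (norm_nonneg _) (norm_ofFin_le s zero_le_one fun n _ => hf n)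

variable [CompleteSpace E]

/-- the defect functional -/
noncomputable def psi (T : G.X A →L[ℝ] G.X A) (v : ℕ) (f : G.X A) : E :=
  (T f : ℕ →ᵇ E) v - hat (mat T v) (f : ℕ →ᵇ E)

lemma psi_add (T : G.X A →L[ℝ] G.X A) (v : ℕ) (f g : G.X A) :
    psi T v (f + g) = psi T v f + psi T v g := by
  have h := hat_add (rowBdd_mat T v) (F := (f : ℕ →ᵇ E)) (G := (g : ℕ →ᵇ E)) (apply_le_X f)
    (apply_le_X g)
  have e : hat (mat T v) ((f + g : G.X A) : ℕ →ᵇ E) = hat (mat T v) (f : ℕ →ᵇ E)
      + hat (mat T v) (g : ℕ →ᵇ E) := h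
  unfold psi
  rw [e, map_add]
  change (T f : ℕ →ᵇ E) v + (T g : ℕ →ᵇ E) v - _ = _
  abel

lemma psi_sub (T : G.X A →L[ℝ] G.X A) (v : ℕ) (f g : G.X A) :
    psi T v (f - g) = psi T v f - psi T v g := by
  have h := hat_sub (rowBdd_mat T v) (F := (f : ℕ →ᵇ E)) (G := (g : ℕ →ᵇ E)) (apply_le_X f)
    (apply_le_X g)
  have e : hat (mat T v) ((f - g : G.X A) : ℕ →ᵇ E) = hat (mat T v) (f : ℕ →ᵇ E)
      - hat (mat T v) (g : ℕ →ᵇ E) := h
  unfold psi
  rw [e, map_sub]
  change (T f : ℕ →ᵇ E) v - (T g : ℕ →ᵇ E) v - _ = _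
  abel

lemma psi_fin (T : G.X A →L[ℝ] G.X A) (v : ℕ) (f : G.X A) (s : Finset ℕ)
    (h : ∀ n ∉ s, (f : ℕ →ᵇ E) n = 0) : psi T v f = 0 := by
  unfold psi
  rw [apply_eq_sum T f s h v, hat_eq_sum _ s h, sub_self]

lemma norm_psi_le (T : G.X A →L[ℝ] G.X A) (v : ℕ) (f : G.X A) :
    ‖psi T v f‖ ≤ 2 * ‖T‖ * ‖f‖ := by
  have h1 := norm_hat_le (rowBdd_mat T v) (F := (f : ℕ →ᵇ E)) (apply_le_X f)
    (fun n hn => absurd (mem_univ n) hn)
  have h2 := (apply_le_X (T f) v).trans (T.le_opNorm f)
  unfold psi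
  refine (norm_sub_le _ _).trans ?_
  linarith

omit [CompleteSpace E] in
open Classical in
/-- cut-off generators -/
lemma cut_cls (α : G.O) (b : E →L[ℝ] E) {S : Set ℕ}
    (hS : ∀ᶠ n in atTop, G.F α n ≠ 0 → n ∈ S) (β : G.O) :
    G.Cls (fun n => if n ∈ S then b (G.F α n) else 0) β (if β = α then b else 0) := by
  have h : G.Cls (fun n => b (G.F α n)) β (if β = α then b else 0) := by
    split_ifs with h
    · rw [h]; exact G.cls_F α b
    · exact G.cls_F_ne h b
  refine h.of_eventuallyEq (hS.mono fun n hn => ?_)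
  split_ifs with hnS
  · rfl
  · have : G.F α n = 0 := by
      by_contra hc
      exact hnS (hn hc)
    rw [this, map_zero]

open Classical in
/-- cut-off generators as elements of `X` -/
noncomputable def cut (α : G.O) (b : A) (S : Set ℕ)
    (hS : ∀ᶠ n in atTop, G.F α n ≠ 0 → n ∈ S) : G.X A :=
  mkX A (fun n => if n ∈ S then (b : E →L[ℝ] E) (G.F α n) else 0) ‖(b : E →L[ℝ] E)‖
    (fun n => by
      split_ifs
      · exact ((b : E →L[ℝ] E).le_opNorm _).trans
          (mul_le_of_le_one_right (norm_nonneg _) (G.norm_le α n))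
      · simp)
    (fun β => ⟨if β = α then (b : E →L[ℝ] E) else 0, by
      split_ifs
      · exact b.2
      · exact A.zero_mem, cut_cls α b hS β⟩)
    (fun z hz => by
      refine tendsto_const_nhds.congr' ((G.supp α z (hz α).1 (hz α).2).mono fun n hn => ?_)
      beta_reduce
      rw [hn, map_zero, ite_self])

open Classical in
lemma cut_apply (α : G.O) (b : A) (S : Set ℕ) (hS : ∀ᶠ n in atTop, G.F α n ≠ 0 → n ∈ S) (n : ℕ) :
    (cut α b S hS : ℕ →ᵇ E) n = if n ∈ S then (b : E →L[ℝ] E) (G.F α n) else 0 := rfl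

open Classical in
lemma cls_cut (α : G.O) (b : A) (S : Set ℕ) (hS : ∀ᶠ n in atTop, G.F α n ≠ 0 → n ∈ S) (β : G.O) :
    cls (cut α b S hS) β = if β = α then (b : E →L[ℝ] E) else 0 :=
  cls_eq (cut_cls α b hS β)

/-- the full generator -/
noncomputable def gen (α : G.O) (b : A) : G.X A :=
  cut α b univ (Eventually.of_forall fun _ _ => mem_univ _)

lemma gen_apply (α : G.O) (b : A) (n : ℕ) :
    (gen α b : ℕ →ᵇ E) n = (b : E →L[ℝ] E) (G.F α n) := by
  unfold gen
  rw [cut_apply, if_pos (mem_univ _)]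

end Gen

end Pool.Agent.Lib_helper53.PF
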