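import Mathlib
import Pool.Agent.Lib_helper53.PFOps

open Set Filter Topology Metric
open scoped BoundedContinuousFunction

namespace Pool.Agent.Lib_helper53.PF

variable {E : Type} [NormedAddCommGroup E] [InnerProductSpace ℝ E]

namespace Gen

variable {G : Gen E} {A : Subalgebra ℝ (E →L[ℝ] E)}

/-- the class as an element of the algebra -/
noncomputable def clsA (f : G.X A) (α : G.O) : A := ⟨cls f α, cls_mem f α⟩

variable [CompleteSpace E]

lemma finite_psi (T : G.X A →L[ℝ] G.X A) (v : ℕ) {δ : ℝ} (hδ : 0 < δ) :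
    {α : G.O | ∃ b : A, ‖(b : E →L[ℝ] E)‖ ≤ 1 ∧ δ ≤ ‖psi T v (gen α b)‖}.Finite := by
  classical
  by_contra hinf
  have hinf : {α : G.O | ∃ b : A, ‖(b : E →L[ℝ] E)‖ ≤ 1 ∧ δ ≤ ‖psi T v (gen α b)‖}.Infinite := hinf
  have h2 : ∀ k : ℕ, ∃ (f : G.X A) (t : Finset G.O), ‖f‖ ≤ 1 ∧ k * δ ^ 2 ≤ ‖psi T v f‖ ^ 2 ∧
      ∀ β ∉ t, ∀ᶠ n in atTop, (f : ℕ →ᵇ E) n = 0 ∨ G.F β n = 0 := by
    intro k
    induction k with
    | zero =>
      refine ⟨0, ∅, by simp, by simp, fun β _ => Eventually.of_forall fun n => Or.inl rfl⟩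
    | succ k ih =>
      obtain ⟨f, t, hf, hk, ht⟩ := ih
      obtain ⟨β, ⟨b, hb, hlt⟩, hβt⟩ := hinf.exists_notMem_finset t
      obtain ⟨N, hN⟩ := eventually_atTop.mp (ht β hβt)
      have hS : ∀ᶠ n in atTop, G.F β n ≠ 0 → n ∈ Ici N := by
        filter_upwards [eventually_ge_atTop N] with n hn _ using hn
      set g := cut β b (Ici N) hS with hg
      have hpsi : psi T v g = psi T v (gen β b) := by
        have h3 : psi T v (gen β b - g) = 0 := by
          refine psi_fin T v _ (Finset.range N) fun n hn => ?_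
          have h4 : ((gen β b - g : G.X A) : ℕ →ᵇ E) n = (gen β b : ℕ →ᵇ E) n - (g : ℕ →ᵇ E) n :=
            rfl
          rw [h4, gen_apply, hg, cut_apply, if_pos (by simpa using hn), sub_self]
        rw [psi_sub, sub_eq_zero] at h3
        exact h3.symm
      have hdis : ∀ n, (f : ℕ →ᵇ E) n = 0 ∨ (g : ℕ →ᵇ E) n = 0 := by
        intro n
        rw [hg, cut_apply]
        by_cases hn : n ∈ Ici N
        · rcases hN n hn with h | h
          · exact Or.inl h
          · right; rw [if_pos hn, h, map_zero]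
        · right; rw [if_neg hn]
      have hgn : ∀ n, ‖(g : ℕ →ᵇ E) n‖ ≤ 1 := by
        intro n
        rw [hg, cut_apply]
        split_ifs
        · exact ((b : E →L[ℝ] E).le_opNorm _).trans ((mul_le_of_le_one_right (norm_nonneg _)
            (G.norm_le β n)).trans hb)
        · simp
      have hfn : ∀ n, ‖(f : ℕ →ᵇ E) n‖ ≤ 1 := fun n => (apply_le_X f n).trans hf
      have hsuppg : ∀ γ ∉ insert β t, ∀ᶠ n in atTop, (g : ℕ →ᵇ E) n = 0 ∨ G.F γ n = 0 := by
        intro γ hγ
        have hγβ : γ ≠ β := fun h => hγ (h ▸ Finset.mem_insert_self _ _)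
        refine (G.almost_disjoint hγβ).mono fun n hn => ?_
        rcases hn with h | h
        · left
          rw [hg, cut_apply, h, map_zero, ite_self]
        · exact Or.inr h
      have hpar := parallelogram_law_with_norm ℝ (psi T v f) (psi T v g)
      have hy2 : δ ^ 2 ≤ ‖psi T v g‖ ^ 2 := by
        rw [hpsi]
        gcongr
      have hcase : (k + 1) * δ ^ 2 ≤ ‖psi T v f + psi T v g‖ ^ 2 ∨
          (k + 1) * δ ^ 2 ≤ ‖psi T v f - psi T v g‖ ^ 2 := by
        by_contra hcc
        push Not at hcc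
        nlinarith [hcc.1, hcc.2]
      rcases hcase with hc | hc
      · refine ⟨f + g, insert β t, norm_le_X zero_le_one fun n => ?_, ?_, fun γ hγ => ?_⟩
        · change ‖(f : ℕ →ᵇ E) n + (g : ℕ →ᵇ E) n‖ ≤ 1
          rcases hdis n with h | h
          · rw [h, zero_add]; exact hgn n
          · rw [h, add_zero]; exact hfn n
        · rw [psi_add]
          push_cast
          exact hc
        · have hγt : γ ∉ t := fun h => hγ (Finset.mem_insert_of_mem h)
          refine ((ht γ hγt).and (hsuppg γ hγ)).mono fun n hn => ?_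
          rcases hn.1 with h | h
          · rcases hn.2 with h' | h'
            · left
              change (f : ℕ →ᵇ E) n + (g : ℕ →ᵇ E) n = 0
              rw [h, h', add_zero]
            · exact Or.inr h'
          · exact Or.inr h
      · refine ⟨f - g, insert β t, norm_le_X zero_le_one fun n => ?_, ?_, fun γ hγ => ?_⟩
        · change ‖(f : ℕ →ᵇ E) n - (g : ℕ →ᵇ E) n‖ ≤ 1
          rcases hdis n with h | h
          · rw [h, zero_sub, norm_neg]; exact hgn n
          · rw [h, sub_zero]; exact hfn n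
        · rw [psi_sub]
          push_cast
          exact hc
        · have hγt : γ ∉ t := fun h => hγ (Finset.mem_insert_of_mem h)
          refine ((ht γ hγt).and (hsuppg γ hγ)).mono fun n hn => ?_
          rcases hn.1 with h | h
          · rcases hn.2 with h' | h'
            · left
              change (f : ℕ →ᵇ E) n - (g : ℕ →ᵇ E) n = 0
              rw [h, h', sub_zero]
            · exact Or.inr h'
          · exact Or.inr h
  obtain ⟨k, hk⟩ := exists_nat_gt ((2 * ‖T‖) ^ 2 / δ ^ 2)
  obtain ⟨f, t, hf, hle, _⟩ := h2 k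
  have h3 : ‖psi T v f‖ ≤ 2 * ‖T‖ :=
    (norm_psi_le T v f).trans (mul_le_of_le_one_right (by positivity) hf)
  have h4 : ‖psi T v f‖ ^ 2 ≤ (2 * ‖T‖) ^ 2 := by
    have := norm_nonneg (psi T v f)
    gcongr
  rw [div_lt_iff₀ (by positivity)] at hk
  linarith

/-- the continuous linear map `b ↦ b F_α` -/
noncomputable def genL (A : Subalgebra ℝ (E →L[ℝ] E)) (α : G.O) : A →L[ℝ] G.X A :=
  LinearMap.mkContinuous
    { toFun := fun b => gen α b
      map_add' := fun b c => ext_X fun n => by
        change (gen α (b + c) : ℕ →ᵇ E) n = (gen α b : ℕ →ᵇ E) n + (gen α c : ℕ →ᵇ E) n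
        simp [gen_apply]
      map_smul' := fun r b => ext_X fun n => by
        change (gen α (r • b) : ℕ →ᵇ E) n = r • (gen α b : ℕ →ᵇ E) n
        simp [gen_apply] }
    1 (fun b => by
      rw [one_mul]
      refine norm_le_X (norm_nonneg _) fun n => ?_
      change ‖(gen α b : ℕ →ᵇ E) n‖ ≤ ‖b‖
      rw [gen_apply]
      exact ((b : E →L[ℝ] E).le_opNorm _).trans
          (mul_le_of_le_one_right (norm_nonneg _) (G.norm_le α n)))

@[simp] lemma genL_apply (α : G.O) (b : A) : genL A α b = gen α b := rfl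

lemma psi_smul (T : G.X A →L[ℝ] G.X A) (v : ℕ) (r : ℝ) (f : G.X A) :
    psi T v (r • f) = r • psi T v f := by
  have e : hat (mat T v) ((r • f : G.X A) : ℕ →ᵇ E) = r • hat (mat T v) (f : ℕ →ᵇ E) :=
    hat_smul (mat T v) r (f : ℕ →ᵇ E)
  unfold psi
  rw [e, map_smul, smul_sub]
  rfl

/-- for all but countably many generators the operator is given by its matrix -/
lemma countable_psi (T : G.X A →L[ℝ] G.X A) :
    {α : G.O | ∃ (b : A) (v : ℕ), psi T v (gen α b) ≠ 0}.Countable := by
  have h : {α : G.O | ∃ (b : A) (v : ℕ), psi T v (gen α b) ≠ 0} ⊆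
      ⋃ (v : ℕ) (j : ℕ), {α : G.O | ∃ b : A, ‖(b : E →L[ℝ] E)‖ ≤ 1 ∧
        1 / ((j : ℝ) + 1) ≤ ‖psi T v (gen α b)‖} := by
    rintro α ⟨b, v, hne⟩
    set r : ℝ := (‖(b : E →L[ℝ] E)‖ + 1)⁻¹ with hr
    have hr0 : 0 < r := by positivity
    have h1 : 0 < ‖psi T v (gen α (r • b))‖ := by
      have : gen α (r • b) = r • gen (G := G) α b := (genL A α).map_smul r b
      rw [this, psi_smul, norm_pos_iff]
      exact smul_ne_zero hr0.ne' hne
    obtain ⟨j, hj⟩ := exists_nat_one_div_lt h1
    refine mem_iUnion₂.mpr ⟨v, j, r • b, ?_, hj.le⟩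
    change ‖r • (b : E →L[ℝ] E)‖ ≤ 1
    rw [norm_smul, Real.norm_of_nonneg hr0.le, hr, inv_mul_le_iff₀ (by positivity)]
    linarith
  refine Countable.mono h (countable_iUnion fun v => countable_iUnion fun j => ?_)
  exact (finite_psi T v (by positivity)).countable

lemma apply_gen_of_psi {T : G.X A →L[ℝ] G.X A} {α : G.O} {b : A} {v : ℕ}
    (h : psi T v (gen α b) = 0) :
    (T (gen α b) : ℕ →ᵇ E) v = hat (mat T v) (fun n => (b : E →L[ℝ] E) (G.F α n)) := by
  unfold psi at h
  rw [sub_eq_zero] at h
  rw [h]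
  congr 1
  ext n
  exact gen_apply α b n

/-- finite sums of generators and finitely supported functions are dense -/
lemma dense_gen (f : G.X A) {ε : ℝ} (hε : 0 < ε) :
    ∃ (t : Finset G.O) (s : Finset ℕ) (e : ℕ → E),
      ‖f - ∑ α ∈ t, gen α (clsA f α) - ofFin A s e‖ ≤ ε := by
  classical
  have hfin := finite_cls f (half_pos hε)
  set t := hfin.toFinset with ht
  set g := f - ∑ α ∈ t, gen α (clsA f α) with hg
  have hcls : ∀ β, cls g β = if β ∈ t then 0 else cls f β := by
    intro β
    have h1 : ∀ u : Finset G.O, cls (∑ α ∈ u, gen α (clsA f α)) β = if β ∈ u then cls f β else 0 := by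
      intro u
      induction u using Finset.induction_on with
      | empty =>
        simp only [Finset.sum_empty, Finset.notMem_empty, if_false]
        refine cls_eq ?_
        constructor <;> simp
      | insert α u hα ih =>
        rw [Finset.sum_insert hα, cls_add, ih]
        unfold gen
        rw [cls_cut]
        by_cases hβα : β = α
        · subst hβα
          rw [if_pos rfl, if_neg hα, if_pos (Finset.mem_insert_self _ _), add_zero]
          rfl
        · rw [if_neg hβα, zero_add]
          by_cases hβu : β ∈ u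
          · rw [if_pos hβu, if_pos (Finset.mem_insert_of_mem hβu)]
          · rw [if_neg hβu, if_neg (by simp [hβα, hβu])]
    rw [hg, cls_sub, h1 t]
    split_ifs <;> simp
  have hcle : ∀ β, ‖cls g β‖ ≤ ε / 2 := by
    intro β
    rw [hcls]
    split_ifs with h
    · simp; positivity
    · rw [ht, Finite.mem_toFinset] at h
      exact (not_le.mp h).le
  obtain ⟨N, hN⟩ := eventually_atTop.mp (eventually_norm_le g (half_pos hε) (half_pos hε).le hcle)
  refine ⟨t, Finset.range N, fun n => (g : ℕ →ᵇ E) n, norm_le_X hε.le fun n => ?_⟩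
  change ‖(g : ℕ →ᵇ E) n - (ofFin (G := G) A (Finset.range N) (fun n => (g : ℕ →ᵇ E) n) :
    ℕ →ᵇ E) n‖ ≤ ε
  rw [ofFin_apply]
  split_ifs with h
  · rw [sub_self, norm_zero]; exact hε.le
  · rw [sub_zero]
    have := hN n (by simpa using h)
    linarith

/-- an operator sending all but countably many generators into the closure of the image of the
finitely supported functions has separable range -/
lemma separable_of_closure [TopologicalSpace.SeparableSpace E] [TopologicalSpace.SeparableSpace A]
    (R : G.X A →L[ℝ] G.X A) {D : Set G.O} (hD : D.Countable)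
    (h : ∀ α ∉ D, ∀ b : A, R (gen α b) ∈ closure {g | ∃ s e, g = R (ofFin A s e)}) :
    TopologicalSpace.IsSeparable (range R) := by
  set V₀ : Set (G.X A) := (⋃ n : ℕ, range fun e : E => R (singleL A n e)) ∪
    ⋃ α ∈ D, range fun b : A => R (genL A α b) with hV₀
  have hsepV₀ : TopologicalSpace.IsSeparable V₀ := by
    refine TopologicalSpace.IsSeparable.union (TopologicalSpace.IsSeparable.iUnion fun n =>
      TopologicalSpace.isSeparable_range (by fun_prop)) ?_
    rw [biUnion_eq_iUnion]
    have := hD.to_subtype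
    exact TopologicalSpace.IsSeparable.iUnion fun α =>
      TopologicalSpace.isSeparable_range (by fun_prop)
  set V : Submodule ℝ (G.X A) := (Submodule.span ℝ V₀).topologicalClosure with hV
  have hsepV : TopologicalSpace.IsSeparable (V : Set (G.X A)) := by
    rw [hV, Submodule.topologicalClosure_coe]
    exact (hsepV₀.span ).closure
  refine hsepV.mono ?_
  have hVclosed : IsClosed (V : Set (G.X A)) := Submodule.isClosed_topologicalClosure _
  have hsub : V₀ ⊆ V := Submodule.subset_span.trans (Submodule.le_topologicalClosure _)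
  have h1 : ∀ (s : Finset ℕ) (e : ℕ → E), R (ofFin A s e) ∈ V := by
    intro s e
    unfold ofFin
    rw [map_sum]
    exact V.sum_mem fun n _ => hsub (Or.inl (mem_iUnion.mpr ⟨n, e n, rfl⟩))
  have h2 : ∀ (α : G.O) (b : A), R (gen α b) ∈ V := by
    intro α b
    by_cases hα : α ∈ D
    · exact hsub (Or.inr (mem_iUnion₂.mpr ⟨α, hα, b, rfl⟩))
    · refine closure_minimal ?_ hVclosed (h α hα b)
      rintro g ⟨s, e, rfl⟩
      exact h1 s e
  rintro _ ⟨f, rfl⟩
  have h3 : R f ∈ closure (V : Set (G.X A)) := by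
    rw [Metric.mem_closure_iff]
    intro ε hε
    obtain ⟨t, s, e, hle⟩ := dense_gen f (ε := ε / (2 * (‖R‖ + 1))) (by positivity)
    refine ⟨R (∑ α ∈ t, gen α (clsA f α) + ofFin A s e), ?_, ?_⟩
    · rw [map_add, map_sum]
      exact V.add_mem (V.sum_mem fun α _ => h2 α _) (h1 s e)
    · rw [dist_eq_norm, ← map_sub]
      refine (R.le_opNorm _).trans_lt ?_
      rw [← sub_sub]
      refine (mul_le_mul_of_nonneg_left hle (norm_nonneg _)).trans_lt ?_
      rw [mul_div_assoc', div_lt_iff₀ (by positivity)]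
      have := norm_nonneg R
      nlinarith
  rwa [hVclosed.closure_eq] at h3

end Gen

end Pool.Agent.Lib_helper53.PF
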