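import Mathlib
import Pool.Agent.Lib_helper53.PFBase
import Pool.Agent.Lib_helper53.PFRow

set_option linter.unusedSectionVars false

open Set Filter Topology Metric

namespace Pool.Agent.Lib_helper53.PF

variable {E : Type} [NormedAddCommGroup E] [InnerProductSpace ℝ E]

/-- the basic neighbourhoods of a pair of directions -/
def Wn (z' z'' : Z) (j : ℕ) : Set Z := PiNat.cylinder z' j ∪ PiNat.cylinder z'' j

lemma isOpen_Wn (z' z'' : Z) (j : ℕ) : IsOpen (Wn z' z'' j) :=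
  (PiNat.isOpen_cylinder _ z' j).union (PiNat.isOpen_cylinder _ z'' j)

lemma isClosed_cyl (z : Z) (j : ℕ) : IsClosed (PiNat.cylinder z j) := by
  rw [PiNat.cylinder_eq_pi]
  exact isClosed_set_pi fun i _ => isClosed_singleton

lemma isClosed_Wn (z' z'' : Z) (j : ℕ) : IsClosed (Wn z' z'' j) :=
  (isClosed_cyl z' j).union (isClosed_cyl z'' j)

lemma Wn_anti (z' z'' : Z) {i j : ℕ} (h : i ≤ j) : Wn z' z'' j ⊆ Wn z' z'' i :=
  union_subset_union (PiNat.cylinder_anti z' h) (PiNat.cylinder_anti z'' h)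

lemma exists_cyl_notMem {z y : Z} (h : z ≠ y) : ∃ J, ∀ j ≥ J, z ∉ PiNat.cylinder y j := by
  obtain ⟨i, hi⟩ := Function.ne_iff.mp h
  refine ⟨i + 1, fun j hj hz => hi ?_⟩
  exact PiNat.mem_cylinder_iff.mp hz i (by omega)

lemma exists_notMem_Wn {z z' z'' : Z} (h' : z ≠ z') (h'' : z ≠ z'') : ∃ J, z ∉ Wn z' z'' J := by
  obtain ⟨J, hJ⟩ := exists_cyl_notMem h'
  obtain ⟨K, hK⟩ := exists_cyl_notMem h''
  refine ⟨max J K, fun hz => ?_⟩
  rcases hz with hz | hz
  · exact hJ _ (le_max_left _ _) hz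
  · exact hK _ (le_max_right _ _) hz

lemma exists_cyl_subset {z : Z} {U : Set Z} (hU : IsOpen U) (hz : z ∈ U) :
    ∃ j, PiNat.cylinder z j ⊆ U := by
  obtain ⟨v, ⟨x, n, rfl⟩, hzv, hvU⟩ :=
    (PiNat.isTopologicalBasis_cylinders (fun _ : ℕ => Bool)).exists_subset_of_mem_open hz hU
  refine ⟨n, ?_⟩
  rw [PiNat.mem_cylinder_iff_eq.mp hzv]
  exact hvU

lemma notMem_blocks {z' z'' : Z} {t : ℕ → Finset ℕ} (ht : ∀ j, ∀ n ∈ t j, pt n ∈ Wn z' z'' j)
    {z : Z} (h' : z ≠ z') (h'' : z ≠ z'') : ∀ᶠ n in nb z, n ∉ {n | ∃ j, n ∈ t j} := by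
  obtain ⟨J, hJ⟩ := exists_notMem_Wn h' h''
  refine eventually_nb.mpr ⟨(Wn z' z'' J)ᶜ, (isClosed_Wn z' z'' J).isOpen_compl, hJ,
    (((Finset.range J).biUnion t).sup id) + 1, fun n hn hnU => ?_⟩
  rintro ⟨j, hj⟩
  by_cases hjJ : j < J
  · have : n ≤ ((Finset.range J).biUnion t).sup id :=
      Finset.le_sup (f := id) (Finset.mem_biUnion.mpr ⟨j, Finset.mem_range.mpr hjJ, hj⟩)
    omega
  · exact hnU (Wn_anti z' z'' (not_lt.mp hjJ) (ht j n hj))

/-- the parameter space -/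
abbrev P (E : Type) [NormedAddCommGroup E] := ℕ → closedBall (0 : E) 1

instance [CompleteSpace E] : BaireSpace (P E) := by
  have : CompleteSpace (closedBall (0 : E) 1) := isClosed_closedBall.completeSpace_coe
  let _ := UniformSpace.pseudoMetricSpace (P E)
  infer_instance

open Classical in
/-- the masked function -/
noncomputable def mask (N : Set ℕ) (F : P E) (n : ℕ) : E := if n ∈ N then (F n : E) else 0

lemma norm_mask_le (N : Set ℕ) (F : P E) (n : ℕ) : ‖mask N F n‖ ≤ 1 := by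
  unfold mask
  split_ifs
  · exact mem_closedBall_zero_iff.mp (F n).2
  · simp

lemma mask_of_mem {N : Set ℕ} (F : P E) {n : ℕ} (h : n ∈ N) : mask N F n = F n := if_pos h

lemma mask_of_notMem {N : Set ℕ} (F : P E) {n : ℕ} (h : n ∉ N) : mask N F n = 0 := if_neg h

lemma continuous_mask (N : Set ℕ) (n : ℕ) : Continuous fun F : P E => mask N F n := by
  unfold mask
  split_ifs
  · exact continuous_subtype_val.comp (continuous_apply n)
  · exact continuous_const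

lemma dense_of_coord {Q : Set (P E)}
    (h : ∀ (F₀ : P E) (I : Finset ℕ), ∃ F ∈ Q, ∀ n ∈ I, F n = F₀ n) : Dense Q := by
  intro F₀
  rw [_root_.mem_closure_iff]
  intro W hW hF₀
  obtain ⟨I, u, hu, hsub⟩ := isOpen_pi_iff.mp hW F₀ hF₀
  obtain ⟨F, hF, hFI⟩ := h F₀ I
  refine ⟨F, hsub fun n hn => ?_, hF⟩
  rw [hFI n hn]
  exact (hu n hn).2

variable [CompleteSpace E]

/-- the basic flip argument -/
lemma isOpen_flip {N : Set ℕ} {R : ℕ → ℕ → (E →L[ℝ] E)} {C : ℝ} (hR : ∀ v, RowBdd (R v) C)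
    (S : Set ℕ) (w : ℕ → E) (c : ℝ) :
    IsOpen {F : P E | ∃ v ∈ S, c < ‖hat (R v) (mask N F) - w v‖} := by
  have : {F : P E | ∃ v ∈ S, c < ‖hat (R v) (mask N F) - w v‖}
      = ⋃ v ∈ S, {F : P E | c < ‖hat (R v) (mask N F) - w v‖} := by
    ext F; simp
  rw [this]
  refine isOpen_biUnion fun v _ => ?_
  have h1 : Continuous fun F : P E => hat (R v) (mask N F) :=
    continuous_hat (hR v) (fun F n => norm_mask_le N F n) (fun n => continuous_mask N n)
  exact isOpen_lt continuous_const (h1.sub continuous_const).norm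

lemma dense_flip {N : Set ℕ} {R : ℕ → ℕ → (E →L[ℝ] E)} {C : ℝ} (hR : ∀ v, RowBdd (R v) C)
    {S : Set ℕ} {w : ℕ → E} {ε : ℝ} (hε : 0 < ε)
    (h : ∀ k, ∃ v ∈ S, ∃ s : Finset ℕ, (∀ n ∈ s, n ∈ N ∧ k ≤ n) ∧ ∃ f : ℕ → E, (∀ n, ‖f n‖ ≤ 1) ∧
      ε ≤ ‖∑ n ∈ s, R v n (f n)‖) :
    Dense {F : P E | ∃ v ∈ S, ε / 2 < ‖hat (R v) (mask N F) - w v‖} := by
  classical
  refine dense_of_coord fun F₀ I => ?_
  obtain ⟨v, hvS, s, hs, f, hf, hle⟩ := h (I.sup id + 1)
  have hIs : ∀ n ∈ I, n ∉ s := by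
    intro n hn hns
    have a1 : n ≤ I.sup id := Finset.le_sup (f := id) hn
    have a2 := (hs n hns).2
    omega
  set F1 : P E := fun n => if n ∈ s then ⟨f n, mem_closedBall_zero_iff.mpr (hf n)⟩ else F₀ n
    with hF1
  set F2 : P E := fun n => if n ∈ s then ⟨- f n, mem_closedBall_zero_iff.mpr (by
    rw [norm_neg]; exact hf n)⟩ else F₀ n with hF2
  have key : hat (R v) (mask N F1) - hat (R v) (mask N F2) = (2:ℝ) • ∑ n ∈ s, R v n (f n) := by
    rw [← hat_sub (hR v) (norm_mask_le N F1) (norm_mask_le N F2)]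
    rw [hat_eq_sum (R v) s, Finset.smul_sum]
    · refine Finset.sum_congr rfl fun n hn => ?_
      rw [mask_of_mem _ (hs n hn).1, mask_of_mem _ (hs n hn).1, hF1, hF2]
      simp only [if_pos hn]
      rw [sub_neg_eq_add, map_add, two_smul]
    · intro n hn
      have : F1 n = F2 n := by
        rw [hF1, hF2]
        simp only [if_neg hn]
      unfold mask
      rw [this, sub_self]
  have hnorm : 2 * ε ≤ ‖hat (R v) (mask N F1) - w v‖ + ‖hat (R v) (mask N F2) - w v‖ := by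
    have h1 : (2:ℝ) • ∑ n ∈ s, R v n (f n)
        = (hat (R v) (mask N F1) - w v) - (hat (R v) (mask N F2) - w v) := by
      rw [← key]; abel
    have h2 := norm_sub_le (hat (R v) (mask N F1) - w v) (hat (R v) (mask N F2) - w v)
    rw [← h1, norm_smul] at h2
    simp only [Real.norm_ofNat] at h2
    linarith
  by_cases hc : ε / 2 < ‖hat (R v) (mask N F1) - w v‖
  · refine ⟨F1, ⟨v, hvS, hc⟩, fun n hn => ?_⟩
    rw [hF1]
    simp only [if_neg (hIs n hn)]
  · refine ⟨F2, ⟨v, hvS, by linarith⟩, fun n hn => ?_⟩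
    rw [hF2]
    simp only [if_neg (hIs n hn)]

/-- the function `F` is a legal generator for the pair of directions -/
structure Legal (z' z'' : Z) (F : ℕ → E) : Prop where
  norm_le : ∀ n, ‖F n‖ ≤ 1
  supp : ∀ z, z ≠ z' → z ≠ z'' → ∀ᶠ n in nb z, F n = 0
  norming0 : ∀ (b : E →L[ℝ] E) (c : ℝ), c < ‖b‖ → ∃ᶠ n in nb z', c < ‖b (F n)‖
  norming1 : ∀ (b : E →L[ℝ] E) (c : ℝ), c < ‖b‖ → ∃ᶠ n in nb z'', c < ‖b (F n)‖

instance (z : Z) : (nb z).IsCountablyGenerated := by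
  unfold nb
  infer_instance


lemma exists_norming [TopologicalSpace.SeparableSpace E]
    {N : Set ℕ} {z : Z} (h : ∃ᶠ n in nb z, n ∈ N) :
    ∃ Q : ℕ → Set (P E), (∀ i, IsOpen (Q i)) ∧ (∀ i, Dense (Q i)) ∧
      ∀ F : P E, (∀ i, F ∈ Q i) → ∀ (b : E →L[ℝ] E) (c : ℝ), c < ‖b‖ →
        ∃ᶠ n in nb z, c < ‖b (mask N F n)‖ := by
  classical
  obtain ⟨S, hS⟩ := (nb z).exists_antitone_basis
  have : Nonempty (closedBall (0 : E) 1) := ⟨⟨0, by simp⟩⟩
  set e := TopologicalSpace.denseSeq (closedBall (0 : E) 1) with he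
  have hde := TopologicalSpace.denseRange_denseSeq (closedBall (0 : E) 1)
  set Q : ℕ → Set (P E) := fun i =>
    {F | ∃ n ∈ S i.unpair.1 ∩ N, dist (F n) (e i.unpair.2.unpair.1) <
      1 / ((i.unpair.2.unpair.2 : ℝ) + 1)} with hQ
  refine ⟨Q, fun i => ?_, fun i => ?_, ?_⟩
  · have : Q i = ⋃ n ∈ S i.unpair.1 ∩ N, {F : P E | dist (F n) (e i.unpair.2.unpair.1) <
      1 / ((i.unpair.2.unpair.2 : ℝ) + 1)} := by
      ext F; simp [hQ]
    rw [this]
    exact isOpen_biUnion fun n _ =>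
      isOpen_lt ((continuous_apply n).dist continuous_const) continuous_const
  · refine dense_of_coord fun F₀ I => ?_
    have h0 : ∀ᶠ n in nb z, n ∈ S i.unpair.1 := hS.mem _
    have h1 : ∀ᶠ n in nb z, n ∈ S i.unpair.1 ∧ n ∉ I := by
      refine h0.and (Eventually.filter_mono (nb_le z) ?_)
      filter_upwards [eventually_gt_atTop (I.sup id)] with n hn hnI
      exact absurd (Finset.le_sup (f := id) hnI) (not_le.mpr hn)
    obtain ⟨n, hnN, hnS, hnI⟩ := (h.and_eventually h1).exists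
    refine ⟨Function.update F₀ n (e i.unpair.2.unpair.1), ⟨n, ⟨hnS, hnN⟩, ?_⟩, fun k hk => ?_⟩
    · rw [Function.update_self, dist_self]
      positivity
    · rw [Function.update_of_ne]
      rintro rfl
      exact hnI hk
  · intro F hF b c hc
    rcases lt_or_ge c 0 with hc0 | hc0
    · exact (h.mono fun n _ => hc0.trans_le (norm_nonneg _))
    obtain ⟨x, hx, hcx⟩ := b.exists_lt_apply_of_lt_opNorm hc
    -- approximate by the dense sequence
    have hopen : IsOpen {y : closedBall (0 : E) 1 | c < ‖b (y : E)‖} :=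
      isOpen_lt continuous_const (by fun_prop)
    obtain ⟨i, hi⟩ := hde.exists_mem_open hopen ⟨⟨x, mem_closedBall_zero_iff.mpr hx.le⟩, hcx⟩
    obtain ⟨δ, hδ, hball⟩ := Metric.isOpen_iff.mp hopen _ hi
    obtain ⟨r, hr⟩ := exists_nat_one_div_lt hδ
    rw [hS.1.frequently_iff]
    intro q _
    obtain ⟨n, ⟨hnS, hnN⟩, hn⟩ := hF (Nat.pair q (Nat.pair i r))
    simp only [Nat.unpair_pair] at hnS hn
    refine ⟨n, hnS, ?_⟩
    rw [mask_of_mem _ hnN]
    exact hball (mem_ball.mpr (hn.trans hr))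

/-- generic legal generators -/
lemma exists_legal [TopologicalSpace.SeparableSpace E] {N : Set ℕ} {z' z'' : Z}
    (hN : ∀ z, z ≠ z' → z ≠ z'' → ∀ᶠ n in nb z, n ∉ N)
    (h' : ∃ᶠ n in nb z', n ∈ N) (h'' : ∃ᶠ n in nb z'', n ∈ N)
    (Q : ℕ → Set (P E)) (hQo : ∀ i, IsOpen (Q i)) (hQd : ∀ i, Dense (Q i)) :
    ∃ F : P E, (∀ i, F ∈ Q i) ∧ Legal z' z'' (mask N F) := by
  obtain ⟨Q', hQo', hQd', hQ'⟩ := exists_norming (E := E) h'
  obtain ⟨Q'', hQo'', hQd'', hQ''⟩ := exists_norming (E := E) h''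
  have hd : Dense (⋂ i : ℕ ⊕ ℕ ⊕ ℕ, Sum.elim Q (Sum.elim Q' Q'') i) := by
    refine dense_iInter_of_isOpen ?_ ?_
    · rintro (i | i | i)
      · exact hQo i
      · exact hQo' i
      · exact hQo'' i
    · rintro (i | i | i)
      · exact hQd i
      · exact hQd' i
      · exact hQd'' i
  have : Nonempty (P E) := ⟨fun _ => ⟨0, by simp⟩⟩
  obtain ⟨F, hF⟩ := hd.nonempty
  rw [mem_iInter] at hF
  refine ⟨F, fun i => hF (Sum.inl i), norm_mask_le N F, fun z hz' hz'' => ?_, ?_, ?_⟩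
  · exact (hN z hz' hz'').mono fun n hn => mask_of_notMem F hn
  · exact hQ' F fun i => hF (Sum.inr (Sum.inl i))
  · exact hQ'' F fun i => hF (Sum.inr (Sum.inr i))

/-- the support sets: blocks converging to the two directions -/
lemma exists_support (z' z'' : Z) (s : ℕ → Finset ℕ)
    (hs : ∀ j, ∀ n ∈ s j, pt n ∈ Wn z' z'' j) :
    ∃ N : Set ℕ, (∀ j, (s j : Set ℕ) ⊆ N) ∧ (∀ z, z ≠ z' → z ≠ z'' → ∀ᶠ n in nb z, n ∉ N) ∧
      (∃ᶠ n in nb z', n ∈ N) ∧ (∃ᶠ n in nb z'', n ∈ N) := by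
  classical
  have hp : ∀ (z : Z) (j : ℕ), ∃ n ≥ j, pt n ∈ PiNat.cylinder z j := fun z j =>
    exists_pt_mem (PiNat.isOpen_cylinder _ z j) ⟨z, PiNat.self_mem_cylinder z j⟩ j
  choose p hpj hpc using hp
  set t : ℕ → Finset ℕ := fun j => s j ∪ {p z' j, p z'' j} with ht
  have ht' : ∀ j, ∀ n ∈ t j, pt n ∈ Wn z' z'' j := by
    intro j n hn
    rw [ht, Finset.mem_union] at hn
    rcases hn with hn | hn
    · exact hs j n hn
    · rw [Finset.mem_insert, Finset.mem_singleton] at hn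
      rcases hn with rfl | rfl
      · exact Or.inl (hpc z' j)
      · exact Or.inr (hpc z'' j)
  have hfreq : ∀ z, (z = z' ∨ z = z'') → ∃ᶠ n in nb z, n ∈ {n | ∃ j, n ∈ t j} := by
    intro z hz
    rw [frequently_nb]
    intro U hU hzU k
    obtain ⟨j, hj⟩ := exists_cyl_subset hU hzU
    refine ⟨p z (max j k), (le_max_right _ _).trans (hpj z _), hj
      (PiNat.cylinder_anti z (le_max_left j k) (hpc z _)), max j k, ?_⟩
    rw [ht]
    simp only [Finset.mem_union, Finset.mem_insert, Finset.mem_singleton]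
    rcases hz with rfl | rfl
    · exact Or.inr (Or.inl rfl)
    · exact Or.inr (Or.inr rfl)
  refine ⟨{n | ∃ j, n ∈ t j}, fun j n hn => ⟨j, Finset.mem_union_left _ hn⟩,
    fun z h' h'' => notMem_blocks ht' h' h'', hfreq z' (Or.inl rfl), hfreq z'' (Or.inr rfl)⟩

lemma exists_legal' [TopologicalSpace.SeparableSpace E] (z' z'' : Z) :
    ∃ F : ℕ → E, Legal z' z'' F := by
  obtain ⟨N, _, hN, h', h''⟩ := exists_support z' z'' (fun _ => ∅) (by simp)
  obtain ⟨F, _, hF⟩ := exists_legal (E := E) hN h' h'' (fun _ => univ) (fun _ => isOpen_univ)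
    (fun _ => dense_univ)
  exact ⟨_, hF⟩

end Pool.Agent.Lib_helper53.PF
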