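import Mathlib
import Pool.Agent.Lib_helper53.PFKill

set_option linter.unusedSectionVars false

open Set Filter Topology Metric

namespace Pool.Agent.Lib_helper53.PF

variable {E : Type} [NormedAddCommGroup E] [InnerProductSpace ℝ E]

/-- the rows of `M - a` are `ε`-small on functions supported near `K` -/
def GoodOn (M : ℕ → ℕ → (E →L[ℝ] E)) (a : E →L[ℝ] E) (ε : ℝ) (K : Set Z) : Prop :=
  ∃ U : Set Z, IsOpen U ∧ K ⊆ U ∧ ∃ k : ℕ, ∀ v, SmallOn (dsub (M v) v a) {n | k ≤ n ∧ pt n ∈ U} ε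

lemma GoodOn.mono {M : ℕ → ℕ → (E →L[ℝ] E)} {a : E →L[ℝ] E} {ε ε' : ℝ} {K K' : Set Z}
    (h : GoodOn M a ε K) (hK : K' ⊆ K) (hε : ε ≤ ε') : GoodOn M a ε' K' := by
  obtain ⟨U, hU, hKU, k, hk⟩ := h
  exact ⟨U, hU, hK.trans hKU, k, fun v => (hk v).mono subset_rfl hε⟩

lemma GoodOn.nonneg {M : ℕ → ℕ → (E →L[ℝ] E)} {a : E →L[ℝ] E} {ε : ℝ} {K : Set Z}
    (h : GoodOn M a ε K) : 0 ≤ ε := by
  obtain ⟨U, hU, hKU, k, hk⟩ := h
  exact (hk 0).nonneg

lemma GoodOn.change {M : ℕ → ℕ → (E →L[ℝ] E)} {a a' : E →L[ℝ] E} {ε : ℝ} {K : Set Z}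
    (h : GoodOn M a ε K) : GoodOn M a' (ε + ‖a - a'‖) K := by
  obtain ⟨U, hU, hKU, k, hk⟩ := h
  refine ⟨U, hU, hKU, k, fun v s hs f hf => ?_⟩
  have h1 := hk v s hs f hf
  have h2 : ∑ n ∈ s, dsub (M v) v a' n (f n) = ∑ n ∈ s, dsub (M v) v a n (f n)
      + if v ∈ s then (a - a') (f v) else 0 := by
    rw [sum_dsub, sum_dsub]
    split_ifs
    · rw [sub_apply]; abel
    · simp
  rw [h2]
  refine (norm_add_le _ _).trans (add_le_add h1 ?_)
  split_ifs
  · exact ((a - a').le_opNorm _).trans (mul_le_of_le_one_right (norm_nonneg _) (hf v))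
  · simp

lemma GoodOn.close {M : ℕ → ℕ → (E →L[ℝ] E)} {a a' : E →L[ℝ] E} {ε ε' : ℝ} {z : Z}
    (h : GoodOn M a ε {z}) (h' : GoodOn M a' ε' {z}) : ‖a - a'‖ ≤ ε + ε' := by
  obtain ⟨U, hU, hKU, k, hk⟩ := h
  obtain ⟨U', hU', hKU', k', hk'⟩ := h'
  obtain ⟨n, hn, hnU⟩ := exists_pt_mem (hU.inter hU') ⟨z, hKU rfl, hKU' rfl⟩ (max k k')
  have hε := (hk 0).nonneg
  have hε' := (hk' 0).nonneg
  refine ContinuousLinearMap.opNorm_le_of_unit_norm (by positivity) fun x hx => ?_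
  have h1 := hk n {n} (by
    intro m hm
    rw [Finset.coe_singleton, mem_singleton_iff] at hm
    subst hm
    exact ⟨(le_max_left _ _).trans hn, hnU.1⟩) (fun _ => x) (fun _ => hx.le)
  have h2 := hk' n {n} (by
    intro m hm
    rw [Finset.coe_singleton, mem_singleton_iff] at hm
    subst hm
    exact ⟨(le_max_right _ _).trans hn, hnU.2⟩) (fun _ => x) (fun _ => hx.le)
  rw [sum_dsub, Finset.sum_singleton, if_pos (Finset.mem_singleton_self _)] at h1 h2
  have h3 : (a - a') x = (M n n x - a' x) - (M n n x - a x) := by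
    rw [sub_apply]; abel
  rw [h3]
  exact (norm_sub_le _ _).trans (by linarith)

/-- a bad pair of directions -/
def BadPair (A : Subalgebra ℝ (E →L[ℝ] E)) (M : ℕ → ℕ → (E →L[ℝ] E)) (z' z'' : Z) : Prop :=
  ∃ ε > 0, ∀ a ∈ A, ¬ GoodOn M a ε {z', z''}

lemma isOpen_goodOn (M : ℕ → ℕ → (E →L[ℝ] E)) (a : E →L[ℝ] E) (ε : ℝ) :
    IsOpen {z : Z | GoodOn M a ε {z}} := by
  rw [isOpen_iff_forall_mem_open]
  rintro z ⟨U, hU, hKU, k, hk⟩
  exact ⟨U, fun y hy => ⟨U, hU, singleton_subset_iff.mpr hy, k, hk⟩, hU, hKU rfl⟩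

lemma mk_Z : Cardinal.mk Z = Cardinal.continuum := by
  simp [Z]

lemma exists_notMem_of_card {D : Set Z} (hD : Cardinal.mk D < Cardinal.continuum) :
    ∃ z, z ∉ D := by
  by_contra hcon
  push Not at hcon
  have : D = univ := eq_univ_of_forall hcon
  rw [this, Cardinal.mk_univ, mk_Z] at hD
  exact lt_irrefl _ hD

lemma card_insert_lt {D : Set Z} (hD : Cardinal.mk D < Cardinal.continuum) (z : Z) :
    Cardinal.mk (insert z D : Set Z) < Cardinal.continuum := by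
  refine (Cardinal.mk_insert_le).trans_lt ?_
  exact Cardinal.add_lt_of_lt Cardinal.aleph0_le_continuum hD
    (Cardinal.one_lt_aleph0.trans_le Cardinal.aleph0_le_continuum)

instance : PolishSpace Z := by
  have : (uniformity Bool).IsCountablyGenerated := by
    rw [DiscreteUniformity.eq_principal_setRelId]
    infer_instance
  have := @TopologicalSpace.IsCompletelyMetrizableSpace.of_completeSpace_metrizable
    (ℕ → Bool) _ _ _ _
  infer_instance

/-- closed sets of directions of small cardinality are countable -/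
lemma countable_of_isClosed {C : Set Z} (hC : IsClosed C)
    (h : Cardinal.mk C < Cardinal.continuum) : C.Countable := by
  by_contra hcon
  obtain ⟨f, hf, _, hinj⟩ := hC.exists_nat_bool_injection_of_not_countable hcon
  have h1 : Cardinal.mk (range f) = Cardinal.continuum := by
    rw [Cardinal.mk_range_eq f hinj]
    exact mk_Z
  have h2 := Cardinal.mk_le_mk_of_subset hf
  rw [h1] at h2
  exact absurd h (not_lt.mpr h2)

variable [CompleteSpace E]

/-- no bad pairs: the operator is locally given by an element of `A` -/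
lemma exists_good {A : Subalgebra ℝ (E →L[ℝ] E)} (hA : IsClosed (A : Set (E →L[ℝ] E)))
    {M : ℕ → ℕ → (E →L[ℝ] E)} {D : Set Z} (hD : Cardinal.mk D < Cardinal.continuum)
    (h : ∀ z' ∉ D, ∀ z'' ∉ D, z' ≠ z'' → ¬ BadPair A M z' z'') :
    ∃ a ∈ A, {z : Z | ∃ ε > 0, ¬ GoodOn M a ε {z}}.Countable := by
  obtain ⟨z₀, hz₀⟩ := exists_notMem_of_card hD
  obtain ⟨z₁, hz₁⟩ := exists_notMem_of_card (card_insert_lt hD z₀)
  have hz₁D : z₁ ∉ D := fun h => hz₁ (mem_insert_of_mem _ h)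
  have hz₁₀ : z₁ ≠ z₀ := fun h => hz₁ (h ▸ mem_insert _ _)
  have hpair : ∀ z ∉ D, z ≠ z₀ → ∀ ε > 0, ∃ a ∈ A, GoodOn M a ε {z, z₀} := by
    intro z hz hne ε hε
    have := h z hz z₀ hz₀ hne
    unfold BadPair at this
    push Not at this
    exact this ε hε
  have h1 : ∀ m : ℕ, ∃ a ∈ A, GoodOn M a (1 / ((m : ℝ) + 1)) {z₀} := by
    intro m
    obtain ⟨a, ha, hg⟩ := hpair z₁ hz₁D hz₁₀ (1 / ((m : ℝ) + 1)) (by positivity)
    exact ⟨a, ha, hg.mono (by simp) le_rfl⟩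
  choose a haA ha using h1
  have hcau : CauchySeq a := by
    rw [Metric.cauchySeq_iff]
    intro ε hε
    obtain ⟨N, hN⟩ := exists_nat_one_div_lt (half_pos hε)
    refine ⟨N, fun m hm n hn => ?_⟩
    rw [dist_eq_norm]
    have e1 : 1 / ((m : ℝ) + 1) ≤ 1 / ((N : ℝ) + 1) := Nat.one_div_le_one_div hm
    have e2 : 1 / ((n : ℝ) + 1) ≤ 1 / ((N : ℝ) + 1) := Nat.one_div_le_one_div hn
    have := (ha m).close (ha n)
    linarith
  obtain ⟨c, hc⟩ := cauchySeq_tendsto_of_complete hcau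
  have hcA : c ∈ A := hA.mem_of_tendsto hc (Eventually.of_forall haA)
  have hlim : ∀ ε > 0, ∃ m : ℕ, 1 / ((m : ℝ) + 1) < ε ∧ ‖a m - c‖ < ε := by
    intro ε hε
    have e1 : ∀ᶠ m in atTop, ‖a m - c‖ < ε :=
      (tendsto_iff_norm_sub_tendsto_zero.mp hc).eventually (gt_mem_nhds hε)
    have e2 : ∀ᶠ m : ℕ in atTop, 1 / ((m : ℝ) + 1) < ε :=
      tendsto_one_div_add_atTop_nhds_zero_nat.eventually (gt_mem_nhds hε)
    obtain ⟨m, hm⟩ := (e2.and e1).exists
    exact ⟨m, hm⟩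
  have hgood : ∀ z ∉ D, ∀ ε > 0, GoodOn M c ε {z} := by
    intro z hz ε hε
    by_cases hzz : z = z₀
    · subst hzz
      obtain ⟨m, hm1, hm2⟩ := hlim (ε / 2) (half_pos hε)
      exact ((ha m).change (a' := c)).mono subset_rfl (by linarith)
    · obtain ⟨b, hbA, hb⟩ := hpair z hz hzz (ε / 4) (by positivity)
      obtain ⟨m, hm1, hm2⟩ := hlim (ε / 8) (by positivity)
      have h3 := (hb.mono (K' := {z₀}) (by simp) le_rfl).close (ha m)
      have h4 : ‖b - c‖ ≤ ‖b - a m‖ + ‖a m - c‖ := by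
        have := norm_add_le (b - a m) (a m - c)
        rwa [sub_add_sub_cancel] at this
      exact ((hb.mono (K' := {z}) (by simp) le_rfl).change (a' := c)).mono subset_rfl
        (by linarith)
  refine ⟨c, hcA, ?_⟩
  have hsub : {z : Z | ∃ ε > 0, ¬ GoodOn M c ε {z}} ⊆
      ⋃ m : ℕ, {z : Z | GoodOn M c (1 / ((m : ℝ) + 1)) {z}}ᶜ := by
    rintro z ⟨ε, hε, hz⟩
    obtain ⟨m, hm⟩ := exists_nat_one_div_lt hε
    exact mem_iUnion.mpr ⟨m, fun hg => hz (GoodOn.mono hg subset_rfl hm.le)⟩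
  refine Countable.mono hsub (countable_iUnion fun m => ?_)
  refine countable_of_isClosed (isOpen_goodOn M c _).isClosed_compl ?_
  refine (Cardinal.mk_le_mk_of_subset ?_).trans_lt hD
  intro z hz
  by_contra hzD
  exact hz (hgood z hzD _ (by positivity))

end Pool.Agent.Lib_helper53.PF
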