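import Mathlib
import Pool.Agent.Lib_helper53.PFStage

set_option linter.unusedSectionVars false

open Set Filter Topology Metric

namespace Pool.Agent.Lib_helper53.PF

variable {E : Type} [NormedAddCommGroup E] [InnerProductSpace ℝ E] [CompleteSpace E]

/-- a bad pair of directions can be used to kill the matrix -/
lemma exists_kill [TopologicalSpace.SeparableSpace E] {A : Subalgebra ℝ (E →L[ℝ] E)}
    {b : ℕ → (E →L[ℝ] E)} (hbA : ∀ m, b m ∈ A) (hb : ∀ a ∈ A, ∀ ε > 0, ∃ m, ‖a - b m‖ < ε)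
    {M : ℕ → ℕ → (E →L[ℝ] E)} {C : ℝ} (hM : ∀ v, RowBdd (M v) C) {z' z'' : Z}
    (hbad : BadPair A M z' z'') (G : Z → ℕ → E) (hG : ∀ z n, ‖G z n‖ ≤ 1) :
    ∃ F : ℕ → E, Legal z' z'' F ∧
      ((∃ ζ, ζ ≠ z' ∧ ζ ≠ z'' ∧ ∀ a ∈ A,
        ¬ Tendsto (fun v => hat (M v) F - a (G ζ v)) (nb ζ) (𝓝 0)) ∨
      (∀ a ∈ A, ¬ (Tendsto (fun v => hat (M v) F - a (F v)) (nb z') (𝓝 0) ∧
        Tendsto (fun v => hat (M v) F - a (F v)) (nb z'') (𝓝 0)))) := by
  classical
  obtain ⟨ε, hε, hbad⟩ := hbad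
  have h1 : ∀ j : ℕ, ∃ (v : ℕ) (s : Finset ℕ) (f : ℕ → E), (∀ n ∈ s, j ≤ n ∧ pt n ∈ Wn z' z'' j) ∧
      (∀ n, ‖f n‖ ≤ 1) ∧ ε < ‖∑ n ∈ s, dsub (M v) v (b j.unpair.1) n (f n)‖ := by
    intro j
    have := hbad (b j.unpair.1) (hbA _)
    unfold GoodOn SmallOn at this
    push Not at this
    have hsub : ({z', z''} : Set Z) ⊆ Wn z' z'' j := by
      rintro z (rfl | rfl)
      · exact Or.inl (PiNat.self_mem_cylinder _ _)
      · exact Or.inr (PiNat.self_mem_cylinder _ _)
    obtain ⟨v, s, hs, f, hf, hlt⟩ := this (Wn z' z'' j) (isOpen_Wn _ _ _) hsub j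
    exact ⟨v, s, f, fun n hn => hs hn, hf, hlt⟩
  choose v s f hs hf hlt using h1
  obtain ⟨N, hsN, hN, h', h''⟩ := exists_support z' z'' s (fun j n hn => (hs j n hn).2)
  -- the filters of the blocks with a given multiplier
  have hl : ∀ m : ℕ, (atTop ⊓ 𝓟 {j : ℕ | j.unpair.1 = m}).NeBot := by
    intro m
    rw [← Filter.frequently_mem_iff_neBot, frequently_atTop]
    intro k
    exact ⟨Nat.pair m k, Nat.right_le_pair _ _, by simp⟩
  have hv : ∀ m : ℕ, Tendsto v (atTop ⊓ 𝓟 {j : ℕ | j.unpair.1 = m}) atTop := by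
    intro m
    rw [Filter.tendsto_atTop]
    intro K
    have htail : ∀ i : ℕ, ∃ k : ℕ, SmallOn (dsub (M i) i (b m)) (Ici k) ε := fun i =>
      exists_tail ((hM i).dsub i (b m)) hε
    choose k hk using htail
    rw [eventually_inf_principal]
    filter_upwards [eventually_ge_atTop ((Finset.range K).sup k)] with j hj hjm
    by_contra hcon
    push Not at hcon
    have h2 : k (v j) ≤ j := (Finset.le_sup (f := k) (Finset.mem_range.mpr hcon)).trans hj
    have h3 := hk (v j) (s j) (fun n hn => h2.trans (hs j n hn).1) (f j) (hf j)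
    have h4 := hlt j
    rw [hjm] at h4
    linarith
  have hζ : ∀ m : ℕ, ∃ z : Z, ∀ S ∈ nb z, ∀ k, ∃ j ≥ k, j.unpair.1 = m ∧ v j ∈ S := by
    intro m
    have := hl m
    obtain ⟨z, hz⟩ := exists_cluster _ v (hv m)
    refine ⟨z, fun S hS k => ?_⟩
    have h2 := hz S hS
    rw [frequently_inf_principal, frequently_atTop] at h2
    obtain ⟨j, hj, hjm, hjS⟩ := h2 k
    exact ⟨j, hj, hjm, hjS⟩
  choose ζ hζ using hζ
  by_cases hcase : ∃ m, ζ m ≠ z' ∧ ζ m ≠ z''
  · obtain ⟨m, hm', hm''⟩ := hcase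
    obtain ⟨S, hS⟩ := (nb (ζ m)).exists_antitone_basis
    obtain ⟨F, hFQ, hF⟩ := exists_legal (E := E) hN h' h''
      (fun i => {F : P E | ∃ v ∈ S i.unpair.1,
        ε / 2 < ‖hat (M v) (mask N F) - (fun u => b i.unpair.2 (G (ζ m) u)) v‖})
      (fun i => isOpen_flip hM _ _ _)
      (fun i => by
        refine dense_flip hM hε fun k => ?_
        have hSN : ∀ᶠ n in nb (ζ m), n ∈ S i.unpair.1 ∧ n ∉ N := by
          have h0 : ∀ᶠ n in nb (ζ m), n ∈ S i.unpair.1 := hS.mem _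
          exact h0.and (hN _ hm' hm'')
        obtain ⟨j, hjk, hjm, hjS, hjN⟩ := hζ m _ hSN k
        refine ⟨v j, hjS, s j, fun n hn => ⟨hsN j hn, hjk.trans (hs j n hn).1⟩, f j, hf j, ?_⟩
        have h4 := hlt j
        have hnot : v j ∉ s j := fun h => hjN (hsN j h)
        rw [sum_dsub, if_neg hnot, sub_zero] at h4
        exact h4.le)
    refine ⟨_, hF, Or.inl ⟨ζ m, hm', hm'', fun a ha htend => ?_⟩⟩
    obtain ⟨i, hi⟩ := hb a ha (ε / 8) (by positivity)
    have h2 : ∀ᶠ v in nb (ζ m), ‖hat (M v) (mask N F) - a (G (ζ m) v)‖ < ε / 8 := by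
      have := htend.norm
      rw [norm_zero] at this
      exact this.eventually (gt_mem_nhds (by positivity))
    obtain ⟨q, _, hq⟩ := hS.1.mem_iff.mp h2
    obtain ⟨u, huS, hu⟩ := hFQ (Nat.pair q i)
    simp only [Nat.unpair_pair] at huS hu
    have h3 : ‖hat (M u) (mask N F) - a (G (ζ m) u)‖ < ε / 8 := hq huS
    have h4 : ‖(a - b i) (G (ζ m) u)‖ ≤ ε / 8 :=
      ((a - b i).le_opNorm _).trans
        ((mul_le_of_le_one_right (norm_nonneg _) (hG _ u)).trans hi.le)
    have h5 : hat (M u) (mask N F) - b i (G (ζ m) u)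
        = (hat (M u) (mask N F) - a (G (ζ m) u)) + (a - b i) (G (ζ m) u) := by
      rw [sub_apply]; abel
    rw [h5] at hu
    have := norm_add_le (hat (M u) (mask N F) - a (G (ζ m) u)) ((a - b i) (G (ζ m) u))
    linarith
  · push Not at hcase
    have hbasis : ∀ m : ℕ, ∃ S : ℕ → Set ℕ, (nb (ζ m)).HasAntitoneBasis S := fun m =>
      (nb (ζ m)).exists_antitone_basis
    choose S hS using hbasis
    obtain ⟨F, hFQ, hF⟩ := exists_legal (E := E) hN h' h''
      (fun i => {F : P E | ∃ v ∈ S i.unpair.1 i.unpair.2,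
        ε / 2 < ‖hat (dsub (M v) v (b i.unpair.1)) (mask N F) - (fun _ => (0 : E)) v‖})
      (fun i => isOpen_flip (fun v => (hM v).dsub v (b i.unpair.1)) _ _ _)
      (fun i => by
        refine dense_flip (fun v => (hM v).dsub v (b i.unpair.1)) hε fun k => ?_
        obtain ⟨j, hjk, hjm, hjS⟩ := hζ i.unpair.1 _ ((hS i.unpair.1).mem i.unpair.2) k
        refine ⟨v j, hjS, s j, fun n hn => ⟨hsN j hn, hjk.trans (hs j n hn).1⟩, f j, hf j, ?_⟩
        have h4 := hlt j
        rw [hjm] at h4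
        exact h4.le)
    refine ⟨_, hF, Or.inr fun a ha htend => ?_⟩
    obtain ⟨m, hm⟩ := hb a ha (ε / 8) (by positivity)
    have htm : Tendsto (fun v => hat (M v) (mask N F) - a (mask N F v)) (nb (ζ m)) (𝓝 0) := by
      by_cases hz : ζ m = z'
      · rw [hz]; exact htend.1
      · rw [hcase m hz]; exact htend.2
    have h2 : ∀ᶠ v in nb (ζ m), ‖hat (M v) (mask N F) - a (mask N F v)‖ < ε / 8 := by
      have := htm.norm
      rw [norm_zero] at this
      exact this.eventually (gt_mem_nhds (by positivity))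
    obtain ⟨q, _, hq⟩ := (hS m).1.mem_iff.mp h2
    obtain ⟨u, huS, hu⟩ := hFQ (Nat.pair m q)
    simp only [Nat.unpair_pair, sub_zero] at huS hu
    rw [hat_dsub (hM u) u (b m) (norm_mask_le N F)] at hu
    have h3 : ‖hat (M u) (mask N F) - a (mask N F u)‖ < ε / 8 := hq huS
    have h4 : ‖(a - b m) (mask N F u)‖ ≤ ε / 8 :=
      ((a - b m).le_opNorm _).trans
        ((mul_le_of_le_one_right (norm_nonneg _) (norm_mask_le N F u)).trans hm.le)
    have h5 : hat (M u) (mask N F) - b m (mask N F u)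
        = (hat (M u) (mask N F) - a (mask N F u)) + (a - b m) (mask N F u) := by
      rw [sub_apply]; abel
    rw [h5] at hu
    have := norm_add_le (hat (M u) (mask N F) - a (mask N F u)) ((a - b m) (mask N F u))
    linarith

end Pool.Agent.Lib_helper53.PF
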