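import Mathlib
import Pool.Agent.Lib_helper53.PFTarget
import Pool.Agent.Lib_helper53.PFExt
import Pool.Agent.Lib_helper53.Bernstein

set_option linter.unusedSectionVars false

open Set Filter Topology Metric Cardinal
open scoped BoundedContinuousFunction

namespace Pool.Agent.Lib_helper53.PF

variable {E : Type} [NormedAddCommGroup E] [InnerProductSpace ℝ E]

/-- the data of a stage of the construction -/
structure Rec (E : Type) where
  z0 : Z
  z1 : Z
  ζ : Z
  F : ℕ → E

/-- the directions used or forbidden so far -/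
def dirs (prev : Set (Rec E)) : Set Z := {z | ∃ p ∈ prev, z = p.z0 ∨ z = p.z1 ∨ z = p.ζ}

open Classical in
/-- the generator attached to a direction, so far -/
noncomputable def Gprev (prev : Set (Rec E)) (ζ : Z) : ℕ → E :=
  if h : ∃ p ∈ prev, (ζ = p.z0 ∨ ζ = p.z1) ∧ ∀ n, ‖p.F n‖ ≤ 1 then h.choose.F else 0

lemma norm_Gprev_le (prev : Set (Rec E)) (ζ : Z) (n : ℕ) : ‖Gprev prev ζ n‖ ≤ 1 := by
  unfold Gprev
  split_ifs with h
  · exact h.choose_spec.2.2 n
  · simp

variable [CompleteSpace E]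

/-- the requirements of a stage -/
structure Stage (A : Subalgebra ℝ (E →L[ℝ] E)) (prev : Set (Rec E)) (M : ℕ → ℕ → (E →L[ℝ] E))
    (r : Rec E) : Prop where
  notMem0 : r.z0 ∉ dirs prev
  notMem1 : r.z1 ∉ dirs prev
  ne : r.z0 ≠ r.z1
  legal : Legal r.z0 r.z1 r.F
  main : (r.ζ ≠ r.z0 ∧ r.ζ ≠ r.z1 ∧ ∀ a ∈ A,
      ¬ Tendsto (fun v => hat (M v) r.F - a (Gprev prev r.ζ v)) (nb r.ζ) (𝓝 0)) ∨
    (∀ a ∈ A, ¬ (Tendsto (fun v => hat (M v) r.F - a (r.F v)) (nb r.z0) (𝓝 0) ∧
        Tendsto (fun v => hat (M v) r.F - a (r.F v)) (nb r.z1) (𝓝 0))) ∨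
    ((∃ C, ∀ v, RowBdd (M v) C) → ∀ z' ∉ dirs prev, ∀ z'' ∉ dirs prev, z' ≠ z'' →
      ¬ BadPair A M z' z'')

lemma exists_stage [TopologicalSpace.SeparableSpace E] {A : Subalgebra ℝ (E →L[ℝ] E)}
    {b : ℕ → (E →L[ℝ] E)} (hbA : ∀ m, b m ∈ A) (hb : ∀ a ∈ A, ∀ ε > 0, ∃ m, ‖a - b m‖ < ε)
    {prev : Set (Rec E)} (hprev : #(dirs prev) < 𝔠) (M : ℕ → ℕ → (E →L[ℝ] E)) :
    ∃ r, Stage A prev M r := by
  by_cases h : (∃ C, ∀ v, RowBdd (M v) C) ∧ ∃ z' ∉ dirs prev, ∃ z'' ∉ dirs prev, z' ≠ z'' ∧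
      BadPair A M z' z''
  · obtain ⟨⟨C, hM⟩, z', hz', z'', hz'', hne, hbad⟩ := h
    obtain ⟨F, hF, hcase⟩ := exists_kill hbA hb hM hbad (Gprev prev) (norm_Gprev_le prev)
    rcases hcase with ⟨ζ, hζ', hζ'', hk⟩ | hk
    · exact ⟨⟨z', z'', ζ, F⟩, hz', hz'', hne, hF, Or.inl ⟨hζ', hζ'', hk⟩⟩
    · exact ⟨⟨z', z'', z', F⟩, hz', hz'', hne, hF, Or.inr (Or.inl hk)⟩
  · push Not at h
    obtain ⟨z', hz'⟩ := exists_notMem_of_card hprev
    obtain ⟨z'', hz''⟩ := exists_notMem_of_card (card_insert_lt hprev z')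
    obtain ⟨F, hF⟩ := exists_legal' (E := E) z' z''
    refine ⟨⟨z', z'', z', F⟩, hz', fun hm => hz'' (mem_insert_of_mem _ hm),
      fun he => hz'' ?_, hF, Or.inr (Or.inr ?_)⟩
    · have he' : z' = z'' := he
      rw [← he']
      exact mem_insert _ _
    · intro hC y' hy' y'' hy'' hne
      exact h hC y' hy' y'' hy'' hne

/-- the recursion -/
lemma exists_recursion [TopologicalSpace.SeparableSpace E] {A : Subalgebra ℝ (E →L[ℝ] E)}
    {b : ℕ → (E →L[ℝ] E)} (hbA : ∀ m, b m ∈ A) (hb : ∀ a ∈ A, ∀ ε > 0, ∃ m, ‖a - b m‖ < ε)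
    {O : Type} [LinearOrder O] [WellFoundedLT O] (hO : ∀ o : O, #(Iio o) < 𝔠)
    (M : O → ℕ → ℕ → (E →L[ℝ] E)) :
    ∃ r : O → Rec E, ∀ o, Stage A (r '' Iio o) (M o) (r o) := by
  classical
  have hne : Nonempty (Rec E) := ⟨⟨fun _ => true, fun _ => true, fun _ => true, fun _ => 0⟩⟩
  let step : ∀ (o : O) (_ : Set (Rec E)), Rec E := fun o prev =>
    if h : ∃ r, Stage A prev (M o) r then h.choose else Classical.choice hne
  let Φ : ∀ o : O, (∀ p : O, p < o → Rec E) → Rec E := fun o ih =>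
    step o {x | ∃ (p : O) (hp : p < o), ih p hp = x}
  refine ⟨(wellFounded_lt (α := O)).fix Φ, fun o => ?_⟩
  have h1 : (wellFounded_lt (α := O)).fix Φ o
      = step o ((wellFounded_lt (α := O)).fix Φ '' Iio o) := by
    rw [WellFounded.fix_eq]
    simp only [Φ]
    congr 1
    ext x
    simp
  rw [h1]
  set r := (wellFounded_lt (α := O)).fix Φ with hr
  have hcard : #(dirs (r '' Iio o)) < 𝔠 := by
    have hsub : dirs (r '' Iio o) ⊆ ⋃ p ∈ Iio o, ({(r p).z0, (r p).z1, (r p).ζ} : Set Z) := by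
      rintro z ⟨_, ⟨p, hp, rfl⟩, hz⟩
      exact mem_iUnion₂.mpr ⟨p, hp, hz⟩
    refine (mk_le_mk_of_subset hsub).trans_lt ?_
    exact mk_biUnion_lt aleph0_lt_continuum _ (hO o) _ fun p _ =>
      (((finite_singleton _).insert _).insert _).countable
  have hex := exists_stage hbA hb hcard (M o)
  simp only [step]
  rw [dif_pos hex]
  exact hex.choose_spec

section system

variable {A : Subalgebra ℝ (E →L[ℝ] E)} {O : Type} [LinearOrder O]
  {M : O → ℕ → ℕ → (E →L[ℝ] E)} {r : O → Rec E}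
  (hr : ∀ o, Stage A (r '' Iio o) (M o) (r o))

include hr

lemma stage_ne01 (α β : O) : (r α).z0 ≠ (r β).z1 := by
  rcases lt_trichotomy α β with h | h | h
  · intro he
    exact (hr β).notMem1 ⟨r α, ⟨α, h, rfl⟩, Or.inl he.symm⟩
  · rw [h]; exact (hr β).ne
  · intro he
    exact (hr α).notMem0 ⟨r β, ⟨β, h, rfl⟩, Or.inr (Or.inl he)⟩

lemma stage_inj0 : Function.Injective fun α => (r α).z0 := by
  intro α β he
  by_contra hne
  rcases lt_or_gt_of_ne hne with h | h
  · exact (hr β).notMem0 ⟨r α, ⟨α, h, rfl⟩, Or.inl he.symm⟩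
  · exact (hr α).notMem0 ⟨r β, ⟨β, h, rfl⟩, Or.inl he⟩

lemma stage_inj1 : Function.Injective fun α => (r α).z1 := by
  intro α β he
  by_contra hne
  rcases lt_or_gt_of_ne hne with h | h
  · exact (hr β).notMem1 ⟨r α, ⟨α, h, rfl⟩, Or.inr (Or.inl he.symm)⟩
  · exact (hr α).notMem1 ⟨r β, ⟨β, h, rfl⟩, Or.inr (Or.inl he)⟩

/-- the system of generators produced by the recursion -/
def system : Gen E where
  O := O
  z0 := fun α => (r α).z0
  z1 := fun α => (r α).z1
  F := fun α => (r α).F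
  norm_le := fun α => (hr α).legal.norm_le
  supp := fun α => (hr α).legal.supp
  ne01 := stage_ne01 hr
  inj0 := stage_inj0 hr
  inj1 := stage_inj1 hr
  norming0 := fun α => (hr α).legal.norming0
  norming1 := fun α => (hr α).legal.norming1

open Gen in
/-- the rigidity of the constructed space -/
theorem rigid_aux (hA : IsClosed (A : Set (E →L[ℝ] E))) (hO : ∀ o : O, #(dirs (r '' Iio o)) < 𝔠)
    (hM : ∀ m, ¬ {o | M o = m}.Countable) (T : (system hr).X A →L[ℝ] (system hr).X A) :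
    ∃ a ∈ A, {z : Z | ∃ ε > 0, ¬ GoodOn (mat T) a ε {z}}.Countable := by
  have hcount := countable_psi T
  obtain ⟨o, ho, hoc⟩ : ∃ o : O, M o = mat T ∧
      o ∉ {α : O | ∃ (b : A) (v : ℕ), psi T v (gen (G := system hr) α b) ≠ 0} := by
    by_contra hcon
    push Not at hcon
    refine hM (mat T) (Countable.mono (fun o (ho : M o = mat T) => ?_) hcount)
    exact hcon o ho
  rw [mem_ofPred_eq] at hoc
  push Not at hoc
  set g : (system hr).X A := T (gen (G := system hr) o (1 : A)) with hg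
  have hgv : ∀ v, (g : ℕ →ᵇ E) v = hat (mat T v) (r o).F := by
    intro v
    rw [hg, apply_gen_of_psi (hoc 1 v)]
    rfl
  have hst := hr o
  rw [ho] at hst
  rcases hst.main with ⟨hζ0, hζ1, hk⟩ | hk | hk
  · exfalso
    by_cases hused : ∃ p ∈ r '' Iio o, ((r o).ζ = p.z0 ∨ (r o).ζ = p.z1) ∧ ∀ n, ‖p.F n‖ ≤ 1
    · have hG : Gprev (r '' Iio o) (r o).ζ = hused.choose.F := by
        unfold Gprev
        rw [dif_pos hused]
      obtain ⟨⟨p, hp, hpe⟩, hpz, _⟩ := hused.choose_spec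
      rw [← hpe] at hG hpz
      refine hk (cls g p) (cls_mem g p) ?_
      rw [hG]
      have := cls_spec g p
      rcases hpz with h | h
      · rw [h]
        exact this.1.congr fun n => by rw [hgv]; rfl
      · rw [h]
        exact this.2.congr fun n => by rw [hgv]; rfl
    · refine hk 0 A.zero_mem ?_
      have : Tendsto (g : ℕ →ᵇ E) (nb (r o).ζ) (𝓝 0) := by
        refine g.2.2 _ fun (β : O) => ?_
        rcases lt_trichotomy β o with h | h | h
        · constructor
          · intro he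
            exact hused ⟨r β, ⟨β, h, rfl⟩, Or.inl he, (hr β).legal.norm_le⟩
          · intro he
            exact hused ⟨r β, ⟨β, h, rfl⟩, Or.inr he, (hr β).legal.norm_le⟩
        · rw [h]; exact ⟨hζ0, hζ1⟩
        · constructor
          · intro he
            exact (hr β).notMem0 ⟨r o, ⟨o, h, rfl⟩, Or.inr (Or.inr he.symm)⟩
          · intro he
            exact (hr β).notMem1 ⟨r o, ⟨o, h, rfl⟩, Or.inr (Or.inr he.symm)⟩
      refine this.congr fun n => ?_
      rw [hgv]
      simp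
  · exfalso
    refine hk (cls g o) (cls_mem g o) ⟨?_, ?_⟩
    · exact (cls_spec g o).1.congr fun n => by rw [hgv]; rfl
    · exact (cls_spec g o).2.congr fun n => by rw [hgv]; rfl
  · exact exists_good hA (hO o) (hk ⟨‖T‖, rowBdd_mat T⟩)

end system

/-- the cardinality of a separable metric space -/
lemma mk_le_continuum_of_separable (Y : Type) [MetricSpace Y] [TopologicalSpace.SeparableSpace Y] :
    #Y ≤ 𝔠 := by
  rcases isEmpty_or_nonempty Y with h | h
  · rw [mk_eq_zero]; exact zero_le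
  set d := TopologicalSpace.denseSeq Y
  have hinj : Function.Injective fun (y : Y) (n : ℕ) => dist y (d n) := by
    intro x y hxy
    have h1 : (fun w => dist x w) = fun w => dist y w := by
      refine (TopologicalSpace.denseRange_denseSeq Y).equalizer (by fun_prop) (by fun_prop) ?_
      ext n
      exact congrFun hxy n
    have h2 := congrFun h1 x
    simp only [dist_self] at h2
    exact (dist_eq_zero.mp h2.symm).symm
  refine (mk_le_of_injective hinj).trans ?_
  rw [← power_def, mk_nat, mk_real, continuum_power_aleph0]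

lemma mk_clm_le [TopologicalSpace.SeparableSpace E] : #(E →L[ℝ] E) ≤ 𝔠 := by
  set d := TopologicalSpace.denseSeq E
  have hinj : Function.Injective fun (T : E →L[ℝ] E) (n : ℕ) => T (d n) := by
    intro S T hST
    have h1 : (S : E → E) = T := by
      refine (TopologicalSpace.denseRange_denseSeq E).equalizer S.continuous T.continuous ?_
      ext n
      exact congrFun hST n
    exact DFunLike.coe_injective h1
  refine (mk_le_of_injective hinj).trans ?_
  rw [← power_def, mk_nat]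
  calc #E ^ ℵ₀ ≤ 𝔠 ^ ℵ₀ := power_le_power_right (mk_le_continuum_of_separable E)
    _ = 𝔠 := continuum_power_aleph0

lemma mk_mat_le [TopologicalSpace.SeparableSpace E] : #(ℕ → ℕ → (E →L[ℝ] E)) ≤ 𝔠 := by
  rw [← power_def, ← power_def, mk_nat]
  calc (#(E →L[ℝ] E) ^ ℵ₀) ^ ℵ₀ ≤ (𝔠 ^ ℵ₀) ^ ℵ₀ :=
        power_le_power_right (power_le_power_right mk_clm_le)
    _ = 𝔠 := by rw [continuum_power_aleph0, continuum_power_aleph0]

/-- there is a rigid system of generators -/
theorem exists_system [TopologicalSpace.SeparableSpace E] {A : Subalgebra ℝ (E →L[ℝ] E)}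
    (hA : IsClosed (A : Set (E →L[ℝ] E))) [TopologicalSpace.SeparableSpace A] :
    ∃ G : Gen E, ¬ (univ : Set G.O).Countable ∧ ∀ T : G.X A →L[ℝ] G.X A,
      ∃ a ∈ A, {z : Z | ∃ ε > 0, ¬ GoodOn (Gen.mat T) a ε {z}}.Countable := by
  classical
  let O : Type := (𝔠 : Cardinal.{0}).ord.ToType
  have hO : #O = 𝔠 := mk_ord_toType _
  have hIio : ∀ o : O, #(Iio o) < 𝔠 := by
    intro o
    have := Cardinal.mk_Iio_lt o (by rw [hO]; exact (Ordinal.type_toType _).symm)
    rwa [hO] at this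
  -- codes
  have hcard : #((ℕ → ℕ → (E →L[ℝ] E)) × ℝ) = #O := by
    rw [hO]
    refine le_antisymm ?_ ?_
    · rw [mk_prod, lift_id, lift_id, mk_real]
      calc _ ≤ 𝔠 * 𝔠 := mul_le_mul' mk_mat_le le_rfl
        _ = 𝔠 := continuum_mul_self
    · rw [← mk_real]
      exact mk_le_of_injective (f := fun x : ℝ => ((fun _ _ => 0 : ℕ → ℕ → (E →L[ℝ] E)), x))
        fun x y h => (Prod.mk.inj h).2
  obtain ⟨e⟩ := Cardinal.eq.mp hcard
  set M : O → ℕ → ℕ → (E →L[ℝ] E) := fun o => (e.symm o).1 with hM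
  have hMc : ∀ m, ¬ {o | M o = m}.Countable := by
    intro m hc
    have h1 : (range fun x : ℝ => e (m, x)).Countable := by
      refine hc.mono ?_
      rintro _ ⟨x, rfl⟩
      simp [hM]
    have h2 : Function.Injective fun x : ℝ => e (m, x) := fun x y h => by
      have := e.injective h
      exact (Prod.mk.inj this).2
    have h3 : (univ : Set ℝ).Countable := by
      refine (h1.preimage_of_injOn h2.injOn).mono fun x _ => ?_
      exact mem_range_self x
    exact not_countable_univ h3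
  set c := TopologicalSpace.denseSeq A
  obtain ⟨r, hr⟩ := exists_recursion (A := A) (b := fun m => (c m : E →L[ℝ] E)) (fun m => (c m).2)
    (fun a ha ε hε => by
      obtain ⟨m, hm⟩ := (TopologicalSpace.denseRange_denseSeq A).exists_dist_lt (⟨a, ha⟩ : A) hε
      refine ⟨m, ?_⟩
      rw [← dist_eq_norm]
      exact hm) hIio M
  have hdirs : ∀ o : O, #(dirs (r '' Iio o)) < 𝔠 := by
    intro o
    have hsub : dirs (r '' Iio o) ⊆ ⋃ p ∈ Iio o, ({(r p).z0, (r p).z1, (r p).ζ} : Set Z) := by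
      rintro z ⟨_, ⟨p, hp, rfl⟩, hz⟩
      exact mem_iUnion₂.mpr ⟨p, hp, hz⟩
    refine (mk_le_mk_of_subset hsub).trans_lt ?_
    exact mk_biUnion_lt aleph0_lt_continuum _ (hIio o) _ fun p _ =>
      (((finite_singleton _).insert _).insert _).countable
  refine ⟨system hr, ?_, fun T => rigid_aux hr hA hdirs hMc T⟩
  intro hc
  exact hMc (fun _ _ => 0) (hc.mono (subset_univ _))

end Pool.Agent.Lib_helper53.PF
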