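import Mathlib
import Pool.Agent.Lib_helper53.PFStage
import Pool.Agent.Lib_helper53.PFExt

set_option linter.unusedSectionVars false

open Set Filter Topology Metric
open scoped BoundedContinuousFunction

namespace Pool.Agent.Lib_helper53.PF

variable {E : Type} [NormedAddCommGroup E] [InnerProductSpace ℝ E]

lemma SmallOn.union {m : ℕ → (E →L[ℝ] E)} {S S' : Set ℕ} {ε ε' : ℝ} (h : SmallOn m S ε)
    (h' : SmallOn m S' ε') : SmallOn m (S ∪ S') (ε + ε') := by
  classical
  intro s hs f hf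
  rw [← Finset.sum_filter_add_sum_filter_not s (· ∈ S)]
  refine (norm_add_le _ _).trans (add_le_add (h _ ?_ f hf) (h' _ ?_ f hf))
  · intro n hn
    exact (Finset.mem_filter.mp hn).2
  · intro n hn
    obtain ⟨hn1, hn2⟩ := Finset.mem_filter.mp hn
    exact (hs hn1).resolve_left hn2

namespace Gen

variable {G : Gen E} {A : Subalgebra ℝ (E →L[ℝ] E)} [CompleteSpace E]

/-- the bad directions -/
def Bad (T : G.X A →L[ℝ] G.X A) (a : E →L[ℝ] E) : Set Z :=
  {z : Z | ∃ ε > 0, ¬ GoodOn (mat T) a ε {z}}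

/-- the exceptional generators -/
def Exc (T : G.X A →L[ℝ] G.X A) (a : E →L[ℝ] E) : Set G.O :=
  {α | (∃ (b : A) (v : ℕ), psi T v (gen α b) ≠ 0) ∨ G.z0 α ∈ Bad T a ∨ G.z1 α ∈ Bad T a}

lemma countable_Exc {T : G.X A →L[ℝ] G.X A} {a : E →L[ℝ] E} (h : (Bad T a).Countable) :
    (Exc T a).Countable := by
  have h1 : (G.z0 ⁻¹' Bad T a).Countable := h.preimage_of_injOn G.inj0.injOn
  have h2 : (G.z1 ⁻¹' Bad T a).Countable := h.preimage_of_injOn G.inj1.injOn
  exact ((countable_psi T).union (h1.union h2))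

/-- generators live near their directions -/
lemma supp_near (α : G.O) {U U' : Set Z} (hU : IsOpen U) (h0 : G.z0 α ∈ U) (hU' : IsOpen U')
    (h1 : G.z1 α ∈ U') : ∀ᶠ n in atTop, G.F α n = 0 ∨ pt n ∈ U ∨ pt n ∈ U' := by
  refine eventually_atTop_of_nb fun z => ?_
  by_cases hz0 : z = G.z0 α
  · rw [hz0]
    exact eventually_nb.mpr ⟨U, hU, h0, 0, fun n _ hn => Or.inr (Or.inl hn)⟩
  by_cases hz1 : z = G.z1 α
  · rw [hz1]
    exact eventually_nb.mpr ⟨U', hU', h1, 0, fun n _ hn => Or.inr (Or.inr hn)⟩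
  exact (G.supp α z hz0 hz1).mono fun n hn => Or.inl hn

lemma psi_cut {T : G.X A →L[ℝ] G.X A} {α : G.O} {b : A} {v : ℕ}
    (h : psi T v (gen α b) = 0) (S : Set ℕ) (hS : ∀ᶠ n in atTop, G.F α n ≠ 0 → n ∈ S) :
    psi T v (cut α b S hS) = 0 := by
  obtain ⟨N, hN⟩ := eventually_atTop.mp hS
  have h3 : psi T v (gen α b - cut α b S hS) = 0 := by
    refine psi_fin T v _ (Finset.range N) fun n hn => ?_
    have h4 : ((gen α b - cut α b S hS : G.X A) : ℕ →ᵇ E) n
      = (gen α b : ℕ →ᵇ E) n - (cut α b S hS : ℕ →ᵇ E) n := rfl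
    rw [h4, gen_apply, cut_apply]
    split_ifs with hnS
    · rw [sub_self]
    · have : G.F α n = 0 := by
        by_contra hc
        exact hnS (hN n (by simpa using hn) hc)
      rw [this, map_zero, sub_zero]
  rw [psi_sub, h, zero_sub, neg_eq_zero] at h3
  exact h3

lemma norm_cut_apply_le (α : G.O) (b : A) (S : Set ℕ) (hS : ∀ᶠ n in atTop, G.F α n ≠ 0 → n ∈ S)
    (n : ℕ) : ‖(cut α b S hS : ℕ →ᵇ E) n‖ ≤ ‖b‖ := by
  rw [cut_apply]
  split_ifs
  · exact ((b : E →L[ℝ] E).le_opNorm _).trans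
      (mul_le_of_le_one_right (norm_nonneg _) (G.norm_le α n))
  · rw [norm_zero]; exact norm_nonneg b

/-- outside of the exceptional set, the difference is small on cut generators -/
lemma small_cut {T : G.X A →L[ℝ] G.X A} {a : A} {α : G.O} (hα : α ∉ Exc T (a : E →L[ℝ] E))
    {ε : ℝ} (hε : 0 < ε) :
    ∃ K, ∀ (S : Set ℕ) (hS : ∀ᶠ n in atTop, G.F α n ≠ 0 → n ∈ S), S ⊆ Ici K → ∀ b : A,
      ‖T (cut α b S hS) - act a (cut α b S hS)‖ ≤ ε * ‖b‖ := by
  unfold Exc at hα
  rw [mem_ofPred_eq] at hα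
  push Not at hα
  obtain ⟨hpsi, h0, h1⟩ := hα
  have hg0 : GoodOn (mat T) a (ε / 2) {G.z0 α} := by
    by_contra hcon
    exact h0 ⟨ε / 2, half_pos hε, hcon⟩
  have hg1 : GoodOn (mat T) a (ε / 2) {G.z1 α} := by
    by_contra hcon
    exact h1 ⟨ε / 2, half_pos hε, hcon⟩
  obtain ⟨U, hU, hzU, k, hk⟩ := hg0
  obtain ⟨U', hU', hzU', k', hk'⟩ := hg1
  obtain ⟨N, hN⟩ := eventually_atTop.mp (supp_near α hU (hzU rfl) hU' (hzU' rfl))
  refine ⟨max N (max k k'), fun S hS hSK b => ?_⟩
  refine norm_le_X (by positivity) fun v => ?_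
  have h2 : ((T (cut α b S hS) - act a (cut α b S hS) : G.X A) : ℕ →ᵇ E) v
      = hat (dsub (mat T v) v a) (cut α b S hS : ℕ →ᵇ E) := by
    rw [hat_dsub (rowBdd_mat T v) v a (norm_cut_apply_le α b S hS)]
    have h3 := psi_cut (hpsi b v) S hS
    unfold psi at h3
    rw [sub_eq_zero] at h3
    rw [← h3]
    rfl
  rw [h2, mul_comm]
  have h4 : SmallOn (dsub (mat T v) v a)
      ({n | k ≤ n ∧ pt n ∈ U} ∪ {n | k' ≤ n ∧ pt n ∈ U'}) ε := by
    have := (hk v).union (hk' v)
    rwa [add_halves] at this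
  refine norm_hat_le h4 (norm_cut_apply_le α b S hS) fun n hn => ?_
  rw [cut_apply]
  split_ifs with hnS
  · have hnK := hSK hnS
    rw [mem_Ici, max_le_iff, max_le_iff] at hnK
    rcases hN n hnK.1 with h | h | h
    · rw [h, map_zero]
    · exact absurd (Or.inl ⟨hnK.2.1, h⟩) hn
    · exact absurd (Or.inr ⟨hnK.2.2, h⟩) hn
  · rfl

/-- operators with separable range -/
def Sep (R : G.X A →L[ℝ] G.X A) : Prop := TopologicalSpace.IsSeparable (range R)

lemma Sep.mono_range {R R' : G.X A →L[ℝ] G.X A} (h : Sep R) (hs : range R' ⊆ range R) : Sep R' :=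
  TopologicalSpace.IsSeparable.mono h hs

lemma Sep.mul_left {R : G.X A →L[ℝ] G.X A} (h : Sep R) (T : G.X A →L[ℝ] G.X A) : Sep (T * R) := by
  have h1 := TopologicalSpace.IsSeparable.image h T.continuous
  refine h1.mono ?_
  rintro _ ⟨x, rfl⟩
  exact ⟨R x, mem_range_self x, rfl⟩

lemma Sep.mul_right {R : G.X A →L[ℝ] G.X A} (h : Sep R) (T : G.X A →L[ℝ] G.X A) :
    Sep (R * T) := by
  refine TopologicalSpace.IsSeparable.mono h ?_
  rintro _ ⟨x, rfl⟩
  exact ⟨T x, rfl⟩

lemma Sep.add {R R' : G.X A →L[ℝ] G.X A} (h : Sep R) (h' : Sep R') : Sep (R + R') := by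
  have h1 : TopologicalSpace.IsSeparable ((Submodule.span ℝ (range R ∪ range R') :
      Submodule ℝ (G.X A)) : Set (G.X A)) := (TopologicalSpace.IsSeparable.union h h').span
  refine h1.mono ?_
  rintro _ ⟨x, rfl⟩
  exact Submodule.add_mem _ (Submodule.subset_span (Or.inl (mem_range_self x)))
    (Submodule.subset_span (Or.inr (mem_range_self x)))

lemma Sep.neg {R : G.X A →L[ℝ] G.X A} (h : Sep R) : Sep (-R) := by
  refine TopologicalSpace.IsSeparable.mono h ?_
  rintro _ ⟨x, rfl⟩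
  exact ⟨-x, by simp⟩

lemma Sep.sub {R R' : G.X A →L[ℝ] G.X A} (h : Sep R) (h' : Sep R') : Sep (R - R') := by
  have e : R - R' = R + -R' := sub_eq_add_neg R R'
  rw [e]
  exact h.add h'.neg

/-- `A` acts faithfully modulo operators with separable range -/
lemma eq_zero_of_sep (hO : ¬ (univ : Set G.O).Countable) {a : A} (h : Sep (act (G := G) a)) :
    a = 0 := by
  by_contra hne
  have ha : 0 < ‖a‖ := norm_pos_iff.mpr hne
  obtain ⟨c, hc, hcl⟩ := h
  have h1 : ∀ α : G.O, ∃ g ∈ c, dist (act a (gen α 1)) g < ‖a‖ / 2 := fun α =>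
    Metric.mem_closure_iff.mp (hcl (mem_range_self _)) _ (half_pos ha)
  choose g hgc hg using h1
  have hinj : InjOn g univ := by
    intro α _ β _ he
    by_contra hαβ
    have h2 : dist (act a (gen α (1 : A))) (act a (gen β (1 : A))) < ‖a‖ := by
      have e1 := hg α
      have e2 := hg β
      rw [← he, dist_comm] at e2
      have := dist_triangle (act a (gen α (1 : A))) (g α) (act a (gen β (1 : A)))
      linarith
    have h3 : ‖a‖ ≤ dist (act a (gen α (1 : A))) (act a (gen β (1 : A))) := by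
      rw [dist_eq_norm]
      have e3 : cls (act a (gen α (1 : A)) - act a (gen (G := G) β (1 : A))) α
          = (a : E →L[ℝ] E) := by
        rw [cls_sub]
        have e4 : cls (act a (gen (G := G) α (1 : A))) α = (a : E →L[ℝ] E) := by
          refine cls_eq ?_
          have : ∀ n, (act a (gen (G := G) α (1 : A)) : ℕ →ᵇ E) n = (a : E →L[ℝ] E) (G.F α n) := by
            intro n
            rw [act_apply, gen_apply]
            rfl
          constructor <;> simp [this]
        have e5 : cls (act a (gen (G := G) β (1 : A))) α = 0 := by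
          refine cls_eq ?_
          have : ∀ n, (act a (gen (G := G) β (1 : A)) : ℕ →ᵇ E) n = (a : E →L[ℝ] E) (G.F β n) := by
            intro n
            rw [act_apply, gen_apply]
            rfl
          have h6 := G.cls_F_ne (α := β) (β := α) hαβ (a : E →L[ℝ] E)
          constructor
          · exact h6.1.congr fun n => by rw [this]
          · exact h6.2.congr fun n => by rw [this]
        rw [e4, e5, sub_zero]
      have e7 := norm_cls_le (act a (gen α (1 : A)) - act a (gen (G := G) β (1 : A))) α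
      rw [e3] at e7
      exact e7
    linarith
  have h4 : (univ : Set G.O).Countable :=
    (hc.preimage_of_injOn (f := g) (hinj.mono (subset_univ _))).mono fun α _ => hgc α
  exact hO h4

variable [TopologicalSpace.SeparableSpace E] [TopologicalSpace.SeparableSpace A]

lemma sep_of_countable_bad {T : G.X A →L[ℝ] G.X A} {a : A}
    (h : (Bad T (a : E →L[ℝ] E)).Countable) : Sep (T - act a) := by
  refine separable_of_closure (T - act a) (countable_Exc h) fun α hα b => ?_
  rw [Metric.mem_closure_iff]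
  intro ε hε
  obtain ⟨K, hK⟩ := small_cut hα (ε := ε / (‖b‖ + 1)) (by positivity)
  have hS : ∀ᶠ n in atTop, G.F α n ≠ 0 → n ∈ Ici K := by
    filter_upwards [eventually_ge_atTop K] with n hn _ using hn
  have h1 := hK (Ici K) hS subset_rfl b
  refine ⟨_, ⟨Finset.range K, fun n => (gen α b : ℕ →ᵇ E) n, rfl⟩, ?_⟩
  have h2 : gen α b = cut α b (Ici K) hS
      + ofFin A (Finset.range K) (fun n => (gen α b : ℕ →ᵇ E) n) := by
    refine ext_X fun n => ?_
    change (gen α b : ℕ →ᵇ E) n = (cut α b (Ici K) hS : ℕ →ᵇ E) n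
      + (ofFin A (Finset.range K) (fun n => (gen α b : ℕ →ᵇ E) n) : ℕ →ᵇ E) n
    rw [ofFin_apply, cut_apply, gen_apply]
    by_cases hn : K ≤ n
    · rw [if_pos (mem_Ici.mpr hn), if_neg (by simpa using hn), add_zero]
    · rw [if_neg (by simpa using hn), if_pos (by simpa using hn), zero_add]
  have h3 : gen α b - ofFin A (Finset.range K) (fun n => (gen α b : ℕ →ᵇ E) n)
      = cut α b (Ici K) hS := by
    rw [sub_eq_iff_eq_add]; exact h2
  have h4 : dist ((T - act (G := G) a) (gen α b))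
      ((T - act (G := G) a) (ofFin A (Finset.range K) (fun n => (gen α b : ℕ →ᵇ E) n)))
      = ‖T (cut α b (Ici K) hS) - act a (cut α b (Ici K) hS)‖ := by
    rw [← h3, dist_eq_norm, ← map_sub]
    rfl
  rw [h4]
  refine h1.trans_lt ?_
  rw [div_mul_eq_mul_div, div_lt_iff₀ (by positivity)]
  nlinarith [norm_nonneg b]

/-- the rigidity property of the system -/
def Rigid (G : Gen E) (A : Subalgebra ℝ (E →L[ℝ] E)) : Prop :=
  ¬ (univ : Set G.O).Countable ∧ ∀ T : G.X A →L[ℝ] G.X A, ∃ a ∈ A, (Bad T a).Countable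

lemma Rigid.exists_sep (hG : Rigid G A) (T : G.X A →L[ℝ] G.X A) :
    ∃ a : A, Sep (T - act a) := by
  obtain ⟨a, ha, hc⟩ := hG.2 T
  exact ⟨⟨a, ha⟩, sep_of_countable_bad (a := ⟨a, ha⟩) hc⟩

lemma Rigid.bad_of_sep (hG : Rigid G A) {R : G.X A →L[ℝ] G.X A} (hR : Sep R) :
    (Bad R 0).Countable := by
  obtain ⟨a, ha, hc⟩ := hG.2 R
  have h1 : Sep (R - act (⟨a, ha⟩ : A)) := sep_of_countable_bad (a := ⟨a, ha⟩) hc
  have h2 : Sep (act (G := G) (⟨a, ha⟩ : A)) := by
    have e : R - (R - act (G := G) (⟨a, ha⟩ : A)) = act (G := G) (⟨a, ha⟩ : A) :=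
      sub_sub_cancel R (act (G := G) (⟨a, ha⟩ : A))
    have := hR.sub h1
    rwa [e] at this
  have h3 := eq_zero_of_sep hG.1 h2
  have h4 : a = 0 := congrArg Subtype.val h3
  rwa [h4] at hc

end Gen

end Pool.Agent.Lib_helper53.PF
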