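import Mathlib
import Pool.Agent.Lib_helper53.PFIdeal
import Pool.Agent.Lib_helper53.PFc0

set_option linter.unusedSectionVars false

open Set Filter Topology Metric
open scoped BoundedContinuousFunction

namespace Pool.Agent.Lib_helper53.PF

variable {E : Type} [NormedAddCommGroup E] [InnerProductSpace ℝ E]

namespace Gen

/-- the Banach space, as a type -/
def Sp (G : Gen E) (A : Subalgebra ℝ (E →L[ℝ] E)) : Type := ↥(G.X A)

variable {G : Gen E} {A : Subalgebra ℝ (E →L[ℝ] E)}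

noncomputable instance : NormedAddCommGroup (Sp G A) :=
  inferInstanceAs (NormedAddCommGroup ↥(G.X A))
noncomputable instance : NormedSpace ℝ (Sp G A) := inferInstanceAs (NormedSpace ℝ ↥(G.X A))

variable [CompleteSpace E]

lemma completeSpace_Sp (hA : IsClosed (A : Set (E →L[ℝ] E))) : CompleteSpace (Sp G A) :=
  (isClosed_X hA).completeSpace_coe

namespace Sp

/-- underlying function -/
def fn (f : Sp G A) (n : ℕ) : E := (f.1 : ℕ →ᵇ E) n

lemma fn_le (f : Sp G A) (n : ℕ) : ‖f.fn n‖ ≤ ‖f‖ := apply_le_X _ n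

lemma norm_le {f : Sp G A} {C : ℝ} (hC : 0 ≤ C) (h : ∀ n, ‖f.fn n‖ ≤ C) : ‖f‖ ≤ C :=
  norm_le_X hC h

@[ext] lemma ext {f g : Sp G A} (h : ∀ n, f.fn n = g.fn n) : f = g := ext_X h

@[simp] lemma add_fn (f g : Sp G A) (n : ℕ) : (f + g).fn n = f.fn n + g.fn n := rfl
@[simp] lemma sub_fn (f g : Sp G A) (n : ℕ) : (f - g).fn n = f.fn n - g.fn n := rfl
@[simp] lemma smul_fn (r : ℝ) (f : Sp G A) (n : ℕ) : (r • f).fn n = r • f.fn n := rfl

/-- evaluation -/
noncomputable def evS (n : ℕ) : Sp G A →L[ℝ] E := ev n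

@[simp] lemma evS_apply (n : ℕ) (f : Sp G A) : evS n f = f.fn n := rfl

/-- unit vectors -/
noncomputable def sgl (n : ℕ) : E →L[ℝ] Sp G A := singleL A n

@[simp] lemma sgl_fn (n : ℕ) (e : E) (k : ℕ) :
    (sgl (G := G) (A := A) n e).fn k = if k = n then e else 0 := rfl

/-- the class of an element -/
noncomputable def cl (α : G.O) : Sp G A →L[ℝ] A :=
  LinearMap.mkContinuous
    { toFun := fun f => clsA f α
      map_add' := fun f g => Subtype.ext (cls_add (f : G.X A) g α)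
      map_smul' := fun r f => Subtype.ext (cls_smul r (f : G.X A) α) }
    1 (fun f => by
      rw [one_mul]
      exact norm_cls_le (f : G.X A) α)

lemma cl_coe (α : G.O) (f : Sp G A) : ((cl α f : A) : E →L[ℝ] E) = cls (f : G.X A) α := rfl

lemma cl_bound (α : G.O) (f : Sp G A) : ‖cl α f‖ ≤ ‖f‖ := norm_cls_le (f : G.X A) α

/-- cut generators -/
noncomputable def cutL (α : G.O) (S : Set ℕ) (hS : ∀ᶠ n in atTop, G.F α n ≠ 0 → n ∈ S) :
    A →L[ℝ] Sp G A :=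
  LinearMap.mkContinuous
    { toFun := fun b => (cut α b S hS : G.X A)
      map_add' := fun b c => by
        refine ext_X fun n => ?_
        change (cut α (b + c) S hS : ℕ →ᵇ E) n
          = (cut α b S hS : ℕ →ᵇ E) n + (cut α c S hS : ℕ →ᵇ E) n
        rw [cut_apply, cut_apply, cut_apply]
        split_ifs <;> simp
      map_smul' := fun r b => by
        refine ext_X fun n => ?_
        change (cut α (r • b) S hS : ℕ →ᵇ E) n = r • (cut α b S hS : ℕ →ᵇ E) n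
        rw [cut_apply, cut_apply]
        split_ifs <;> simp }
    1 (fun b => by
      rw [one_mul]
      exact norm_le_X (norm_nonneg _) fun n => norm_cut_apply_le α b S hS n)

open Classical in
lemma cutL_fn (α : G.O) (S : Set ℕ) (hS : ∀ᶠ n in atTop, G.F α n ≠ 0 → n ∈ S) (b : A) (n : ℕ) :
    (cutL α S hS b).fn n = if n ∈ S then (b : E →L[ℝ] E) (G.F α n) else 0 := rfl

lemma cutL_fn_le (α : G.O) (S : Set ℕ) (hS : ∀ᶠ n in atTop, G.F α n ≠ 0 → n ∈ S) (b : A) (n : ℕ) :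
    ‖(cutL α S hS b).fn n‖ ≤ ‖b‖ := norm_cut_apply_le α b S hS n

lemma cutL_fn_of_notMem (α : G.O) (S : Set ℕ) (hS : ∀ᶠ n in atTop, G.F α n ≠ 0 → n ∈ S) (b : A)
    {n : ℕ} (hn : n ∉ S) : (cutL α S hS b).fn n = 0 := by
  classical
  rw [cutL_fn, if_neg hn]

open Classical in
lemma cl_cutL (α β : G.O) (S : Set ℕ) (hS : ∀ᶠ n in atTop, G.F α n ≠ 0 → n ∈ S) (b : A) :
    cl β (cutL α S hS b) = if β = α then b else 0 := by
  refine Subtype.ext ?_
  rw [cl_coe]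
  have := cls_cut α b S hS β
  rw [show cls (cutL α S hS b : G.X A) β = if β = α then (b : E →L[ℝ] E) else 0 from this]
  split_ifs <;> rfl

lemma cl_sgl (n : ℕ) (e : E) (α : G.O) : cl α (sgl (G := G) (A := A) n e) = 0 := by
  refine Subtype.ext ?_
  rw [cl_coe]
  exact cls_eq (single_cls n e α)

lemma fn_tendsto_of_cl {f : Sp G A} (h : ∀ α, cl α f = 0) : Tendsto f.fn atTop (𝓝 0) :=
  tendsto_zero_of_cls (f : G.X A) fun α => congrArg Subtype.val (h α)

lemma finite_cl (f : Sp G A) {ε : ℝ} (hε : 0 < ε) : {α | ε ≤ ‖cl α f‖}.Finite :=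
  finite_cls (f : G.X A) hε

lemma cl_tendsto (f : Sp G A) {β : ℕ → G.O} (hβ : Function.Injective β) :
    Tendsto (fun i => cl (β i) f) atTop (𝓝 0) := by
  rw [Metric.tendsto_nhds]
  intro ε hε
  have h1 : (β ⁻¹' {α | ε ≤ ‖cl α f‖}).Finite := (finite_cl f hε).preimage hβ.injOn
  have h2 : ∀ᶠ i in atTop, i ∉ β ⁻¹' {α | ε ≤ ‖cl α f‖} := by
    rw [← Nat.cofinite_eq_atTop]
    exact h1.compl_mem_cofinite
  filter_upwards [h2] with i hi
  rw [dist_zero_right]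
  exact not_le.mp hi

end Sp

section cuts

variable (G)

/-- disjoint cuts -/
lemma exists_cuts {β : ℕ → G.O} (hβ : Function.Injective β) (B : ℕ → Set ℕ)
    (hB : ∀ i, ∀ᶠ n in atTop, G.F (β i) n ≠ 0 → n ∈ B i) :
    ∃ S : ℕ → Set ℕ, (∀ i, S i ⊆ B i) ∧ (∀ i, ∀ᶠ n in atTop, G.F (β i) n ≠ 0 → n ∈ S i) ∧
      ∀ i j n, n ∈ S i → n ∈ S j → i = j := by
  refine ⟨fun i => {n | n ∈ B i ∧ G.F (β i) n ≠ 0 ∧ ∀ j < i, G.F (β j) n = 0},
    fun i n hn => hn.1, fun i => ?_, fun i j n hi hj => ?_⟩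
  · have h1 : ∀ᶠ n in atTop, ∀ j ∈ Finset.range i, G.F (β i) n = 0 ∨ G.F (β j) n = 0 := by
      rw [Finset.eventually_all]
      intro j hj
      exact G.almost_disjoint (fun h => by
        have := hβ h
        rw [Finset.mem_range] at hj
        omega)
    filter_upwards [hB i, h1] with n hn1 hn2 hn3
    exact ⟨hn1 hn3, hn3, fun j hj => (hn2 j (Finset.mem_range.mpr hj)).resolve_left hn3⟩
  · rcases lt_trichotomy i j with h | h | h
    · exact absurd (hj.2.2 i h) hi.2.1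
    · exact h
    · exact absurd (hi.2.2 j h) hj.2.1

end cuts

open Sp

/-- the operator of a block -/
noncomputable def blk {β : ℕ → G.O} {S : ℕ → Set ℕ}
    (hS : ∀ i, ∀ᶠ n in atTop, G.F (β i) n ≠ 0 → n ∈ S i) (d : ℕ → ℕ) (i : ℕ) :
    (A × E) →L[ℝ] Sp G A :=
  (cutL (β i) (S i) (hS i)).comp (ContinuousLinearMap.fst ℝ A E) +
    (sgl (d i)).comp (ContinuousLinearMap.snd ℝ A E)

lemma blk_apply {β : ℕ → G.O} {S : ℕ → Set ℕ}
    (hS : ∀ i, ∀ᶠ n in atTop, G.F (β i) n ≠ 0 → n ∈ S i) (d : ℕ → ℕ) (i : ℕ) (v : A × E) :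
    blk hS d i v = cutL (β i) (S i) (hS i) v.1 + sgl (d i) v.2 := rfl

lemma cut_bound {β : ℕ → G.O} {S : ℕ → Set ℕ}
    (hS : ∀ i, ∀ᶠ n in atTop, G.F (β i) n ≠ 0 → n ∈ S i) (hdis : ∀ i j n, n ∈ S i → n ∈ S j → i = j)
    (s : Finset ℕ) (v : ℕ → A) (K : ℝ) (hK : 0 ≤ K) (hv : ∀ i ∈ s, ‖v i‖ ≤ K) :
    ‖∑ i ∈ s, cutL (β i) (S i) (hS i) (v i)‖ ≤ 1 * K := by
  rw [one_mul]
  refine Sp.norm_le hK fun n => ?_
  have h1 : (∑ i ∈ s, cutL (β i) (S i) (hS i) (v i)).fn n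
      = ∑ i ∈ s, (cutL (β i) (S i) (hS i) (v i)).fn n := by
    rw [← evS_apply, map_sum]; rfl
  rw [h1]
  by_cases hn : ∃ i ∈ s, n ∈ S i
  · obtain ⟨i, his, hni⟩ := hn
    rw [Finset.sum_eq_single i]
    · exact (cutL_fn_le _ _ _ _ _).trans (hv i his)
    · intro j _ hji
      exact cutL_fn_of_notMem _ _ _ _ fun hnj => hji (hdis j i n hnj hni)
    · intro h; exact absurd his h
  · push Not at hn
    rw [Finset.sum_eq_zero fun i hi => cutL_fn_of_notMem _ _ _ _ (hn i hi), norm_zero]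
    exact hK

lemma sgl_bound {d : ℕ → ℕ} (hd : Function.Injective d)
    (s : Finset ℕ) (v : ℕ → E) (K : ℝ) (hK : 0 ≤ K) (hv : ∀ i ∈ s, ‖v i‖ ≤ K) :
    ‖∑ i ∈ s, sgl (G := G) (A := A) (d i) (v i)‖ ≤ 1 * K := by
  rw [one_mul]
  refine Sp.norm_le hK fun n => ?_
  have h1 : (∑ i ∈ s, sgl (G := G) (A := A) (d i) (v i)).fn n
      = ∑ i ∈ s, (sgl (G := G) (A := A) (d i) (v i)).fn n := by
    rw [← evS_apply, map_sum]; rfl
  rw [h1]
  by_cases hn : ∃ i ∈ s, n = d i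
  · obtain ⟨i, his, hni⟩ := hn
    rw [Finset.sum_eq_single i]
    · rw [sgl_fn, if_pos hni]; exact hv i his
    · intro j _ hji
      rw [sgl_fn, if_neg]
      intro h
      exact hji (hd (h.symm.trans hni))
    · intro h; exact absurd his h
  · push Not at hn
    rw [Finset.sum_eq_zero fun i hi => by rw [sgl_fn, if_neg (hn i hi)], norm_zero]
    exact hK

lemma blk_bound {β : ℕ → G.O} {S : ℕ → Set ℕ}
    (hS : ∀ i, ∀ᶠ n in atTop, G.F (β i) n ≠ 0 → n ∈ S i) (hdis : ∀ i j n, n ∈ S i → n ∈ S j → i = j)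
    {d : ℕ → ℕ} (hd : Function.Injective d)
    (s : Finset ℕ) (v : ℕ → A × E) (K : ℝ) (hK : 0 ≤ K) (hv : ∀ i ∈ s, ‖v i‖ ≤ K) :
    ‖∑ i ∈ s, blk hS d i (v i)‖ ≤ 2 * K := by
  have h1 : ∑ i ∈ s, blk hS d i (v i) = ∑ i ∈ s, cutL (β i) (S i) (hS i) (v i).1
      + ∑ i ∈ s, sgl (d i) (v i).2 := by
    rw [← Finset.sum_add_distrib]
    rfl
  rw [h1]
  have h2 := cut_bound hS hdis s (fun i => (v i).1) K hK
    (fun i hi => (norm_fst_le (v i)).trans (hv i hi))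
  have h3 := sgl_bound (G := G) (A := A) hd s (fun i => (v i).2) K hK
    (fun i hi => (norm_snd_le (v i)).trans (hv i hi))
  refine (norm_add_le _ _).trans ?_
  linarith

end Gen

end Pool.Agent.Lib_helper53.PF
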