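import Mathlib
import Pool.Agent.Lib_helper53.PFSp
import Pool.Agent.Lib_helper53.PFAbsorb

set_option linter.unusedSectionVars false

open Set Filter Topology Metric
open scoped BoundedContinuousFunction

namespace Pool.Agent.Lib_helper53.PF

/-- a countable set is contained in the range of an injective sequence, in an infinite type -/
lemma exists_enum {O : Type} [Infinite O] {Γ : Set O} (hΓ : Γ.Countable) :
    ∃ γ : ℕ → O, Function.Injective γ ∧ Γ ⊆ range γ := by
  set e : ℕ ↪ O := Infinite.natEmbedding O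
  have h1 : (Γ ∪ range e).Countable := hΓ.union (countable_range _)
  have h2 : (Γ ∪ range e).Infinite := (infinite_range_of_injective e.injective).mono
    subset_union_right
  have : Countable ↥(Γ ∪ range e) := h1.to_subtype
  have : Infinite ↥(Γ ∪ range e) := h2.to_subtype
  obtain ⟨f⟩ : Nonempty (ℕ ≃ ↥(Γ ∪ range e)) := by
    have := nonempty_denumerable ↥(Γ ∪ range e)
    obtain ⟨hd⟩ := this
    exact ⟨(Denumerable.eqv _).symm⟩
  refine ⟨fun n => (f n : O), fun m n h => f.injective (Subtype.ext h), fun x hx => ?_⟩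
  exact ⟨f.symm ⟨x, Or.inl hx⟩, by simp⟩

variable {E : Type} [NormedAddCommGroup E] [InnerProductSpace ℝ E]

namespace Gen

open Sp

variable {G : Gen E} {A : Subalgebra ℝ (E →L[ℝ] E)} [CompleteSpace E]

/-- the classes seen by an operator with separable range -/
lemma countable_classes {R : Sp G A →L[ℝ] Sp G A}
    (hR : TopologicalSpace.IsSeparable (range R)) :
    {α : G.O | ∃ f, cl α (R f) ≠ 0}.Countable := by
  obtain ⟨c, hc, hcl⟩ := hR
  have h1 : {α : G.O | ∃ f, cl α (R f) ≠ 0} ⊆ ⋃ g ∈ c, ⋃ (m : ℕ),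
      {α : G.O | 1 / ((m : ℝ) + 1) ≤ ‖cl α g‖} := by
    rintro α ⟨f, hf⟩
    obtain ⟨g, hgc, hg⟩ := Metric.mem_closure_iff.mp (hcl (mem_range_self f)) _
      (norm_pos_iff.mpr hf)
    have h2 : ‖cl α (R f) - cl α g‖ < ‖cl α (R f)‖ := by
      rw [← map_sub]
      refine (cl_bound _ _).trans_lt ?_
      rwa [← dist_eq_norm]
    have h3 : 0 < ‖cl α g‖ := by
      refine norm_pos_iff.mpr ?_
      intro h0
      rw [h0, sub_zero] at h2
      exact lt_irrefl _ h2
    obtain ⟨m, hm⟩ := exists_nat_one_div_lt h3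
    exact mem_iUnion₂.mpr ⟨g, hgc, mem_iUnion.mpr ⟨m, hm.le⟩⟩
  refine Countable.mono h1 (hc.biUnion fun g _ => countable_iUnion fun m => ?_)
  exact (finite_cl g (by positivity)).countable

lemma exists_factor (hO : ¬ (univ : Set G.O).Countable) [CompleteSpace (Sp G A)]
    {R : Sp G A →L[ℝ] Sp G A} (hR : TopologicalSpace.IsSeparable (range R)) :
    ∃ (ι : c0 (A × E) →L[ℝ] Sp G A) (R₁ : Sp G A →L[ℝ] c0 (A × E)), ∀ f, R f = ι (R₁ f) := by
  classical
  have hinf : Infinite G.O := by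
    by_contra h
    rw [not_infinite_iff_finite] at h
    exact hO countable_univ
  obtain ⟨γ, hγ, hΓ⟩ := exists_enum (countable_classes hR)
  obtain ⟨S, _, hS, hdis⟩ := exists_cuts G hγ (fun _ => univ)
    (fun i => Eventually.of_forall fun n _ => mem_univ n)
  set T1 : ℕ → A →L[ℝ] Sp G A := fun i => cutL (γ i) (S i) (hS i) with hT1
  have hb1 := cut_bound (A := A) hS hdis
  set P1 : c0 A →L[ℝ] Sp G A := sumOp T1 1 hb1 with hP1
  have hP1cl : ∀ (a : c0 A) (α : G.O) , HasSum (fun i => cl α (T1 i (a i))) (cl α (P1 a)) :=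
    fun a α => (hasSum_sumOp hb1 a).mapL (cl α)
  have hP1γ : ∀ (a : c0 A) (j : ℕ), cl (γ j) (P1 a) = a j := by
    intro a j
    refine (hP1cl a (γ j)).unique ?_
    have : (fun i => cl (γ j) (T1 i (a i))) = fun i => if i = j then a j else 0 := by
      ext1 i
      rw [hT1]
      simp only [cl_cutL]
      by_cases hij : i = j
      · subst hij; simp
      · rw [if_neg (fun h => hij (hγ h).symm), if_neg hij]
    rw [this]
    exact hasSum_ite_eq j (a j)
  have hP1n : ∀ (a : c0 A) (α : G.O), α ∉ range γ → cl α (P1 a) = 0 := by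
    intro a α hα
    refine (hP1cl a α).unique ?_
    have : (fun i => cl α (T1 i (a i))) = fun _ => 0 := by
      ext1 i
      rw [hT1]
      simp only [cl_cutL]
      rw [if_neg (fun h => hα ⟨i, h.symm⟩)]
    rw [this]
    exact hasSum_zero
  set Cl : Sp G A →L[ℝ] c0 A := famOp (fun i => cl (γ i)) 1
    (fun i f => by rw [one_mul]; exact cl_bound _ _) (fun f => cl_tendsto f hγ) with hCl
  set D : Sp G A →L[ℝ] Sp G A := R - P1.comp (Cl.comp R) with hD
  have hDy : ∀ f, D f = R f - P1 (Cl (R f)) := fun f => rfl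
  have hDcl : ∀ f α, cl α (D f) = 0 := by
    intro f α
    rw [hDy, map_sub]
    by_cases hα : α ∈ range γ
    · obtain ⟨j, rfl⟩ := hα
      rw [hP1γ]
      exact sub_self _
    · rw [hP1n _ _ hα, sub_zero]
      by_contra hne
      exact hα (hΓ ⟨f, hne⟩)
  have hDt : ∀ f, Tendsto (D f).fn atTop (𝓝 0) := fun f => fn_tendsto_of_cl (hDcl f)
  have hid : Function.Injective (fun n : ℕ => n) := fun a b h => h
  set R₁ : Sp G A →L[ℝ] c0 (A × E) := famOp
    (fun i => ((cl (γ i)).comp R).prod ((evS i).comp D)) (‖R‖ + ‖D‖)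
    (fun i f => by
      have e1 : ‖cl (γ i) (R f)‖ ≤ ‖R‖ * ‖f‖ := (cl_bound _ _).trans (R.le_opNorm f)
      have e2 : ‖(D f).fn i‖ ≤ ‖D‖ * ‖f‖ := (fn_le _ _).trans (D.le_opNorm f)
      have e3 : ‖(((cl (γ i)).comp R).prod ((evS i).comp D)) f‖
        = max ‖cl (γ i) (R f)‖ ‖(D f).fn i‖ := rfl
      rw [e3]
      have := norm_nonneg (cl (γ i) (R f))
      have := norm_nonneg ((D f).fn i)
      refine max_le ?_ ?_ <;> nlinarith)
    (fun f => by
      have e1 : Tendsto (fun i => cl (γ i) (R f)) atTop (𝓝 0) := cl_tendsto (R f) hγ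
      exact e1.prodMk_nhds (hDt f)) with hR₁
  refine ⟨sumOp (blk hS fun n => n) 2 (blk_bound hS hdis hid), R₁, fun f => ?_⟩
  ext n
  have h1 : HasSum (fun i => evS n (blk hS (fun n => n) i (R₁ f i)))
      ((sumOp (blk hS fun n => n) 2 (blk_bound hS hdis hid) (R₁ f)).fn n) :=
    (hasSum_sumOp (blk_bound hS hdis hid) (R₁ f)).mapL (evS n)
  refine HasSum.unique ?_ h1
  have h2 : HasSum (fun i => evS n (T1 i (Cl (R f) i))) ((P1 (Cl (R f))).fn n) :=
    (hasSum_sumOp hb1 (Cl (R f))).mapL (evS n)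
  have h3 : HasSum (fun i => if i = n then (D f).fn n else 0) ((D f).fn n) :=
    hasSum_ite_eq n _
  have h4 := h2.add h3
  have h5 : (P1 (Cl (R f))).fn n + (D f).fn n = (R f).fn n := by
    rw [hDy, sub_fn, add_sub_cancel]
  rw [h5] at h4
  refine h4.congr_fun ?_
  intro i
  symm
  change (T1 i (Cl (R f) i)).fn n + (if i = n then (D f).fn n else 0)
    = (cutL (γ i) (S i) (hS i) (cl (γ i) (R f)) + sgl i ((D f).fn i)).fn n
  rw [add_fn, sgl_fn]
  congr 1
  by_cases h : n = i
  · subst h; simp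
  · rw [if_neg h, if_neg (fun h' => h h'.symm)]

end Gen

end Pool.Agent.Lib_helper53.PF
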