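import Mathlib
import Pool.Agent.Lib_helper53.PFCopy

set_option linter.unusedSectionVars false

open Set Filter Topology Metric
open scoped BoundedContinuousFunction

namespace Pool.Agent.Lib_helper53.PF

/-- open sets of directions are infinite -/
lemma infinite_of_isOpen_Z {U : Set Z} (hU : IsOpen U) (hne : U.Nonempty) : U.Infinite := by
  obtain ⟨z, hz⟩ := hne
  obtain ⟨j, hj⟩ := exists_cyl_subset hU hz
  have hinj : Function.Injective fun (i : ℕ) (k : ℕ) => if k = j + i then ! (z k) else z k := by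
    intro a b hab
    have h1 := congrFun hab (j + a)
    simp only [if_true] at h1
    by_contra hne
    rw [if_neg (by omega)] at h1
    simp at h1
  refine (infinite_range_of_injective hinj).mono ?_
  rintro _ ⟨i, rfl⟩
  refine hj (PiNat.mem_cylinder_iff.mpr fun k hk => ?_)
  beta_reduce
  rw [if_neg (by omega)]

variable {E : Type} [NormedAddCommGroup E] [InnerProductSpace ℝ E]

namespace Gen

open Sp

variable {G : Gen E} {A : Subalgebra ℝ (E →L[ℝ] E)} [CompleteSpace E]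

/-- points near a direction and outside of the support of the generator using it -/
lemma exists_free (G : Gen E) (ζ : Z) {U : Set Z} (hU : IsOpen U) (hζ : ζ ∈ U) (k : ℕ) :
    ∃ n ≥ k, pt n ∈ U ∧ ∀ α : G.O, (ζ = G.z0 α ∨ ζ = G.z1 α) → G.F α n = 0 := by
  have hinf := infinite_of_isOpen_Z hU ⟨ζ, hζ⟩
  by_cases hused : ∃ α : G.O, ζ = G.z0 α ∨ ζ = G.z1 α
  · obtain ⟨γ, hγ⟩ := hused
    have huniq : ∀ α : G.O, (ζ = G.z0 α ∨ ζ = G.z1 α) → α = γ := by
      intro α hα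
      rcases hα with h | h <;> rcases hγ with h' | h'
      · exact G.inj0 (h.symm.trans h')
      · exact absurd (h.symm.trans h') (G.ne01 _ _)
      · exact absurd (h'.symm.trans h) (G.ne01 _ _)
      · exact G.inj1 (h.symm.trans h')
    obtain ⟨z, hzU, hz⟩ := (hinf.sdiff (((finite_singleton (G.z1 γ)).insert (G.z0 γ)))).nonempty
    rw [mem_insert_iff, mem_singleton_iff, not_or] at hz
    have h1 := G.supp γ z hz.1 hz.2
    have h2 : ∀ᶠ n in nb z, k ≤ n := (eventually_ge_atTop k).filter_mono (nb_le z)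
    have h3 : ∀ᶠ n in nb z, pt n ∈ U := eventually_nb.mpr ⟨U, hU, hzU, 0, fun n _ h => h⟩
    obtain ⟨n, hn1, hn2, hn3⟩ := (h1.and (h2.and h3)).exists
    exact ⟨n, hn2, hn3, fun α hα => by rw [huniq α hα]; exact hn1⟩
  · obtain ⟨n, hn, hnU⟩ := exists_pt_mem hU ⟨ζ, hζ⟩ k
    exact ⟨n, hn, hnU, fun α hα => absurd ⟨α, hα⟩ hused⟩

lemma small_sgl {R : Sp G A →L[ℝ] Sp G A} {ζ : Z} (hζ : ζ ∉ Bad (G := G) (A := A) R 0) {ε : ℝ}
    (hε : 0 < ε) : ∃ U : Set Z, IsOpen U ∧ ζ ∈ U ∧ ∃ k, ∀ n ≥ k, pt n ∈ U → ∀ e,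
      ‖R (sgl n e)‖ ≤ ε * ‖e‖ := by
  have hg : GoodOn (mat (G := G) (A := A) R) 0 ε {ζ} := by
    by_contra hcon
    exact hζ ⟨ε, hε, hcon⟩
  obtain ⟨U, hU, hzU, k, hk⟩ := hg
  refine ⟨U, hU, hzU rfl, k, fun n hn hnU e => Sp.norm_le (by positivity) fun v => ?_⟩
  have h1 := (hk v).scale (F := fun _ => e) (K := ‖e‖) (fun _ => le_rfl) (s := {n}) (by
    intro m hm
    rw [Finset.coe_singleton, mem_singleton_iff] at hm
    subst hm
    exact ⟨hn, hnU⟩)
  rw [sum_dsub, Finset.sum_singleton] at h1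
  have h2 : (R (sgl n e)).fn v = mat (G := G) (A := A) R v n e := rfl
  rw [h2, mul_comm]
  simpa using h1

lemma small_cutL {R : Sp G A →L[ℝ] Sp G A} {α : G.O} (hα : α ∉ Exc (G := G) (A := A) R 0) {ε : ℝ}
    (hε : 0 < ε) : ∃ K, ∀ (S : Set ℕ) (hS : ∀ᶠ n in atTop, G.F α n ≠ 0 → n ∈ S), S ⊆ Ici K →
      ∀ b : A, ‖R (cutL α S hS b)‖ ≤ ε * ‖b‖ := by
  obtain ⟨K, hK⟩ := small_cut (G := G) (A := A) (T := R) (a := 0) (by exact hα) hε
  refine ⟨K, fun S hS hSK b => ?_⟩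
  have h1 := hK S hS hSK b
  have h2 : act (G := G) (0 : A) (cut α b S hS) = 0 := by
    refine ext_X fun n => ?_
    rw [act_apply]
    rfl
  rw [h2] at h1
  have h3 : ‖R (cutL α S hS b)‖ = ‖R (cut α b S hS : G.X A) - (0 : Sp G A)‖ := by
    rw [sub_zero]; rfl
  rw [h3]
  exact h1

/-- complemented copies of `c0` on which the operator is small -/
lemma exists_copy (hO : ¬ (univ : Set G.O).Countable) [CompleteSpace (Sp G A)]
    {R : Sp G A →L[ℝ] Sp G A} (hR : (Bad (G := G) (A := A) R 0).Countable) {δ : ℝ} (hδ : 0 < δ) :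
    ∃ (J : c0 (A × E) →L[ℝ] Sp G A) (Q : Sp G A →L[ℝ] c0 (A × E)), (∀ w, Q (J w) = w) ∧
      (∀ w, ‖J w‖ ≤ 2 * ‖w‖) ∧ (∀ y, ‖Q y‖ ≤ 2 * ‖y‖) ∧ ∀ w, ‖R (J w)‖ ≤ δ * ‖w‖ := by
  classical
  set ε : ℕ → ℝ := fun i => δ / 2 / 2 ^ i / 2 with hε
  have hε0 : ∀ i, 0 < ε i := fun i => by positivity
  -- the good direction
  obtain ⟨ζ, hζ⟩ : ∃ ζ, ζ ∉ Bad (G := G) (A := A) R 0 := by
    refine exists_notMem_of_card ?_
    exact (hR.le_aleph0).trans_lt Cardinal.aleph0_lt_continuum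
  -- the good generators
  have hexc : (Exc (G := G) (A := A) R 0 ∪ {α | ζ = G.z0 α ∨ ζ = G.z1 α}).Countable := by
    refine (countable_Exc hR).union ?_
    have h1 : (G.z0 ⁻¹' {ζ}).Countable := (countable_singleton ζ).preimage_of_injOn G.inj0.injOn
    have h2 : (G.z1 ⁻¹' {ζ}).Countable := (countable_singleton ζ).preimage_of_injOn G.inj1.injOn
    refine (h1.union h2).mono ?_
    rintro α (h | h)
    · exact Or.inl h.symm
    · exact Or.inr h.symm
  have hinf : ((Exc (G := G) (A := A) R 0 ∪ {α | ζ = G.z0 α ∨ ζ = G.z1 α})ᶜ).Infinite := by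
    intro hfin
    apply hO
    have := hexc.union hfin.countable
    rwa [union_compl_self] at this
  set e := hinf.natEmbedding
  set β : ℕ → G.O := fun i => (e i : G.O) with hβdef
  have hβ : Function.Injective β := fun i j h => e.injective (Subtype.ext h)
  have hβexc : ∀ i, β i ∉ Exc (G := G) (A := A) R 0 := fun i h => (e i).2 (Or.inl h)
  have hβζ : ∀ i, ζ ≠ G.z0 (β i) ∧ ζ ≠ G.z1 (β i) := fun i =>
    ⟨fun h => (e i).2 (Or.inr (Or.inl h)), fun h => (e i).2 (Or.inr (Or.inr h))⟩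
  -- the good coordinates
  have hdex : ∀ j : ℕ, ∃ᶠ n in atTop, pt n ∈ PiNat.cylinder ζ j ∧
      (∀ α : G.O, (ζ = G.z0 α ∨ ζ = G.z1 α) → G.F α n = 0) ∧
      ∀ x, ‖R (sgl n x)‖ ≤ ε j * ‖x‖ := by
    intro j
    obtain ⟨U, hU, hζU, k, hk⟩ := small_sgl hζ (hε0 j)
    rw [frequently_atTop]
    intro K
    obtain ⟨n, hn, hnU, hnF⟩ := exists_free G ζ (hU.inter (PiNat.isOpen_cylinder _ ζ j))
      ⟨hζU, PiNat.self_mem_cylinder ζ j⟩ (max k K)
    exact ⟨n, (le_max_right _ _).trans hn, hnU.2, hnF, hk n ((le_max_left _ _).trans hn) hnU.1⟩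
  obtain ⟨d, hdmono, hd⟩ := extraction_forall_of_frequently hdex
  have hdinj : Function.Injective d := hdmono.injective
  have hdt : Tendsto d atTop (nb ζ) := by
    rw [tendsto_def]
    intro S hS
    obtain ⟨U, hU, hζU, k, hk⟩ := mem_nb.mp hS
    obtain ⟨j, hj⟩ := exists_cyl_subset hU hζU
    filter_upwards [eventually_ge_atTop (max j k)] with i hi
    refine hk _ ?_ (hj (PiNat.cylinder_anti ζ ((le_max_left _ _).trans hi) (hd i).1))
    exact ((le_max_right _ _).trans hi).trans (hdmono.id_le i)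
  -- the cuts
  have hKex : ∀ i, ∃ K, ∀ (S : Set ℕ) (hS : ∀ᶠ n in atTop, G.F (β i) n ≠ 0 → n ∈ S), S ⊆ Ici K →
      ∀ b : A, ‖R (cutL (β i) S hS b)‖ ≤ ε i * ‖b‖ := fun i => small_cutL (hβexc i) (hε0 i)
  choose K hK using hKex
  have hB : ∀ i, ∀ᶠ n in atTop, G.F (β i) n ≠ 0 → n ∈ {n | K i ≤ n ∧ n ∉ range d} := by
    intro i
    have h1 : ∀ᶠ j in atTop, G.F (β i) (d j) = 0 :=
      hdt.eventually (G.supp (β i) ζ (hβζ i).1 (hβζ i).2)
    obtain ⟨N, hN⟩ := eventually_atTop.mp h1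
    filter_upwards [eventually_ge_atTop (K i), eventually_ge_atTop (d N)] with n hn1 hn2 hn3
    refine ⟨hn1, ?_⟩
    rintro ⟨j, rfl⟩
    exact hn3 (hN j (hdmono.le_iff_le.mp hn2))
  obtain ⟨S, hSB, hS, hdis⟩ := exists_cuts G hβ _ hB
  have hSK : ∀ i, S i ⊆ Ici (K i) := fun i n hn => (hSB i hn).1
  have hSd : ∀ i j, d j ∉ S i := fun i j h => (hSB i h).2 ⟨j, rfl⟩
  -- the copy
  have hbd := blk_bound (A := A) hS hdis hdinj
  set J : c0 (A × E) →L[ℝ] Sp G A := sumOp (blk hS d) 2 hbd with hJ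
  have hdt0 : ∀ f : Sp G A, Tendsto (fun j => f.fn (d j)) atTop (𝓝 0) := by
    intro f
    by_cases hused : ∃ α : G.O, ζ = G.z0 α ∨ ζ = G.z1 α
    · obtain ⟨γ, hγ⟩ := hused
      have h1 : Tendsto (fun n => f.fn n - (cls (f : G.X A) γ) (G.F γ n)) (nb ζ) (𝓝 0) := by
        have := cls_spec (f : G.X A) γ
        rcases hγ with h | h
        · rw [h]; exact this.1
        · rw [h]; exact this.2
      refine (h1.comp hdt).congr fun j => ?_
      have h2 := (hd j).2.1 γ hγ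
      simp only [Function.comp, h2, map_zero, sub_zero]
    · push Not at hused
      have h1 : Tendsto f.fn (nb ζ) (𝓝 0) := f.2.2 ζ hused
      exact h1.comp hdt
  set Q : Sp G A →L[ℝ] c0 (A × E) := famOp (fun j => (cl (β j)).prod (evS (d j))) 2
    (fun j f => by
      have e1 : ‖cl (β j) f‖ ≤ ‖f‖ := cl_bound _ _
      have e2 : ‖f.fn (d j)‖ ≤ ‖f‖ := fn_le _ _
      have e3 : ‖((cl (β j)).prod (evS (d j))) f‖ = max ‖cl (β j) f‖ ‖f.fn (d j)‖ := rfl
      rw [e3]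
      have := norm_nonneg f
      refine max_le ?_ ?_ <;> linarith)
    (fun f => by
      have e1 : Tendsto (fun j => cl (β j) f) atTop (𝓝 0) := cl_tendsto f hβ
      exact e1.prodMk_nhds (hdt0 f)) with hQ
  refine ⟨J, Q, fun w => ?_, fun w => sumOp_bound hbd w, fun y => famOp_bound _ _ _ _ y,
    fun w => ?_⟩
  · ext1 j
    have h1 : HasSum (fun i => ((cl (β j)).prod (evS (d j))) (blk hS d i (w i))) (Q (J w) j) :=
      (hasSum_sumOp hbd w).mapL ((cl (β j)).prod (evS (d j)))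
    refine h1.unique ?_
    have h2 : (fun i => ((cl (β j)).prod (evS (d j))) (blk hS d i (w i)))
        = fun i => if i = j then w j else 0 := by
      ext1 i
      have e1 : ((cl (β j)).prod (evS (d j))) (blk hS d i (w i))
          = (cl (β j) (cutL (β i) (S i) (hS i) (w i).1 + sgl (d i) (w i).2),
            (cutL (β i) (S i) (hS i) (w i).1 + sgl (d i) (w i).2).fn (d j)) := rfl
      rw [e1, map_add, cl_sgl, add_zero, add_fn, cutL_fn_of_notMem _ _ _ _ (hSd i j), zero_add,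
        cl_cutL, sgl_fn]
      by_cases hij : i = j
      · subst hij
        simp
      · rw [if_neg (fun h => hij (hβ h).symm), if_neg (fun h => hij (hdinj h).symm), if_neg hij]
        rfl
    rw [h2]
    exact hasSum_ite_eq j (w j)
  · refine comp_sumOp_bound hbd R hδ.le (fun i v => ?_) w
    rw [blk_apply, map_add]
    have e1 : ‖R (cutL (β i) (S i) (hS i) v.1)‖ ≤ ε i * ‖v‖ :=
      (hK i _ _ (hSK i) _).trans (mul_le_mul_of_nonneg_left (norm_fst_le v) (hε0 i).le)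
    have e2 : ‖R (sgl (d i) v.2)‖ ≤ ε i * ‖v‖ :=
      ((hd i).2.2 _).trans (mul_le_mul_of_nonneg_left (norm_snd_le v) (hε0 i).le)
    refine (norm_add_le _ _).trans ((add_le_add e1 e2).trans (le_of_eq ?_))
    have e3 : ∀ t : ℝ, ε i * t + ε i * t = δ / 2 / 2 ^ i * t := by
      intro t
      rw [hε]
      ring
    exact e3 _

variable [TopologicalSpace.SeparableSpace E] [TopologicalSpace.SeparableSpace A]

/-- the identity factors through `1 + R` when `R` has separable range -/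
theorem Rigid.absorb (hG : Rigid G A) (hA : IsClosed (A : Set (E →L[ℝ] E)))
    {R : Sp G A →L[ℝ] Sp G A} (hR : TopologicalSpace.IsSeparable (range R)) :
    ∃ U T : Sp G A →L[ℝ] Sp G A, U * (1 + R) * T = 1 := by
  have := completeSpace_Sp (G := G) hA
  obtain ⟨ι, R₁, hιR⟩ := exists_factor hG.1 hR
  exact PF.absorb R ι R₁ hιR (C := 2) (by norm_num) fun δ hδ =>
    exists_copy hG.1 (hG.bad_of_sep (R := R) hR) hδ

end Gen

end Pool.Agent.Lib_helper53.PF
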