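import Mathlib

set_option linter.unusedSectionVars false

open Set Filter Topology Metric
open scoped ENNReal

namespace Pool.Agent.Lib_helper53.PF

/-- the Hilbert space -/
abbrev L2 (I : Type) : Type := lp (fun _ : I => ℝ) 2

namespace L2

variable {I J K : Type}

lemma two_pos' : 0 < (2 : ℝ≥0∞).toReal := by simp

lemma summable (f : L2 I) : Summable fun i => ‖f i‖ ^ (2 : ℝ≥0∞).toReal :=
  (memℓp_gen_iff two_pos').mp (lp.memℓp f)

/-- pull-back along an injection -/
noncomputable def pull (φ : I → J) (hφ : Function.Injective φ) : L2 J →L[ℝ] L2 I :=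
  LinearMap.mkContinuous
    { toFun := fun f => ⟨fun i => f (φ i), (memℓp_gen_iff two_pos').mpr
        ((summable f).comp_injective hφ)⟩
      map_add' := fun f g => by ext i; rfl
      map_smul' := fun r f => by ext i; rfl }
    1 (fun f => by
      rw [one_mul]
      refine lp.norm_le_of_tsum_le two_pos' (norm_nonneg _) ?_
      rw [lp.norm_rpow_eq_tsum two_pos' f]
      exact Summable.tsum_le_tsum_of_inj φ hφ (fun _ _ => by positivity) (fun i => le_rfl)
        ((summable f).comp_injective hφ) (summable f))

@[simp] lemma pull_apply (φ : I → J) (hφ : Function.Injective φ) (f : L2 J) (i : I) :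
    pull φ hφ f i = f (φ i) := rfl

lemma extend_support (φ : I → J) (f : I → ℝ) :
    Function.support (fun j => ‖Function.extend φ f 0 j‖ ^ (2 : ℝ≥0∞).toReal) ⊆ range φ := by
  intro j hj
  by_contra hcon
  apply hj
  beta_reduce
  rw [Function.extend_apply' _ _ _ (fun ⟨i, hi⟩ => hcon ⟨i, hi⟩)]
  simp

/-- push-forward along an injection -/
noncomputable def push (φ : I → J) (hφ : Function.Injective φ) : L2 I →L[ℝ] L2 J :=
  LinearMap.mkContinuous
    { toFun := fun f => ⟨Function.extend φ f 0, (memℓp_gen_iff two_pos').mpr (by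
        rw [← hφ.summable_iff (f := fun j => ‖Function.extend φ f 0 j‖ ^ (2 : ℝ≥0∞).toReal)
          (fun j hj => by
            by_contra hne
            exact hj (extend_support φ f hne))]
        refine (summable f).congr fun i => ?_
        simp only [Function.comp, hφ.extend_apply])⟩
      map_add' := fun f g => by
        ext j
        change Function.extend φ (f + g : L2 I) 0 j
          = Function.extend φ f 0 j + Function.extend φ g 0 j
        by_cases hj : ∃ i, φ i = j
        · obtain ⟨i, rfl⟩ := hj
          rw [hφ.extend_apply, hφ.extend_apply, hφ.extend_apply]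
          rfl
        · rw [Function.extend_apply' _ _ _ hj, Function.extend_apply' _ _ _ hj,
            Function.extend_apply' _ _ _ hj]
          simp
      map_smul' := fun r f => by
        ext j
        change Function.extend φ (r • f : L2 I) 0 j = r • Function.extend φ f 0 j
        by_cases hj : ∃ i, φ i = j
        · obtain ⟨i, rfl⟩ := hj
          rw [hφ.extend_apply, hφ.extend_apply]
          rfl
        · rw [Function.extend_apply' _ _ _ hj, Function.extend_apply' _ _ _ hj]
          simp }
    1 (fun f => by
      rw [one_mul]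
      refine lp.norm_le_of_tsum_le two_pos' (norm_nonneg _) ?_
      rw [lp.norm_rpow_eq_tsum two_pos' f]
      change ∑' j, ‖Function.extend φ f 0 j‖ ^ (2 : ℝ≥0∞).toReal ≤ _
      rw [← hφ.tsum_eq (extend_support φ f)]
      simp only [hφ.extend_apply]
      exact le_rfl)

lemma norm_pull_le (φ : I → J) (hφ : Function.Injective φ) : ‖pull φ hφ‖ ≤ 1 :=
  LinearMap.mkContinuous_norm_le _ zero_le_one _

lemma norm_push_le (φ : I → J) (hφ : Function.Injective φ) : ‖push φ hφ‖ ≤ 1 :=
  LinearMap.mkContinuous_norm_le _ zero_le_one _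

lemma push_apply (φ : I → J) (hφ : Function.Injective φ) (f : L2 I) (j : J) :
    push φ hφ f j = Function.extend φ f 0 j := rfl

@[simp] lemma push_apply_self (φ : I → J) (hφ : Function.Injective φ) (f : L2 I) (i : I) :
    push φ hφ f (φ i) = f i := by
  rw [push_apply, hφ.extend_apply]

lemma push_apply_of_notMem (φ : I → J) (hφ : Function.Injective φ) (f : L2 I) {j : J}
    (hj : ∀ i, φ i ≠ j) : push φ hφ f j = 0 := by
  rw [push_apply, Function.extend_apply' _ _ _ (fun ⟨i, hi⟩ => hj i hi)]
  rfl

open Classical in
/-- the standard basis -/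
noncomputable def e (i : I) : L2 I := lp.single 2 i (1 : ℝ)

open Classical in
lemma e_apply (i j : I) : (e i : L2 I) j = if j = i then 1 else 0 := by
  unfold e
  by_cases h : j = i
  · subst h; simp
  · rw [lp.single_apply_ne _ _ _ h, if_neg h]

lemma e_apply_self (i : I) : (e i : L2 I) i = 1 := by
  classical
  rw [e_apply, if_pos rfl]

lemma e_apply_ne {i j : I} (h : j ≠ i) : (e i : L2 I) j = 0 := by
  classical
  rw [e_apply, if_neg h]

lemma push_e (φ : I → J) (hφ : Function.Injective φ) (i : I) : push φ hφ (e i) = e (φ i) := by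
  classical
  ext j
  by_cases hj : ∃ k, φ k = j
  · obtain ⟨k, rfl⟩ := hj
    rw [push_apply_self, e_apply, e_apply]
    by_cases h : k = i
    · rw [if_pos h, if_pos (by rw [h])]
    · rw [if_neg h, if_neg (fun h' => h (hφ h'))]
  · rw [push_apply_of_notMem _ _ _ (fun k hk => hj ⟨k, hk⟩), e_apply_ne]
    rintro rfl
    exact hj ⟨i, rfl⟩

lemma pull_push (φ : I → J) (hφ : Function.Injective φ) (f : L2 I) :
    pull φ hφ (push φ hφ f) = f := by
  ext i
  rw [pull_apply, push_apply_self]

/-- pull along one map and push along another one with disjoint range -/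
lemma pull_push_ne (φ : I → J) (hφ : Function.Injective φ) (ψ : K → J)
    (hψ : Function.Injective ψ) (h : ∀ i k, ψ k ≠ φ i) (f : L2 K) :
    pull φ hφ (push ψ hψ f) = 0 := by
  ext i
  rw [pull_apply, push_apply_of_notMem _ _ _ (fun k => h i k)]
  rfl

open Classical in
lemma norm_e (i : I) : ‖(e i : L2 I)‖ = 1 := by
  unfold e
  rw [lp.norm_single (by norm_num)]
  simp

lemma norm_apply_le (f : L2 I) (i : I) : ‖f i‖ ≤ ‖f‖ := lp.norm_apply_le_norm (by simp) f i

lemma hasSum_e (f : L2 I) : HasSum (fun i => f i • e i) f := by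
  classical
  have h := lp.hasSum_single (E := fun _ : I => ℝ) (p := 2) (by simp) f
  refine h.congr_fun ?_
  intro i
  unfold e
  rw [← lp.single_smul]
  simp

/-- vanishing on the basis -/
lemma eq_zero_of_e {Y : Type} [NormedAddCommGroup Y] [NormedSpace ℝ Y] (T : L2 I →L[ℝ] Y)
    (h : ∀ i, T (e i) = 0) : T = 0 := by
  ext f
  have h1 := (hasSum_e f).mapL T
  have h2 : (fun i => T (f i • e i)) = fun _ => 0 := by
    ext1 i
    rw [map_smul, h, smul_zero]
  rw [h2] at h1
  exact h1.unique hasSum_zero

instance [Countable I] : TopologicalSpace.SeparableSpace (L2 I) := by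
  have h1 : TopologicalSpace.IsSeparable (range (e : I → L2 I)) :=
    (countable_range _).isSeparable
  have h2 : TopologicalSpace.IsSeparable
      (closure ((Submodule.span ℝ (range (e : I → L2 I)) : Submodule ℝ (L2 I)) : Set (L2 I))) :=
    h1.span.closure
  have h3 : closure ((Submodule.span ℝ (range (e : I → L2 I)) : Submodule ℝ (L2 I)) :
      Set (L2 I)) = univ := by
    refine eq_univ_of_forall fun f => ?_
    refine mem_closure_of_tendsto (hasSum_e f) (Eventually.of_forall fun s => ?_)
    exact Submodule.sum_mem _ fun i _ => Submodule.smul_mem _ _ (Submodule.subset_span ⟨i, rfl⟩)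
  rw [h3] at h2
  exact TopologicalSpace.isSeparable_univ_iff.mp h2

end L2

end Pool.Agent.Lib_helper53.PF
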