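import Mathlib
import Pool.Agent.Lib_helper53.PFl2

set_option linter.unusedSectionVars false

open Set Filter Topology Metric

namespace Pool.Agent.Lib_helper53.PF

/-- words -/
abbrev W := List (Fin 4)

/-- the index set -/
abbrev Om := ℕ × ℤ

/-- the maps on the index set -/
def sm (i : Fin 4) (ω : Om) : Om := (4 * ω.1 + i, ω.2 + 1)

lemma sm_inj {i j : Fin 4} {ω ω' : Om} (h : sm i ω = sm j ω') : i = j ∧ ω = ω' := by
  obtain ⟨n, k⟩ := ω
  obtain ⟨n', k'⟩ := ω'
  unfold sm at h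
  rw [Prod.mk.injEq] at h
  obtain ⟨h1, h2⟩ := h
  simp only at h1 h2
  have hi := i.2
  have hj := j.2
  have h3 : (i : ℕ) = j := by omega
  have h4 : n = n' := by omega
  refine ⟨Fin.ext h3, ?_⟩
  rw [h4]
  congr 1
  omega

lemma sm_surj (ω : Om) : ∃ i ω', sm i ω' = ω := by
  obtain ⟨n, k⟩ := ω
  refine ⟨⟨n % 4, Nat.mod_lt _ (by norm_num)⟩, (n / 4, k - 1), ?_⟩
  unfold sm
  simp only [sub_add_cancel, Prod.mk.injEq, and_true]
  omega

/-- the action of words -/
def sw : W → Om → Om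
  | [], ω => ω
  | i :: w, ω => sm i (sw w ω)

@[simp] lemma sw_nil (ω : Om) : sw [] ω = ω := rfl
@[simp] lemma sw_cons (i : Fin 4) (w : W) (ω : Om) : sw (i :: w) ω = sm i (sw w ω) := rfl

lemma sw_append (u v : W) (ω : Om) : sw (u ++ v) ω = sw u (sw v ω) := by
  induction u with
  | nil => rfl
  | cons i u ih => rw [List.cons_append, sw_cons, ih, sw_cons]

lemma sw_inj (w : W) : Function.Injective (sw w) := by
  induction w with
  | nil => exact fun _ _ h => h
  | cons i w ih => exact fun ω ω' h => ih (sm_inj h).2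

lemma sw_snd (w : W) (ω : Om) : (sw w ω).2 = ω.2 + w.length := by
  induction w with
  | nil => simp
  | cons i w ih =>
    rw [sw_cons, List.length_cons]
    change (sw w ω).2 + 1 = _
    rw [ih]
    push_cast
    ring

lemma exists_prefix (L : ℕ) (ω : Om) : ∃ v : W, v.length = L ∧ ∃ ω₁, sw v ω₁ = ω := by
  induction L generalizing ω with
  | zero => exact ⟨[], rfl, ω, rfl⟩
  | succ L ih =>
    obtain ⟨i, ω', rfl⟩ := sm_surj ω
    obtain ⟨v, hv, ω₁, rfl⟩ := ih ω'
    exact ⟨i :: v, by simp [hv], ω₁, rfl⟩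

lemma prefix_of_sw {u v : W} {ω ω' : Om} (h : sw u ω = sw v ω') (hl : u.length ≤ v.length) :
    ∃ r, v = u ++ r ∧ ω = sw r ω' := by
  induction u generalizing v with
  | nil => exact ⟨v, rfl, h⟩
  | cons i u ih =>
    cases v with
    | nil => simp at hl
    | cons j v =>
      obtain ⟨rfl, h'⟩ := sm_inj h
      obtain ⟨r, hr, hω⟩ := ih h' (by simpa using hl)
      exact ⟨r, by rw [hr]; rfl, hω⟩

lemma sw_free {u v : W} {ω : Om} (h : sw u ω = sw v ω) : u = v := by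
  have hl : u.length = v.length := by
    have h1 := congrArg Prod.snd h
    rw [sw_snd, sw_snd] at h1
    omega
  obtain ⟨r, hr, _⟩ := prefix_of_sw h hl.le
  have : r = [] := by
    have := congrArg List.length hr
    rw [List.length_append] at this
    exact List.length_eq_zero_iff.mp (by omega)
  rw [hr, this, List.append_nil]

/-- the Hilbert space -/
abbrev HE := L2 Om

/-- creation operators -/
noncomputable def S (w : W) : HE →L[ℝ] HE := L2.push (sw w) (sw_inj w)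

/-- annihilation operators -/
noncomputable def C (w : W) : HE →L[ℝ] HE := L2.pull (sw w) (sw_inj w)

lemma norm_S_le (w : W) : ‖S w‖ ≤ 1 := L2.norm_push_le _ _
lemma norm_C_le (w : W) : ‖C w‖ ≤ 1 := L2.norm_pull_le _ _

lemma S_e (w : W) (ω : Om) : S w (L2.e ω) = L2.e (sw w ω) := L2.push_e _ _ _

lemma S_nil : S [] = 1 := by
  refine ContinuousLinearMap.ext fun f => ?_
  change S [] f = f
  ext ω
  exact L2.push_apply_self (sw []) (sw_inj []) f ω

lemma C_nil : C [] = 1 := rfl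

lemma S_append (u v : W) : S (u ++ v) = S u * S v := by
  have h : S (u ++ v) - S u * S v = 0 := by
    refine L2.eq_zero_of_e _ fun ω => ?_
    rw [sub_apply, S_e]
    change L2.e (sw (u ++ v) ω) - S u (S v (L2.e ω)) = 0
    rw [S_e, S_e, sw_append, sub_self]
  exact sub_eq_zero.mp h

lemma C_append (u v : W) : C (u ++ v) = C v * C u := by
  refine ContinuousLinearMap.ext fun f => ?_
  change C (u ++ v) f = C v (C u f)
  ext ω
  change f (sw (u ++ v) ω) = f (sw u (sw v ω))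
  rw [sw_append]

lemma C_mul_S_self (w : W) : C w * S w = 1 := by
  refine ContinuousLinearMap.ext fun f => ?_
  exact L2.pull_push (sw w) (sw_inj w) f

lemma C_mul_S_of_prefix (u r : W) : C u * S (u ++ r) = S r := by
  rw [S_append, ← mul_assoc, C_mul_S_self, one_mul]

lemma C_mul_S_of_prefix' (v r : W) : C (v ++ r) * S v = C r := by
  rw [C_append, mul_assoc, C_mul_S_self, mul_one]

lemma C_mul_S_of_not {u v : W} (h1 : ∀ r, v ≠ u ++ r) (h2 : ∀ r, u ≠ v ++ r) : C u * S v = 0 := by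
  refine ContinuousLinearMap.ext fun f => ?_
  change C u (S v f) = 0
  refine L2.pull_push_ne (sw u) (sw_inj u) (sw v) (sw_inj v) (fun ω ω' h => ?_) f
  rcases le_total u.length v.length with hl | hl
  · obtain ⟨r, hr, _⟩ := prefix_of_sw h.symm hl
    exact h1 r hr
  · obtain ⟨r, hr, _⟩ := prefix_of_sw h hl
    exact h2 r hr

lemma C_mul_S_cases (u v : W) :
    (∃ r, v = u ++ r ∧ C u * S v = S r) ∨ (∃ r, u = v ++ r ∧ C u * S v = C r) ∨
      C u * S v = 0 := by
  by_cases h1 : ∃ r, v = u ++ r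
  · obtain ⟨r, rfl⟩ := h1
    exact Or.inl ⟨r, rfl, C_mul_S_of_prefix u r⟩
  by_cases h2 : ∃ r, u = v ++ r
  · obtain ⟨r, rfl⟩ := h2
    exact Or.inr (Or.inl ⟨r, rfl, C_mul_S_of_prefix' v r⟩)
  · push Not at h1 h2
    exact Or.inr (Or.inr (C_mul_S_of_not h1 h2))

/-- the algebraic part of the algebra -/
noncomputable def M0 : Submodule ℝ (HE →L[ℝ] HE) :=
  Submodule.span ℝ (range fun p : W × W => S p.1 * C p.2)

lemma SC_mem_M0 (u v : W) : S u * C v ∈ M0 := Submodule.subset_span ⟨(u, v), rfl⟩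

lemma S_mem_M0 (u : W) : S u ∈ M0 := by
  have := SC_mem_M0 u []
  rwa [C_nil, mul_one] at this

lemma C_mem_M0 (u : W) : C u ∈ M0 := by
  have := SC_mem_M0 [] u
  rwa [S_nil, one_mul] at this

lemma one_mem_M0 : (1 : HE →L[ℝ] HE) ∈ M0 := by
  rw [← S_nil]
  exact S_mem_M0 []

lemma mul_mem_M0 {x y : HE →L[ℝ] HE} (hx : x ∈ M0) (hy : y ∈ M0) : x * y ∈ M0 := by
  have h : M0 * M0 ≤ M0 := by
    unfold M0
    rw [Submodule.span_mul_span, Submodule.span_le]
    rintro _ ⟨_, ⟨⟨u, v⟩, rfl⟩, _, ⟨⟨u', v'⟩, rfl⟩, rfl⟩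
    change S u * C v * (S u' * C v') ∈ M0
    have e1 : S u * C v * (S u' * C v') = S u * (C v * S u') * C v' := by
      simp only [mul_assoc]
    rw [e1]
    rcases C_mul_S_cases v u' with ⟨r, _, h⟩ | ⟨r, _, h⟩ | h
    · rw [h, ← S_append]
      exact SC_mem_M0 _ _
    · rw [h, mul_assoc, ← C_append]
      exact SC_mem_M0 _ _
    · rw [h, mul_zero, zero_mul]
      exact M0.zero_mem
  exact h (Submodule.mul_mem_mul hx hy)

/-- the algebra, before taking closures -/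
noncomputable def A0 : Subalgebra ℝ (HE →L[ℝ] HE) :=
  M0.toSubalgebra one_mem_M0 fun _ _ hx hy => mul_mem_M0 hx hy

/-- the algebra -/
noncomputable def CA : Subalgebra ℝ (HE →L[ℝ] HE) := A0.topologicalClosure

lemma isClosed_CA : IsClosed (CA : Set (HE →L[ℝ] HE)) := A0.isClosed_topologicalClosure

lemma mem_CA_iff {a : HE →L[ℝ] HE} : a ∈ CA ↔ a ∈ closure (M0 : Set (HE →L[ℝ] HE)) := Iff.rfl

lemma M0_le_CA {a : HE →L[ℝ] HE} (h : a ∈ M0) : a ∈ CA := subset_closure h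

lemma S_mem (u : W) : S u ∈ CA := M0_le_CA (S_mem_M0 u)
lemma C_mem (u : W) : C u ∈ CA := M0_le_CA (C_mem_M0 u)

instance : TopologicalSpace.SeparableSpace CA := by
  have h1 : TopologicalSpace.IsSeparable (range fun p : W × W => S p.1 * C p.2) :=
    (countable_range _).isSeparable
  have h2 : TopologicalSpace.IsSeparable (closure (M0 : Set (HE →L[ℝ] HE))) := h1.span.closure
  exact h2.separableSpace

/-- the closed span of the creation operators only -/
noncomputable def M1 : Submodule ℝ (HE →L[ℝ] HE) := Submodule.span ℝ (range S)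

lemma lemA {x : HE →L[ℝ] HE} (hx : x ∈ M0) : ∃ L₀ : ℕ, ∀ v₀ : W, L₀ ≤ v₀.length →
    x * S v₀ ∈ M1 := by
  refine Submodule.span_induction ?_ ?_ ?_ ?_ hx
  · rintro _ ⟨⟨u, v⟩, rfl⟩
    refine ⟨v.length, fun v₀ hv₀ => ?_⟩
    change S u * C v * S v₀ ∈ M1
    rw [mul_assoc]
    rcases C_mul_S_cases v v₀ with ⟨r, _, h⟩ | ⟨r, hr, h⟩ | h
    · rw [h, ← S_append]
      exact Submodule.subset_span ⟨_, rfl⟩
    · have hr0 : r = [] := by
        have := congrArg List.length hr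
        rw [List.length_append] at this
        exact List.length_eq_zero_iff.mp (by omega)
      rw [h, hr0, C_nil, mul_one]
      exact Submodule.subset_span ⟨_, rfl⟩
    · rw [h, mul_zero]
      exact M1.zero_mem
  · exact ⟨0, fun v₀ _ => by rw [zero_mul]; exact M1.zero_mem⟩
  · rintro x y _ _ ⟨L, hL⟩ ⟨L', hL'⟩
    refine ⟨max L L', fun v₀ hv₀ => ?_⟩
    rw [add_mul]
    exact M1.add_mem (hL _ ((le_max_left _ _).trans hv₀)) (hL' _ ((le_max_right _ _).trans hv₀))
  · rintro c x _ ⟨L, hL⟩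
    refine ⟨L, fun v₀ hv₀ => ?_⟩
    rw [smul_mul_assoc]
    exact M1.smul_mem _ (hL _ hv₀)

/-- separating words -/
def wd (N : ℕ) : W := List.replicate N 0 ++ [1]

lemma wd_length (N : ℕ) : (wd N).length = N + 1 := by simp [wd]

lemma wd_getElem_lt {N n : ℕ} (h : n < N) : (wd N)[n]? = some 0 := by
  unfold wd
  rw [List.getElem?_append_left (by simpa using h)]
  simp [h]

lemma wd_getElem_self (N : ℕ) : (wd N)[N]? = some 1 := by
  unfold wd
  rw [List.getElem?_append_right (by simp)]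
  simp

lemma wd_incomparable {N : ℕ} {t u : W} (ht : t.length ≤ N) (hne : t ≠ u) (r : W) :
    t ++ wd N ≠ (u ++ wd N) ++ r := by
  intro h
  have hlen := congrArg List.length h
  simp only [List.length_append, wd_length] at hlen
  rcases Nat.eq_zero_or_pos r.length with hr | hr
  · have hr0 : r = [] := List.length_eq_zero_iff.mp hr
    rw [hr0, List.append_nil] at h
    exact hne (List.append_cancel_right h)
  · have h1 : ((u ++ wd N) ++ r)[u.length + N]? = some 1 := by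
      rw [List.getElem?_append_left (by simp [wd_length]),
        List.getElem?_append_right (by omega)]
      simp [wd_getElem_self]
    have h2 : (t ++ wd N)[u.length + N]? = some 0 := by
      rw [List.getElem?_append_right (by omega)]
      exact wd_getElem_lt (by omega)
    rw [← h, h2] at h1
    simp at h1

lemma lemB {y : HE →L[ℝ] HE} (hy : y ∈ M1) (ω₁ : Om) (u₀ : W) :
    ∀ᶠ N in atTop, C (wd N) * C u₀ * y * S (wd N)
      = ((y (L2.e ω₁) : HE) (sw u₀ ω₁)) • (1 : HE →L[ℝ] HE) := by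
  refine Submodule.span_induction ?_ ?_ ?_ ?_ hy
  · rintro _ ⟨t, rfl⟩
    filter_upwards [eventually_ge_atTop t.length, eventually_ge_atTop u₀.length] with N hN1 hN2
    have e1 : C (wd N) * C u₀ * S t * S (wd N) = C (u₀ ++ wd N) * S (t ++ wd N) := by
      rw [C_append, S_append]
      simp only [mul_assoc]
    rw [e1, S_e]
    by_cases htu : t = u₀
    · subst htu
      rw [C_mul_S_self, L2.e_apply_self, one_smul]
    · rw [L2.e_apply_ne (fun h => htu (sw_free h).symm), zero_smul]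
      exact C_mul_S_of_not (fun r => wd_incomparable hN1 htu r)
        (fun r => wd_incomparable hN2 (Ne.symm htu) r)
  · refine Eventually.of_forall fun N => ?_
    rw [mul_zero, zero_mul]
    simp
  · rintro x y _ _ hx hy
    filter_upwards [hx, hy] with N h1 h2
    rw [mul_add, add_mul, h1, h2, ← add_smul]
    rfl
  · rintro c x _ hx
    filter_upwards [hx] with N h1
    rw [mul_smul_comm, smul_mul_assoc, h1, smul_smul]
    rfl

lemma lemB2 {y : HE →L[ℝ] HE} (hy : y ∈ M1) {ω₁ ω' : Om} (h : ∀ u, ω' ≠ sw u ω₁) :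
    (y (L2.e ω₁) : HE) ω' = 0 := by
  refine Submodule.span_induction ?_ ?_ ?_ ?_ hy
  · rintro _ ⟨t, rfl⟩
    rw [S_e, L2.e_apply_ne (h t)]
  · rfl
  · rintro x y _ _ hx hy
    change (x (L2.e ω₁) : HE) ω' + (y (L2.e ω₁) : HE) ω' = 0
    rw [hx, hy, add_zero]
  · rintro c x _ hx
    change c * (x (L2.e ω₁) : HE) ω' = 0
    rw [hx, mul_zero]

/-- the identity factors through every nonzero element of the algebra -/
theorem CA_factor (a : CA) (ha : a ≠ 0) : ∃ b c : CA, b * a * c = 1 := by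
  have ha' : (a : HE →L[ℝ] HE) ≠ 0 := fun h => ha (Subtype.ext h)
  obtain ⟨ω, hω⟩ : ∃ ω, (a : HE →L[ℝ] HE) (L2.e ω) ≠ 0 := by
    by_contra hcon
    push Not at hcon
    exact ha' (L2.eq_zero_of_e _ hcon)
  obtain ⟨ω', hω'⟩ : ∃ ω', ((a : HE →L[ℝ] HE) (L2.e ω) : HE) ω' ≠ 0 := by
    by_contra hcon
    push Not at hcon
    exact hω (lp.ext (funext hcon))
  set κ := ((a : HE →L[ℝ] HE) (L2.e ω) : HE) ω' with hκ
  have hκ0 : 0 < |κ| := abs_pos.mpr hω'
  obtain ⟨x, hx, hax⟩ := Metric.mem_closure_iff.mp (mem_CA_iff.mp a.2) _ (half_pos hκ0)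
  rw [dist_eq_norm] at hax
  obtain ⟨L₀, hL₀⟩ := lemA hx
  obtain ⟨v₀, hv₀, ω₁, hω₁⟩ := exists_prefix L₀ ω
  have hy := hL₀ v₀ hv₀.ge
  set y := x * S v₀ with hydef
  have hye : y (L2.e ω₁) = x (L2.e ω) := by
    change x (S v₀ (L2.e ω₁)) = _
    rw [S_e, hω₁]
  set μ := (x (L2.e ω) : HE) ω' with hμ
  have hμκ : |κ - μ| < |κ| / 2 := by
    have h1 : κ - μ = (((a : HE →L[ℝ] HE) - x) (L2.e ω) : HE) ω' := rfl
    rw [h1]
    refine (L2.norm_apply_le _ _).trans_lt ?_
    refine (((a : HE →L[ℝ] HE) - x).le_opNorm _).trans_lt ?_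
    rw [L2.norm_e, mul_one]
    exact hax
  have hμ2 : |κ| / 2 < |μ| := by
    have := abs_sub_abs_le_abs_sub κ μ
    linarith
  have hμ0 : μ ≠ 0 := by
    intro h
    rw [h, abs_zero] at hμ2
    linarith
  obtain ⟨u₀, hu₀⟩ : ∃ u, ω' = sw u ω₁ := by
    by_contra hcon
    push Not at hcon
    have := lemB2 hy hcon
    rw [hye] at this
    exact hμ0 this
  obtain ⟨N, hN⟩ := (lemB hy ω₁ u₀).exists
  rw [hye, ← hu₀, ← hμ] at hN
  set P : HE →L[ℝ] HE := C (wd N) * C u₀ with hP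
  set Q : HE →L[ℝ] HE := S v₀ * S (wd N) with hQ
  have hPn : ‖P‖ ≤ 1 := (norm_mul_le _ _).trans
    (mul_le_one₀ (norm_C_le _) (norm_nonneg _) (norm_C_le _))
  have hQn : ‖Q‖ ≤ 1 := (norm_mul_le _ _).trans
    (mul_le_one₀ (norm_S_le _) (norm_nonneg _) (norm_S_le _))
  have hPQ : P * x * Q = μ • (1 : HE →L[ℝ] HE) := by
    rw [← hN, hP, hQ, hydef]
    simp only [mul_assoc]
  have hsmall : ‖P * (a : HE →L[ℝ] HE) * Q - μ • (1 : HE →L[ℝ] HE)‖ < |μ| := by
    rw [← hPQ, ← sub_mul, ← mul_sub]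
    calc ‖P * ((a : HE →L[ℝ] HE) - x) * Q‖ ≤ ‖P * ((a : HE →L[ℝ] HE) - x)‖ * ‖Q‖ := norm_mul_le _ _
      _ ≤ ‖P * ((a : HE →L[ℝ] HE) - x)‖ * 1 := mul_le_mul_of_nonneg_left hQn (norm_nonneg _)
      _ = ‖P * ((a : HE →L[ℝ] HE) - x)‖ := mul_one _
      _ ≤ ‖P‖ * ‖(a : HE →L[ℝ] HE) - x‖ := norm_mul_le _ _
      _ ≤ 1 * ‖(a : HE →L[ℝ] HE) - x‖ := mul_le_mul_of_nonneg_right hPn (norm_nonneg _)
      _ < |μ| := by rw [one_mul]; linarith
  have hPA : P ∈ CA := CA.mul_mem (C_mem _) (C_mem _)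
  have hQA : Q ∈ CA := CA.mul_mem (S_mem _) (S_mem _)
  set P' : CA := ⟨P, hPA⟩ with hP'
  set Q' : CA := ⟨Q, hQA⟩ with hQ'
  set t : CA := 1 - μ⁻¹ • (P' * a * Q') with ht
  have : CompleteSpace CA := isClosed_CA.completeSpace_coe
  have htn : ‖t‖ < 1 := by
    have e1 : ‖t‖ = ‖(1 : HE →L[ℝ] HE) - μ⁻¹ • (P * (a : HE →L[ℝ] HE) * Q)‖ := rfl
    have e2 : (1 : HE →L[ℝ] HE) - μ⁻¹ • (P * (a : HE →L[ℝ] HE) * Q)
        = - (μ⁻¹ • (P * (a : HE →L[ℝ] HE) * Q - μ • (1 : HE →L[ℝ] HE))) := by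
      rw [smul_sub, smul_smul, inv_mul_cancel₀ hμ0, one_smul]
      abel
    rw [e1, e2, norm_neg, norm_smul, norm_inv, Real.norm_eq_abs]
    rw [inv_mul_lt_iff₀ (by positivity), mul_one]
    exact hsmall
  set z := Units.oneSub t htn with hz
  have hzv : (z : CA) = μ⁻¹ • (P' * a * Q') := by
    rw [hz, Units.val_oneSub, ht, sub_sub_cancel]
  refine ⟨(↑z⁻¹ : CA) * (μ⁻¹ • P'), Q', ?_⟩
  have e3 : (↑z⁻¹ : CA) * (μ⁻¹ • P') * a * Q' = (↑z⁻¹ : CA) * (z : CA) := by
    rw [hzv]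
    simp only [mul_assoc, smul_mul_assoc, mul_smul_comm]
  rw [e3]
  exact z.inv_mul

end Pool.Agent.Lib_helper53.PF
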