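import Mathlib
import Pool.Agent.Lib_helper53.PFCopy2
import Pool.Agent.Lib_helper53.PFConstr

set_option linter.unusedSectionVars false

open Set Filter Topology Metric
open scoped BoundedContinuousFunction

namespace Pool.Agent.Lib_helper53.PF

variable {E : Type} [NormedAddCommGroup E] [InnerProductSpace ℝ E]

namespace Gen

open Sp

variable {G : Gen E} {A : Subalgebra ℝ (E →L[ℝ] E)} [CompleteSpace E]

/-- the action on the space -/
noncomputable def actS (a : A) : Sp G A →L[ℝ] Sp G A := act a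

lemma actS_mul (a b : A) : actS (G := G) (a * b) = actS a * actS b := act_mul a b
lemma actS_one : actS (G := G) (1 : A) = 1 := act_one
lemma actS_sub (a b : A) : actS (G := G) (a - b) = actS a - actS b := act_sub a b

/-- separable range -/
def SepS (R : Sp G A →L[ℝ] Sp G A) : Prop := TopologicalSpace.IsSeparable (range R)

lemma SepS.mul_left {R : Sp G A →L[ℝ] Sp G A} (h : SepS R) (T : Sp G A →L[ℝ] Sp G A) :
    SepS (T * R) := Sep.mul_left (R := R) h T

lemma SepS.mul_right {R : Sp G A →L[ℝ] Sp G A} (h : SepS R) (T : Sp G A →L[ℝ] Sp G A) :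
    SepS (R * T) := Sep.mul_right (R := R) h T

lemma SepS.add {R R' : Sp G A →L[ℝ] Sp G A} (h : SepS R) (h' : SepS R') : SepS (R + R') :=
  Sep.add (R := R) (R' := R') h h'

lemma SepS.neg {R : Sp G A →L[ℝ] Sp G A} (h : SepS R) : SepS (-R) := Sep.neg (R := R) h

lemma SepS.sub {R R' : Sp G A →L[ℝ] Sp G A} (h : SepS R) (h' : SepS R') : SepS (R - R') :=
  Sep.sub (R := R) (R' := R') h h'

variable [TopologicalSpace.SeparableSpace E] [TopologicalSpace.SeparableSpace A]

lemma Rigid.exists_sepS (hG : Rigid G A) (T : Sp G A →L[ℝ] Sp G A) :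
    ∃ a : A, SepS (T - actS a) := hG.exists_sep T

lemma Rigid.eq_zero (hG : Rigid G A) {a : A} (h : SepS (actS (G := G) a)) : a = 0 :=
  eq_zero_of_sep hG.1 h

/-- the identity factors through every operator or its complement -/
theorem Rigid.pfp (hG : Rigid G A) (hA : IsClosed (A : Set (E →L[ℝ] E)))
    (h1 : ∀ a : A, a ≠ 0 → ∃ b c : A, b * a * c = 1) (T : Sp G A →L[ℝ] Sp G A) :
    (∃ U V : Sp G A →L[ℝ] Sp G A, U * T * V = 1) ∨
      (∃ U V : Sp G A →L[ℝ] Sp G A, U * (1 - T) * V = 1) := by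
  obtain ⟨a, ha⟩ := hG.exists_sepS T
  by_cases ha0 : a = 0
  · right
    have hT : SepS T := by
      rw [ha0] at ha
      have e : actS (G := G) (0 : A) = 0 := by
        have := actS_sub (G := G) (0 : A) 0
        rw [sub_self, sub_self] at this
        exact this
      rwa [e, sub_zero] at ha
    obtain ⟨U, V, hUV⟩ := hG.absorb hA (R := -T) hT.neg
    exact ⟨U, V, by rw [sub_eq_add_neg]; exact hUV⟩
  · left
    obtain ⟨b, c, hbc⟩ := h1 a ha0
    have hR : SepS (actS b * (T - actS a) * actS c) := (ha.mul_left _).mul_right _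
    obtain ⟨U, V, hUV⟩ := hG.absorb hA hR
    refine ⟨U * actS b, actS c * V, ?_⟩
    have e1 : (1 : Sp G A →L[ℝ] Sp G A) + actS b * (T - actS a) * actS c
        = actS b * T * actS c := by
      rw [← actS_one, ← hbc, actS_mul, actS_mul]
      noncomm_ring
    rw [← hUV, e1]
    noncomm_ring

/-- inverting modulo operators with separable range -/
lemma Rigid.descend (hG : Rigid G A) {u w : Sp G A →L[ℝ] Sp G A} {q : A} (hwu : w * u = 1)
    (huw : u * w = actS q) : ∃ a b : A, b * a = 1 ∧ a * b = q := by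
  obtain ⟨a, ha⟩ := hG.exists_sepS u
  obtain ⟨b, hb⟩ := hG.exists_sepS w
  refine ⟨a, b, ?_, ?_⟩
  · have h1 : SepS (actS (G := G) (1 - b * a)) := by
      rw [actS_sub, actS_mul, actS_one, ← hwu]
      have e : w * u - actS b * actS a = (w - actS b) * u + actS b * (u - actS a) := by
        noncomm_ring
      rw [e]
      exact (hb.mul_right _).add (ha.mul_left _)
    have := hG.eq_zero h1
    exact (sub_eq_zero.mp this).symm
  · have h1 : SepS (actS (G := G) (q - a * b)) := by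
      rw [actS_sub, actS_mul, ← huw]
      have e : u * w - actS a * actS b = (u - actS a) * w + actS a * (w - actS b) := by
        noncomm_ring
      rw [e]
      exact (ha.mul_right _).add (hb.mul_left _)
    have := hG.eq_zero h1
    exact (sub_eq_zero.mp this).symm

end Gen

/-- isomorphism onto the range of a projection -/
lemma exists_of_equiv {X : Type} [NormedAddCommGroup X] [NormedSpace ℝ X] {P : X →L[ℝ] X}
    (hP : P * P = P) (h : Nonempty (X ≃L[ℝ] LinearMap.range (P : X →ₗ[ℝ] X))) :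
    ∃ u w : X →L[ℝ] X, w * u = 1 ∧ u * w = P := by
  obtain ⟨e⟩ := h
  have hPP : ∀ x, P (P x) = P x := fun x => congrFun (congrArg DFunLike.coe hP) x
  set Pr : X →L[ℝ] LinearMap.range (P : X →ₗ[ℝ] X) :=
    P.codRestrict _ (fun x => ⟨x, rfl⟩) with hPr
  have hPrx : ∀ x, ((Pr x : LinearMap.range (P : X →ₗ[ℝ] X)) : X) = P x := fun x => rfl
  refine ⟨(LinearMap.range (P : X →ₗ[ℝ] X)).subtypeL.comp (e : X →L[ℝ] _),
    (e.symm : _ →L[ℝ] X).comp Pr, ?_, ?_⟩
  · ext x
    change e.symm (Pr (e x : X)) = x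
    have : Pr (e x : X) = e x := by
      apply Subtype.ext
      rw [hPrx]
      obtain ⟨y, hy⟩ := (e x).2
      rw [← hy]
      exact hPP y
    rw [this, e.symm_apply_apply]
  · ext x
    change ((e (e.symm (Pr x)) : LinearMap.range (P : X →ₗ[ℝ] X)) : X) = P x
    rw [e.apply_symm_apply, hPrx]

/-- From the algebra to the Banach space. -/
theorem main_of_algebra [CompleteSpace E] [TopologicalSpace.SeparableSpace E]
    (A : Subalgebra ℝ (E →L[ℝ] E)) [TopologicalSpace.SeparableSpace A]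
    (hA : IsClosed (A : Set (E →L[ℝ] E)))
    (h1 : ∀ a : A, a ≠ 0 → ∃ b c : A, b * a * c = 1)
    (p : A) (hp : p * p = p) (hp1 : ¬ ∃ a b : A, b * a = 1 ∧ a * b = p)
    (hp2 : ¬ ∃ a b : A, b * a = 1 ∧ a * b = 1 - p) :
    ∃ (X : Type) (_ : NormedAddCommGroup X) (_ : NormedSpace ℝ X) (_ : CompleteSpace X),
      (∀ T : X →L[ℝ] X, (∃ U V : X →L[ℝ] X, U * T * V = 1) ∨
        (∃ U V : X →L[ℝ] X, U * ((1 : X →L[ℝ] X) - T) * V = 1)) ∧
      ∃ P : X →L[ℝ] X, P * P = P ∧ ¬ Nonempty (X ≃L[ℝ] LinearMap.range (P : X →ₗ[ℝ] X)) ∧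
        ¬ Nonempty (X ≃L[ℝ] LinearMap.range (((1 : X →L[ℝ] X) - P : X →L[ℝ] X) : X →ₗ[ℝ] X)) := by
  obtain ⟨G, hO, hG⟩ := exists_system (E := E) (A := A) hA
  have hR : Gen.Rigid G A := ⟨hO, hG⟩
  refine ⟨Gen.Sp G A, inferInstance, inferInstance, Gen.completeSpace_Sp hA,
    fun T => hR.pfp hA h1 T, Gen.actS p, ?_, fun h => ?_, fun h => ?_⟩
  · rw [← Gen.actS_mul, hp]
  · have hpp : Gen.actS (G := G) p * Gen.actS p = Gen.actS p := by rw [← Gen.actS_mul, hp]
    obtain ⟨u, w, hwu, huw⟩ := exists_of_equiv hpp h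
    exact hp1 (hR.descend hwu huw)
  · have e1 : (1 : Gen.Sp G A →L[ℝ] Gen.Sp G A) - Gen.actS p = Gen.actS (1 - p) := by
      rw [Gen.actS_sub, Gen.actS_one]
    have hpp : ((1 : Gen.Sp G A →L[ℝ] Gen.Sp G A) - Gen.actS p) * (1 - Gen.actS p)
        = 1 - Gen.actS p := by
      rw [e1, ← Gen.actS_mul]
      congr 1
      rw [mul_sub, sub_mul, sub_mul, hp]
      simp
    obtain ⟨u, w, hwu, huw⟩ := exists_of_equiv hpp h
    rw [e1] at huw
    exact hp2 (hR.descend hwu huw)

end Pool.Agent.Lib_helper53.PF
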