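import Mathlib

set_option linter.unusedSectionVars false

open Set Filter Topology Metric LinearMap Module

namespace Pool.Agent.Lib_helper53.PF

section algebra

variable {X Y : Type} [AddCommGroup X] [Module ℝ X] [AddCommGroup Y] [Module ℝ Y]

/-- kernels of `1 - jq` and `1 - qj` -/
def kerEquiv (j : Y →ₗ[ℝ] X) (q : X →ₗ[ℝ] Y) :
    LinearMap.ker (LinearMap.id - j ∘ₗ q) ≃ₗ[ℝ] LinearMap.ker (LinearMap.id - q ∘ₗ j) where
  toFun x := ⟨q x, by
    have h : (x : X) - j (q x) = 0 := x.2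
    rw [LinearMap.mem_ker]
    change q x - q (j (q x)) = 0
    rw [← map_sub, h, map_zero]⟩
  map_add' x y := by ext; simp
  map_smul' r x := by ext; simp
  invFun y := ⟨j y, by
    have h : (y : Y) - q (j y) = 0 := y.2
    rw [LinearMap.mem_ker]
    change j y - j (q (j y)) = 0
    rw [← map_sub, h, map_zero]⟩
  left_inv x := by
    have h : (x : X) - j (q x) = 0 := x.2
    apply Subtype.ext
    exact (sub_eq_zero.mp h).symm
  right_inv y := by
    have h : (y : Y) - q (j y) = 0 := y.2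
    apply Subtype.ext
    exact (sub_eq_zero.mp h).symm

/-- cokernels of `1 - jq` and `1 - qj` -/
def cokerEquiv (j : Y →ₗ[ℝ] X) (q : X →ₗ[ℝ] Y) :
    (X ⧸ LinearMap.range (LinearMap.id - j ∘ₗ q)) ≃ₗ[ℝ]
      (Y ⧸ LinearMap.range (LinearMap.id - q ∘ₗ j)) :=
  LinearEquiv.ofLinearMap
    (Submodule.mapQ _ _ q (by
      rintro _ ⟨x, rfl⟩
      rw [Submodule.mem_comap]
      exact ⟨q x, by simp⟩))
    (Submodule.mapQ _ _ j (by
      rintro _ ⟨x, rfl⟩
      rw [Submodule.mem_comap]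
      exact ⟨j x, by simp⟩))
    (by
      ext y
      simp only [LinearMap.comp_apply, Submodule.mkQ_apply, Submodule.mapQ_apply,
        LinearMap.id_apply]
      rw [Submodule.Quotient.eq]
      exact ⟨-y, by simp; abel⟩)
    (by
      ext y
      simp only [LinearMap.comp_apply, Submodule.mkQ_apply, Submodule.mapQ_apply,
        LinearMap.id_apply]
      rw [Submodule.Quotient.eq]
      exact ⟨-y, by simp; abel⟩)

/-- finite kernel and cokernel -/
structure FinIdx (f : X →ₗ[ℝ] Y) : Prop where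
  ker : FiniteDimensional ℝ (LinearMap.ker f)
  coker : FiniteDimensional ℝ (Y ⧸ LinearMap.range f)

lemma finIdx_one_sub {F : X →ₗ[ℝ] X} (hF : FiniteDimensional ℝ (LinearMap.range F)) :
    FinIdx (LinearMap.id - F) ∧ (LinearMap.id - F).index = 0 := by
  have e : F = (LinearMap.range F).subtype ∘ₗ F.rangeRestrict := by
    ext x; rfl
  set j := (LinearMap.range F).subtype
  set q := F.rangeRestrict
  have e1 := kerEquiv j q
  have e2 := cokerEquiv j q
  rw [e]
  have h1 : FiniteDimensional ℝ (LinearMap.ker (LinearMap.id - j ∘ₗ q)) :=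
    Module.Finite.equiv e1.symm
  have h2 : FiniteDimensional ℝ (X ⧸ LinearMap.range (LinearMap.id - j ∘ₗ q)) :=
    Module.Finite.equiv e2.symm
  refine ⟨⟨h1, h2⟩, ?_⟩
  rw [LinearMap.index_eq_finrank_sub, e1.finrank_eq, e2.finrank_eq,
    ← LinearMap.index_eq_finrank_sub, LinearMap.index_eq_of_finiteDimensional, sub_self]

lemma FinIdx.comp {Z : Type} [AddCommGroup Z] [Module ℝ Z] {f : X →ₗ[ℝ] Y} {g : Y →ₗ[ℝ] Z}
    (hf : FinIdx f) (hg : FinIdx g) :
    FinIdx (g ∘ₗ f) ∧ (g ∘ₗ f).index = g.index + f.index := by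
  have := hf.ker
  have := hg.ker
  have := hf.coker
  have := hg.coker
  refine ⟨⟨?_, ?_⟩, LinearMap.index_comp g⟩
  · rw [LinearMap.ker_comp]; infer_instance
  · rw [LinearMap.range_comp]; infer_instance

lemma FinIdx.of_equiv (e : X ≃ₗ[ℝ] Y) : FinIdx (e : X →ₗ[ℝ] Y) := by
  constructor
  · rw [LinearEquiv.ker]; infer_instance
  · rw [LinearEquiv.range]; infer_instance

/-- if `ST` and `TS` have finite kernels and cokernels, so do `S` and `T` -/
lemma FinIdx.of_comp {T : X →ₗ[ℝ] Y} {S : Y →ₗ[ℝ] X} (h1 : FinIdx (S ∘ₗ T))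
    (h2 : FinIdx (T ∘ₗ S)) : FinIdx T := by
  have := h1.ker
  have := h2.coker
  constructor
  · exact Submodule.finiteDimensional_of_le (LinearMap.ker_le_ker_comp T S)
  · exact Module.Finite.of_surjective
      (Submodule.factor (LinearMap.range_comp_le_range S T))
      (Submodule.factor_surjective _)

/-- powers -/
lemma FinIdx.pi {m : ℕ} {f : X →ₗ[ℝ] Y} (hf : FinIdx f) :
    (f.compLeft (Fin m)).index = m * f.index := by
  have := hf.ker
  have := hf.coker
  have e1 : LinearMap.ker (f.compLeft (Fin m)) ≃ₗ[ℝ] (Fin m → LinearMap.ker f) :=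
    { toFun := fun x i => ⟨x.1 i, by
        have := x.2
        rw [LinearMap.mem_ker] at this
        exact congrFun this i⟩
      map_add' := fun x y => rfl
      map_smul' := fun r x => rfl
      invFun := fun y => ⟨fun i => y i, by
        rw [LinearMap.mem_ker]
        ext i
        exact (y i).2⟩
      left_inv := fun x => rfl
      right_inv := fun y => rfl }
  have hr : LinearMap.range (f.compLeft (Fin m))
      = Submodule.pi Set.univ fun _ : Fin m => LinearMap.range f := by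
    ext y
    constructor
    · rintro ⟨x, rfl⟩ i _
      exact ⟨x i, rfl⟩
    · intro h
      have h' : ∀ i, ∃ x, f x = y i := fun i => h i (mem_univ i)
      choose x hx using h'
      exact ⟨x, funext hx⟩
  have e2 : ((Fin m → Y) ⧸ LinearMap.range (f.compLeft (Fin m))) ≃ₗ[ℝ]
      (Fin m → (Y ⧸ LinearMap.range f)) :=
    (Submodule.quotEquivOfEq _ _ hr).trans
      (Submodule.quotientPi fun _ : Fin m => LinearMap.range f)
  rw [LinearMap.index_eq_finrank_sub, e1.finrank_eq, e2.finrank_eq,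
    LinearMap.index_eq_finrank_sub, Module.finrank_pi_fintype, Module.finrank_pi_fintype]
  simp
  ring

end algebra

section AF

variable (X Y : Type) [NormedAddCommGroup X] [NormedSpace ℝ X]
  [NormedAddCommGroup Y] [NormedSpace ℝ Y]

/-- operators of finite rank -/
def FR : Submodule ℝ (X →L[ℝ] Y) where
  carrier := {T | FiniteDimensional ℝ (LinearMap.range (T : X →ₗ[ℝ] Y))}
  add_mem' := by
    intro S T hS hT
    have hS' : FiniteDimensional ℝ (LinearMap.range (S : X →ₗ[ℝ] Y)) := hS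
    have hT' : FiniteDimensional ℝ (LinearMap.range (T : X →ₗ[ℝ] Y)) := hT
    exact Submodule.finiteDimensional_of_le
      (LinearMap.range_add_le (S : X →ₗ[ℝ] Y) (T : X →ₗ[ℝ] Y))
  zero_mem' := by
    change FiniteDimensional ℝ (LinearMap.range (0 : X →ₗ[ℝ] Y))
    rw [LinearMap.range_zero]
    infer_instance
  smul_mem' := by
    intro r T hT
    have hT' : FiniteDimensional ℝ (LinearMap.range (T : X →ₗ[ℝ] Y)) := hT
    refine Submodule.finiteDimensional_of_le (S₂ := LinearMap.range (T : X →ₗ[ℝ] Y)) ?_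
    rintro _ ⟨x, rfl⟩
    exact ⟨r • x, by simp⟩

/-- operators approximable by finite rank operators -/
noncomputable def AF : Submodule ℝ (X →L[ℝ] Y) := (FR X Y).topologicalClosure

end AF

section AF2

variable {X Y Z : Type} [NormedAddCommGroup X] [NormedSpace ℝ X]
  [NormedAddCommGroup Y] [NormedSpace ℝ Y] [NormedAddCommGroup Z] [NormedSpace ℝ Z]

lemma mem_AF_of_FR {T : X →L[ℝ] Y} (h : T ∈ FR X Y) : T ∈ AF X Y :=
  Submodule.le_topologicalClosure _ h

lemma isClosed_AF : IsClosed (AF X Y : Set (X →L[ℝ] Y)) := Submodule.isClosed_topologicalClosure _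

lemma AF.comp_left {T : X →L[ℝ] Y} (h : T ∈ AF X Y) (S : Y →L[ℝ] Z) : S.comp T ∈ AF X Z := by
  have h1 : T ∈ closure (FR X Y : Set (X →L[ℝ] Y)) := h
  have h2 : Continuous fun T : X →L[ℝ] Y => S.comp T := by fun_prop
  refine map_mem_closure h2 h1 fun T hT => ?_
  have hT' : FiniteDimensional ℝ (LinearMap.range (T : X →ₗ[ℝ] Y)) := hT
  change FiniteDimensional ℝ (LinearMap.range ((S : Y →ₗ[ℝ] Z) ∘ₗ (T : X →ₗ[ℝ] Y)))
  rw [LinearMap.range_comp]
  infer_instance

lemma AF.comp_right {T : Y →L[ℝ] Z} (h : T ∈ AF Y Z) (S : X →L[ℝ] Y) : T.comp S ∈ AF X Z := by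
  have h1 : T ∈ closure (FR Y Z : Set (Y →L[ℝ] Z)) := h
  have h2 : Continuous fun T : Y →L[ℝ] Z => T.comp S := by fun_prop
  refine map_mem_closure (f := fun T : Y →L[ℝ] Z => T.comp S) h2 h1 fun T hT => ?_
  have hT' : FiniteDimensional ℝ (LinearMap.range (T : Y →ₗ[ℝ] Z)) := hT
  exact Submodule.finiteDimensional_of_le
    (LinearMap.range_comp_le_range (S : X →ₗ[ℝ] Y) (T : Y →ₗ[ℝ] Z))

/-- perturbations of the identity -/
lemma finIdx_one_sub_AF [CompleteSpace X] {K : X →L[ℝ] X} (hK : K ∈ AF X X) :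
    FinIdx (LinearMap.id - (K : X →ₗ[ℝ] X)) ∧ (LinearMap.id - (K : X →ₗ[ℝ] X)).index = 0 := by
  have h1 : K ∈ closure (FR X X : Set (X →L[ℝ] X)) := hK
  obtain ⟨F, hF, hdist⟩ := Metric.mem_closure_iff.mp h1 1 one_pos
  set D := K - F with hD
  have hD1 : ‖D‖ < 1 := by rwa [dist_eq_norm] at hdist
  set u := Units.oneSub D hD1 with hu
  set e : X ≃ₗ[ℝ] X := (ContinuousLinearEquiv.unitsEquiv ℝ X u).toLinearEquiv with he
  have hex : ∀ x, e x = x - D x := fun x => rfl
  have hFd : FiniteDimensional ℝ (LinearMap.range (F : X →ₗ[ℝ] X)) := hF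
  have hF' : FiniteDimensional ℝ (LinearMap.range ((e.symm : X →ₗ[ℝ] X) ∘ₗ (F : X →ₗ[ℝ] X))) := by
    rw [LinearMap.range_comp]
    infer_instance
  obtain ⟨h2, h3⟩ := finIdx_one_sub hF'
  obtain ⟨h4, h5⟩ := h2.comp (FinIdx.of_equiv e)
  have h6 : (e : X →ₗ[ℝ] X) ∘ₗ (LinearMap.id - (e.symm : X →ₗ[ℝ] X) ∘ₗ (F : X →ₗ[ℝ] X))
      = LinearMap.id - (K : X →ₗ[ℝ] X) := by
    ext x
    simp only [LinearMap.comp_apply, LinearMap.sub_apply, LinearMap.id_apply,
      LinearEquiv.coe_coe, map_sub, LinearEquiv.apply_symm_apply]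
    rw [hex, hD]
    simp only [_root_.sub_apply, ContinuousLinearMap.coe_coe]
    abel
  rw [h6] at h4 h5
  refine ⟨h4, ?_⟩
  rw [h5, h3, LinearEquiv.index_eq_zero, add_zero]

/-- invertibility modulo `AF` -/
structure QInv (T : X →L[ℝ] Y) (S : Y →L[ℝ] X) : Prop where
  left : 1 - S.comp T ∈ AF X X
  right : 1 - T.comp S ∈ AF Y Y

/-- the index -/
noncomputable def idx (T : X →L[ℝ] Y) : ℤ := (T : X →ₗ[ℝ] Y).index

lemma QInv.symm {T : X →L[ℝ] Y} {S : Y →L[ℝ] X} (h : QInv T S) : QInv S T := ⟨h.right, h.left⟩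

lemma QInv.finIdx [CompleteSpace X] [CompleteSpace Y] {T : X →L[ℝ] Y} {S : Y →L[ℝ] X}
    (h : QInv T S) : FinIdx (T : X →ₗ[ℝ] Y) ∧ FinIdx (S : Y →ₗ[ℝ] X) ∧ idx T + idx S = 0 := by
  have e1 : (S : Y →ₗ[ℝ] X) ∘ₗ (T : X →ₗ[ℝ] Y)
      = LinearMap.id - ((1 - S.comp T : X →L[ℝ] X) : X →ₗ[ℝ] X) := by
    ext x; simp
  have e2 : (T : X →ₗ[ℝ] Y) ∘ₗ (S : Y →ₗ[ℝ] X)
      = LinearMap.id - ((1 - T.comp S : Y →L[ℝ] Y) : Y →ₗ[ℝ] Y) := by
    ext x; simp
  have h1 := finIdx_one_sub_AF h.left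
  have h2 := finIdx_one_sub_AF h.right
  rw [← e1] at h1
  rw [← e2] at h2
  have h3 : FinIdx (T : X →ₗ[ℝ] Y) := FinIdx.of_comp h1.1 h2.1
  have h4 : FinIdx (S : Y →ₗ[ℝ] X) := FinIdx.of_comp h2.1 h1.1
  refine ⟨h3, h4, ?_⟩
  have h5 := (h3.comp h4).2
  rw [h1.2] at h5
  unfold idx
  linarith

lemma QInv.congr {T T' : X →L[ℝ] Y} {S : Y →L[ℝ] X} (h : QInv T S) (hT : T - T' ∈ AF X Y) :
    QInv T' S := by
  constructor
  · have e : 1 - S.comp T' = (1 - S.comp T) + S.comp (T - T') := by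
      ext x; simp
    rw [e]
    exact (AF X X).add_mem h.left (AF.comp_left hT S)
  · have e : 1 - T'.comp S = (1 - T.comp S) + (T - T').comp S := by
      ext x; simp
    rw [e]
    exact (AF Y Y).add_mem h.right (AF.comp_right hT S)

lemma QInv.idx_congr [CompleteSpace X] [CompleteSpace Y] {T T' : X →L[ℝ] Y} {S : Y →L[ℝ] X}
    (h : QInv T S) (hT : T - T' ∈ AF X Y) : idx T = idx T' := by
  have h1 := h.finIdx.2.2
  have h2 := (h.congr hT).finIdx.2.2
  linarith

lemma QInv.comp {T : X →L[ℝ] Y} {S : Y →L[ℝ] X} {T' : Y →L[ℝ] Z} {S' : Z →L[ℝ] Y}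
    (h : QInv T S) (h' : QInv T' S') : QInv (T'.comp T) (S.comp S') := by
  constructor
  · have e : 1 - (S.comp S').comp (T'.comp T)
        = (1 - S.comp T) + S.comp ((1 - S'.comp T').comp T) := by
      ext x; simp
    rw [e]
    exact (AF X X).add_mem h.left (AF.comp_left (AF.comp_right h'.left T) S)
  · have e : 1 - (T'.comp T).comp (S.comp S')
        = (1 - T'.comp S') + T'.comp ((1 - T.comp S).comp S') := by
      ext x; simp
    rw [e]
    exact (AF Z Z).add_mem h'.right (AF.comp_left (AF.comp_right h.right S') T')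

lemma QInv.idx_comp [CompleteSpace X] [CompleteSpace Y] [CompleteSpace Z]
    {T : X →L[ℝ] Y} {S : Y →L[ℝ] X} {T' : Y →L[ℝ] Z} {S' : Z →L[ℝ] Y}
    (h : QInv T S) (h' : QInv T' S') : idx (T'.comp T) = idx T' + idx T :=
  (h.finIdx.1.comp h'.finIdx.1).2

/-- the `m`-th power of an operator -/
noncomputable def pow (m : ℕ) (T : X →L[ℝ] Y) : (Fin m → X) →L[ℝ] (Fin m → Y) :=
  ContinuousLinearMap.pi fun i => T.comp (ContinuousLinearMap.proj i)

@[simp] lemma pow_apply (m : ℕ) (T : X →L[ℝ] Y) (x : Fin m → X) (i : Fin m) :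
    pow m T x i = T (x i) := rfl

/-- operators into powers -/
lemma mem_AF_pi {m : ℕ} {T : X →L[ℝ] (Fin m → Y)}
    (h : ∀ i, (ContinuousLinearMap.proj i : (Fin m → Y) →L[ℝ] Y).comp T ∈ AF X Y) :
    T ∈ AF X (Fin m → Y) := by
  have e : T = ∑ i, (ContinuousLinearMap.single ℝ (fun _ : Fin m => Y) i).comp
      ((ContinuousLinearMap.proj i : (Fin m → Y) →L[ℝ] Y).comp T) := by
    ext x i
    simp only [_root_.sum_apply, ContinuousLinearMap.comp_apply,
      ContinuousLinearMap.proj_apply, ContinuousLinearMap.single_apply, Finset.sum_apply]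
    rw [Finset.sum_eq_single i]
    · simp
    · intro j _ hj
      simp [hj.symm]
    · intro h; exact absurd (Finset.mem_univ i) h
  rw [e]
  exact Submodule.sum_mem _ fun i _ => AF.comp_left (h i) _

lemma QInv.pow {m : ℕ} {T : X →L[ℝ] Y} {S : Y →L[ℝ] X} (h : QInv T S) :
    QInv (PF.pow m T) (PF.pow m S) := by
  constructor
  · refine mem_AF_pi fun i => ?_
    have e : (ContinuousLinearMap.proj i : (Fin m → X) →L[ℝ] X).comp
        (1 - (PF.pow m S).comp (PF.pow m T)) = (1 - S.comp T).comp (ContinuousLinearMap.proj i) := by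
      ext x; simp
    rw [e]
    exact AF.comp_right h.left _
  · refine mem_AF_pi fun i => ?_
    have e : (ContinuousLinearMap.proj i : (Fin m → Y) →L[ℝ] Y).comp
        (1 - (PF.pow m T).comp (PF.pow m S)) = (1 - T.comp S).comp (ContinuousLinearMap.proj i) := by
      ext x; simp
    rw [e]
    exact AF.comp_right h.right _

lemma QInv.idx_pow [CompleteSpace X] [CompleteSpace Y] {m : ℕ} {T : X →L[ℝ] Y} {S : Y →L[ℝ] X}
    (h : QInv T S) : idx (PF.pow m T) = m * idx T := by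
  have := (h.finIdx.1).pi (m := m)
  exact this

end AF2

end Pool.Agent.Lib_helper53.PF
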