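import Mathlib
import Pool.Agent.Lib_helper53.PFCuntz
import Pool.Agent.Lib_helper53.PFIndex

set_option linter.unusedSectionVars false

open Set Filter Topology Metric

namespace Pool.Agent.Lib_helper53.PF

section eqv

variable {X Y Z : Type} [NormedAddCommGroup X] [NormedSpace ℝ X]
  [NormedAddCommGroup Y] [NormedSpace ℝ Y] [NormedAddCommGroup Z] [NormedSpace ℝ Z]

/-- equality modulo approximable operators -/
def Eqv (S T : X →L[ℝ] Y) : Prop := S - T ∈ AF X Y

lemma Eqv.refl (S : X →L[ℝ] Y) : Eqv S S := by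
  unfold Eqv; rw [sub_self]; exact (AF X Y).zero_mem

lemma Eqv.symm {S T : X →L[ℝ] Y} (h : Eqv S T) : Eqv T S := by
  unfold Eqv at *
  rw [← neg_sub]
  exact (AF X Y).neg_mem h

lemma Eqv.trans {S T U : X →L[ℝ] Y} (h : Eqv S T) (h' : Eqv T U) : Eqv S U := by
  unfold Eqv at *
  rw [← sub_add_sub_cancel S T U]
  exact (AF X Y).add_mem h h'

lemma Eqv.add {S T S' T' : X →L[ℝ] Y} (h : Eqv S T) (h' : Eqv S' T') : Eqv (S + S') (T + T') := by
  unfold Eqv at *
  rw [add_sub_add_comm]
  exact (AF X Y).add_mem h h'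

lemma Eqv.comp {S T : X →L[ℝ] Y} {S' T' : Y →L[ℝ] Z} (h' : Eqv S' T') (h : Eqv S T) :
    Eqv (S'.comp S) (T'.comp T) := by
  unfold Eqv at *
  have e : S'.comp S - T'.comp T = S'.comp (S - T) + (S' - T').comp T := by
    ext x; simp
  rw [e]
  exact (AF X Z).add_mem (AF.comp_left h S') (AF.comp_right h' T)

end eqv

/-- the Hilbert space of words -/
abbrev HW := L2 W

/-- operators whose values live on the empty word -/
lemma mem_AF_of_nil {X : Type} [NormedAddCommGroup X] [NormedSpace ℝ X] {T : X →L[ℝ] HW}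
    (h : ∀ x (w : W), w ≠ [] → (T x) w = 0) : T ∈ AF X HW := by
  refine mem_AF_of_FR ?_
  change FiniteDimensional ℝ (LinearMap.range (T : X →ₗ[ℝ] HW))
  refine Submodule.finiteDimensional_of_le (S₂ := Submodule.span ℝ {(L2.e [] : HW)}) ?_
  rintro _ ⟨x, rfl⟩
  rw [Submodule.mem_span_singleton]
  refine ⟨(T x) [], ?_⟩
  ext w
  change (T x) [] * (L2.e [] : HW) w = (T x) w
  by_cases hw : w = []
  · rw [hw, L2.e_apply_self, mul_one]
  · rw [L2.e_apply_ne hw, mul_zero, h x w hw]

lemma inj_cons (i : Fin 4) : Function.Injective fun w : W => i :: w := fun _ _ h => by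
  simpa using h

lemma inj_snoc (j : Fin 4) : Function.Injective fun w : W => w ++ [j] := fun _ _ h => by
  simpa using h

/-- left creation and annihilation -/
noncomputable def Lc (i : Fin 4) : HW →L[ℝ] HW := L2.push (fun w : W => i :: w) (inj_cons i)
noncomputable def La (i : Fin 4) : HW →L[ℝ] HW := L2.pull (fun w : W => i :: w) (inj_cons i)
/-- right creation and annihilation -/
noncomputable def Rc (i : Fin 4) : HW →L[ℝ] HW := L2.push (fun w : W => w ++ [i]) (inj_snoc i)
noncomputable def Ra (i : Fin 4) : HW →L[ℝ] HW := L2.pull (fun w : W => w ++ [i]) (inj_snoc i)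

lemma La_Lc_self (i : Fin 4) (f : HW) : La i (Lc i f) = f := L2.pull_push _ _ f
lemma La_Lc_ne {i j : Fin 4} (h : i ≠ j) (f : HW) : La i (Lc j f) = 0 :=
  L2.pull_push_ne _ _ _ _ (fun w w' h' => h (by
    simp only [List.cons.injEq] at h'
    exact h'.1.symm)) f
lemma Ra_Rc_self (i : Fin 4) (f : HW) : Ra i (Rc i f) = f := L2.pull_push _ _ f
lemma Ra_Rc_ne {i j : Fin 4} (h : i ≠ j) (f : HW) : Ra i (Rc j f) = 0 :=
  L2.pull_push_ne _ _ _ _ (fun w w' h' => h (by
    have := List.append_inj_right' h' rfl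
    simpa using this.symm)) f

lemma La_Ra (i j : Fin 4) : (La i).comp (Ra j) = (Ra j).comp (La i) := by
  refine ContinuousLinearMap.ext fun f => ?_
  ext w
  rfl

lemma Lc_cons_self (i : Fin 4) (f : HW) (w : W) : (Lc i f) (i :: w) = f w :=
  L2.push_apply_self (fun w : W => i :: w) (inj_cons i) f w

lemma Lc_cons_ne {i k : Fin 4} (h : i ≠ k) (f : HW) (w : W) : (Lc i f) (k :: w) = 0 :=
  L2.push_apply_of_notMem _ _ f fun w' h' => h (by
    simp only [List.cons.injEq] at h'
    exact h'.1)

lemma Ra_Lc (i j : Fin 4) : Eqv ((Ra j).comp (Lc i)) ((Lc i).comp (Ra j)) := by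
  refine mem_AF_of_nil fun f w hw => ?_
  obtain ⟨k, w', rfl⟩ := List.exists_cons_of_ne_nil hw
  change (Lc i f) (k :: (w' ++ [j])) - (Lc i (Ra j f)) (k :: w') = 0
  by_cases h : i = k
  · subst h
    rw [Lc_cons_self, Lc_cons_self]
    exact sub_self _
  · rw [Lc_cons_ne h, Lc_cons_ne h, sub_zero]

/-- the embedding of the words -/
def ta (w : W) : Om := sw w (0, 0)

lemma ta_inj : Function.Injective ta := fun _ _ h => sw_free h

noncomputable def io : HW →L[ℝ] HE := L2.push ta ta_inj
noncomputable def pr : HE →L[ℝ] HW := L2.pull ta ta_inj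

lemma pr_io : pr.comp io = 1 := by
  refine ContinuousLinearMap.ext fun f => ?_
  exact L2.pull_push ta ta_inj f

/-- the compression -/
noncomputable def cmp (T : HE →L[ℝ] HE) : HW →L[ℝ] HW := pr.comp (T.comp io)

lemma pr_C (i : Fin 4) : pr.comp (C [i]) = (La i).comp pr := by
  refine ContinuousLinearMap.ext fun f => ?_
  ext w
  rfl

lemma pr_S (i : Fin 4) : Eqv (pr.comp (S [i])) ((Lc i).comp pr) := by
  refine mem_AF_of_nil fun f w hw => ?_
  obtain ⟨k, w', rfl⟩ := List.exists_cons_of_ne_nil hw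
  change (S [i] f) (sm k (ta w')) - (Lc i (pr f)) (k :: w') = 0
  by_cases h : i = k
  · subst h
    rw [Lc_cons_self]
    have : (S [i] f) (sm i (ta w')) = f (ta w') :=
      L2.push_apply_self (sw [i]) (sw_inj [i]) f (ta w')
    rw [this]
    exact sub_self _
  · rw [Lc_cons_ne h, sub_zero]
    exact L2.push_apply_of_notMem (sw [i]) (sw_inj [i]) f fun ω hω => h (sm_inj hω).1

/-- the good operators -/
structure Good (T : HE →L[ℝ] HE) : Prop where
  near : Eqv (pr.comp T) ((cmp T).comp pr)
  comm : ∀ j, Eqv ((Ra j).comp (cmp T)) ((cmp T).comp (Ra j))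

lemma cmp_mul {T T' : HE →L[ℝ] HE} (h : Good T) : Eqv (cmp (T * T')) ((cmp T).comp (cmp T')) := by
  have e1 : cmp (T * T') = (pr.comp T).comp (T'.comp io) := rfl
  have e2 : (cmp T).comp (cmp T') = ((cmp T).comp pr).comp (T'.comp io) := rfl
  rw [e1, e2]
  exact h.near.comp (Eqv.refl _)

lemma cmp_one : cmp 1 = 1 := pr_io

lemma cmp_add (T T' : HE →L[ℝ] HE) : cmp (T + T') = cmp T + cmp T' := by
  refine ContinuousLinearMap.ext fun f => ?_
  change pr ((T + T') (io f)) = pr (T (io f)) + pr (T' (io f))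
  rw [add_apply, map_add]

lemma cmp_smul (r : ℝ) (T : HE →L[ℝ] HE) : cmp (r • T) = r • cmp T := by
  refine ContinuousLinearMap.ext fun f => ?_
  change pr ((r • T) (io f)) = r • pr (T (io f))
  rw [smul_apply, map_smul]

lemma good_one : Good 1 := by
  constructor
  · rw [cmp_one]; exact Eqv.refl _
  · intro j; rw [cmp_one]; exact Eqv.refl _

lemma Good.mul {T T' : HE →L[ℝ] HE} (h : Good T) (h' : Good T') : Good (T * T') := by
  have hm := cmp_mul (T' := T') h
  constructor
  · have e1 : pr.comp (T * T') = (pr.comp T).comp T' := rfl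
    rw [e1]
    refine (h.near.comp (Eqv.refl T')).trans ?_
    have e2 : ((cmp T).comp pr).comp T' = (cmp T).comp (pr.comp T') := rfl
    rw [e2]
    refine ((Eqv.refl (cmp T)).comp h'.near).trans ?_
    have e3 : (cmp T).comp ((cmp T').comp pr) = ((cmp T).comp (cmp T')).comp pr := rfl
    rw [e3]
    exact hm.symm.comp (Eqv.refl pr)
  · intro j
    refine ((Eqv.refl (Ra j)).comp hm).trans ?_
    have e1 : (Ra j).comp ((cmp T).comp (cmp T')) = ((Ra j).comp (cmp T)).comp (cmp T') := rfl
    rw [e1]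
    refine ((h.comm j).comp (Eqv.refl (cmp T'))).trans ?_
    have e2 : ((cmp T).comp (Ra j)).comp (cmp T') = (cmp T).comp ((Ra j).comp (cmp T')) := rfl
    rw [e2]
    refine ((Eqv.refl (cmp T)).comp (h'.comm j)).trans ?_
    have e3 : (cmp T).comp ((cmp T').comp (Ra j)) = ((cmp T).comp (cmp T')).comp (Ra j) := rfl
    rw [e3]
    exact hm.symm.comp (Eqv.refl (Ra j))

lemma good_C (i : Fin 4) : Good (C [i]) := by
  have e1 : cmp (C [i]) = La i := by
    have : cmp (C [i]) = (pr.comp (C [i])).comp io := rfl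
    rw [this, pr_C]
    have : ((La i).comp pr).comp io = (La i).comp (pr.comp io) := rfl
    rw [this, pr_io]
    rfl
  constructor
  · rw [e1, pr_C]; exact Eqv.refl _
  · intro j; rw [e1, La_Ra]; exact Eqv.refl _

lemma cmp_S (i : Fin 4) : Eqv (cmp (S [i])) (Lc i) := by
  have e1 : cmp (S [i]) = (pr.comp (S [i])).comp io := rfl
  have e2 : Lc i = ((Lc i).comp pr).comp io := by
    have : ((Lc i).comp pr).comp io = (Lc i).comp (pr.comp io) := rfl
    rw [this, pr_io]
    rfl
  rw [e1]
  conv => rhs; rw [e2]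
  exact (pr_S i).comp (Eqv.refl io)

lemma cmp_C (i : Fin 4) : cmp (C [i]) = La i := by
  have : cmp (C [i]) = (pr.comp (C [i])).comp io := rfl
  rw [this, pr_C]
  have : ((La i).comp pr).comp io = (La i).comp (pr.comp io) := rfl
  rw [this, pr_io]
  rfl

lemma good_S (i : Fin 4) : Good (S [i]) := by
  constructor
  · exact (pr_S i).trans ((cmp_S i).symm.comp (Eqv.refl pr))
  · intro j
    exact ((Eqv.refl (Ra j)).comp (cmp_S i)).trans ((Ra_Lc i j).trans
      ((cmp_S i).symm.comp (Eqv.refl (Ra j))))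

lemma good_S_word (w : W) : Good (S w) := by
  induction w with
  | nil => rw [S_nil]; exact good_one
  | cons i w ih =>
    have : S (i :: w) = S [i] * S w := S_append [i] w
    rw [this]
    exact (good_S i).mul ih

lemma good_C_word (w : W) : Good (C w) := by
  induction w with
  | nil => rw [C_nil]; exact good_one
  | cons i w ih =>
    have : C (i :: w) = C w * C [i] := C_append [i] w
    rw [this]
    exact ih.mul (good_C i)

/-- all elements of the algebra are good -/
lemma good_of_mem {T : HE →L[ℝ] HE} (hT : T ∈ CA) : Good T := by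
  -- the linear maps expressing goodness
  have hc1 : Continuous fun T : HE →L[ℝ] HE => pr.comp T - (cmp T).comp pr := by
    unfold cmp; fun_prop
  have hc2 : ∀ j, Continuous fun T : HE →L[ℝ] HE => (Ra j).comp (cmp T) - (cmp T).comp (Ra j) := by
    intro j; unfold cmp; fun_prop
  have hM0 : ∀ T ∈ M0, Good T := by
    intro T hT
    refine Submodule.span_induction ?_ ?_ ?_ ?_ hT
    · rintro _ ⟨⟨u, v⟩, rfl⟩
      exact (good_S_word u).mul (good_C_word v)
    · constructor
      · have : cmp 0 = 0 := by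
          have := cmp_smul 0 0
          simpa using this
        rw [this]
        exact Eqv.refl _
      · intro j
        have : cmp 0 = 0 := by
          have := cmp_smul 0 0
          simpa using this
        rw [this]
        unfold Eqv
        simp
    · rintro x y _ _ hx hy
      constructor
      · rw [cmp_add]
        have e1 : pr.comp (x + y) = pr.comp x + pr.comp y := by
          refine ContinuousLinearMap.ext fun f => ?_
          change pr ((x + y) f) = pr (x f) + pr (y f)
          rw [add_apply, map_add]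
        have e2 : (cmp x + cmp y).comp pr = (cmp x).comp pr + (cmp y).comp pr := rfl
        rw [e1, e2]
        exact hx.near.add hy.near
      · intro j
        rw [cmp_add]
        have e1 : (Ra j).comp (cmp x + cmp y) = (Ra j).comp (cmp x) + (Ra j).comp (cmp y) := by
          refine ContinuousLinearMap.ext fun f => ?_
          change Ra j ((cmp x + cmp y) f) = Ra j (cmp x f) + Ra j (cmp y f)
          rw [add_apply, map_add]
        have e2 : (cmp x + cmp y).comp (Ra j) = (cmp x).comp (Ra j) + (cmp y).comp (Ra j) := rfl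
        rw [e1, e2]
        exact (hx.comm j).add (hy.comm j)
    · rintro r x _ hx
      constructor
      · rw [cmp_smul]
        have e1 : pr.comp (r • x) - (r • cmp x).comp pr = r • (pr.comp x - (cmp x).comp pr) := by
          refine ContinuousLinearMap.ext fun f => ?_
          change pr ((r • x) f) - r • cmp x (pr f) = r • (pr (x f) - cmp x (pr f))
          rw [smul_apply, map_smul, smul_sub]
        unfold Eqv
        rw [e1]
        exact (AF HE HW).smul_mem r hx.near
      · intro j
        rw [cmp_smul]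
        have e1 : (Ra j).comp (r • cmp x) - (r • cmp x).comp (Ra j)
            = r • ((Ra j).comp (cmp x) - (cmp x).comp (Ra j)) := by
          refine ContinuousLinearMap.ext fun f => ?_
          change Ra j ((r • cmp x) f) - r • cmp x (Ra j f) = r • (Ra j (cmp x f) - cmp x (Ra j f))
          rw [smul_apply, map_smul, smul_sub]
        unfold Eqv
        rw [e1]
        exact (AF HW HW).smul_mem r (hx.comm j)
  have hcl : T ∈ closure (M0 : Set (HE →L[ℝ] HE)) := hT
  constructor
  · have h1 := map_mem_closure (t := (AF HE HW : Set (HE →L[ℝ] HW))) hc1 hcl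
      fun x hx => (hM0 x hx).near
    rwa [isClosed_AF.closure_eq] at h1
  · intro j
    have h1 := map_mem_closure (t := (AF HW HW : Set (HW →L[ℝ] HW))) (hc2 j) hcl
      fun x hx => (hM0 x hx).comm j
    rwa [isClosed_AF.closure_eq] at h1

/-- right annihilation, collected -/
noncomputable def rho : HW →L[ℝ] (Fin 4 → HW) := ContinuousLinearMap.pi fun j => Ra j

noncomputable def rhoInv : (Fin 4 → HW) →L[ℝ] HW :=
  ∑ j, (Rc j).comp (ContinuousLinearMap.proj j)

lemma rhoInv_apply (x : Fin 4 → HW) : rhoInv x = ∑ j, Rc j (x j) := by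
  unfold rhoInv
  rw [_root_.sum_apply]
  rfl

lemma rho_rhoInv (x : Fin 4 → HW) : rho (rhoInv x) = x := by
  ext1 j
  change Ra j (rhoInv x) = x j
  rw [rhoInv_apply, map_sum, Finset.sum_eq_single j]
  · exact Ra_Rc_self j _
  · intro k _ hk
    exact Ra_Rc_ne hk.symm _
  · intro h; exact absurd (Finset.mem_univ j) h

lemma qinv_rho : QInv rho rhoInv := by
  constructor
  · refine mem_AF_of_nil fun f w hw => ?_
    obtain ⟨w', j, rfl⟩ : ∃ w' j, w = w' ++ [j] :=
      ⟨w.dropLast, w.getLast hw, (List.dropLast_append_getLast hw).symm⟩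
    have e1 : (1 - rhoInv.comp rho : HW →L[ℝ] HW) f = f - rhoInv (rho f) := rfl
    rw [e1]
    have e2 : Ra j (f - rhoInv (rho f)) = 0 := by
      rw [map_sub]
      have := congrFun (rho_rhoInv (rho f)) j
      change Ra j (rhoInv (rho f)) = Ra j f at this
      rw [this, sub_self]
    have e3 : (f - rhoInv (rho f)) (w' ++ [j]) = (Ra j (f - rhoInv (rho f))) w' := rfl
    rw [e3, e2]
    rfl
  · have : (1 - rho.comp rhoInv : (Fin 4 → HW) →L[ℝ] (Fin 4 → HW)) = 0 := by
      refine ContinuousLinearMap.ext fun x => ?_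
      change x - rho (rhoInv x) = 0
      rw [rho_rhoInv, sub_self]
    rw [this]
    exact (AF _ _).zero_mem

lemma idx_rho : idx rho = 1 := by
  unfold idx
  have hsurj : Function.Surjective (rho : HW →ₗ[ℝ] (Fin 4 → HW)) := fun x => ⟨rhoInv x, rho_rhoInv x⟩
  rw [LinearMap.index_of_surjective hsurj]
  have hker : LinearMap.ker (rho : HW →ₗ[ℝ] (Fin 4 → HW)) = Submodule.span ℝ {(L2.e [] : HW)} := by
    ext f
    rw [LinearMap.mem_ker, Submodule.mem_span_singleton]
    constructor
    · intro hf
      refine ⟨f [], ?_⟩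
      ext w
      change f [] * (L2.e [] : HW) w = f w
      by_cases hw : w = []
      · rw [hw, L2.e_apply_self, mul_one]
      · rw [L2.e_apply_ne hw, mul_zero]
        obtain ⟨w', j, rfl⟩ : ∃ w' j, w = w' ++ [j] :=
          ⟨w.dropLast, w.getLast hw, (List.dropLast_append_getLast hw).symm⟩
        have h1 : Ra j f = 0 := congrFun hf j
        have h2 : f (w' ++ [j]) = (Ra j f) w' := rfl
        rw [h2, h1]
        rfl
    · rintro ⟨c, rfl⟩
      ext1 j
      change Ra j (c • L2.e []) = 0
      rw [map_smul]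
      have : Ra j (L2.e []) = 0 := by
        ext w
        change (L2.e [] : HW) (w ++ [j]) = 0
        exact L2.e_apply_ne (by simp)
      rw [this, smul_zero]
  rw [hker, finrank_span_singleton]
  · rfl
  · intro h
    have := L2.norm_e (I := W) []
    rw [h, norm_zero] at this
    exact zero_ne_one this

/-- swapping two families -/
noncomputable def swp : (Fin 2 → Fin 4 → HW) →L[ℝ] (Fin 4 → Fin 2 → HW) :=
  ContinuousLinearMap.pi fun j => ContinuousLinearMap.pi fun r =>
    (ContinuousLinearMap.proj j : (Fin 4 → HW) →L[ℝ] HW).comp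
      (ContinuousLinearMap.proj r : (Fin 2 → Fin 4 → HW) →L[ℝ] (Fin 4 → HW))

noncomputable def swp' : (Fin 4 → Fin 2 → HW) →L[ℝ] (Fin 2 → Fin 4 → HW) :=
  ContinuousLinearMap.pi fun r => ContinuousLinearMap.pi fun j =>
    (ContinuousLinearMap.proj r : (Fin 2 → HW) →L[ℝ] HW).comp
      (ContinuousLinearMap.proj j : (Fin 4 → Fin 2 → HW) →L[ℝ] (Fin 2 → HW))

lemma qinv_swp : QInv swp swp' := by
  constructor
  · have : (1 - swp'.comp swp : (Fin 2 → Fin 4 → HW) →L[ℝ] _) = 0 := by
      refine ContinuousLinearMap.ext fun x => ?_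
      exact sub_self x
    rw [this]
    exact (AF _ _).zero_mem
  · have : (1 - swp.comp swp' : (Fin 4 → Fin 2 → HW) →L[ℝ] _) = 0 := by
      refine ContinuousLinearMap.ext fun x => ?_
      exact sub_self x
    rw [this]
    exact (AF _ _).zero_mem

lemma idx_swp : idx swp = 0 := by
  set e : (Fin 2 → Fin 4 → HW) ≃ₗ[ℝ] (Fin 4 → Fin 2 → HW) :=
    { (swp : (Fin 2 → Fin 4 → HW) →ₗ[ℝ] (Fin 4 → Fin 2 → HW)) with
      invFun := swp'
      left_inv := fun x => rfl
      right_inv := fun x => rfl } with he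
  have : idx swp = (e : (Fin 2 → Fin 4 → HW) →ₗ[ℝ] (Fin 4 → Fin 2 → HW)).index := rfl
  rw [this, LinearEquiv.index_eq_zero]

/-- the projections `S_i S_i^* + S_j S_j^*` are not equivalent to the identity -/
theorem no_equiv (i₀ i₁ : Fin 4) (hne : i₀ ≠ i₁) (a b : HE →L[ℝ] HE) (ha : a ∈ CA) (hb : b ∈ CA)
    (hba : b * a = 1) (hab : a * b = S [i₀] * C [i₀] + S [i₁] * C [i₁]) : False := by
  have hga := good_of_mem ha
  have hgb := good_of_mem hb
  -- the compressions
  set α := cmp a with hα
  set β := cmp b with hβ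
  have h1 : Eqv (β.comp α) 1 := by
    have := cmp_mul (T' := a) hgb
    rw [hba, cmp_one] at this
    exact this.symm
  set Pp : HW →L[ℝ] HW := (Lc i₀).comp (La i₀) + (Lc i₁).comp (La i₁) with hPp
  have h2 : Eqv (α.comp β) Pp := by
    have e1 := cmp_mul (T' := b) hga
    rw [hab, cmp_add] at e1
    have e2 : ∀ i, Eqv (cmp (S [i] * C [i])) ((Lc i).comp (La i)) := fun i => by
      refine (cmp_mul (good_S i)).trans ?_
      rw [cmp_C]
      exact (cmp_S i).comp (Eqv.refl _)
    exact e1.symm.trans ((e2 i₀).add (e2 i₁))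
  set r : Fin 2 → Fin 4 := ![i₀, i₁] with hr
  set Φ : HW →L[ℝ] (Fin 2 → HW) := ContinuousLinearMap.pi fun k => (La (r k)).comp α with hΦ
  set Ls : (Fin 2 → HW) →L[ℝ] HW := (Lc i₀).comp (ContinuousLinearMap.proj 0) +
    (Lc i₁).comp (ContinuousLinearMap.proj 1) with hLs
  set Ψ : (Fin 2 → HW) →L[ℝ] HW := β.comp Ls with hΨ
  have hQ : QInv Φ Ψ := by
    constructor
    · have e1 : Ψ.comp Φ = (β.comp Pp).comp α := rfl
      have e2 : Eqv ((β.comp Pp).comp α) 1 := by
        refine (((Eqv.refl β).comp h2.symm).comp (Eqv.refl α)).trans ?_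
        have e3 : (β.comp (α.comp β)).comp α = (β.comp α).comp (β.comp α) := rfl
        rw [e3]
        exact h1.comp h1
      rw [e1]
      exact e2.symm
    · refine mem_AF_pi fun k => ?_
      have e1 : (ContinuousLinearMap.proj k : (Fin 2 → HW) →L[ℝ] HW).comp (1 - Φ.comp Ψ)
          = (La (r k)).comp ((Pp - α.comp β).comp Ls) := by
        refine ContinuousLinearMap.ext fun x => ?_
        change x k - La (r k) (α (β (Ls x))) = La (r k) (Pp (Ls x) - α (β (Ls x)))
        rw [map_sub]
        congr 1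
        have e2 : Ls x = Lc i₀ (x 0) + Lc i₁ (x 1) := rfl
        have e3 : Pp (Ls x) = Lc i₀ (La i₀ (Ls x)) + Lc i₁ (La i₁ (Ls x)) := rfl
        have e4 : La i₀ (Ls x) = x 0 := by
          rw [e2, map_add, La_Lc_self, La_Lc_ne hne, add_zero]
        have e5 : La i₁ (Ls x) = x 1 := by
          rw [e2, map_add, La_Lc_self, La_Lc_ne hne.symm, zero_add]
        rw [e3, e4, e5]
        fin_cases k
        · change x 0 = La i₀ (Lc i₀ (x 0) + Lc i₁ (x 1))
          rw [map_add, La_Lc_self, La_Lc_ne hne, add_zero]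
        · change x 1 = La i₁ (Lc i₀ (x 0) + Lc i₁ (x 1))
          rw [map_add, La_Lc_self, La_Lc_ne hne.symm, zero_add]
      rw [e1]
      exact AF.comp_left (AF.comp_right h2.symm Ls) _
  -- the intertwining relation
  have hrel : ((PF.pow 4 Φ).comp rho) - (swp.comp ((PF.pow 2 rho).comp Φ))
      ∈ AF HW (Fin 4 → Fin 2 → HW) := by
    refine mem_AF_pi fun j => mem_AF_pi fun k => ?_
    have e1 : (ContinuousLinearMap.proj k : (Fin 2 → HW) →L[ℝ] HW).comp
        ((ContinuousLinearMap.proj j : (Fin 4 → Fin 2 → HW) →L[ℝ] (Fin 2 → HW)).comp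
          (((PF.pow 4 Φ).comp rho) - (swp.comp ((PF.pow 2 rho).comp Φ))))
        = (La (r k)).comp (α.comp (Ra j) - (Ra j).comp α) := by
      refine ContinuousLinearMap.ext fun f => ?_
      change La (r k) (α (Ra j f)) - Ra j (La (r k) (α f)) = La (r k) (α (Ra j f) - Ra j (α f))
      rw [map_sub]
      congr 1
    rw [e1]
    exact AF.comp_left (hga.comm j).symm _
  have hidx1 := (qinv_rho.comp (hQ.pow (m := 4))).idx_congr hrel
  rw [qinv_rho.idx_comp (hQ.pow (m := 4)), hQ.idx_pow,
    (hQ.comp (qinv_rho.pow (m := 2))).idx_comp qinv_swp,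
    hQ.idx_comp (qinv_rho.pow (m := 2)), qinv_rho.idx_pow, idx_rho, idx_swp] at hidx1
  push_cast at hidx1
  omega

end Pool.Agent.Lib_helper53.PF
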