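import Mathlib
import Pool.Agent.Lib_helper53.PFNoIso
import Pool.Agent.Lib_helper53.PFFinal

set_option linter.unusedSectionVars false

open Set Filter Topology Metric

namespace Pool.Agent.Lib_helper53.PF

lemma SC_apply_self (i : Fin 4) (f : HE) (ω : Om) : (S [i] (C [i] f)) (sm i ω) = f (sm i ω) :=
  L2.push_apply_self (sw [i]) (sw_inj [i]) (C [i] f) ω

lemma SC_apply_ne {i k : Fin 4} (h : k ≠ i) (f : HE) (ω : Om) :
    (S [k] (C [k] f)) (sm i ω) = 0 :=
  L2.push_apply_of_notMem (sw [k]) (sw_inj [k]) (C [k] f) fun _ hω => h (sm_inj hω).1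

lemma sum_SC : S [0] * C [0] + S [1] * C [1] + (S [2] * C [2] + S [3] * C [3])
    = (1 : HE →L[ℝ] HE) := by
  refine ContinuousLinearMap.ext fun f => ?_
  ext ω
  obtain ⟨i, ω', rfl⟩ := sm_surj ω
  change (S [0] (C [0] f)) (sm i ω') + (S [1] (C [1] f)) (sm i ω')
    + ((S [2] (C [2] f)) (sm i ω') + (S [3] (C [3] f)) (sm i ω')) = f (sm i ω')
  fin_cases i
  · have h := SC_apply_self 0 f ω'
    have h1 := SC_apply_ne (i := 0) (k := 1) (by decide) f ω'
    have h2 := SC_apply_ne (i := 0) (k := 2) (by decide) f ω'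
    have h3 := SC_apply_ne (i := 0) (k := 3) (by decide) f ω'
    simp only [Fin.zero_eta, Fin.isValue] at *
    rw [h, h1, h2, h3]; simp
  · have h := SC_apply_self 1 f ω'
    have h1 := SC_apply_ne (i := 1) (k := 0) (by decide) f ω'
    have h2 := SC_apply_ne (i := 1) (k := 2) (by decide) f ω'
    have h3 := SC_apply_ne (i := 1) (k := 3) (by decide) f ω'
    simp only [Fin.mk_one, Fin.isValue] at *
    rw [h, h1, h2, h3]; simp
  · have h := SC_apply_self 2 f ω'
    have h1 := SC_apply_ne (i := 2) (k := 0) (by decide) f ω'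
    have h2 := SC_apply_ne (i := 2) (k := 1) (by decide) f ω'
    have h3 := SC_apply_ne (i := 2) (k := 3) (by decide) f ω'
    simp only [Fin.reduceFinMk, Fin.isValue] at *
    rw [h, h1, h2, h3]; simp
  · have h := SC_apply_self 3 f ω'
    have h1 := SC_apply_ne (i := 3) (k := 0) (by decide) f ω'
    have h2 := SC_apply_ne (i := 3) (k := 1) (by decide) f ω'
    have h3 := SC_apply_ne (i := 3) (k := 2) (by decide) f ω'
    simp only [Fin.reduceFinMk, Fin.isValue] at *
    rw [h, h1, h2, h3]; simp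

lemma CS_same (i : Fin 4) : C [i] * S [i] = 1 := C_mul_S_self [i]

lemma CS_ne {i j : Fin 4} (h : i ≠ j) : C [i] * S [j] = 0 :=
  C_mul_S_of_not (fun r hr => h (by
    simp only [List.cons_append, List.nil_append, List.cons.injEq] at hr
    exact hr.1.symm)) (fun r hr => h (by
    simp only [List.cons_append, List.nil_append, List.cons.injEq] at hr
    exact hr.1))

/-- the projection -/
noncomputable def pp : HE →L[ℝ] HE := S [0] * C [0] + S [1] * C [1]

lemma pp_mem : pp ∈ CA :=
  CA.add_mem (CA.mul_mem (S_mem _) (C_mem _)) (CA.mul_mem (S_mem _) (C_mem _))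

lemma pp_idem : pp * pp = pp := by
  have e : ∀ i j : Fin 4, S [i] * C [i] * (S [j] * C [j]) = S [i] * (C [i] * S [j]) * C [j] := by
    intro i j
    simp only [mul_assoc]
  unfold pp
  rw [mul_add, add_mul, add_mul, e, e, e, e, CS_same, CS_same, CS_ne (i := 0) (j := 1) (by decide),
    CS_ne (i := 1) (j := 0) (by decide)]
  simp

/-- There is a real Banach space in which the identity factors through every operator or its
complement, and which is not primary. -/
theorem exists_pfp_not_primary :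
    ∃ (X : Type) (_ : NormedAddCommGroup X) (_ : NormedSpace ℝ X) (_ : CompleteSpace X),
      (∀ T : X →L[ℝ] X, (∃ U V : X →L[ℝ] X, U * T * V = 1) ∨
        (∃ U V : X →L[ℝ] X, U * ((1 : X →L[ℝ] X) - T) * V = 1)) ∧
      ∃ P : X →L[ℝ] X, P * P = P ∧ ¬ Nonempty (X ≃L[ℝ] LinearMap.range (P : X →ₗ[ℝ] X)) ∧
        ¬ Nonempty (X ≃L[ℝ] LinearMap.range (((1 : X →L[ℝ] X) - P : X →L[ℝ] X) : X →ₗ[ℝ] X)) := by
  refine main_of_algebra (E := HE) CA isClosed_CA CA_factor ⟨pp, pp_mem⟩ ?_ ?_ ?_
  · exact Subtype.ext pp_idem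
  · rintro ⟨a, b, hba, hab⟩
    exact no_equiv 0 1 (by decide) a b a.2 b.2 (congrArg Subtype.val hba)
      (congrArg Subtype.val hab)
  · rintro ⟨a, b, hba, hab⟩
    refine no_equiv 2 3 (by decide) a b a.2 b.2 (congrArg Subtype.val hba) ?_
    have h1 : (a : HE →L[ℝ] HE) * b = 1 - pp := congrArg Subtype.val hab
    rw [h1, sub_eq_iff_eq_add, ← sum_SC]
    unfold pp
    abel

end Pool.Agent.Lib_helper53.PF
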