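import Mathlib
import Pool.Agent.Lib_helper53.Defs
import Pool.Agent.Lib_helper53.Fusion
import Pool.Agent.Lib_helper53.Extend
import Pool.Agent.Lib_helper53.GDelta

open Set Filter Topology Metric

namespace Pool.Agent.Lib_helper53

/-- finitely supported sequences, with the topology of coordinatewise convergence -/
def FF : Submodule ℝ (ℕ → ℝ) where
  carrier := {y | ∃ n, ∀ i ≥ n, y i = 0}
  add_mem' := by
    rintro x y ⟨n, hn⟩ ⟨m, hm⟩
    refine ⟨max n m, fun i hi => ?_⟩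
    rw [Pi.add_apply, hn i ((le_max_left _ _).trans hi), hm i ((le_max_right _ _).trans hi),
      add_zero]
  zero_mem' := ⟨0, fun i _ => rfl⟩
  smul_mem' := by
    rintro c x ⟨n, hn⟩
    exact ⟨n, fun i hi => by rw [Pi.smul_apply, hn i hi, smul_zero]⟩

instance : TopologicalSpace.MetrizableSpace FF :=
  Topology.IsEmbedding.subtypeVal.metrizableSpace

/-- unit vectors of `FF` -/
def unitF (n : ℕ) : FF := ⟨Pi.single n 1, n + 1, fun i hi => by
  rw [Pi.single_apply, if_neg (by omega)]⟩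

lemma unitF_self (n : ℕ) : (unitF n : ℕ → ℝ) n = 1 := by simp [unitF]

variable {A : Set T}

/-- the closed sets with empty interior covering the product -/
def Fn (A : Set T) (n : ℕ) : Set (EE A × FF) := {p | ∀ i ≥ n, (p.2 : ℕ → ℝ) i = 0}

lemma continuous_coord (A : Set T) (i : ℕ) :
    Continuous fun p : EE A × FF => (p.2 : ℕ → ℝ) i :=
  (continuous_apply i).comp (continuous_subtype_val.comp continuous_snd)

lemma isClosed_Fn (A : Set T) (n : ℕ) : IsClosed (Fn A n) := by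
  have : Fn A n = ⋂ i ∈ {i : ℕ | n ≤ i}, {p : EE A × FF | (p.2 : ℕ → ℝ) i = 0} := by
    ext p
    simp [Fn]
  rw [this]
  exact isClosed_biInter fun i _ => isClosed_eq (continuous_coord A i) continuous_const

lemma monotone_Fn (A : Set T) : Monotone (Fn A) := fun _ _ hmn _ hp i hi => hp i (hmn.trans hi)

lemma interior_Fn (A : Set T) (n : ℕ) : interior (Fn A n) = ∅ := by
  rw [eq_empty_iff_forall_notMem]
  intro p hp
  have hcont : Continuous fun t : ℝ => p + t • ((0, unitF n) : EE A × FF) := by fun_prop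
  have h1 : Tendsto (fun t : ℝ => p + t • ((0, unitF n) : EE A × FF)) (𝓝[≠] 0) (𝓝 p) := by
    have h2 := hcont.tendsto 0
    rw [zero_smul, add_zero] at h2
    exact h2.mono_left nhdsWithin_le_nhds
  have h3 := (h1.eventually (isOpen_interior.mem_nhds hp)).and self_mem_nhdsWithin
  obtain ⟨t, ht1, ht2⟩ := h3.exists
  have h4 := interior_subset ht1 n le_rfl
  have h5 := interior_subset hp n le_rfl
  have h6 : ((p + t • ((0, unitF n) : EE A × FF)).2 : ℕ → ℝ) n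
      = (p.2 : ℕ → ℝ) n + t * (unitF n : ℕ → ℝ) n := rfl
  rw [h6, h5, unitF_self] at h4
  apply ht2
  simpa using h4

lemma cover_Fn (A : Set T) (p : EE A × FF) : ∃ n, p ∈ Fn A n := p.2.2

/-- neighbourhoods in a countable product of lines -/
lemma exists_box (y₀ : ℕ → ℝ) {u : Set (ℕ → ℝ)} (hu : u ∈ 𝓝 y₀) :
    ∃ (n : ℕ) (r : ℝ), 0 < r ∧ ∀ y : ℕ → ℝ, (∀ i < n, |y i - y₀ i| < r) → y ∈ u := by
  rw [nhds_pi, Filter.mem_pi] at hu
  obtain ⟨I, hI, t, ht, hsub⟩ := hu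
  have h1 : ∀ i, ∃ r > 0, ball (y₀ i) r ⊆ t i := fun i => Metric.mem_nhds_iff.mp (ht i)
  choose r hr hball using h1
  obtain ⟨n, hn⟩ := hI.bddAbove
  obtain ⟨ρ, hρ, hρle⟩ : ∃ ρ > 0, ∀ i ≤ n, ρ ≤ r i := by
    refine ⟨(Finset.range (n + 1)).inf' ⟨0, by simp⟩ r, ?_, fun i hi => ?_⟩
    · rw [gt_iff_lt, Finset.lt_inf'_iff]
      exact fun i _ => hr i
    · exact Finset.inf'_le _ (Finset.mem_range.mpr (Nat.lt_succ_of_le hi))
  refine ⟨n + 1, ρ, hρ, fun y hy => hsub fun i hi => hball i ?_⟩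
  rw [mem_ball, Real.dist_eq]
  exact (hy i (Nat.lt_succ_of_le (hn hi))).trans_le (hρle i (hn hi))

lemma exists_box_prod (p : EE A × FF) {O : Set (EE A × FF)} (hO : O ∈ 𝓝 p) :
    ∃ (n : ℕ) (r : ℝ), 0 < r ∧ ∀ q : EE A × FF, dist q.1 p.1 < r →
      (∀ i < n, |(q.2 : ℕ → ℝ) i - (p.2 : ℕ → ℝ) i| < r) → q ∈ O := by
  rw [nhds_prod_eq, Filter.mem_prod_iff] at hO
  obtain ⟨u, hu, v, hv, huv⟩ := hO
  obtain ⟨r₁, hr₁, h1⟩ := Metric.mem_nhds_iff.mp hu
  rw [nhds_subtype_eq_comap, mem_comap] at hv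
  obtain ⟨v', hv', hvv⟩ := hv
  obtain ⟨n, r₂, hr₂, h2⟩ := exists_box _ hv'
  refine ⟨n, min r₁ r₂, lt_min hr₁ hr₂, fun q hq1 hq2 => huv ⟨h1 ?_, hvv ?_⟩⟩
  · exact hq1.trans_le (min_le_left _ _)
  · exact h2 _ fun i hi => (hq2 i hi).trans_le (min_le_right _ _)

/-- the embedding of `EE A × ℝⁿ` through a base point -/
noncomputable def emb (y₀ : FF) (n : ℕ) (z : EE A × (Fin n → ℝ)) : EE A × FF :=
  (z.1, ⟨fun i => if h : i < n then z.2 ⟨i, h⟩ else (y₀ : ℕ → ℝ) i, by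
    obtain ⟨m, hm⟩ := y₀.2
    exact ⟨max n m, fun i hi => (dif_neg (not_lt.mpr ((le_max_left _ _).trans hi))).trans
      (hm i ((le_max_right _ _).trans hi))⟩⟩)

lemma emb_snd_lt (y₀ : FF) (n : ℕ) (z : EE A × (Fin n → ℝ)) {i : ℕ} (hi : i < n) :
    ((emb y₀ n z).2 : ℕ → ℝ) i = z.2 ⟨i, hi⟩ := dif_pos hi

lemma emb_snd_ge (y₀ : FF) (n : ℕ) (z : EE A × (Fin n → ℝ)) {i : ℕ} (hi : ¬ i < n) :
    ((emb y₀ n z).2 : ℕ → ℝ) i = (y₀ : ℕ → ℝ) i := dif_neg hi

/-- the truncation map -/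
noncomputable def trunc (A : Set T) (n : ℕ) : EE A × FF →L[ℝ] EE A × (Fin n → ℝ) where
  toFun q := (q.1, fun i => (q.2 : ℕ → ℝ) i)
  map_add' _ _ := rfl
  map_smul' _ _ := rfl
  cont := by
    refine continuous_fst.prodMk (continuous_pi fun i => ?_)
    exact continuous_coord A i

lemma ext_FF {y y' : FF} (h : ∀ i, (y : ℕ → ℝ) i = (y' : ℕ → ℝ) i) : y = y' :=
  Subtype.ext (funext h)

/-- Density of the points of Gateaux differentiability on the product. -/
theorem dense_gateaux (hA : Prop2 A) {D : Set (EE A × FF)} {f : EE A × FF → ℝ} (hD : IsOpen D)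
    (hf : ConvexOn ℝ D f) (hc : ContinuousOn f D) :
    D ⊆ closure {x | x ∈ D ∧ GateauxDiffAt f x} := by
  intro p hp
  rw [_root_.mem_closure_iff]
  intro O hO hpO
  -- a box on which `f` is bounded
  have hnb : (O ∩ D) ∩ {q | q ∈ D ∧ |f q - f p| < 1} ∈ 𝓝 p := by
    refine inter_mem ((hO.inter hD).mem_nhds ⟨hpO, hp⟩) ?_
    have h1 := (hc.continuousAt (hD.mem_nhds hp)).eventually (Metric.ball_mem_nhds (f p) one_pos)
    filter_upwards [h1, hD.mem_nhds hp] with q hq hqD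
    exact ⟨hqD, by rwa [Real.dist_eq] at hq⟩
  obtain ⟨n, r, hr, hbox⟩ := exists_box_prod p hnb
  set W : Set (EE A × FF) := {q | dist q.1 p.1 < r ∧
    ∀ i < n, |(q.2 : ℕ → ℝ) i - (p.2 : ℕ → ℝ) i| < r} with hW
  have hWO : ∀ q ∈ W, q ∈ O ∧ q ∈ D ∧ |f q - f p| < 1 := by
    intro q hq
    have := hbox q hq.1 hq.2
    exact ⟨this.1.1, this.1.2, this.2.2⟩
  -- invariance in the far coordinates
  have hinv1 : ∀ q ∈ W, ∀ q' ∈ W, q.1 = q'.1 →
      (∀ i < n, (q.2 : ℕ → ℝ) i = (q'.2 : ℕ → ℝ) i) → f q' ≤ f q := by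
    intro q hq q' hq' h1 h2
    set γ : ℝ → EE A × FF := fun t => q + t • (q' - q) with hγ
    have hγW : ∀ t, γ t ∈ W := by
      intro t
      have e1 : (γ t).1 = q.1 := by
        change q.1 + t • (q'.1 - q.1) = q.1
        rw [h1, sub_self, smul_zero, add_zero]
      have e2 : ∀ i < n, ((γ t).2 : ℕ → ℝ) i = (q.2 : ℕ → ℝ) i := by
        intro i hi
        change (q.2 : ℕ → ℝ) i + t * ((q'.2 : ℕ → ℝ) i - (q.2 : ℕ → ℝ) i) = (q.2 : ℕ → ℝ) i
        rw [h2 i hi, sub_self, mul_zero, add_zero]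
      refine ⟨by rw [e1]; exact hq.1, fun i hi => by rw [e2 i hi]; exact hq.2 i hi⟩
    have hφ : ConvexOn ℝ univ fun t => f (γ t) := by
      refine ⟨convex_univ, fun s _ t _ a b ha hb hab => ?_⟩
      have e : γ (a • s + b • t) = a • γ s + b • γ t := by
        have hb' : b = 1 - a := by linarith
        subst hb'
        simp only [hγ, smul_eq_mul]
        module
      show f (γ (a • s + b • t)) ≤ a • f (γ s) + b • f (γ t)
      rw [e]
      exact hf.2 (hWO _ (hγW s)).2.1 (hWO _ (hγW t)).2.1 ha hb hab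
    have h3 := const_of_bdd hφ (M := f p + 1) fun t => by
      have := (abs_lt.mp (hWO _ (hγW t)).2.2).2
      linarith
    have e0 : γ 0 = q := by simp [hγ]
    have e1 : γ 1 = q' := by simp [hγ]
    simp only [e0, e1] at h3
    exact h3
  have hinv : ∀ q ∈ W, ∀ q' ∈ W, q.1 = q'.1 →
      (∀ i < n, (q.2 : ℕ → ℝ) i = (q'.2 : ℕ → ℝ) i) → f q = f q' := by
    intro q hq q' hq' h1 h2
    exact le_antisymm (hinv1 q' hq' q hq h1.symm fun i hi => (h2 i hi).symm)
      (hinv1 q hq q' hq' h1 h2)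
  -- the function on the finite-dimensional extension
  set z₀ : EE A × (Fin n → ℝ) := trunc A n p with hz₀
  set g : EE A × (Fin n → ℝ) → ℝ := fun z => f (emb p.2 n z) with hg
  have hembW : ∀ z ∈ ball z₀ r, emb p.2 n z ∈ W := by
    intro z hz
    rw [mem_ball, Prod.dist_eq, max_lt_iff] at hz
    refine ⟨hz.1, fun i hi => ?_⟩
    rw [emb_snd_lt _ _ _ hi]
    have h1 := (dist_pi_lt_iff hr).mp hz.2 ⟨i, hi⟩
    rwa [Real.dist_eq] at h1
  have hemb_aff : ∀ (z w : EE A × (Fin n → ℝ)) (a b : ℝ), a + b = 1 →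
      emb p.2 n (a • z + b • w) = a • emb p.2 n z + b • emb p.2 n w := by
    intro z w a b hab
    refine Prod.ext rfl (ext_FF fun i => ?_)
    change _ = a * ((emb p.2 n z).2 : ℕ → ℝ) i + b * ((emb p.2 n w).2 : ℕ → ℝ) i
    by_cases hi : i < n
    · rw [emb_snd_lt _ _ _ hi, emb_snd_lt _ _ _ hi, emb_snd_lt _ _ _ hi]
      rfl
    · rw [emb_snd_ge _ _ _ hi, emb_snd_ge _ _ _ hi, emb_snd_ge _ _ _ hi, ← add_mul, hab, one_mul]
  have hgconv : ConvexOn ℝ (ball z₀ r) g := by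
    refine ⟨convex_ball _ _, fun z hz w hw a b ha hb hab => ?_⟩
    simp only [hg]
    rw [hemb_aff z w a b hab]
    exact hf.2 (hWO _ (hembW z hz)).2.1 (hWO _ (hembW w hw)).2.1 ha hb hab
  have hgb : ∀ a, dist a z₀ < r → |g a| ≤ |f p| + 1 := by
    intro a ha
    have h1 := (hWO _ (hembW a ha)).2.2
    have h2 : |g a| ≤ |g a - f p| + |f p| := by
      calc |g a| = |(g a - f p) + f p| := by rw [sub_add_cancel]
        _ ≤ _ := abs_add_le _ _
    simp only [hg] at h2 ⊢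
    linarith
  have hLip := hgconv.lipschitzOnWith_of_abs_le (half_pos hr) hgb
  rw [sub_half] at hLip
  obtain ⟨G, hG1, hG2, hG3⟩ := exists_convex_extension
    (hgconv.subset (ball_subset_ball (half_le_self hr.le)) (convex_ball _ _)) hLip
    ⟨z₀, mem_ball_self (half_pos hr)⟩
  -- apply the main theorem
  set j : EE A →L[ℝ] EE A × (Fin n → ℝ) := ContinuousLinearMap.inl ℝ _ _ with hj
  set Q : Set (EE A × (Fin n → ℝ)) := range fun i : Fin n => ((0 : EE A), (Pi.single i 1 : Fin n → ℝ))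
    with hQ
  have hspan : ∀ z : EE A × (Fin n → ℝ),
      z ∈ (Submodule.span ℝ (range j ∪ Q)).topologicalClosure := by
    intro z
    apply Submodule.le_topologicalClosure
    have h1 : z = j z.1 + ∑ i, z.2 i • ((0 : EE A), (Pi.single i 1 : Fin n → ℝ)) := by
      refine Prod.ext ?_ ?_
      · rw [Prod.fst_add, Prod.fst_sum]
        simp [hj]
      · rw [Prod.snd_add, Prod.snd_sum]
        ext k
        simp [hj, Finset.sum_apply, Pi.single_apply]
    rw [h1]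
    refine Submodule.add_mem _ (Submodule.subset_span (Or.inl ⟨z.1, rfl⟩)) ?_
    exact Submodule.sum_mem _ fun i _ => Submodule.smul_mem _ _
      (Submodule.subset_span (Or.inr ⟨i, rfl⟩))
  obtain ⟨z₁, hz₁, hsym⟩ := exists_point (j := j) hA hG1 hG2 (countable_range _) hspan
    isOpen_ball ⟨z₀, mem_ball_self (half_pos hr)⟩
  obtain ⟨φ, hφ⟩ := exists_clm hG1 hG2 z₁ hsym
  have hz₁r : z₁ ∈ ball z₀ r := ball_subset_ball (half_le_self hr.le) hz₁
  have hq₁ := hembW z₁ hz₁r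
  refine ⟨emb p.2 n z₁, (hWO _ hq₁).1, (hWO _ hq₁).2.1, φ.comp (trunc A n), fun v => ?_⟩
  have hlim := tendsto_quot hG1 hG2 (hsym (trunc A n v))
  rw [← hφ] at hlim
  refine hlim.congr' ?_
  -- the two difference quotients agree for small `t`
  have hev1 : ∀ᶠ t : ℝ in 𝓝 0, z₁ + t • trunc A n v ∈ ball z₀ (r / 2) := by
    have h1 : Continuous fun t : ℝ => z₁ + t • trunc A n v := by fun_prop
    have h2 := h1.tendsto 0
    rw [zero_smul, add_zero] at h2
    exact h2.eventually (isOpen_ball.mem_nhds hz₁)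
  filter_upwards [nhdsWithin_le_nhds hev1] with t ht
  have htr : z₁ + t • trunc A n v ∈ ball z₀ r := ball_subset_ball (half_le_self hr.le) ht
  have e1 : G z₁ = f (emb p.2 n z₁) := hG3 hz₁
  have e2 : G (z₁ + t • trunc A n v) = f (emb p.2 n (z₁ + t • trunc A n v)) := hG3 ht
  rw [e1, e2]
  have hW2 := hembW _ htr
  have hfst : (emb p.2 n z₁ + t • v).1 = (emb p.2 n (z₁ + t • trunc A n v)).1 := rfl
  have hsnd : ∀ i < n, ((emb p.2 n z₁ + t • v).2 : ℕ → ℝ) i
      = ((emb p.2 n (z₁ + t • trunc A n v)).2 : ℕ → ℝ) i := by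
    intro i hi
    rw [emb_snd_lt _ _ _ hi]
    change ((emb p.2 n z₁).2 : ℕ → ℝ) i + t * (v.2 : ℕ → ℝ) i = _
    rw [emb_snd_lt _ _ _ hi]
    rfl
  have hW1 : emb p.2 n z₁ + t • v ∈ W := by
    refine ⟨by rw [hfst]; exact hW2.1, fun i hi => by rw [hsnd i hi]; exact hW2.2 i hi⟩
  rw [hinv _ hW1 _ hW2 hfst hsnd]

end Pool.Agent.Lib_helper53
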