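import Pool.Agent.Lib_helper45.REll.W2a

/-! Block PARS: expansion of primitive functions in the `R`'s, and Parseval. -/

open scoped BigOperators ComplexConjugate
open Polynomial

namespace Pool.Agent.REll
variable {F : Type} [Field F] [Finite F] {K : Type} [Field K] [Finite K] [Algebra F K]

open CF

namespace PARS

theorem isPrim_add {k k' : CF F} (hk : IsPrim k) (hk' : IsPrim k') : IsPrim (k + k') := by
  intro A B _ _ _ _ _ _ α β h1 h2
  have e : coprod (k + k') α β = coprod k α β + coprod k' α β := by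
    unfold coprod
    rw [← add_div, ← finsum_add_distrib (Set.toFinite _) (Set.toFinite _)]
    rfl
  rw [e, hk A B α β h1 h2, hk' A B α β h1 h2, add_zero]

theorem isPrim_smul {k : CF F} (hk : IsPrim k) (c : ℂ) : IsPrim (c • k) := by
  intro A B _ _ _ _ _ _ α β h1 h2
  have e : coprod (c • k) α β = c * coprod k α β := by
    unfold coprod
    rw [← mul_div_assoc, mul_finsum _ _]
    rfl
  rw [e, hk A B α β h1 h2, mul_zero]

theorem isPrim_zero : IsPrim (0 : CF F) := by
  intro A B _ _ _ _ _ _ α β h1 h2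
  unfold coprod
  simp

theorem isPrim_sum {ι : Type*} (s : Finset ι) (f : ι → CF F) (hf : ∀ i ∈ s, IsPrim (f i)) :
    IsPrim (∑ i ∈ s, f i) := by
  classical
  induction s using Finset.induction_on with
  | empty => rw [Finset.sum_empty]; exact isPrim_zero
  | insert a s ha ih =>
    rw [Finset.sum_insert ha]
    exact isPrim_add (hf a (Finset.mem_insert_self _ _))
      (ih fun i hi => hf i (Finset.mem_insert_of_mem hi))

theorem isPrim_sub {k k' : CF F} (hk : IsPrim k) (hk' : IsPrim k') : IsPrim (k - k') := by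
  have : k - k' = k + (-1 : ℂ) • k' := by
    rw [neg_smul, one_smul, sub_eq_add_neg]
  rw [this]
  exact isPrim_add hk (isPrim_smul hk' _)

/-- if `orb ≠ 0` then the two functions agree in degree `m` -/
theorem ip_congr (ι : MulChar K ℂ) (hι : IsGen ι) (m : ℕ) (hm : 1 ≤ m) (hK : Big F m K)
    (R : ℕ → CF F) (hR : ∀ a, R a * allOne = Bf K (ι ^ a)) (a b : ℕ)
    (h : orb (Nat.card F) m a b ≠ 0) (k : CF F) : ip m (R a) k = ip m (R b) k := by
  have hq : 2 ≤ Nat.card F := Finite.one_lt_card
  have key : ip m (part m (R a) - part m (R b)) (part m (R a) - part m (R b)) = 0 := by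
    rw [ip_sub_left, ip_sub_right, ip_sub_right]
    simp only [ip_part_left, ip_part_right]
    rw [ip_R_R_orb ι hι m hm hK a a _ _ (hR a) (hR a),
      ip_R_R_orb ι hι m hm hK a b _ _ (hR a) (hR b),
      ip_R_R_orb ι hι m hm hK b a _ _ (hR b) (hR a),
      ip_R_R_orb ι hι m hm hK b b _ _ (hR b) (hR b)]
    have h1 := (orb_ne (Nat.card F) m hq hm a b h).2
    have h2 := orb_symm (Nat.card F) m hq hm a b
    have h3 := (orb_ne (Nat.card F) m hq hm b a (h2 ▸ h)).2
    rw [h1, ← h3, ← h2, h1]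
    ring
  have h0 := ip_self_eq_zero (n := m) ((isHom_part m (R a)).sub (isHom_part m (R b))) key
  rw [← ip_part_left m (R a), ← ip_part_left m (R b), sub_eq_zero.1 h0]

/-- the sum over an orbit -/
theorem sum_orb (ι : MulChar K ℂ) (hι : IsGen ι) (m : ℕ) (hm : 1 ≤ m) (hK : Big F m K)
    (R : ℕ → CF F) (hR : ∀ a, R a * allOne = Bf K (ι ^ a)) (b : ℕ) (k : CF F) :
    ∑ a ∈ Finset.range (Nat.card F ^ m - 1), (orb (Nat.card F) m b a : ℂ) * ip m (R a) k
      = m * ip m (R b) k := by
  classical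
  have hq : 2 ≤ Nat.card F := Finite.one_lt_card
  have h1 : ∑ a ∈ Finset.range (Nat.card F ^ m - 1), (orb (Nat.card F) m b a : ℂ) * ip m (R a) k
      = ∑ a ∈ (Finset.range (Nat.card F ^ m - 1)).filter (fun a => orb (Nat.card F) m b a ≠ 0),
        (orb (Nat.card F) m b b : ℂ) * ip m (R b) k := by
    rw [Finset.sum_filter]
    apply Finset.sum_congr rfl
    intro a _
    split_ifs with h
    · rw [(orb_ne (Nat.card F) m hq hm b a h).2, ip_congr ι hι m hm hK R hR b a h k]
    · rw [not_not.1 h]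
      simp
  rw [h1, Finset.sum_const, nsmul_eq_mul, card_orb (Nat.card F) m hq hm b, ← mul_assoc]
  congr 1
  have := orb_self (Nat.card F) m hq hm b
  rw [← Nat.cast_mul, mul_comm, this]

end PARS

open PARS in
theorem part_expand' (ι : MulChar K ℂ) (hι : IsGen ι) (m : ℕ) (hm : 1 ≤ m) (hK : Big F m K)
    (R : ℕ → CF F) (hR : ∀ a, R a * allOne = Bf K (ι ^ a)) (k : CF F) (hk : IsPrim k) :
    part m k = ∑ a ∈ Finset.range (Nat.card F ^ m - 1), (1 / (m : ℂ) * ip m k (R a)) •
      part m (R a) := by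
  have hRp : ∀ a, IsPrim (R a) := fun a => isPrim_R _ _ (hR a)
  have hm0 : (m : ℂ) ≠ 0 := by exact_mod_cast (by omega : m ≠ 0)
  set S : CF F := ∑ a ∈ Finset.range (Nat.card F ^ m - 1), (1 / (m : ℂ) * ip m k (R a)) •
      part m (R a) with hS
  have hSh : S.IsHom m := IsHom.sum _ _ fun a _ => (isHom_part m (R a)).smul _
  have hSp : IsPrim S := isPrim_sum _ _ fun a _ => isPrim_smul (isPrim_part m _ (hRp a)) _
  have hDh : (part m k - S).IsHom m := (isHom_part m k).sub hSh
  have hDp : IsPrim (part m k - S) := isPrim_sub (isPrim_part m k hk) hSp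
  have horth : ∀ θ : MulChar K ℂ, ip m (Bf K θ) (part m k - S) = 0 := by
    intro θ
    obtain ⟨b, rfl⟩ := hι.1 θ
    rw [← ip_R_of_prim _ (R b) (hR b) m hm _ hDp, ip_sub_right, ip_part_right, hS, ip_sum_right]
    have h1 : ∀ a ∈ Finset.range (Nat.card F ^ m - 1),
        ip m (R b) ((1 / (m : ℂ) * ip m k (R a)) • part m (R a))
          = 1 / (m : ℂ) * ((orb (Nat.card F) m b a : ℂ) * ip m (R a) k) := by
      intro a _
      rw [ip_smul_right, ip_part_right, ip_R_R_orb ι hι m hm hK b a _ _ (hR b) (hR a), map_mul,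
        ip_conj, map_div₀, map_one, Complex.conj_natCast]
      ring
    rw [Finset.sum_congr rfl h1, ← Finset.mul_sum, sum_orb ι hι m hm hK R hR b k]
    field_simp
    ring
  have h0 : part m k - S = 0 := by
    apply hom_ext hDh IsHom.zero
    intro g
    exact prim_complete m hm hK _ hDp horth _ g (by simp)
  exact sub_eq_zero.1 h0

theorem parseval' (ι : MulChar K ℂ) (hι : IsGen ι) (m : ℕ) (hm : 1 ≤ m) (hK : Big F m K)
    (R : ℕ → CF F) (hR : ∀ a, R a * allOne = Bf K (ι ^ a)) (k : CF F) (hk : IsPrim k) :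
    (m : ℂ) * ip m k k = ∑ a ∈ Finset.range (Nat.card F ^ m - 1),
      ip m k (R a) * conj (ip m k (R a)) := by
  have hm0 : (m : ℂ) ≠ 0 := by exact_mod_cast (by omega : m ≠ 0)
  have h1 : ip m k k = ip m (part m k) k := (ip_part_left m k k).symm
  rw [h1, part_expand' ι hι m hm hK R hR k hk, ip_sum_left, Finset.mul_sum]
  apply Finset.sum_congr rfl
  intro a _
  rw [ip_smul_left, ip_part_left, ip_conj]
  field_simp

end Pool.Agent.REll
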