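import Mathlib
import Pool.Agent.Lib_helper53.Bernstein
import Pool.Agent.Lib_helper53.Fusion

open Set Cardinal

namespace Pool.Agent.Lib_helper53

open PiNat (res)

/-- the index type of all requirements -/
abbrev Idx : Type :=
  (List Bool → List Bool) ⊕ ((List Bool → List Bool → ℝ) × (List Bool → Finset T))

lemma mk_listBool : #(List Bool) = ℵ₀ := Cardinal.mk_eq_aleph0 _

lemma mk_Idx_le : #Idx ≤ 𝔠 := by
  have h1 : #(List Bool → List Bool) = 𝔠 := by
    rw [← Cardinal.power_def, mk_listBool, aleph0_power_aleph0]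
  have h2 : #(List Bool → List Bool → ℝ) = 𝔠 := by
    rw [← Cardinal.power_def, ← Cardinal.power_def, mk_listBool, Cardinal.mk_real,
      continuum_power_aleph0, continuum_power_aleph0]
  have hT : #T = 𝔠 := by simp
  have hTi : Infinite T := by
    rw [Cardinal.infinite_iff, hT]
    exact aleph0_le_continuum
  have h3 : #(List Bool → Finset T) = 𝔠 := by
    rw [← Cardinal.power_def, mk_listBool, Cardinal.mk_finset_of_infinite, hT,
      continuum_power_aleph0]
  rw [mk_sum, mk_prod]
  simp only [lift_id]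
  rw [h1, h2, h3, continuum_mul_self, continuum_add_self]

/-- There is a set with both required properties. -/
theorem exists_A : ∃ A : Set T, Prop1 A ∧ Prop2 A := by
  classical
  let O : Type := (𝔠 : Cardinal.{0}).ord.ToType
  have hO : #O = 𝔠 := mk_ord_toType _
  obtain ⟨e⟩ : Nonempty (Idx ↪ O) := by
    have : #Idx ≤ #O := by rw [hO]; exact mk_Idx_le
    exact this
  have hT : #T = 𝔠 := by simp
  let P : O → Set T := fun o => {a | ∃ c : List Bool → List Bool, e (Sum.inl c) = o ∧
    ∃ τ : T, ∀ n, a ∈ cyl (c (res τ n))}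
  let R : O → T → Set T := fun o τ => {a | ∃ c : (List Bool → List Bool → ℝ) ×
    (List Bool → Finset T), e (Sum.inr c) = o ∧ a ∈ Rc c τ}
  have hP : ∀ c, P (e (Sum.inl c)) = {a | ∃ τ : T, ∀ n, a ∈ cyl (c (res τ n))} := by
    intro c
    ext a
    simp only [P, mem_ofPred_eq]
    constructor
    · rintro ⟨c', hc', h⟩
      have := Sum.inl_injective (e.injective hc')
      rwa [← this]
    · intro h
      exact ⟨c, rfl, h⟩
  have hR : ∀ c τ, R (e (Sum.inr c)) τ = Rc c τ := by
    intro c τ
    ext a
    simp only [R, mem_ofPred_eq]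
    constructor
    · rintro ⟨c', hc', h⟩
      have := Sum.inr_injective (e.injective hc')
      rwa [← this]
    · intro h
      exact ⟨c, rfl, h⟩
  have hIio : ∀ o : O, #(Iio o) < 𝔠 := by
    intro o
    have := Cardinal.mk_Iio_lt o (by rw [hO]; exact (Ordinal.type_toType _).symm)
    rwa [hO] at this
  obtain ⟨A, hA1, hA2⟩ := exists_bernstein (T := T) (Θ := T) aleph0_lt_continuum hIio hT.ge P R
  refine ⟨A, fun c hc => ?_, fun c hc1 hc2 => ?_⟩
  · have := hA1 (e (Sum.inl c)) (by rw [hP]; exact hc)
    rwa [hP] at this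
  · have := hA2 (e (Sum.inr c)) (fun τ => by rw [hR]; exact hc1 τ)
      (fun a ha => by simpa only [hR] using hc2 a ha)
    obtain ⟨τ, hτ⟩ := this
    exact ⟨τ, by rwa [hR] at hτ⟩

end Pool.Agent.Lib_helper53
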